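import Pool.Agent.Lib_helper92.HCF.Base
import Pool.Agent.Lib_helper61.FG.Defs

/-! HC, part (b) : the lower bound for almost all moduli. -/

set_option autoImplicit false

namespace Pool.Agent.HC

open Finset Complex Filter Topology MeasureTheory Pool.Agent.Var35 Pool.Agent.Var73
open scoped ArithmeticFunction ArithmeticFunction.Moebius
open Pool.Agent.FG61 (off bb)

/-- the inner product of the projections of `Λ` and `b` to the characters of conductor `≤ D` -/
noncomputable def lowp (N Q : ℕ) (D : ℝ) (b : ℕ → ℝ) : ℝ :=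
  ‖(1 / (Nat.totient Q : ℂ)) * ∑ χ : DirichletCharacter ℂ Q,
    if (χ.conductor : ℝ) ≤ D then
      (∑ n ∈ Icc 1 N, (Lam n : ℂ) * χ (n : ZMod Q)) *
        (starRingEnd ℂ) (∑ m ∈ Icc 1 N, (b m : ℂ) * χ (m : ZMod Q)) else 0‖


end Pool.Agent.HC
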