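import Pool.Agent.Lib_helper92.HCF.Base
import Pool.Agent.Lib_helper23.BG.Defs

set_option autoImplicit false

namespace Pool.Agent.HC

open Finset

theorem ww_mul_pr (a b : ℕ) (h : Nat.Coprime a b) : ww (a * b) = ww a * ww b := by
  unfold ww
  rw [Nat.Coprime.primeFactors_mul h, Finset.prod_union h.disjoint_primeFactors]
  congr 1
  · refine Finset.prod_congr rfl fun p hp => ?_
    have hb : b.factorization p = 0 := by
      apply Nat.factorization_eq_zero_of_not_dvd
      intro hpb
      have hpp := Nat.prime_of_mem_primeFactors hp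
      have : p ∣ Nat.gcd a b := Nat.dvd_gcd (Nat.dvd_of_mem_primeFactors hp) hpb
      rw [h] at this
      exact hpp.one_lt.ne' (Nat.dvd_one.mp this)
    have e : (a * b).factorization p = a.factorization p := by
      rw [Nat.factorization_mul_of_coprime h, Finsupp.add_apply, hb, add_zero]
    rw [e]
  · refine Finset.prod_congr rfl fun p hp => ?_
    have hb : a.factorization p = 0 := by
      apply Nat.factorization_eq_zero_of_not_dvd
      intro hpb
      have hpp := Nat.prime_of_mem_primeFactors hp
      have : p ∣ Nat.gcd a b := Nat.dvd_gcd hpb (Nat.dvd_of_mem_primeFactors hp)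
      rw [h] at this
      exact hpp.one_lt.ne' (Nat.dvd_one.mp this)
    have e : (a * b).factorization p = b.factorization p := by
      rw [Nat.factorization_mul_of_coprime h, Finsupp.add_apply, hb, zero_add]
    rw [e]

theorem WWA_one : ww 1 = 1 := by simp [ww]

theorem WWA_pow (p : ℕ) (hp : p.Prime) (k : ℕ) (hk : k ≠ 0) :
    ww (p ^ k) = if k = 1 then 1 / ((p : ℝ) - 1) else if k = 2 then - (p : ℝ) / (p - 1) else 0 := by
  unfold ww
  rw [Nat.primeFactors_prime_pow hk hp, Finset.prod_singleton, hp.factorization_pow]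
  simp

theorem WWA_local (p : ℕ) (hp : p.Prime) (k : ℕ) :
    ((p ^ k : ℕ) : ℝ) * mp (p ^ k) = ∑ i ∈ Finset.range (k + 1), ww (p ^ i) := by
  have hp1 : (1 : ℝ) < p := by exact_mod_cast hp.one_lt
  have hne : (p : ℝ) - 1 ≠ 0 := by linarith
  rcases k with _ | _ | k
  · simp [mp, WWA_one]
  · rw [Finset.sum_range_succ, Finset.sum_range_one, pow_zero, WWA_one,
      WWA_pow p hp (0 + 1) (by norm_num)]
    have hs : Squarefree p := hp.squarefree
    simp only [mp, zero_add, pow_one, hs, if_true, Nat.totient_prime hp]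
    rw [Nat.cast_sub hp.one_lt.le]
    push_cast
    field_simp
    ring
  · have h0 : ∀ k, ∑ i ∈ Finset.range (k + 1 + 1 + 1), ww (p ^ i) = 0 := by
      intro k
      induction k with
      | zero =>
        rw [Finset.sum_range_succ, Finset.sum_range_succ, Finset.sum_range_one, pow_zero, WWA_one,
          WWA_pow p hp 1 (by norm_num), WWA_pow p hp (0 + 1 + 1) (by norm_num)]
        simp
        field_simp
        ring
      | succ k ih =>
        rw [Finset.sum_range_succ, ih, WWA_pow p hp _ (by omega)]
        rw [if_neg (by omega), if_neg (by omega)]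
        simp
    rw [h0 k]
    have hns : ¬ Squarefree (p ^ (k + 1 + 1)) := by
      intro h
      have := h p ⟨p ^ k, by ring⟩
      exact hp.one_lt.ne' (Nat.isUnit_iff.mp this)
    simp [mp, hns]

theorem WWA_mp_mul (a b : ℕ) (h : Nat.Coprime a b) : mp (a * b) = mp a * mp b := by
  unfold mp
  by_cases ha : Squarefree a <;> by_cases hb : Squarefree b
  · have hab : Squarefree (a * b) := (Nat.squarefree_mul h).2 ⟨ha, hb⟩
    rw [if_pos ha, if_pos hb, if_pos hab, Nat.totient_mul h, Nat.cast_mul]
    rw [one_div_mul_one_div]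
  · have hab : ¬ Squarefree (a * b) := fun H => hb ((Nat.squarefree_mul h).1 H).2
    rw [if_neg hb, if_neg hab, mul_zero]
  · have hab : ¬ Squarefree (a * b) := fun H => ha ((Nat.squarefree_mul h).1 H).1
    rw [if_neg ha, if_neg hab, zero_mul]
  · have hab : ¬ Squarefree (a * b) := fun H => ha ((Nat.squarefree_mul h).1 H).1
    rw [if_neg ha, if_neg hab, zero_mul]

theorem WWA_sum_mul (a b : ℕ) (hab : Nat.Coprime a b) :
    ∑ d ∈ (a * b).divisors, ww d = (∑ d ∈ a.divisors, ww d) * ∑ d ∈ b.divisors, ww d := by
  classical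
  have e : (a * b).divisors = (a.divisors ×ˢ b.divisors).image fun p => p.1 * p.2 := by
    rw [Nat.divisors_mul, Finset.mul_def]
  rw [e, Finset.sum_image hab.mul_injOn_divisors, Finset.sum_product, Finset.sum_mul_sum]
  refine Finset.sum_congr rfl fun x hx => Finset.sum_congr rfl fun y hy => ?_
  exact ww_mul_pr x y (Nat.Coprime.coprime_dvd_left (Nat.dvd_of_mem_divisors hx)
    (Nat.Coprime.coprime_dvd_right (Nat.dvd_of_mem_divisors hy) hab))

theorem ww_conv_pr (q : ℕ) (hq : 1 ≤ q) : (q : ℝ) * mp q = ∑ d ∈ q.divisors, ww d := by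
  induction q using Nat.recOnPosPrimePosCoprime with
  | zero => omega
  | one => simp [WWA_one, mp]
  | prime_pow p n hp hn =>
    rw [WWA_local p hp n, Nat.divisors_prime_pow hp, Finset.sum_map]
    rfl
  | coprime a b ha hb hab iha ihb =>
    rw [WWA_sum_mul a b hab, ← iha (by omega), ← ihb (by omega), WWA_mp_mul a b hab, Nat.cast_mul]
    ring

alias ww_mul := ww_mul_pr
alias ww_conv := ww_conv_pr

end Pool.Agent.HC
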