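import Pool.Agent.Lib_helper92.HCF.Base
import Pool.Agent.Lib_helper23.BG.Defs
import Pool.Agent.Lib_helper92.HCF.WWA

set_option autoImplicit false

namespace Pool.Agent.HC

open Finset

noncomputable def WWB_f (d : ℕ) : ℝ := |ww d| * (d : ℝ) ^ (-(3 / 4) : ℝ)

theorem WWB_nonneg (d : ℕ) : 0 ≤ WWB_f d :=
  mul_nonneg (abs_nonneg _) (Real.rpow_nonneg (Nat.cast_nonneg _) _)

theorem WWB_one : WWB_f 1 = 1 := by simp [WWB_f, ww]

theorem WWB_mul {a b : ℕ} (h : Nat.Coprime a b) : WWB_f (a * b) = WWB_f a * WWB_f b := by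
  unfold WWB_f
  rw [ww_mul a b h, abs_mul, Nat.cast_mul,
    Real.mul_rpow (Nat.cast_nonneg _) (Nat.cast_nonneg _)]
  ring

theorem WWB_wwpow (p : ℕ) (hp : p.Prime) (k : ℕ) (hk : k ≠ 0) :
    ww (p ^ k) = if k = 1 then 1 / ((p : ℝ) - 1) else if k = 2 then - (p : ℝ) / (p - 1) else 0 := by
  unfold ww
  rw [Nat.primeFactors_prime_pow hk hp, Finset.prod_singleton, hp.factorization_pow]
  simp

theorem WWB_zero_pow (p : ℕ) (hp : p.Prime) (k : ℕ) (hk : 3 ≤ k) : WWB_f (p ^ k) = 0 := by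
  unfold WWB_f
  rw [WWB_wwpow p hp k (by omega), if_neg (by omega), if_neg (by omega)]
  simp

theorem WWB_summ (p : ℕ) (hp : p.Prime) : Summable (fun n : ℕ => ‖WWB_f (p ^ n)‖) := by
  apply summable_of_ne_finset_zero (s := Finset.range 3)
  intro b hb
  rw [WWB_zero_pow p hp b (by simpa using hb), norm_zero]

theorem WWB_local (p : ℕ) (hp : p.Prime) :
    ∑' n : ℕ, WWB_f (p ^ n) ≤ 1 + 4 * (p : ℝ) ^ (-(3 / 2) : ℝ) := by
  rw [tsum_eq_sum (s := Finset.range 3)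
    (fun b hb => WWB_zero_pow p hp b (by simpa using hb))]
  rw [Finset.sum_range_succ, Finset.sum_range_succ, Finset.sum_range_one, pow_zero, WWB_one]
  have hp2 : (2 : ℝ) ≤ p := by exact_mod_cast hp.two_le
  have hp0 : (0 : ℝ) < p := by linarith
  have hsq : (p : ℝ) ^ (-(3 / 2) : ℝ) = (p : ℝ) ^ (-(3 / 4) : ℝ) * (p : ℝ) ^ (-(3 / 4) : ℝ) := by
    rw [← Real.rpow_add hp0]
    norm_num
  have h34 : 0 < (p : ℝ) ^ (-(3 / 4) : ℝ) := Real.rpow_pos_of_pos hp0 _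
  have h1 : WWB_f (p ^ 1) ≤ 2 * (p : ℝ) ^ (-(3 / 2) : ℝ) := by
    unfold WWB_f
    rw [WWB_wwpow p hp 1 one_ne_zero, if_pos rfl, pow_one,
      abs_of_pos (by apply div_pos one_pos; linarith), hsq]
    have e1 : 1 / ((p : ℝ) - 1) ≤ 2 * (1 / p) := by
      rw [div_le_iff₀ (by linarith)]
      field_simp
      linarith
    have e2 : 1 / (p : ℝ) ≤ (p : ℝ) ^ (-(3 / 4) : ℝ) := by
      rw [one_div, ← Real.rpow_neg_one]
      exact Real.rpow_le_rpow_of_exponent_le (by linarith) (by norm_num)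
    have e3 : 1 / ((p : ℝ) - 1) ≤ 2 * (p : ℝ) ^ (-(3 / 4) : ℝ) := by linarith
    calc 1 / ((p : ℝ) - 1) * (p : ℝ) ^ (-(3 / 4) : ℝ)
        ≤ (2 * (p : ℝ) ^ (-(3 / 4) : ℝ)) * (p : ℝ) ^ (-(3 / 4) : ℝ) :=
          mul_le_mul_of_nonneg_right e3 h34.le
      _ = _ := by ring
  have h2 : WWB_f (p ^ 2) ≤ 2 * (p : ℝ) ^ (-(3 / 2) : ℝ) := by
    unfold WWB_f
    rw [WWB_wwpow p hp 2 two_ne_zero, if_neg (by norm_num), if_pos rfl]
    have e0 : ((p ^ 2 : ℕ) : ℝ) ^ (-(3 / 4) : ℝ) = (p : ℝ) ^ (-(3 / 2) : ℝ) := by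
      rw [Nat.cast_pow, ← Real.rpow_natCast, ← Real.rpow_mul hp0.le]
      norm_num
    rw [e0]
    apply mul_le_mul_of_nonneg_right _ (Real.rpow_nonneg hp0.le _)
    rw [neg_div, abs_neg, abs_of_pos (by apply div_pos hp0; linarith), div_le_iff₀ (by linarith)]
    linarith
  linarith

theorem WWB_sumP : Summable (fun n : ℕ => (n : ℝ) ^ (-(3 / 2) : ℝ)) :=
  Real.summable_nat_rpow.2 (by norm_num)

theorem WWB_bound (u : Finset ℕ) :
    ∑ d ∈ u, WWB_f d ≤ Real.exp (4 * ∑' n : ℕ, (n : ℝ) ^ (-(3 / 2) : ℝ)) := by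
  classical
  set N := u.sup id + 1 with hN
  set s := Finset.range N with hs
  obtain ⟨hsum, hhas⟩ := EulerProduct.summable_and_hasSum_factoredNumbers_prod_filter_prime_tsum
    WWB_one (fun h => WWB_mul h) (fun hp => WWB_summ _ hp) s
  have hmem : ∀ d ∈ u.filter (· ≠ 0), d ∈ Nat.factoredNumbers s := by
    intro d hd
    rw [Finset.mem_filter] at hd
    rw [Nat.mem_factoredNumbers]
    refine ⟨hd.2, fun p hp => ?_⟩
    rw [hs, Finset.mem_range, hN]
    have h1 : p ≤ d := Nat.le_of_dvd (Nat.pos_of_ne_zero hd.2) (Nat.dvd_of_mem_primeFactorsList hp)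
    have h2 : d ≤ u.sup id := Finset.le_sup (f := id) hd.1
    omega
  have h0 : ∑ d ∈ u, WWB_f d = ∑ d ∈ u.filter (· ≠ 0), WWB_f d := by
    rw [Finset.sum_filter]
    refine Finset.sum_congr rfl fun d _ => ?_
    by_cases hd : d = 0
    · subst hd
      simp [WWB_f, Real.zero_rpow]
    · rw [if_pos hd]
  have h1 : ∑ d ∈ u.filter (· ≠ 0), WWB_f d =
      ∑ m ∈ (u.filter (· ≠ 0)).subtype (fun d => d ∈ Nat.factoredNumbers s), WWB_f m := by
    rw [Finset.sum_subtype_of_mem WWB_f hmem]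
  have h2 : ∑ m ∈ (u.filter (· ≠ 0)).subtype (fun d => d ∈ Nat.factoredNumbers s), WWB_f m ≤
      ∏ p ∈ s with p.Prime, ∑' n : ℕ, WWB_f (p ^ n) :=
    sum_le_hasSum _ (fun m _ => WWB_nonneg _) hhas
  have h3 : ∏ p ∈ s with p.Prime, ∑' n : ℕ, WWB_f (p ^ n) ≤
      ∏ p ∈ s with p.Prime, Real.exp (4 * (p : ℝ) ^ (-(3 / 2) : ℝ)) := by
    apply Finset.prod_le_prod
    · intro p _
      exact tsum_nonneg fun n => WWB_nonneg _
    · intro p hp
      rw [Finset.mem_filter] at hp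
      refine (WWB_local p hp.2).trans ?_
      have := Real.add_one_le_exp (4 * (p : ℝ) ^ (-(3 / 2) : ℝ))
      linarith
  rw [h0, h1]
  refine h2.trans (h3.trans ?_)
  rw [← Real.exp_sum]
  apply Real.exp_le_exp.2
  rw [← Finset.mul_sum]
  apply mul_le_mul_of_nonneg_left _ (by norm_num)
  exact WWB_sumP.sum_le_tsum _ (fun n _ => Real.rpow_nonneg (Nat.cast_nonneg _) _)

theorem ww_summable_pr : Summable (fun d : ℕ => |ww d| * (1 + Real.log d) / d) := by
  have hS : Summable WWB_f := summable_of_sum_le WWB_nonneg WWB_bound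
  refine Summable.of_nonneg_of_le (fun d => ?_) (fun d => ?_) (hS.mul_left 5)
  · rcases Nat.eq_zero_or_pos d with hd | hd
    · subst hd; simp
    · have : 0 ≤ Real.log d := Real.log_natCast_nonneg d
      positivity
  · rcases Nat.eq_zero_or_pos d with hd | hd
    · subst hd
      simp [WWB_f, Real.zero_rpow]
    · have hd1 : (1 : ℝ) ≤ d := by exact_mod_cast hd
      have hd0 : (0 : ℝ) < d := by linarith
      have hlog : Real.log d ≤ (d : ℝ) ^ (1 / 4 : ℝ) / (1 / 4) :=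
        Real.log_le_rpow_div hd0.le (by norm_num)
      have hone : (1 : ℝ) ≤ (d : ℝ) ^ (1 / 4 : ℝ) := Real.one_le_rpow hd1 (by norm_num)
      have hle : (1 + Real.log d) / d ≤ 5 * (d : ℝ) ^ (-(3 / 4) : ℝ) := by
        rw [div_le_iff₀ hd0]
        have e : (d : ℝ) ^ (-(3 / 4) : ℝ) * d = (d : ℝ) ^ (1 / 4 : ℝ) := by
          nth_rewrite 2 [← Real.rpow_one (d : ℝ)]
          rw [← Real.rpow_add hd0]
          norm_num
        rw [mul_assoc, e]
        linarith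
      calc |ww d| * (1 + Real.log d) / d = |ww d| * ((1 + Real.log d) / d) := by ring
        _ ≤ |ww d| * (5 * (d : ℝ) ^ (-(3 / 4) : ℝ)) :=
          mul_le_mul_of_nonneg_left hle (abs_nonneg _)
        _ = 5 * WWB_f d := by unfold WWB_f; ring

alias ww_summable := ww_summable_pr

end Pool.Agent.HC
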