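import Pool.Agent.Lib_helper92.HCF.Base
import Pool.Agent.Lib_helper23.BG.Defs
import Pool.Agent.Lib_helper92.HCF.WWA
import Pool.Agent.Lib_helper92.HCF.WWB

/-! HC block WWC (helper76). -/

set_option autoImplicit false

namespace Pool.Agent.HC

open Finset Filter Topology MeasureTheory Pool.Agent.Var35 Pool.Agent.Var73

theorem wwc_pow_zero_of_dvd (q : ℕ) : ww (q ^ 0) = 1 := by
  unfold ww; simp

theorem wwc_one : ww 1 = 1 := by unfold ww; simp

theorem wwc_pow {p : ℕ} (hp : p.Prime) {e : ℕ} (he : e ≠ 0) :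
    ww (p ^ e) = if e = 1 then 1 / ((p : ℝ) - 1) else if e = 2 then - (p : ℝ) / (p - 1) else 0 := by
  unfold ww
  rw [Nat.primeFactors_prime_pow he hp, prod_singleton, hp.factorization_pow,
    Finsupp.single_eq_same]

theorem wwc_local {p : ℕ} (hp : p.Prime) :
    ∑' e : ℕ, ww (p ^ e) / ((p ^ e : ℕ) : ℝ) = 1 := by
  have hp1 : (1 : ℝ) < p := by exact_mod_cast hp.one_lt
  have h1 : (p : ℝ) - 1 ≠ 0 := by linarith
  have h2 : (p : ℝ) ≠ 0 := by linarith
  rw [tsum_eq_sum (s := range 3)]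
  · rw [sum_range_succ, sum_range_succ, sum_range_succ, sum_range_zero]
    rw [wwc_pow hp one_ne_zero, wwc_pow hp two_ne_zero, pow_zero, wwc_one]
    norm_num
    field_simp
    ring
  · intro e he
    rw [mem_range, not_lt] at he
    rw [wwc_pow hp (by omega), if_neg (by omega), if_neg (by omega), zero_div]

theorem wwc_general (f : ℕ → ℝ) (f1 : f 1 = 1) (f0 : f 0 = 0)
    (hmul : ∀ {m n : ℕ}, Nat.Coprime m n → f (m * n) = f m * f n) (hsum : Summable (‖f ·‖))
    (hloc : ∀ p : ℕ, p.Prime → ∑' e : ℕ, f (p ^ e) = 1) : ∑' n, f n = 1 := by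
  have h1 := EulerProduct.eulerProduct_hasProd f1 hmul hsum f0
  have h2 : (fun p : Nat.Primes => ∑' e : ℕ, f (p ^ e)) = fun _ => (1 : ℝ) := by
    funext p
    exact hloc p p.2
  rw [h2] at h1
  exact h1.unique hasProd_one

theorem wwc_sum : Summable (fun d : ℕ => ‖ww d / (d : ℝ)‖) := by
  refine Summable.of_nonneg_of_le (fun _ => norm_nonneg _) (fun d => ?_) ww_summable
  rw [Real.norm_eq_abs, abs_div, Nat.abs_cast]
  rcases Nat.eq_zero_or_pos d with hd | hd
  · subst hd; simp
  · have h1 : 0 ≤ Real.log d := Real.log_natCast_nonneg d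
    have h2 : (0 : ℝ) < d := by exact_mod_cast hd
    apply div_le_div_of_nonneg_right _ h2.le
    nlinarith [abs_nonneg (ww d)]

theorem wwc_ww_zero : ww 0 / ((0 : ℕ) : ℝ) = 0 := by simp

/-- WWC (uses ww_mul, ww_summable) -/
theorem ww_one_pr : (∑' d : ℕ, ww d / d = 1) ∧
    ∀ p : ℕ, p.Prime → ∑' d : ℕ, (if p ∣ d then 0 else ww d / d) = 1 := by
  have hm : ∀ {m n : ℕ}, Nat.Coprime m n → ww (m * n) / ((m * n : ℕ) : ℝ) =
      ww m / (m : ℝ) * (ww n / (n : ℝ)) := by
    intro m n hmn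
    rw [ww_mul m n hmn]
    push_cast
    rw [mul_div_mul_comm]
  constructor
  · refine wwc_general (fun d => ww d / d) ?_ wwc_ww_zero hm wwc_sum fun p hp => wwc_local hp
    show ww 1 / ((1 : ℕ) : ℝ) = 1
    rw [wwc_one]; simp
  · intro p hp
    refine wwc_general (fun d => if p ∣ d then 0 else ww d / d) ?_ ?_ ?_ ?_ ?_
    · show (if p ∣ 1 then (0 : ℝ) else ww 1 / ((1 : ℕ) : ℝ)) = 1
      rw [if_neg (fun h => hp.one_lt.ne' (Nat.dvd_one.mp h)), wwc_one]
      simp
    · show (if p ∣ 0 then (0 : ℝ) else ww 0 / ((0 : ℕ) : ℝ)) = 0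
      rw [if_pos (dvd_zero p)]
    · intro m n hmn
      show (if p ∣ m * n then (0 : ℝ) else ww (m * n) / ((m * n : ℕ) : ℝ)) =
        (if p ∣ m then 0 else ww m / (m : ℝ)) * (if p ∣ n then 0 else ww n / (n : ℝ))
      rw [hm hmn]
      by_cases h1 : p ∣ m
      · rw [if_pos h1, if_pos (h1.mul_right n), zero_mul]
      · by_cases h2 : p ∣ n
        · rw [if_pos h2, if_pos (h2.mul_left m), mul_zero]
        · rw [if_neg h1, if_neg h2, if_neg]
          intro h3
          rcases hp.dvd_mul.mp h3 with h | h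
          · exact h1 h
          · exact h2 h
    · refine Summable.of_nonneg_of_le (fun _ => norm_nonneg _) (fun d => ?_) wwc_sum
      show ‖(if p ∣ d then (0 : ℝ) else ww d / (d : ℝ))‖ ≤ _
      split_ifs with h
      · rw [norm_zero]; exact norm_nonneg _
      · exact le_rfl
    · intro l hl
      show ∑' e : ℕ, (if p ∣ l ^ e then (0 : ℝ) else ww (l ^ e) / ((l ^ e : ℕ) : ℝ)) = 1
      by_cases h : p = l
      · subst h
        rw [tsum_eq_single 0]
        · rw [if_neg, pow_zero, wwc_one]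
          · simp
          · rw [pow_zero]; intro h; exact hp.one_lt.ne' (Nat.dvd_one.mp h)
        · intro e he
          rw [if_pos (dvd_pow_self p he)]
      · rw [← wwc_local hl]
        refine tsum_congr fun e => ?_
        rw [if_neg]
        intro h2
        exact h ((Nat.prime_dvd_prime_iff_eq hp hl).mp (hp.dvd_of_dvd_pow h2))

alias ww_one := ww_one_pr

end Pool.Agent.HC
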