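import Pool.Agent.Lib_helper92.HCF.Base
import Pool.Agent.Lib_helper23.BG.Defs
import Pool.Agent.Lib_helper92.HCF.WWA
import Pool.Agent.Lib_helper92.HCF.WWB
import Pool.Agent.Lib_helper92.HCF.WWC

set_option autoImplicit false

namespace Pool.Agent.HC

open Finset Complex Filter Topology MeasureTheory Pool.Agent.Var35 Pool.Agent.Var73
open scoped ArithmeticFunction ArithmeticFunction.Moebius

lemma WWD_zero (p : ℕ) (hp : p.Prime) (d : ℕ) (hd : d ≠ 0) (h : 3 ≤ d.factorization p) :
    ww d = 0 := by
  unfold ww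
  apply Finset.prod_eq_zero (i := p)
  · rw [Nat.mem_primeFactors]
    refine ⟨hp, ?_, hd⟩
    by_contra hn
    have := Nat.factorization_eq_zero_of_not_dvd hn
    omega
  · rw [if_neg (by omega), if_neg (by omega)]

lemma WWD_p1 (p : ℕ) (hp : p.Prime) : ww p = 1 / ((p : ℝ) - 1) := by
  unfold ww
  rw [Nat.Prime.primeFactors hp, Finset.prod_singleton, if_pos]
  exact hp.factorization_self

lemma WWD_p2 (p : ℕ) (hp : p.Prime) : ww (p ^ 2) = - (p : ℝ) / (p - 1) := by
  unfold ww
  rw [Nat.primeFactors_prime_pow (by norm_num) hp, Finset.prod_singleton]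
  have : (p ^ 2).factorization p = 2 := by
    rw [hp.factorization_pow]; simp
  rw [if_neg (by omega), if_pos this]

lemma WWD_summ : Summable (fun d : ℕ => ww d / d) := by
  apply Summable.of_norm_bounded ww_summable
  intro d
  rw [Real.norm_eq_abs, abs_div, Nat.abs_cast]
  rcases Nat.eq_zero_or_pos d with h | h
  · subst h; simp
  · apply div_le_div_of_nonneg_right _ (by positivity)
    have : 0 ≤ Real.log d := Real.log_natCast_nonneg d
    nlinarith [abs_nonneg (ww d)]

/-- the part with exact power `k` -/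
noncomputable def WWD_g (p k d : ℕ) : ℝ := if d.factorization p = k then ww d / d else 0

lemma WWD_g_summ (p k : ℕ) : Summable (WWD_g p k) := by
  apply Summable.of_norm_bounded WWD_summ.norm
  intro d
  unfold WWD_g
  split_ifs
  · exact le_refl _
  · rw [norm_zero]; exact norm_nonneg _

lemma WWD_g_tsum (p k : ℕ) (hp : p.Prime) (hk : 1 ≤ k) :
    ∑' d, WWD_g p k d = ww (p ^ k) / (p ^ k : ℕ) := by
  have hinj : Function.Injective (fun d : ℕ => p ^ k * d) := by
    intro a b h
    exact Nat.eq_of_mul_eq_mul_left (pow_pos hp.pos k) h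
  have hsupp : Function.support (WWD_g p k) ⊆ Set.range (fun d : ℕ => p ^ k * d) := by
    intro d hd
    rw [Function.mem_support] at hd
    unfold WWD_g at hd
    have h1 : d.factorization p = k := by
      by_contra h; rw [if_neg h] at hd; exact hd rfl
    have h2 : p ^ k ∣ d := by
      rw [← h1]; exact Nat.ordProj_dvd d p
    obtain ⟨c, hc⟩ := h2
    exact ⟨c, hc.symm⟩
  rw [← hinj.tsum_eq hsupp]
  have h1 : ∀ d : ℕ, WWD_g p k (p ^ k * d) =
      (ww (p ^ k) / (p ^ k : ℕ)) * (if p ∣ d then 0 else ww d / d) := by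
    intro d
    unfold WWD_g
    rcases Nat.eq_zero_or_pos d with h0 | h0
    · subst h0; simp
    · have hf : (p ^ k * d).factorization p = k + d.factorization p := by
        rw [Nat.factorization_mul (pow_ne_zero k hp.ne_zero) (by omega), Finsupp.add_apply,
          hp.factorization_pow]
        simp
      rw [hf]
      by_cases hd : p ∣ d
      · rw [if_pos hd, mul_zero, if_neg]
        have : 1 ≤ d.factorization p := hp.factorization_pos_of_dvd (by omega) hd
        omega
      · rw [if_neg hd, if_pos (by rw [Nat.factorization_eq_zero_of_not_dvd hd, add_zero])]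
        have hcop : Nat.Coprime (p ^ k) d := Nat.Coprime.pow_left k ((hp.coprime_iff_not_dvd).mpr hd)
        rw [ww_mul _ _ hcop]
        push_cast
        rw [mul_div_mul_comm]
  rw [tsum_congr h1, tsum_mul_left, ww_one.2 p hp, mul_one]

lemma WWD_val (p d : ℕ) (hp : p.Prime) :
    (d.factorization p : ℝ) * (ww d / d) = WWD_g p 1 d + 2 * WWD_g p 2 d := by
  unfold WWD_g
  rcases Nat.eq_zero_or_pos d with h0 | h0
  · subst h0; simp
  · by_cases h3 : 3 ≤ d.factorization p
    · rw [WWD_zero p hp d (by omega) h3]; simp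
    · have : d.factorization p = 0 ∨ d.factorization p = 1 ∨ d.factorization p = 2 := by omega
      rcases this with h | h | h <;> rw [h] <;> simp

lemma WWD_col_summ (p : ℕ) (hp : p.Prime) :
    Summable (fun d : ℕ => (d.factorization p : ℝ) * (ww d / d)) := by
  have h : Summable (fun d : ℕ => WWD_g p 1 d + 2 * WWD_g p 2 d) :=
    (WWD_g_summ p 1).add ((WWD_g_summ p 2).mul_left 2)
  exact h.congr (fun d => (WWD_val p d hp).symm)

lemma WWD_col (p : ℕ) (hp : p.Prime) :
    ∑' d : ℕ, (d.factorization p : ℝ) * (ww d / d) = - (1 / ((p : ℝ) * ((p : ℝ) - 1))) := by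
  rw [tsum_congr (fun d => WWD_val p d hp),
    ((WWD_g_summ p 1)).tsum_add ((WWD_g_summ p 2).mul_left 2), tsum_mul_left,
    WWD_g_tsum p 1 hp le_rfl, WWD_g_tsum p 2 hp (by norm_num), pow_one, WWD_p1 p hp, WWD_p2 p hp]
  have hp1 : (1 : ℝ) < p := by exact_mod_cast hp.one_lt
  have h1 : (p : ℝ) - 1 ≠ 0 := by linarith
  have h2 : (p : ℝ) ≠ 0 := by linarith
  push_cast
  field_simp
  ring

/-- the double function -/
noncomputable def WWD_F (d : ℕ) (p : Nat.Primes) : ℝ :=
  (d.factorization (p : ℕ) : ℝ) * Real.log (p : ℕ) * (ww d / d)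

lemma WWD_row (d : ℕ) : HasSum (fun p : Nat.Primes => (d.factorization (p : ℕ) : ℝ) *
    Real.log (p : ℕ)) (Real.log d) := by
  have h1 : HasSum (fun n : ℕ => (d.factorization n : ℝ) * Real.log n) (Real.log d) := by
    rw [Real.log_nat_eq_sum_factorization, Finsupp.sum]
    apply hasSum_sum_of_ne_finset_zero
    intro n hn
    rw [Finsupp.notMem_support_iff] at hn
    rw [hn]; simp
  have h2 : Function.support (fun n : ℕ => (d.factorization n : ℝ) * Real.log n) ⊆
      Set.range (fun p : Nat.Primes => (p : ℕ)) := by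
    intro n hn
    rw [Function.mem_support] at hn
    by_contra hc
    apply hn
    have : ¬ n.Prime := by
      intro hp; exact hc ⟨⟨n, hp⟩, rfl⟩
    rw [Nat.factorization_eq_zero_of_not_prime d this]; simp
  exact ((Function.Injective.hasSum_iff (Subtype.val_injective) (fun x hx => by
    by_contra hne
    exact hx (h2 hne))).mpr h1)

lemma WWD_F_summ : Summable (Function.uncurry WWD_F) := by
  rw [← summable_abs_iff]
  rw [summable_prod_of_nonneg (fun _ => abs_nonneg _)]
  have hrow : ∀ d : ℕ, HasSum (fun p : Nat.Primes => |Function.uncurry WWD_F (d, p)|)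
      (Real.log d * |ww d / d|) := by
    intro d
    have h := (WWD_row d).mul_right (|ww d / d|)
    have he : (fun p : Nat.Primes => |Function.uncurry WWD_F (d, p)|) =
        fun p : Nat.Primes => (d.factorization (p : ℕ) : ℝ) * Real.log (p : ℕ) * |ww d / d| := by
      funext p
      simp only [Function.uncurry, WWD_F]
      rw [abs_mul, abs_of_nonneg (mul_nonneg (Nat.cast_nonneg _) (Real.log_natCast_nonneg _))]
    rw [he]
    exact h
  constructor
  · intro d
    exact (hrow d).summable
  · apply Summable.of_nonneg_of_le (g := fun d : ℕ => ∑' p, |Function.uncurry WWD_F (d, p)|)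
      (f := fun d : ℕ => |ww d| * (1 + Real.log d) / d) _ _ ww_summable
    · intro d
      exact tsum_nonneg (fun _ => abs_nonneg _)
    · intro d
      rw [(hrow d).tsum_eq, abs_div, Nat.abs_cast]
      rw [← mul_div_assoc]
      apply div_le_div_of_nonneg_right _ (Nat.cast_nonneg _)
      have : 0 ≤ Real.log d := Real.log_natCast_nonneg d
      nlinarith [abs_nonneg (ww d)]

theorem ww_log_pr : Summable (fun p : Nat.Primes => Real.log (p : ℕ) / ((p : ℕ) * ((p : ℕ) - 1) : ℝ)) ∧
    ∑' d : ℕ, ww d * Real.log d / d =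
      - ∑' p : Nat.Primes, Real.log (p : ℕ) / ((p : ℕ) * ((p : ℕ) - 1) : ℝ) := by
  have hcol : ∀ p : Nat.Primes, ∑' d : ℕ, WWD_F d p =
      - (Real.log (p : ℕ) / ((p : ℕ) * ((p : ℕ) - 1) : ℝ)) := by
    intro p
    have h1 : ∀ d : ℕ, WWD_F d p = Real.log (p : ℕ) *
        ((d.factorization (p : ℕ) : ℝ) * (ww d / d)) := by
      intro d; unfold WWD_F; ring
    rw [tsum_congr h1, tsum_mul_left, WWD_col p p.2]
    ring
  have hS := WWD_F_summ
  have hcs : Summable (fun p : Nat.Primes => ∑' d : ℕ, WWD_F d p) := hS.prod_symm.prod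
  constructor
  · have h := hcs.neg
    refine h.congr (fun p => ?_)
    rw [hcol p, neg_neg]
  · have hrow : ∀ d : ℕ, ww d * Real.log d / d = ∑' p : Nat.Primes, WWD_F d p := by
      intro d
      have h := ((WWD_row d).mul_right (ww d / d)).tsum_eq
      have h2 : ∑' p : Nat.Primes, WWD_F d p = Real.log d * (ww d / d) := h
      rw [h2]; ring
    rw [tsum_congr hrow]
    have hcomm := hS.tsum_comm
    rw [← hcomm, ← tsum_neg]
    exact tsum_congr hcol

alias ww_log := ww_log_pr

end Pool.Agent.HC
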