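import Pool.Agent.Lib_helper92.HCF.Base
import Pool.Agent.Lib_helper23.BG.Defs
import Pool.Agent.Lib_helper92.HCF.WWD

/-! MP_5dd4bb_nt, HC, block CQS. -/

set_option autoImplicit false

namespace Pool.Agent.HC

open Finset Complex Pool.Agent.Var35 Pool.Agent.Var73
open scoped ArithmeticFunction ArithmeticFunction.Moebius

theorem cqs_log (Y : ℕ) : Y * Real.log Y - Y ≤ ∑ Q ∈ Icc 1 Y, Real.log Q := by
  induction Y with
  | zero => simp
  | succ Y ih =>
    rw [Finset.sum_Icc_succ_top (by omega)]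
    rcases Nat.eq_zero_or_pos Y with hY | hY
    · subst hY; simp
    · have hY0 : (0 : ℝ) < Y := by exact_mod_cast hY
      have h1 : Real.log (Y + 1) - Real.log Y ≤ 1 / Y := by
        rw [← Real.log_div (by positivity) hY0.ne']
        have := Real.log_le_sub_one_of_pos (x := ((Y : ℝ) + 1) / Y) (by positivity)
        refine this.trans (le_of_eq ?_)
        field_simp; ring
      have h2 : Y * (Real.log (Y + 1) - Real.log Y) ≤ 1 := by
        have := mul_le_mul_of_nonneg_left h1 hY0.le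
        rwa [mul_one_div_cancel hY0.ne'] at this
      push_cast
      nlinarith

theorem cqs_sum (Y : ℕ) :
    ∑ Q ∈ Icc 1 Y, ∑ p ∈ Q.primeFactors, Real.log p / ((p : ℝ) - 1) ≤
      Y * ∑' p : Nat.Primes, Real.log (p : ℕ) / ((p : ℕ) * ((p : ℕ) - 1) : ℝ) := by
  have h1 : ∑ Q ∈ Icc 1 Y, ∑ p ∈ Q.primeFactors, Real.log p / ((p : ℝ) - 1) =
      ∑ p ∈ (Icc 1 Y).filter Nat.Prime, ∑ Q ∈ (Icc 1 Y).filter (fun Q => p ∣ Q),
        Real.log p / ((p : ℝ) - 1) := by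
    apply Finset.sum_comm'
    intro Q p
    simp only [mem_Icc, Nat.mem_primeFactors, mem_filter]
    constructor
    · rintro ⟨⟨h1, h2⟩, h3, h4, h5⟩
      exact ⟨⟨⟨h1, h2⟩, h4⟩, ⟨h3.one_lt.le, (Nat.le_of_dvd (by omega) h4).trans h2⟩, h3⟩
    · rintro ⟨⟨⟨h1, h2⟩, h3⟩, h4, h5⟩
      exact ⟨⟨h1, h2⟩, h5, h3, by omega⟩
  have hnn : ∀ p : ℕ, p.Prime → 0 ≤ Real.log p / ((p : ℕ) * ((p : ℕ) - 1) : ℝ) := by
    intro p hp
    have : (1 : ℝ) < p := by exact_mod_cast hp.one_lt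
    exact div_nonneg (Real.log_nonneg this.le) (mul_nonneg (by linarith) (by linarith))
  rw [h1]
  calc ∑ p ∈ (Icc 1 Y).filter Nat.Prime, ∑ Q ∈ (Icc 1 Y).filter (fun Q => p ∣ Q),
        Real.log p / ((p : ℝ) - 1)
      ≤ ∑ p ∈ (Icc 1 Y).filter Nat.Prime, Y * (Real.log p / ((p : ℕ) * ((p : ℕ) - 1) : ℝ)) := by
        refine Finset.sum_le_sum fun p hp => ?_
        rw [mem_filter] at hp
        have hp1 : (1 : ℝ) < p := by exact_mod_cast hp.2.one_lt
        rw [Finset.sum_const, nsmul_eq_mul]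
        have h2 : ((Icc 1 Y).filter (fun Q => p ∣ Q)).card = Y / p := by
          have := Nat.Ioc_filter_dvd_card_eq_div Y p
          rw [← this]
          congr 1
        rw [h2]
        have h3 : ((Y / p : ℕ) : ℝ) ≤ (Y : ℝ) / p := Nat.cast_div_le
        have h4 : 0 ≤ Real.log p / ((p : ℝ) - 1) :=
          div_nonneg (Real.log_nonneg hp1.le) (by linarith)
        calc ((Y / p : ℕ) : ℝ) * (Real.log p / ((p : ℝ) - 1))
            ≤ (Y : ℝ) / p * (Real.log p / ((p : ℝ) - 1)) := mul_le_mul_of_nonneg_right h3 h4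
          _ = Y * (Real.log p / ((p : ℕ) * ((p : ℕ) - 1) : ℝ)) := by
              rw [div_mul_div_comm, mul_div_assoc]
    _ = Y * ∑ p ∈ (Icc 1 Y).filter Nat.Prime, (Real.log p / ((p : ℕ) * ((p : ℕ) - 1) : ℝ)) := by
        rw [Finset.mul_sum]
    _ = Y * ∑ p ∈ (Icc 1 Y).subtype Nat.Prime,
          (Real.log (p : ℕ) / ((p : ℕ) * ((p : ℕ) - 1) : ℝ)) := by
        rw [Finset.sum_subtype_eq_sum_filter (s := Icc 1 Y) (p := Nat.Prime)
          (fun p : ℕ => Real.log p / ((p : ℕ) * ((p : ℕ) - 1) : ℝ))]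
    _ ≤ Y * ∑' p : Nat.Primes, Real.log (p : ℕ) / ((p : ℕ) * ((p : ℕ) - 1) : ℝ) := by
        apply mul_le_mul_of_nonneg_left _ (Nat.cast_nonneg Y)
        exact Summable.sum_le_tsum (L := SummationFilter.unconditional Nat.Primes)
          (f := fun p : Nat.Primes => Real.log (p : ℕ) / ((p : ℕ) * ((p : ℕ) - 1) : ℝ))
          ((Icc 1 Y).subtype Nat.Prime) (fun p _ => hnn p p.2) ww_log.1

/-- block CQS -/
theorem cq_sum_pr (Y : ℕ) (hY : 1 ≤ Y) :
    Y * (Real.log Y - 1 - c1 - Real.log (2 * Real.pi)) ≤ ∑ Q ∈ Icc 1 Y, (Real.log Q - CQ Q) := by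
  have h1 := cqs_log Y
  have h2 := cqs_sum Y
  have h3 : ∑ Q ∈ Icc 1 Y, (Real.log Q - CQ Q) = ∑ Q ∈ Icc 1 Y, Real.log Q -
      (Y * (Real.eulerMascheroniConstant + Real.log (2 * Real.pi)) +
        ∑ Q ∈ Icc 1 Y, ∑ p ∈ Q.primeFactors, Real.log p / ((p : ℝ) - 1)) := by
    unfold CQ
    rw [Finset.sum_sub_distrib, Finset.sum_add_distrib, Finset.sum_const, nsmul_eq_mul]
    simp
  rw [h3]
  unfold c1
  nlinarith

alias cq_sum := cq_sum_pr

end Pool.Agent.HC
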