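import Pool.Agent.Lib_helper92.HCF.Base
import Pool.Agent.Lib_helper23.BG.Defs
import Pool.Agent.Lib_helper23.BGF.TRV

/-!
# HC block SPA (MP_5dd4bb_nt): bounds for the derivatives of the zeta function
-/

set_option autoImplicit false

namespace Pool.Agent.HC

open Finset Filter Complex

/-- `(log u)^k u^{-s}` -/
noncomputable def SPA_a (k : ℕ) (s : ℂ) (u : ℝ) : ℂ := (((Real.log u) ^ k : ℝ) : ℂ) * (u:ℂ) ^ (-s)

/-- `(log u)^k u^{1-s}` -/
noncomputable def SPA_g (k : ℕ) (s : ℂ) (u : ℝ) : ℂ := (((Real.log u) ^ k : ℝ) : ℂ) * (u:ℂ) ^ (1 - s)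

lemma SPA_f (k : ℕ) (s : ℂ) (n : ℕ) : Pool.Agent.BG.LJB_f k s n = SPA_a k s (n:ℝ) := by
  unfold Pool.Agent.BG.LJB_f SPA_a
  simp

lemma SPA_cpow (c : ℂ) (u : ℝ) (hu : 0 < u) :
    HasDerivAt (fun v : ℝ => (v:ℂ) ^ c) (c * (u:ℂ) ^ (c - 1)) u := by
  have h1 : HasDerivAt (fun z : ℂ => z ^ c) (c * (u:ℂ) ^ (c - 1)) (u:ℂ) := by
    have := (hasDerivAt_id (u:ℂ)).cpow_const (c := c) (Or.inl (by simpa using hu))
    simpa using this
  exact h1.comp_ofReal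

lemma SPA_logpow (k : ℕ) (u : ℝ) (hu : 0 < u) :
    HasDerivAt (fun v : ℝ => (((Real.log v) ^ k : ℝ) : ℂ)) (((k * (Real.log u) ^ (k - 1) * u⁻¹ : ℝ)) : ℂ) u :=
  ((Real.hasDerivAt_log hu.ne').pow k).ofReal_comp

lemma SPA_g_deriv (j : ℕ) (s : ℂ) (u : ℝ) (hu : 0 < u) :
    HasDerivAt (SPA_g (j + 1) s) ((1 - s) * SPA_a (j + 1) s u + (j + 1) * SPA_a j s u) u := by
  have h := (SPA_logpow (j + 1) u hu).mul (SPA_cpow (1 - s) u hu)
  refine h.congr_deriv ?_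
  have hu' : (u:ℂ) ≠ 0 := by exact_mod_cast hu.ne'
  have e1 : (1 - s - 1 : ℂ) = -s := by ring
  have e2 : (u:ℂ) ^ (1 - s) = u * (u:ℂ) ^ (-s) := by
    rw [sub_eq_add_neg, Complex.cpow_add _ _ hu', Complex.cpow_one]
  unfold SPA_a
  rw [e1, e2]
  simp only [Nat.add_sub_cancel]
  push_cast
  field_simp
  ring

lemma SPA_a_deriv (k : ℕ) (s : ℂ) (u : ℝ) (hu : 0 < u) :
    HasDerivAt (SPA_a k s) ((((k * (Real.log u) ^ (k - 1) * u⁻¹ : ℝ)) : ℂ) * (u:ℂ) ^ (-s)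
      + (((Real.log u) ^ k : ℝ) : ℂ) * (-s * (u:ℂ) ^ (-s - 1))) u :=
  (SPA_logpow k u hu).mul (SPA_cpow (-s) u hu)

lemma SPA_log_ge_one {X : ℝ} (hX : 3 ≤ X) : 1 ≤ Real.log X := Pool.Agent.BG.LJB_log_ge_one hX

lemma SPA_a_var (k : ℕ) (s : ℂ) (hs : 1 < s.re) (n : ℕ) (hn : 3 ≤ n) (u : ℝ)
    (hu : u ∈ Set.Icc (n:ℝ) (n + 1)) :
    ‖SPA_a k s u - SPA_a k s n‖ ≤ (k + ‖s‖) * ((Real.log (n + 1)) ^ k * (n:ℝ) ^ (-2:ℝ)) := by
  have hn3 : (3:ℝ) ≤ n := by exact_mod_cast hn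
  have hn0 : (0:ℝ) < n := by linarith
  have hder : ∀ v ∈ Set.Icc (n:ℝ) (n + 1), HasDerivWithinAt (SPA_a k s)
      ((((k * (Real.log v) ^ (k - 1) * v⁻¹ : ℝ)) : ℂ) * (v:ℂ) ^ (-s)
      + (((Real.log v) ^ k : ℝ) : ℂ) * (-s * (v:ℂ) ^ (-s - 1))) (Set.Icc (n:ℝ) (n + 1)) v :=
    fun v hv => (SPA_a_deriv k s v (lt_of_lt_of_le hn0 hv.1)).hasDerivWithinAt
  have hb : ∀ v ∈ Set.Icc (n:ℝ) (n + 1), ‖(((k * (Real.log v) ^ (k - 1) * v⁻¹ : ℝ)) : ℂ) * (v:ℂ) ^ (-s)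
      + (((Real.log v) ^ k : ℝ) : ℂ) * (-s * (v:ℂ) ^ (-s - 1))‖
      ≤ (k + ‖s‖) * ((Real.log (n + 1)) ^ k * (n:ℝ) ^ (-2:ℝ)) := by
    intro v hv
    have hv0 : 0 < v := lt_of_lt_of_le hn0 hv.1
    have hv3 : 3 ≤ v := hn3.trans hv.1
    have hl1 : 1 ≤ Real.log v := SPA_log_ge_one hv3
    have hl0 : 0 ≤ Real.log v := by linarith
    have hl2 : Real.log v ≤ Real.log ((n:ℝ) + 1) := Real.log_le_log hv0 hv.2
    have hL0 : 0 ≤ Real.log ((n:ℝ) + 1) := by linarith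
    have hp1 : (Real.log v) ^ k ≤ (Real.log ((n:ℝ) + 1)) ^ k := pow_le_pow_left₀ hl0 hl2 k
    have hp2 : (Real.log v) ^ (k - 1) ≤ (Real.log ((n:ℝ) + 1)) ^ k :=
      (pow_le_pow_right₀ hl1 (by omega)).trans hp1
    have hq : v ^ (-s.re - 1) ≤ (n:ℝ) ^ (-2:ℝ) := by
      calc v ^ (-s.re - 1) ≤ (n:ℝ) ^ (-s.re - 1) := Real.rpow_le_rpow_of_nonpos hn0 hv.1 (by linarith)
        _ ≤ (n:ℝ) ^ (-2:ℝ) := Real.rpow_le_rpow_of_exponent_le (by linarith) (by linarith)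
    have e1 : ‖(((k * (Real.log v) ^ (k - 1) * v⁻¹ : ℝ)) : ℂ) * (v:ℂ) ^ (-s)‖
        ≤ k * ((Real.log (n + 1)) ^ k * (n:ℝ) ^ (-2:ℝ)) := by
      rw [norm_mul, Complex.norm_real, Real.norm_eq_abs, abs_of_nonneg (by positivity),
        Complex.norm_cpow_eq_rpow_re_of_pos hv0]
      have h1 : (v⁻¹) * v ^ (-s).re = v ^ (-s.re - 1) := by
        rw [Complex.neg_re, sub_eq_add_neg, Real.rpow_add hv0, Real.rpow_neg_one]
        ring
      calc k * (Real.log v) ^ (k - 1) * v⁻¹ * v ^ (-s).re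
          = k * ((Real.log v) ^ (k - 1) * ((v⁻¹) * v ^ (-s).re)) := by ring
        _ = k * ((Real.log v) ^ (k - 1) * v ^ (-s.re - 1)) := by rw [h1]
        _ ≤ k * ((Real.log (n + 1)) ^ k * (n:ℝ) ^ (-2:ℝ)) := by
            refine mul_le_mul_of_nonneg_left ?_ (by positivity)
            exact mul_le_mul hp2 hq (by positivity) (by positivity)
    have e2 : ‖(((Real.log v) ^ k : ℝ) : ℂ) * (-s * (v:ℂ) ^ (-s - 1))‖
        ≤ ‖s‖ * ((Real.log (n + 1)) ^ k * (n:ℝ) ^ (-2:ℝ)) := by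
      rw [norm_mul, norm_mul, norm_neg, Complex.norm_real, Real.norm_eq_abs,
        abs_of_nonneg (by positivity), Complex.norm_cpow_eq_rpow_re_of_pos hv0]
      have h1 : (-s - 1).re = -s.re - 1 := by simp
      rw [h1]
      calc (Real.log v) ^ k * (‖s‖ * v ^ (-s.re - 1)) = ‖s‖ * ((Real.log v) ^ k * v ^ (-s.re - 1)) := by
            ring
        _ ≤ _ := by
            refine mul_le_mul_of_nonneg_left ?_ (norm_nonneg _)
            exact mul_le_mul hp1 hq (by positivity) (by positivity)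
    refine (norm_add_le _ _).trans ?_
    rw [add_mul]
    exact add_le_add e1 e2
  have h3 := Convex.norm_image_sub_le_of_norm_hasDerivWithin_le hder hb (convex_Icc _ _)
    (Set.left_mem_Icc.mpr (by linarith)) hu
  have h4 : ‖u - (n:ℝ)‖ ≤ 1 := by
    rw [Real.norm_eq_abs, abs_of_nonneg (by linarith [hu.1])]
    linarith [hu.2]
  refine h3.trans ?_
  have h5 : 0 ≤ (k + ‖s‖) * ((Real.log (n + 1)) ^ k * (n:ℝ) ^ (-2:ℝ)) := by
    have : 0 ≤ Real.log ((n:ℝ) + 1) := Real.log_nonneg (by linarith)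
    positivity
  calc (k + ‖s‖) * ((Real.log (n + 1)) ^ k * (n:ℝ) ^ (-2:ℝ)) * ‖u - (n:ℝ)‖
      ≤ (k + ‖s‖) * ((Real.log (n + 1)) ^ k * (n:ℝ) ^ (-2:ℝ)) * 1 := mul_le_mul_of_nonneg_left h4 h5
    _ = _ := mul_one _

lemma SPA_step (j : ℕ) (s : ℂ) (hs : 1 < s.re) (h1s : 1 ≤ ‖1 - s‖) (n : ℕ) (hn : 3 ≤ n) :
    ‖(1 - s) * SPA_a (j + 1) s n + (j + 1) * SPA_a j s n - (SPA_g (j + 1) s ((n + 1 : ℕ) : ℝ) - SPA_g (j + 1) s n)‖
      ≤ ‖1 - s‖ * ((j + 2) * (j + 1 + ‖s‖)) * ((Real.log (n + 1)) ^ (j + 1) * (n:ℝ) ^ (-2:ℝ)) := by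
  have hn3 : (3:ℝ) ≤ n := by exact_mod_cast hn
  have hn0 : (0:ℝ) < n := by linarith
  set c : ℂ := (1 - s) * SPA_a (j + 1) s n + (j + 1) * SPA_a j s n with hc
  set L : ℝ := Real.log ((n:ℝ) + 1) with hL
  have hL1 : 1 ≤ L := SPA_log_ge_one (by linarith)
  have hder : ∀ u ∈ Set.Icc (n:ℝ) (n + 1), HasDerivWithinAt (fun u : ℝ => SPA_g (j + 1) s u - c * (u:ℂ))
      ((1 - s) * SPA_a (j + 1) s u + (j + 1) * SPA_a j s u - c) (Set.Icc (n:ℝ) (n + 1)) u := by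
    intro u hu
    have hu0 : 0 < u := lt_of_lt_of_le hn0 hu.1
    have h1 := SPA_g_deriv j s u hu0
    have h2 : HasDerivAt (fun u : ℝ => c * (u:ℂ)) c u := by
      have := ((hasDerivAt_id u).ofReal_comp).const_mul c
      simpa using this
    exact (h1.sub h2).hasDerivWithinAt
  have hb : ∀ u ∈ Set.Icc (n:ℝ) (n + 1), ‖(1 - s) * SPA_a (j + 1) s u + (j + 1) * SPA_a j s u - c‖
      ≤ ‖1 - s‖ * ((j + 2) * (j + 1 + ‖s‖)) * (L ^ (j + 1) * (n:ℝ) ^ (-2:ℝ)) := by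
    intro u hu
    have e1 := SPA_a_var (j + 1) s hs n hn u hu
    have e2 := SPA_a_var j s hs n hn u hu
    have hdec : (1 - s) * SPA_a (j + 1) s u + (j + 1) * SPA_a j s u - c
        = (1 - s) * (SPA_a (j + 1) s u - SPA_a (j + 1) s n) + (j + 1) * (SPA_a j s u - SPA_a j s n) := by
      rw [hc]; ring
    rw [hdec]
    refine (norm_add_le _ _).trans ?_
    have hj : ‖((j:ℂ) + 1)‖ = (j:ℝ) + 1 := by
      have : ((j:ℂ) + 1) = (((j:ℝ) + 1 : ℝ) : ℂ) := by push_cast; ring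
      rw [this, Complex.norm_real, Real.norm_eq_abs, abs_of_nonneg (by positivity)]
    rw [norm_mul, norm_mul, hj]
    have hs0 : 0 ≤ ‖s‖ := norm_nonneg s
    have hn2 : 0 ≤ (n:ℝ) ^ (-2:ℝ) := by positivity
    have hLj : L ^ j ≤ L ^ (j + 1) := pow_le_pow_right₀ hL1 (by omega)
    have f1 : ‖1 - s‖ * ‖SPA_a (j + 1) s u - SPA_a (j + 1) s n‖
        ≤ ‖1 - s‖ * ((j + 1 + ‖s‖) * (L ^ (j + 1) * (n:ℝ) ^ (-2:ℝ))) := by
      refine mul_le_mul_of_nonneg_left ?_ (norm_nonneg _)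
      refine e1.trans (le_of_eq ?_)
      push_cast
      rfl
    have f2 : ((j:ℝ) + 1) * ‖SPA_a j s u - SPA_a j s n‖
        ≤ ‖1 - s‖ * ((j + 1) * ((j + 1 + ‖s‖) * (L ^ (j + 1) * (n:ℝ) ^ (-2:ℝ)))) := by
      have f3 : ‖SPA_a j s u - SPA_a j s n‖ ≤ (j + 1 + ‖s‖) * (L ^ (j + 1) * (n:ℝ) ^ (-2:ℝ)) := by
        refine e2.trans ?_
        refine mul_le_mul (by linarith) ?_ (by positivity) (by positivity)
        exact mul_le_mul_of_nonneg_right hLj hn2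
      have f4 : 0 ≤ ((j:ℝ) + 1) * ((j + 1 + ‖s‖) * (L ^ (j + 1) * (n:ℝ) ^ (-2:ℝ))) := by positivity
      calc ((j:ℝ) + 1) * ‖SPA_a j s u - SPA_a j s n‖
          ≤ ((j:ℝ) + 1) * ((j + 1 + ‖s‖) * (L ^ (j + 1) * (n:ℝ) ^ (-2:ℝ))) :=
            mul_le_mul_of_nonneg_left f3 (by positivity)
        _ = 1 * (((j:ℝ) + 1) * ((j + 1 + ‖s‖) * (L ^ (j + 1) * (n:ℝ) ^ (-2:ℝ)))) := (one_mul _).symm
        _ ≤ _ := mul_le_mul_of_nonneg_right h1s f4
    refine (add_le_add f1 f2).trans (le_of_eq ?_)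
    ring
  have h3 := Convex.norm_image_sub_le_of_norm_hasDerivWithin_le hder hb (convex_Icc _ _)
    (x := (n:ℝ)) (y := (n:ℝ) + 1) (Set.left_mem_Icc.mpr (by linarith)) (Set.right_mem_Icc.mpr (by linarith))
  have h2 : ‖(n:ℝ) + 1 - n‖ = 1 := by simp
  rw [h2, mul_one] at h3
  rw [norm_sub_rev]
  refine le_trans (le_of_eq ?_) h3
  congr 1
  push_cast
  ring

lemma SPA_sum (k : ℕ) : ∃ C : ℝ, 0 < C ∧ ∀ (X : ℝ) (N M : ℕ), 6 ≤ X → X ≤ N →
    ∑ n ∈ Finset.Ico N M, (Real.log (n + 1)) ^ k * (n:ℝ) ^ (-2:ℝ) ≤ C * (Real.log X) ^ k / X := by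
  obtain ⟨C, hC0, hC⟩ := Pool.Agent.BG.LJB_growth k
  refine ⟨8 * C, by positivity, ?_⟩
  intro X N M hX hXN
  have hX0 : 0 < X := by linarith
  have hN6 : (6:ℝ) ≤ N := hX.trans hXN
  have hNn : 6 ≤ N := by exact_mod_cast hN6
  have hL : 0 ≤ Real.log X := Real.log_nonneg (by linarith)
  have h1 : ∀ n ∈ Finset.Ico N M, (Real.log (n + 1)) ^ k * (n:ℝ) ^ (-2:ℝ)
      ≤ 2 * C * (Real.log X) ^ k * X ^ (-(1 / 2) : ℝ) * (n:ℝ) ^ (-(3 / 2) : ℝ) := by
    intro n hn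
    rw [Finset.mem_Ico] at hn
    have hnr : (N:ℝ) ≤ n := by exact_mod_cast hn.1
    have hn0 : (0:ℝ) < n := by linarith
    have h2 := hC X (n + 1) (by linarith) (by linarith)
    have h3 : (((n:ℝ) + 1) / X) ^ (1 / 2 : ℝ) ≤ 2 * (n:ℝ) ^ (1 / 2 : ℝ) * X ^ (-(1 / 2) : ℝ) := by
      have h4 : ((n:ℝ) + 1) / X ≤ (4 * n) * X⁻¹ := by
        rw [div_eq_mul_inv]
        refine mul_le_mul_of_nonneg_right (by linarith) (by positivity)
      calc (((n:ℝ) + 1) / X) ^ (1 / 2 : ℝ) ≤ ((4 * n) * X⁻¹) ^ (1 / 2 : ℝ) :=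
            Real.rpow_le_rpow (by positivity) h4 (by norm_num)
        _ = 2 * (n:ℝ) ^ (1 / 2 : ℝ) * X ^ (-(1 / 2) : ℝ) := by
            rw [Real.mul_rpow (by positivity) (by positivity), Real.mul_rpow (by norm_num) (by positivity),
              Real.inv_rpow hX0.le, Real.rpow_neg hX0.le]
            have : (4:ℝ) ^ (1 / 2 : ℝ) = 2 := by
              rw [← Real.sqrt_eq_rpow]
              rw [show (4:ℝ) = 2 ^ 2 by norm_num]
              exact Real.sqrt_sq (by norm_num)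
            rw [this]
    calc (Real.log ((n:ℝ) + 1)) ^ k * (n:ℝ) ^ (-2:ℝ)
        ≤ (C * (Real.log X) ^ k * (2 * (n:ℝ) ^ (1 / 2 : ℝ) * X ^ (-(1 / 2) : ℝ))) * (n:ℝ) ^ (-2:ℝ) := by
          refine mul_le_mul_of_nonneg_right (h2.trans ?_) (by positivity)
          exact mul_le_mul_of_nonneg_left h3 (by positivity)
      _ = 2 * C * (Real.log X) ^ k * X ^ (-(1 / 2) : ℝ) * ((n:ℝ) ^ (1 / 2 : ℝ) * (n:ℝ) ^ (-2:ℝ)) := by ring
      _ = 2 * C * (Real.log X) ^ k * X ^ (-(1 / 2) : ℝ) * (n:ℝ) ^ (-(3 / 2) : ℝ) := by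
          rw [← Real.rpow_add hn0]; norm_num
  refine (sum_le_sum h1).trans ?_
  rw [← mul_sum]
  have h5 := Pool.Agent.BG.LJB_tail (3 / 2) (by norm_num) N M (by omega)
  have h6 : ((N:ℝ) - 1) ^ (1 - 3 / 2 : ℝ) / (3 / 2 - 1) ≤ 4 * X ^ (-(1 / 2) : ℝ) := by
    have h7 : X / 4 ≤ (N:ℝ) - 1 := by linarith
    have h8 : ((N:ℝ) - 1) ^ (1 - 3 / 2 : ℝ) ≤ (X / 4) ^ (1 - 3 / 2 : ℝ) :=
      Real.rpow_le_rpow_of_nonpos (by positivity) h7 (by norm_num)
    have h9 : (X / 4) ^ (1 - 3 / 2 : ℝ) = 2 * X ^ (-(1 / 2) : ℝ) := by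
      rw [Real.div_rpow hX0.le (by norm_num)]
      have h10 : (1 - 3 / 2 : ℝ) = -(1 / 2) := by norm_num
      rw [h10, Real.rpow_neg (by norm_num : (0:ℝ) ≤ 4)]
      have : (4:ℝ) ^ (1 / 2 : ℝ) = 2 := by
        rw [← Real.sqrt_eq_rpow]
        rw [show (4:ℝ) = 2 ^ 2 by norm_num]
        exact Real.sqrt_sq (by norm_num)
      rw [this]
      ring
    rw [h9] at h8
    have h11 : (3 / 2 - 1 : ℝ) = 1 / 2 := by norm_num
    rw [h11, div_le_iff₀ (by norm_num)]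
    linarith
  calc 2 * C * (Real.log X) ^ k * X ^ (-(1 / 2) : ℝ) * ∑ n ∈ Finset.Ico N M, (n:ℝ) ^ (-(3 / 2) : ℝ)
      ≤ 2 * C * (Real.log X) ^ k * X ^ (-(1 / 2) : ℝ) * (4 * X ^ (-(1 / 2) : ℝ)) :=
        mul_le_mul_of_nonneg_left (h5.trans h6) (by positivity)
    _ = 8 * C * (Real.log X) ^ k * (X ^ (-(1 / 2) : ℝ) * X ^ (-(1 / 2) : ℝ)) := by ring
    _ = 8 * C * (Real.log X) ^ k / X := by
        rw [← Real.rpow_add hX0]
        have : (-(1 / 2) + -(1 / 2) : ℝ) = -1 := by norm_num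
        rw [this, Real.rpow_neg_one]
        ring

lemma SPA_g_norm (k : ℕ) (s : ℂ) (n : ℕ) (hn : 1 ≤ n) :
    ‖SPA_g k s n‖ = (Real.log n) ^ k * (n:ℝ) ^ (1 - s.re) := by
  have hn0 : (0:ℝ) < n := by exact_mod_cast hn
  have hl : 0 ≤ Real.log n := Real.log_natCast_nonneg n
  unfold SPA_g
  rw [norm_mul, Complex.norm_real, Real.norm_eq_abs, abs_of_nonneg (by positivity),
    Complex.norm_cpow_eq_rpow_re_of_pos hn0]
  simp

lemma SPA_g_lim (k : ℕ) (s : ℂ) (hs : 1 < s.re) : ∀ᶠ M : ℕ in atTop, ‖SPA_g k s M‖ ≤ 1 := by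
  have h := (isLittleO_log_rpow_rpow_atTop (k:ℝ) (by linarith : 0 < s.re - 1)).bound
    (by norm_num : (0:ℝ) < 1)
  have h2 := tendsto_natCast_atTop_atTop (R := ℝ) |>.eventually h
  filter_upwards [h2, eventually_ge_atTop 1] with M hM hM1
  have hn0 : (0:ℝ) < M := by exact_mod_cast hM1
  have hl : 0 ≤ Real.log M := Real.log_natCast_nonneg M
  rw [Real.rpow_natCast, one_mul, Real.norm_eq_abs, Real.norm_eq_abs, abs_of_nonneg (by positivity),
    abs_of_nonneg (by positivity)] at hM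
  rw [SPA_g_norm k s M hM1]
  calc (Real.log M) ^ k * (M:ℝ) ^ (1 - s.re) ≤ (M:ℝ) ^ (s.re - 1) * (M:ℝ) ^ (1 - s.re) :=
        mul_le_mul_of_nonneg_right hM (by positivity)
    _ = 1 := by
        rw [← Real.rpow_add hn0]
        norm_num

lemma SPA_tail (j : ℕ) : ∃ C : ℝ, 0 < C ∧ ∀ (X : ℝ) (N : ℕ) (s : ℂ), 6 ≤ X → X ≤ N → (N:ℝ) ≤ X + 1 →
    1 < s.re → 1 ≤ |s.im| → ‖s‖ ≤ X →
    ∀ᶠ M : ℕ in atTop, ‖∑ n ∈ Finset.Ico N M, SPA_a j s n‖ ≤ C * (Real.log X) ^ j := by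
  induction j with
  | zero =>
    refine ⟨4, by norm_num, ?_⟩
    intro X N s hX hXN hNX hs ht hsX
    filter_upwards [eventually_ge_atTop N] with M hM
    have hN6 : (6:ℝ) ≤ N := hX.trans hXN
    have hNn : 6 ≤ N := by exact_mod_cast hN6
    have him : s.im ≠ 0 := by
      intro h
      rw [h, abs_zero] at ht
      linarith
    have h1 := Pool.Agent.BG.TRV_int s hs him N M (by omega) hM
    have h2 : ∑ n ∈ Finset.Ico N M, SPA_a 0 s n = ∑ n ∈ Finset.Ico N M, (n:ℂ) ^ (-s) := by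
      refine sum_congr rfl fun n _ => ?_
      unfold SPA_a
      simp
    rw [h2, pow_zero, mul_one]
    refine h1.trans ?_
    have h3 : 2 / |s.im| ≤ 2 := by
      rw [div_le_iff₀ (by linarith)]
      linarith
    have h4 : ‖s‖ / ((N:ℝ) - 1) ≤ 2 := by
      rw [div_le_iff₀ (by linarith)]
      linarith
    linarith
  | succ j ih =>
    obtain ⟨C, hC0, hC⟩ := ih
    obtain ⟨D, hD0, hD⟩ := SPA_sum (j + 1)
    refine ⟨1 + 2 ^ (j + 1) + (j + 1) * C + (j + 2) * (j + 2) * D, by positivity, ?_⟩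
    intro X N s hX hXN hNX hs ht hsX
    filter_upwards [eventually_ge_atTop N, hC X N s hX hXN hNX hs ht hsX, SPA_g_lim (j + 1) s hs]
      with M hM hCM hgM
    have hX0 : 0 < X := by linarith
    have hN6 : (6:ℝ) ≤ N := hX.trans hXN
    have hNn : 6 ≤ N := by exact_mod_cast hN6
    have hL1 : 1 ≤ Real.log X := SPA_log_ge_one (by linarith)
    have h1s : 1 ≤ ‖1 - s‖ := by
      have := Complex.abs_im_le_norm (1 - s)
      have h2 : |(1 - s).im| = |s.im| := by simp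
      linarith
    have h1s0 : 0 < ‖1 - s‖ := by linarith
    set T1 : ℂ := ∑ n ∈ Finset.Ico N M, SPA_a (j + 1) s n with hT1
    set T0 : ℂ := ∑ n ∈ Finset.Ico N M, SPA_a j s n with hT0
    have htel : ∑ n ∈ Finset.Ico N M, ((1 - s) * SPA_a (j + 1) s n + (j + 1) * SPA_a j s n
        - (SPA_g (j + 1) s ((n + 1 : ℕ) : ℝ) - SPA_g (j + 1) s n))
        = (1 - s) * T1 + (j + 1) * T0 - (SPA_g (j + 1) s M - SPA_g (j + 1) s N) := by
      rw [sum_sub_distrib, sum_add_distrib, ← mul_sum, ← mul_sum]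
      congr 1
      exact Finset.sum_Ico_sub (fun n : ℕ => SPA_g (j + 1) s (n:ℝ)) hM
    have herr : ‖∑ n ∈ Finset.Ico N M, ((1 - s) * SPA_a (j + 1) s n + (j + 1) * SPA_a j s n
        - (SPA_g (j + 1) s ((n + 1 : ℕ) : ℝ) - SPA_g (j + 1) s n))‖
        ≤ ‖1 - s‖ * ((j + 2) * (j + 1 + ‖s‖)) * (D * (Real.log X) ^ (j + 1) / X) := by
      refine (norm_sum_le _ _).trans ?_
      have h2 : ∀ n ∈ Finset.Ico N M, ‖(1 - s) * SPA_a (j + 1) s n + (j + 1) * SPA_a j s n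
          - (SPA_g (j + 1) s ((n + 1 : ℕ) : ℝ) - SPA_g (j + 1) s n)‖
          ≤ ‖1 - s‖ * ((j + 2) * (j + 1 + ‖s‖)) * ((Real.log (n + 1)) ^ (j + 1) * (n:ℝ) ^ (-2:ℝ)) := by
        intro n hn
        rw [Finset.mem_Ico] at hn
        exact SPA_step j s hs h1s n (by omega)
      refine (sum_le_sum h2).trans ?_
      rw [← mul_sum]
      exact mul_le_mul_of_nonneg_left (hD X N M hX hXN) (by positivity)
    rw [htel] at herr
    have herr2 : ‖1 - s‖ * ((j + 2) * (j + 1 + ‖s‖)) * (D * (Real.log X) ^ (j + 1) / X)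
        ≤ ‖1 - s‖ * ((j + 2) * (j + 2) * D * (Real.log X) ^ (j + 1)) := by
      have h3 : (j + 1 + ‖s‖) / X ≤ j + 2 := by
        rw [div_le_iff₀ hX0]
        have : 0 ≤ (j:ℝ) := by positivity
        nlinarith
      calc ‖1 - s‖ * ((j + 2) * (j + 1 + ‖s‖)) * (D * (Real.log X) ^ (j + 1) / X)
          = ‖1 - s‖ * ((j + 2) * D * (Real.log X) ^ (j + 1) * ((j + 1 + ‖s‖) / X)) := by ring
        _ ≤ ‖1 - s‖ * ((j + 2) * D * (Real.log X) ^ (j + 1) * (j + 2)) := by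
            refine mul_le_mul_of_nonneg_left ?_ (norm_nonneg _)
            exact mul_le_mul_of_nonneg_left h3 (by positivity)
        _ = _ := by ring
    have hgN : ‖SPA_g (j + 1) s N‖ ≤ 2 ^ (j + 1) * (Real.log X) ^ (j + 1) := by
      rw [SPA_g_norm (j + 1) s N (by omega)]
      have h4 : (N:ℝ) ^ (1 - s.re) ≤ 1 := Real.rpow_le_one_of_one_le_of_nonpos (by linarith) (by linarith)
      have h5 : Real.log N ≤ 2 * Real.log X := by
        have h6 : (N:ℝ) ≤ X ^ 2 := by nlinarith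
        have h7 := Real.log_le_log (by linarith : (0:ℝ) < N) h6
        rw [Real.log_pow] at h7
        exact_mod_cast h7
      have h8 : 0 ≤ Real.log N := Real.log_natCast_nonneg N
      calc (Real.log N) ^ (j + 1) * (N:ℝ) ^ (1 - s.re) ≤ (2 * Real.log X) ^ (j + 1) * 1 :=
            mul_le_mul (pow_le_pow_left₀ h8 h5 _) h4 (by positivity) (by positivity)
        _ = _ := by rw [mul_one, mul_pow]
    have hj : ‖((j:ℂ) + 1)‖ = (j:ℝ) + 1 := by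
      have : ((j:ℂ) + 1) = (((j:ℝ) + 1 : ℝ) : ℂ) := by push_cast; ring
      rw [this, Complex.norm_real, Real.norm_eq_abs, abs_of_nonneg (by positivity)]
    have hmain : ‖(1 - s) * T1‖ ≤ ‖1 - s‖ * ((j + 2) * (j + 2) * D * (Real.log X) ^ (j + 1))
        + (1 + 2 ^ (j + 1) * (Real.log X) ^ (j + 1)) + (j + 1) * (C * (Real.log X) ^ j) := by
      have hdec : (1 - s) * T1 = ((1 - s) * T1 + (j + 1) * T0 - (SPA_g (j + 1) s M - SPA_g (j + 1) s N))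
          + (SPA_g (j + 1) s M - SPA_g (j + 1) s N) - (j + 1) * T0 := by ring
      rw [hdec]
      refine (norm_sub_le _ _).trans ?_
      refine add_le_add ((norm_add_le _ _).trans (add_le_add (herr.trans herr2) ?_)) ?_
      · refine (norm_sub_le _ _).trans (add_le_add hgM hgN)
      · rw [norm_mul, hj]
        exact mul_le_mul_of_nonneg_left hCM (by positivity)
    rw [norm_mul] at hmain
    have hLj : (Real.log X) ^ j ≤ (Real.log X) ^ (j + 1) := pow_le_pow_right₀ hL1 (by omega)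
    have hLj1 : 1 ≤ (Real.log X) ^ (j + 1) := one_le_pow₀ hL1
    have hA : (1 + 2 ^ (j + 1) * (Real.log X) ^ (j + 1)) + (j + 1) * (C * (Real.log X) ^ j)
        ≤ ‖1 - s‖ * ((1 + 2 ^ (j + 1) + (j + 1) * C) * (Real.log X) ^ (j + 1)) := by
      have h9 : (1 + 2 ^ (j + 1) * (Real.log X) ^ (j + 1)) + (j + 1) * (C * (Real.log X) ^ j)
          ≤ (1 + 2 ^ (j + 1) + (j + 1) * C) * (Real.log X) ^ (j + 1) := by
        have h10 : ((j:ℝ) + 1) * (C * (Real.log X) ^ j) ≤ (j + 1) * (C * (Real.log X) ^ (j + 1)) :=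
          mul_le_mul_of_nonneg_left (mul_le_mul_of_nonneg_left hLj hC0.le) (by positivity)
        calc (1 + 2 ^ (j + 1) * (Real.log X) ^ (j + 1)) + (j + 1) * (C * (Real.log X) ^ j)
            ≤ ((Real.log X) ^ (j + 1) + 2 ^ (j + 1) * (Real.log X) ^ (j + 1))
              + (j + 1) * (C * (Real.log X) ^ (j + 1)) := by linarith
          _ = _ := by ring
      refine h9.trans ?_
      have h11 : 0 ≤ (1 + 2 ^ (j + 1) + (j + 1) * C) * (Real.log X) ^ (j + 1) := by positivity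
      calc (1 + 2 ^ (j + 1) + (j + 1) * C) * (Real.log X) ^ (j + 1)
          = 1 * ((1 + 2 ^ (j + 1) + (j + 1) * C) * (Real.log X) ^ (j + 1)) := (one_mul _).symm
        _ ≤ _ := mul_le_mul_of_nonneg_right h1s h11
    have hfin : ‖1 - s‖ * ‖T1‖ ≤ ‖1 - s‖ * ((1 + 2 ^ (j + 1) + (j + 1) * C + (j + 2) * (j + 2) * D)
        * (Real.log X) ^ (j + 1)) := by
      calc ‖1 - s‖ * ‖T1‖ ≤ _ := hmain
        _ ≤ ‖1 - s‖ * ((j + 2) * (j + 2) * D * (Real.log X) ^ (j + 1))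
            + ‖1 - s‖ * ((1 + 2 ^ (j + 1) + (j + 1) * C) * (Real.log X) ^ (j + 1)) := by linarith
        _ = _ := by ring
    exact le_of_mul_le_mul_left hfin h1s0

theorem zj_bound_pr (j : ℕ) : ∃ C : ℝ, 0 < C ∧ ∀ σ t : ℝ, 1 < σ → σ ≤ 2 → 1 ≤ |t| →
    ‖Pool.Agent.BG.Lj (1 : DirichletCharacter ℂ 1) j (σ + t * I)‖ ≤
      C * Real.log (|t| + 2) ^ (j + 1) := by
  obtain ⟨C, hC0, hC⟩ := SPA_tail j
  refine ⟨(2 + C) * 2 ^ (j + 1), by positivity, ?_⟩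
  intro σ t hσ1 hσ2 ht
  set s : ℂ := σ + t * I with hs
  have hsre : s.re = σ := by simp [hs]
  have hsim : s.im = t := by simp [hs]
  have hs1 : 1 < s.re := by rw [hsre]; exact hσ1
  set X : ℝ := 3 * (|t| + 2) with hX
  have hX6 : 6 ≤ X := by rw [hX]; linarith
  have hX0 : 0 < X := by linarith
  have hlt : 0 < |t| + 2 := by linarith
  have hlX : Real.log X ≤ 2 * Real.log (|t| + 2) := by
    have h1 : X ≤ (|t| + 2) ^ 2 := by rw [hX]; nlinarith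
    have h2 := Real.log_le_log hX0 h1
    rw [Real.log_pow] at h2
    exact_mod_cast h2
  have hL1 : 1 ≤ Real.log X := SPA_log_ge_one (by linarith)
  set N : ℕ := ⌈X⌉₊ with hN
  have hN1 : X ≤ N := Nat.le_ceil X
  have hN2 : (N:ℝ) ≤ X + 1 := (Nat.ceil_lt_add_one hX0.le).le
  have hN6 : 6 ≤ N := by
    have : (6:ℝ) ≤ N := by linarith
    exact_mod_cast this
  have hsn : ‖s‖ ≤ X := by
    have h1 : ‖s‖ ≤ |σ| + |t| := by
      rw [hs]
      refine (norm_add_le _ _).trans ?_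
      rw [norm_mul, Complex.norm_I, mul_one, Complex.norm_real, Complex.norm_real, Real.norm_eq_abs, Real.norm_eq_abs]
    rw [abs_of_pos (by linarith)] at h1
    rw [hX]
    linarith
  have hone : ∀ n : ℕ, (1 : DirichletCharacter ℂ 1) (n : ZMod 1) = 1 := by
    intro n
    rw [MulChar.one_apply]
    exact isUnit_of_subsingleton _
  have hhead := Pool.Agent.BG.LJB_head j s hs1 X N hX6 hN2
    (fun n => (1 : DirichletCharacter ℂ 1) (n : ZMod 1)) (fun n => DirichletCharacter.norm_le_one _ _)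
  have htail := hC X N s hX6 hN1 hN2 hs1 (by rw [hsim]; exact ht) hsn
  have hsum := (Pool.Agent.BG.LJB_summable (1 : DirichletCharacter ℂ 1) j s hs1).LSeriesHasSum
  unfold LSeriesHasSum at hsum
  have htend := (HasSum.tendsto_sum_nat hsum).norm
  have hmain : ‖Pool.Agent.BG.Lj (1 : DirichletCharacter ℂ 1) j s‖
      ≤ 2 * (Real.log X) ^ (j + 1) + C * (Real.log X) ^ j := by
    unfold Pool.Agent.BG.Lj
    refine le_of_tendsto htend ?_
    filter_upwards [htail, eventually_ge_atTop N] with M hM hNM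
    have hterm : ∑ i ∈ range M, LSeries.term (fun n => (1 : DirichletCharacter ℂ 1) (n : ZMod 1)
          * (((Real.log n) ^ j : ℝ) : ℂ)) s i
        = ∑ n ∈ Finset.Ico 1 N, (1 : DirichletCharacter ℂ 1) (n : ZMod 1) * Pool.Agent.BG.LJB_f j s n
          + ∑ n ∈ Finset.Ico N M, SPA_a j s n := by
      have h0 : ∑ n ∈ Finset.Ico N M, SPA_a j s n
          = ∑ n ∈ Finset.Ico N M, (1 : DirichletCharacter ℂ 1) (n : ZMod 1) * Pool.Agent.BG.LJB_f j s n := by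
        refine sum_congr rfl fun n _ => ?_
        rw [hone n, one_mul, SPA_f]
      rw [h0, Finset.sum_Ico_consecutive _ (by omega) hNM]
      rw [Finset.range_eq_Ico, Finset.sum_eq_sum_Ico_succ_bot (by omega)]
      simp only [LSeries.term_zero, zero_add]
      refine sum_congr rfl fun n hn => ?_
      rw [Finset.mem_Ico] at hn
      rw [LSeries.term_of_ne_zero (by omega)]
      unfold Pool.Agent.BG.LJB_f
      rw [Complex.cpow_neg]
      ring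
    rw [hterm]
    exact (norm_add_le _ _).trans (add_le_add hhead hM)
  refine hmain.trans ?_
  have h1 : (Real.log X) ^ j ≤ (Real.log X) ^ (j + 1) := pow_le_pow_right₀ hL1 (by omega)
  have h2 : (Real.log X) ^ (j + 1) ≤ 2 ^ (j + 1) * Real.log (|t| + 2) ^ (j + 1) := by
    rw [← mul_pow]
    exact pow_le_pow_left₀ (by linarith) hlX _
  calc 2 * (Real.log X) ^ (j + 1) + C * (Real.log X) ^ j
      ≤ 2 * (Real.log X) ^ (j + 1) + C * (Real.log X) ^ (j + 1) :=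
        add_le_add le_rfl (mul_le_mul_of_nonneg_left h1 hC0.le)
    _ = (2 + C) * (Real.log X) ^ (j + 1) := by ring
    _ ≤ (2 + C) * (2 ^ (j + 1) * Real.log (|t| + 2) ^ (j + 1)) :=
        mul_le_mul_of_nonneg_left h2 (by positivity)
    _ = _ := by ring

alias zj_bound := zj_bound_pr

end Pool.Agent.HC
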