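import Pool.Agent.Lib_helper92.HCF.Base
import Pool.Agent.Lib_helper23.BG.Defs
import Pool.Agent.Lib_helper23.BGF.LBC
import Pool.Agent.Lib_helper92.HCF.SPA

/-!
# HC block SPB (MP_5dd4bb_nt): a lower bound for the zeta function
-/

set_option autoImplicit false

namespace Pool.Agent.HC

open Finset Filter Complex

lemma SPB_lt (t : ℝ) (ht : 1 ≤ |t|) : 1 ≤ Real.log (|t| + 2) := by
  have h1 : Real.exp 1 ≤ |t| + 2 := by
    have := Real.exp_one_lt_d9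
    linarith
  have h2 := Real.log_le_log (Real.exp_pos 1) h1
  rwa [Real.log_exp] at h2

lemma SPB_two (t : ℝ) : Real.log (|2 * t| + 2) ≤ 2 * Real.log (|t| + 2) := by
  have h0 := abs_nonneg t
  have h1 : |2 * t| + 2 ≤ (|t| + 2) ^ 2 := by
    rw [abs_mul, abs_two]
    nlinarith
  have h2 := Real.log_le_log (by positivity) h1
  rw [Real.log_pow] at h2
  exact_mod_cast h2

/-- the mean value inequality on a horizontal segment -/
lemma SPB_mvi {C : ℝ} (hb : ∀ σ t : ℝ, 1 < σ → σ ≤ 2 → 1 ≤ |t| →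
    ‖Pool.Agent.BG.Lj (1 : DirichletCharacter ℂ 1) 1 (σ + t * I)‖ ≤ C * Real.log (|t| + 2) ^ 2)
    (t : ℝ) (ht : 1 ≤ |t|) (σ τ : ℝ) (h1 : 1 < σ) (h2 : σ ≤ τ) (h3 : τ ≤ 2) :
    ‖Pool.Agent.BG.Lj (1 : DirichletCharacter ℂ 1) 0 (τ + t * I)
      - Pool.Agent.BG.Lj (1 : DirichletCharacter ℂ 1) 0 (σ + t * I)‖
      ≤ C * Real.log (|t| + 2) ^ 2 * (τ - σ) := by
  have hder : ∀ u ∈ Set.Icc σ τ, HasDerivWithinAt
      (fun v : ℝ => Pool.Agent.BG.Lj (1 : DirichletCharacter ℂ 1) 0 (v + t * I))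
      (-(Pool.Agent.BG.Lj (1 : DirichletCharacter ℂ 1) 1 (u + t * I))) (Set.Icc σ τ) u := by
    intro u hu
    have hre : 1 < ((u:ℂ) + t * I).re := by
      simp
      linarith [hu.1]
    have h4 := Pool.Agent.BG.MVI_deriv (1 : DirichletCharacter ℂ 1) ((u:ℂ) + t * I) hre
    have h5 : HasDerivAt (fun v : ℝ => (v:ℂ) + t * I) 1 u := by
      have := ((hasDerivAt_id u).ofReal_comp).add_const ((t:ℂ) * I)
      simpa using this
    have h6 := h4.comp u h5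
    rw [mul_one] at h6
    exact h6.hasDerivWithinAt
  have hbd : ∀ u ∈ Set.Icc σ τ, ‖-(Pool.Agent.BG.Lj (1 : DirichletCharacter ℂ 1) 1 (u + t * I))‖
      ≤ C * Real.log (|t| + 2) ^ 2 := by
    intro u hu
    rw [norm_neg]
    exact hb u t (by linarith [hu.1]) (by linarith [hu.2]) ht
  have h7 := Convex.norm_image_sub_le_of_norm_hasDerivWithin_le hder hbd (convex_Icc _ _)
    (Set.left_mem_Icc.mpr h2) (Set.right_mem_Icc.mpr h2)
  rw [Real.norm_eq_abs, abs_of_nonneg (by linarith : (0:ℝ) ≤ τ - σ)] at h7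
  exact h7

/-- the lower bound from an upper bound `K` for `ζ(σ+2it)` -/
theorem SPB_core {C K l c t : ℝ} (ht : 1 ≤ |t|)
    (hC : 0 < C)
    (hmvi : ∀ σ τ : ℝ, 1 < σ → σ ≤ τ → τ ≤ 2 →
      ‖Pool.Agent.BG.Lj (1 : DirichletCharacter ℂ 1) 0 (τ + t * I)
        - Pool.Agent.BG.Lj (1 : DirichletCharacter ℂ 1) 0 (σ + t * I)‖ ≤ C * l ^ 2 * (τ - σ))
    (hc : 0 < c) (hc1 : c ≤ 1) (hcC : c * (128 * C ^ 4) ≤ 1) (hK : 1 ≤ K)
    (hl : l = Real.log (|t| + 2))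
    (hKb : ∀ σ : ℝ, 1 < σ → σ ≤ 2 →
      ‖Pool.Agent.BG.Lj (1 : DirichletCharacter ℂ 1) 0 (σ + (2 * t : ℝ) * I)‖ ≤ K)
    (σ : ℝ) (h1 : 1 < σ) (h2 : σ ≤ 2) :
    C * c / (K * l ^ 6) ≤ ‖Pool.Agent.BG.Lj (1 : DirichletCharacter ℂ 1) 0 (σ + t * I)‖ := by
  have hl1 : 1 ≤ l := hl ▸ SPB_lt t ht
  have hl0 : 0 < l := by linarith
  have hK0 : 0 < K := by linarith
  set d0 : ℝ := c / (K * l ^ 8) with hd0
  have hd0p : 0 < d0 := by positivity
  have hKl : 1 ≤ K * l ^ 8 := by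
    have : 1 ≤ l ^ 8 := one_le_pow₀ hl1
    nlinarith
  have hd01 : d0 ≤ 1 := by
    rw [hd0, div_le_one (by positivity)]
    linarith
  have main : ∀ τ : ℝ, 1 + d0 ≤ τ → τ ≤ 2 → 2 * (C * c / (K * l ^ 6)) ≤
      ‖Pool.Agent.BG.Lj (1 : DirichletCharacter ℂ 1) 0 (τ + t * I)‖ := by
    intro τ hτ1 hτ2
    have hτ : 1 < τ := by linarith
    have e1 := Pool.Agent.BG.LBC_341 (1 : DirichletCharacter ℂ 1) τ t hτ hτ2
    rw [one_pow] at e1
    have e2 := hKb τ hτ hτ2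
    set X := ‖Pool.Agent.BG.Lj (1 : DirichletCharacter ℂ 1) 0 (τ + t * I)‖ with hX
    have hX0 : 0 ≤ X := norm_nonneg _
    have e3 : d0 ^ 3 ≤ 8 * X ^ 4 * K := by
      calc d0 ^ 3 ≤ (τ - 1) ^ 3 := pow_le_pow_left₀ hd0p.le (by linarith) 3
        _ ≤ 8 * X ^ 4 * ‖Pool.Agent.BG.Lj (1 : DirichletCharacter ℂ 1) 0 (τ + (2 * t : ℝ) * I)‖ := e1
        _ ≤ 8 * X ^ 4 * K := by gcongr
    by_contra hlt
    rw [not_le] at hlt
    have e4 : X ^ 4 < (2 * (C * c / (K * l ^ 6))) ^ 4 := pow_lt_pow_left₀ hlt hX0 (by norm_num)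
    have e5 : 8 * X ^ 4 * K < 8 * (2 * (C * c / (K * l ^ 6))) ^ 4 * K := by gcongr
    have e6 : d0 ^ 3 < 8 * (2 * (C * c / (K * l ^ 6))) ^ 4 * K := lt_of_le_of_lt e3 e5
    have e7 : 8 * (2 * (C * c / (K * l ^ 6))) ^ 4 * K = d0 ^ 3 * (c * (128 * C ^ 4)) := by
      rw [hd0]
      field_simp
      ring
    rw [e7] at e6
    have e8 : d0 ^ 3 * (c * (128 * C ^ 4)) ≤ d0 ^ 3 * 1 :=
      mul_le_mul_of_nonneg_left hcC (by positivity)
    linarith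
  have hpos : 0 ≤ C * c / (K * l ^ 6) := by positivity
  rcases le_total (1 + d0) σ with h | h
  · have := main σ h h2
    linarith
  · have e1 := main (1 + d0) le_rfl (by linarith)
    have e2 := hmvi σ (1 + d0) h1 h (by linarith)
    have e5 : C * l ^ 2 * (1 + d0 - σ) ≤ C * c / (K * l ^ 6) := by
      calc C * l ^ 2 * (1 + d0 - σ) ≤ C * l ^ 2 * d0 := by
            gcongr
            linarith
        _ = C * c / (K * l ^ 6) := by
            rw [hd0]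
            field_simp
    have e6 := norm_sub_norm_le (Pool.Agent.BG.Lj (1 : DirichletCharacter ℂ 1) 0 (((1 + d0 : ℝ) : ℂ) + t * I))
      (Pool.Agent.BG.Lj (1 : DirichletCharacter ℂ 1) 0 (σ + t * I))
    linarith

theorem zeta_lower_pr : ∃ c : ℝ, 0 < c ∧ ∀ σ t : ℝ, 1 < σ → σ ≤ 2 → 1 ≤ |t| →
    c / Real.log (|t| + 2) ^ 8 ≤ ‖Pool.Agent.BG.Lj (1 : DirichletCharacter ℂ 1) 0 (σ + t * I)‖ := by
  obtain ⟨C, hC, hb⟩ := zj_bound 1
  obtain ⟨C₀, hC₀, hL⟩ := zj_bound 0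
  set K₀ : ℝ := 2 * C₀ + 1 with hK₀
  have hK0 : 0 < K₀ := by positivity
  set c₁ : ℝ := min 1 (1 / (128 * C ^ 4)) with hc₁
  have hc₁0 : 0 < c₁ := lt_min one_pos (by positivity)
  have hc₁1 : c₁ ≤ 1 := min_le_left _ _
  have hc₁C : c₁ * (128 * C ^ 4) ≤ 1 := by
    calc c₁ * (128 * C ^ 4) ≤ 1 / (128 * C ^ 4) * (128 * C ^ 4) :=
          mul_le_mul_of_nonneg_right (min_le_right _ _) (by positivity)
      _ = 1 := by field_simp
  refine ⟨C * c₁ / K₀, by positivity, fun σ t h1 h2 ht => ?_⟩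
  have hl1 : 1 ≤ Real.log (|t| + 2) := SPB_lt t ht
  have hl0 : 0 < Real.log (|t| + 2) := by linarith
  have ht2 : 1 ≤ |2 * t| := by
    rw [abs_mul, abs_two]
    linarith
  have key := SPB_core (K := K₀ * Real.log (|t| + 2)) (l := Real.log (|t| + 2)) (c := c₁) ht hC
    (fun σ' τ' a1 a2 a3 => SPB_mvi hb t ht σ' τ' a1 a2 a3) hc₁0 hc₁1 hc₁C (by nlinarith) rfl
    (fun σ' h1' h2' => by
      have e1 := hL σ' (2 * t) h1' h2' ht2
      rw [zero_add, pow_one] at e1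
      refine e1.trans ?_
      have e2 := SPB_two t
      calc C₀ * Real.log (|2 * t| + 2) ≤ C₀ * (2 * Real.log (|t| + 2)) := by gcongr
        _ ≤ K₀ * Real.log (|t| + 2) := by rw [hK₀]; nlinarith) σ h1 h2
  refine le_trans ?_ key
  rw [div_div]
  apply div_le_div_of_nonneg_left (by positivity) (by positivity)
  calc K₀ * Real.log (|t| + 2) * Real.log (|t| + 2) ^ 6 = K₀ * Real.log (|t| + 2) ^ 7 := by ring
    _ ≤ K₀ * Real.log (|t| + 2) ^ 8 := by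
        apply mul_le_mul_of_nonneg_left _ hK0.le
        exact pow_le_pow_right₀ hl1 (by norm_num)

alias zeta_lower := zeta_lower_pr

end Pool.Agent.HC
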