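import Pool.Agent.Lib_helper92.HCF.Base
import Pool.Agent.Lib_helper23.BG.Defs
import Pool.Agent.Lib_helper23.BGF.ZETREC
import Pool.Agent.Lib_helper92.HCF.SPA
import Pool.Agent.Lib_helper92.HCF.SPB

/-! HC block SPC: gj_bound -/

set_option autoImplicit false

namespace Pool.Agent.HC

open Finset Complex Filter Topology MeasureTheory Pool.Agent.Var35 Pool.Agent.Var73
open scoped ArithmeticFunction ArithmeticFunction.Moebius

lemma SPC_log {t : ℝ} (ht : 1 ≤ |t|) : 1 ≤ Real.log (|t| + 2) := by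
  rw [Real.le_log_iff_exp_le (by linarith)]
  have := Real.exp_one_lt_d9
  linarith

/-- SPC (uses zj_bound, zeta_lower) -/
theorem gj_bound_pr (j : ℕ) : ∃ C : ℝ, 0 < C ∧ ∀ σ t : ℝ, 1 < σ → σ ≤ 2 → 1 ≤ |t| →
    ‖Pool.Agent.BG.Gj (1 : DirichletCharacter ℂ 1) j (σ + t * I)‖ ≤
      C * Real.log (|t| + 2) ^ (10 * (j + 1)) := by
  obtain ⟨c, hc, hlow⟩ := zeta_lower
  choose L hL0 hL using zj_bound
  induction j using Nat.strong_induction_on with
  | _ j ih =>
    have ih' : ∀ i : ℕ, ∃ C : ℝ, 0 < C ∧ (i < j → ∀ σ t : ℝ, 1 < σ → σ ≤ 2 → 1 ≤ |t| →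
        ‖Pool.Agent.BG.Gj (1 : DirichletCharacter ℂ 1) i (σ + t * I)‖ ≤
          C * Real.log (|t| + 2) ^ (10 * (i + 1))) := by
      intro i
      by_cases hi : i < j
      · obtain ⟨C, hC0, hC⟩ := ih i hi
        exact ⟨C, hC0, fun _ => hC⟩
      · exact ⟨1, one_pos, fun h => absurd h hi⟩
    choose K hK0 hK using ih'
    set S : ℝ := L (j + 1) + ∑ i ∈ range j, (j.choose i : ℝ) * L (j - i) * K i with hS
    have hS0 : 0 < S := by
      have h1 : 0 ≤ ∑ i ∈ range j, (j.choose i : ℝ) * L (j - i) * K i :=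
        sum_nonneg fun i _ => by have := hL0 (j - i); have := hK0 i; positivity
      have := hL0 (j + 1)
      linarith
    refine ⟨S / c, by positivity, ?_⟩
    intro σ t hσ1 hσ2 ht
    set s : ℂ := σ + t * I with hs
    have hsre : s.re = σ := by simp [hs]
    have hs1 : 1 < s.re := by rw [hsre]; exact hσ1
    set a := Real.log (|t| + 2) with ha
    have ha1 : 1 ≤ a := SPC_log ht
    have ha0 : 0 < a := by linarith
    set q := a ^ 10 with hq
    have hq0 : 0 < q := by positivity
    have hqa : a ≤ q := by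
      rw [hq]
      have h2 : a ^ 1 ≤ a ^ 10 := pow_le_pow_right₀ ha1 (by norm_num)
      rwa [pow_one] at h2
    have hlow' := hlow σ t hσ1 hσ2 ht
    rw [← hs] at hlow'
    -- recursion
    have hrec := Pool.Agent.BG.Lj_rec (1 : DirichletCharacter ℂ 1) j s hs1
    rw [sum_range_succ, Nat.choose_self, Nat.sub_self, Nat.cast_one, one_mul] at hrec
    have hG : Pool.Agent.BG.Lj (1 : DirichletCharacter ℂ 1) 0 s *
        Pool.Agent.BG.Gj (1 : DirichletCharacter ℂ 1) j s =
        Pool.Agent.BG.Lj (1 : DirichletCharacter ℂ 1) (j + 1) s -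
        ∑ i ∈ range j, (j.choose i : ℂ) * Pool.Agent.BG.Lj (1 : DirichletCharacter ℂ 1) (j - i) s *
          Pool.Agent.BG.Gj (1 : DirichletCharacter ℂ 1) i s := by
      rw [hrec]; ring
    have hnorm : ‖Pool.Agent.BG.Lj (1 : DirichletCharacter ℂ 1) 0 s‖ *
        ‖Pool.Agent.BG.Gj (1 : DirichletCharacter ℂ 1) j s‖ ≤ L (j + 1) * a ^ (j + 2) +
        ∑ i ∈ range j, (j.choose i : ℝ) * (L (j - i) * a ^ (j - i + 1)) * (K i * q ^ (i + 1)) := by
      rw [← norm_mul, hG]
      refine (norm_sub_le _ _).trans (add_le_add ?_ ?_)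
      · exact hL (j + 1) σ t hσ1 hσ2 ht
      · refine (norm_sum_le _ _).trans (sum_le_sum fun i hi => ?_)
        rw [mem_range] at hi
        rw [norm_mul, norm_mul, Complex.norm_natCast]
        have e1 := hL (j - i) σ t hσ1 hσ2 ht
        have e2 := hK i hi σ t hσ1 hσ2 ht
        rw [pow_mul, ← ha, ← hq] at e2
        refine mul_le_mul ?_ e2 (norm_nonneg _) ?_
        · exact mul_le_mul_of_nonneg_left e1 (Nat.cast_nonneg _)
        · have := hL0 (j - i)
          positivity
    -- bound of the right side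
    have hfac : ∀ k : ℕ, k ≤ j → a ^ 8 * (a ^ (k + 2) * q ^ (j - k)) ≤ q ^ (j + 1) := by
      intro k hk
      have h1 : a ^ 8 * (a ^ (k + 2) * q ^ (j - k)) = q * (a ^ k * q ^ (j - k)) := by
        rw [hq]; ring
      rw [h1]
      have h2 : a ^ k ≤ q ^ k := pow_le_pow_left₀ (by linarith) hqa k
      calc q * (a ^ k * q ^ (j - k)) ≤ q * (q ^ k * q ^ (j - k)) := by
            refine mul_le_mul_of_nonneg_left ?_ hq0.le
            exact mul_le_mul_of_nonneg_right h2 (by positivity)
        _ = q ^ (j + 1) := by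
            rw [← pow_add, Nat.add_sub_cancel' hk, ← pow_succ']
    have hRHS : (a ^ 8) * (L (j + 1) * a ^ (j + 2) +
        ∑ i ∈ range j, (j.choose i : ℝ) * (L (j - i) * a ^ (j - i + 1)) * (K i * q ^ (i + 1)))
        ≤ S * q ^ (j + 1) := by
      rw [mul_add, mul_sum, hS, add_mul, sum_mul]
      refine add_le_add ?_ (sum_le_sum fun i hi => ?_)
      · have h1 := hfac j le_rfl
        rw [Nat.sub_self, pow_zero, mul_one] at h1
        calc a ^ 8 * (L (j + 1) * a ^ (j + 2)) = L (j + 1) * (a ^ 8 * a ^ (j + 2)) := by ring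
          _ ≤ L (j + 1) * q ^ (j + 1) := mul_le_mul_of_nonneg_left h1 (hL0 _).le
      · rw [mem_range] at hi
        have h1 := hfac (j - i - 1) (by omega)
        have e1 : j - i - 1 + 2 = j - i + 1 := by omega
        have e2 : j - (j - i - 1) = i + 1 := by omega
        rw [e1, e2] at h1
        calc a ^ 8 * ((j.choose i : ℝ) * (L (j - i) * a ^ (j - i + 1)) * (K i * q ^ (i + 1)))
            = ((j.choose i : ℝ) * L (j - i) * K i) * (a ^ 8 * (a ^ (j - i + 1) * q ^ (i + 1))) := by ring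
          _ ≤ ((j.choose i : ℝ) * L (j - i) * K i) * q ^ (j + 1) := by
              refine mul_le_mul_of_nonneg_left h1 ?_
              have := hL0 (j - i); have := hK0 i; positivity
    have h8 := (mul_le_mul_of_nonneg_right hlow' (norm_nonneg _)).trans hnorm
    have h9 := mul_le_mul_of_nonneg_left h8 (by positivity : 0 ≤ a ^ 8)
    have h10 : a ^ 8 * ((c / a ^ 8) * ‖Pool.Agent.BG.Gj (1 : DirichletCharacter ℂ 1) j s‖) =
        c * ‖Pool.Agent.BG.Gj (1 : DirichletCharacter ℂ 1) j s‖ := by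
      field_simp
    rw [h10] at h9
    have h11 := h9.trans hRHS
    rw [pow_mul, ← hq, div_mul_eq_mul_div, le_div_iff₀ hc]
    linarith

alias gj_bound := gj_bound_pr

end Pool.Agent.HC
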