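import Pool.Agent.Lib_helper92.HCF.Base
import Pool.Agent.Lib_helper23.BG.Defs

/-! HC block SPD: dj_small -/

set_option autoImplicit false

namespace Pool.Agent.HC

open Finset Complex Filter Topology MeasureTheory Pool.Agent.Var35 Pool.Agent.Var73
open scoped ArithmeticFunction ArithmeticFunction.Moebius

/-- `(s - 1) ζ(s)` -/
noncomputable abbrev SPD_Z : ℂ → ℂ := DirichletCharacter.LFunctionTrivChar₁ 1

lemma SPD_Z_one : SPD_Z 1 = 1 := by
  unfold SPD_Z DirichletCharacter.LFunctionTrivChar₁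
  rw [Function.update_self]
  simp

lemma SPD_L : DirichletCharacter.LFunctionTrivChar 1 = riemannZeta := by
  unfold DirichletCharacter.LFunctionTrivChar
  exact DirichletCharacter.LFunction_modOne_eq

lemma SPD_Z_ne {s : ℂ} (hs : 1 ≤ s.re) : SPD_Z s ≠ 0 := by
  rcases eq_or_ne s 1 with rfl | hs1
  · exact DirichletCharacter.LFunctionTrivChar₁_apply_one_ne_zero 1
  · unfold SPD_Z DirichletCharacter.LFunctionTrivChar₁
    rw [Function.update_of_ne hs1]
    refine mul_ne_zero (sub_ne_zero_of_ne hs1) ?_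
    rw [SPD_L]
    exact riemannZeta_ne_zero_of_one_le_re hs

/-- the difference of the two Dirichlet series, continued -/
noncomputable def SPD_A (s : ℂ) : ℂ := -dslope SPD_Z 1 s - deriv SPD_Z s / SPD_Z s

lemma SPD_A_eq {s : ℂ} (hs : 1 < s.re) : SPD_A s = LSeries (fun n => (Λ n : ℂ)) s - LSeries 1 s := by
  have hs1 : s ≠ 1 := by
    rintro rfl
    simp at hs
  have hz : riemannZeta s ≠ 0 := riemannZeta_ne_zero_of_one_le_re hs.le
  have hs2 : s - 1 ≠ 0 := sub_ne_zero_of_ne hs1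
  rw [ArithmeticFunction.LSeries_vonMangoldt_eq_deriv_riemannZeta_div hs,
    LSeries_one_eq_riemannZeta hs]
  unfold SPD_A
  rw [dslope_of_ne _ hs1, slope_def_field, SPD_Z_one,
    DirichletCharacter.deriv_LFunctionTrivChar₁_apply_of_ne_one 1 hs1]
  unfold SPD_Z DirichletCharacter.LFunctionTrivChar₁
  rw [Function.update_of_ne hs1, SPD_L]
  field_simp
  ring

lemma SPD_A_an : AnalyticOnNhd ℂ SPD_A {s | SPD_Z s ≠ 0} := by
  have hd : Differentiable ℂ SPD_Z := DirichletCharacter.differentiable_LFunctionTrivChar₁ 1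
  have ho : IsOpen {s : ℂ | SPD_Z s ≠ 0} := isOpen_ne.preimage hd.continuous
  apply DifferentiableOn.analyticOnNhd _ ho
  unfold SPD_A
  intro s hs
  apply DifferentiableAt.differentiableWithinAt
  refine DifferentiableAt.sub ?_ ?_
  · refine DifferentiableAt.neg ?_
    have : DifferentiableOn ℂ (dslope SPD_Z 1) Set.univ :=
      (Complex.differentiableOn_dslope Filter.univ_mem).2 hd.differentiableOn
    exact (this s (Set.mem_univ s)).differentiableAt Filter.univ_mem
  · refine DifferentiableAt.div ?_ (hd s) hs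
    exact (hd.contDiff (n := 2)).differentiable_deriv_two s

lemma SPD_log (f : ℕ → ℂ) (j : ℕ) (n : ℕ) :
    (LSeries.logMul^[j] f) n = (Complex.log n) ^ j * f n := by
  induction j generalizing f with
  | zero => simp
  | succ j ih =>
    rw [Function.iterate_succ_apply, ih]
    unfold LSeries.logMul
    ring

lemma SPD_abs {f : ℕ → ℂ} (hf : ∀ s : ℂ, 1 < s.re → LSeriesSummable f s) {s : ℂ}
    (hs : 1 < s.re) : LSeries.abscissaOfAbsConv f < s.re := by
  have h1 := (hf (((1 + s.re) / 2 : ℝ) : ℂ) (by rw [Complex.ofReal_re]; linarith)).abscissaOfAbsConv_le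
  refine lt_of_le_of_lt h1 ?_
  rw [Complex.ofReal_re]
  exact_mod_cast (by linarith : (1 + s.re) / 2 < s.re)

lemma SPD_iter {s : ℂ} (hs : 1 < s.re) (j : ℕ) :
    iteratedDeriv j SPD_A s = (-1) ^ j *
      (Pool.Agent.BG.Gj (1 : DirichletCharacter ℂ 1) j s -
        Pool.Agent.BG.Lj (1 : DirichletCharacter ℂ 1) j s) := by
  have ho : IsOpen {s : ℂ | 1 < s.re} := isOpen_lt continuous_const Complex.continuous_re
  have h1 : SPD_A =ᶠ[𝓝 s] (LSeries (fun n => (Λ n : ℂ)) - LSeries 1) := by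
    filter_upwards [ho.mem_nhds hs] with z hz
    exact SPD_A_eq hz
  rw [h1.iteratedDeriv_eq]
  have a1 : LSeries.abscissaOfAbsConv (fun n => (Λ n : ℂ)) < s.re :=
    SPD_abs (fun s hs => ArithmeticFunction.LSeriesSummable_vonMangoldt hs) hs
  have a0 : LSeries.abscissaOfAbsConv (1 : ℕ → ℂ) < s.re :=
    SPD_abs (fun s hs => LSeriesSummable_one_iff.mpr hs) hs
  have d1 : ContDiffAt ℂ j (LSeries (fun n => (Λ n : ℂ))) s :=
    (LSeries_analyticOnNhd _ s a1).contDiffAt
  have d0 : ContDiffAt ℂ j (LSeries (1 : ℕ → ℂ)) s :=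
    (LSeries_analyticOnNhd _ s a0).contDiffAt
  rw [iteratedDeriv_sub d1 d0, LSeries_iteratedDeriv j a1, LSeries_iteratedDeriv j a0, ← mul_sub]
  have e0 : ∀ n : ℕ, (1 : DirichletCharacter ℂ 1) (n : ZMod 1) = 1 := by
    intro n
    have : (n : ZMod 1) = 1 := Subsingleton.elim _ _
    rw [this]; simp
  have e1 : LSeries (LSeries.logMul^[j] (fun n => (Λ n : ℂ))) s =
      Pool.Agent.BG.Gj (1 : DirichletCharacter ℂ 1) j s := by
    unfold Pool.Agent.BG.Gj
    congr 1
    funext n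
    rw [SPD_log, e0, ← Complex.natCast_log]
    push_cast
    ring
  have e2 : LSeries (LSeries.logMul^[j] (1 : ℕ → ℂ)) s =
      Pool.Agent.BG.Lj (1 : DirichletCharacter ℂ 1) j s := by
    unfold Pool.Agent.BG.Lj
    congr 1
    funext n
    rw [SPD_log, e0, ← Complex.natCast_log]
    push_cast
    simp
  rw [e1, e2]

/-- SPD : near the pole -/
theorem dj_small_pr (j : ℕ) : ∃ C : ℝ, 0 < C ∧ ∀ σ t : ℝ, 1 < σ → σ ≤ 2 → |t| ≤ 1 →
    ‖Pool.Agent.BG.Gj (1 : DirichletCharacter ℂ 1) j (σ + t * I)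
      - Pool.Agent.BG.Lj (1 : DirichletCharacter ℂ 1) j (σ + t * I)‖ ≤ C := by
  have hK : IsCompact (Set.Icc (1 : ℝ) 2 ×ℂ Set.Icc (-1 : ℝ) 1) :=
    isCompact_Icc.reProdIm isCompact_Icc
  have hc : ContinuousOn (iteratedDeriv j SPD_A) (Set.Icc (1 : ℝ) 2 ×ℂ Set.Icc (-1 : ℝ) 1) := by
    intro s hs
    apply ContinuousAt.continuousWithinAt
    have h1 : AnalyticAt ℂ (iteratedDeriv j SPD_A) s := by
      have := SPD_A_an.iterated_deriv j s (SPD_Z_ne hs.1.1)
      rwa [← iteratedDeriv_eq_iterate] at this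
    exact h1.continuousAt
  obtain ⟨C, hC⟩ := hK.exists_bound_of_continuousOn hc
  refine ⟨max C 1, lt_max_of_lt_right one_pos, ?_⟩
  intro σ t h1 h2 ht
  have h3 : ((σ : ℂ) + t * I) ∈ (Set.Icc (1 : ℝ) 2 ×ℂ Set.Icc (-1 : ℝ) 1) := by
    rw [Complex.mem_reProdIm]
    constructor
    · simp only [add_re, ofReal_re, mul_re, I_re, mul_zero, ofReal_im, I_im, mul_one, sub_self,
        add_zero]
      exact ⟨h1.le, h2⟩
    · simp only [add_im, ofReal_im, mul_im, ofReal_re, I_im, mul_one, I_re, mul_zero, add_zero,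
        zero_add]
      exact abs_le.1 ht
  have h4 := hC _ h3
  rw [SPD_iter (by simpa using h1), norm_mul, norm_pow, norm_neg, norm_one, one_pow, one_mul] at h4
  exact h4.trans (le_max_left _ _)

alias dj_small := dj_small_pr

end Pool.Agent.HC
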