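import Pool.Agent.Lib_helper92.HCF.Base
import Pool.Agent.Lib_helper23.BG.Defs
import Pool.Agent.Lib_helper23.BGF.PER
import Pool.Agent.Lib_helper92.HCF.SPA
import Pool.Agent.Lib_helper92.HCF.SPC
import Pool.Agent.Lib_helper92.HCF.SPD

/-! Block SPE: Perron's formula for the difference of the von Mangoldt function and `1`. -/

set_option autoImplicit false

namespace Pool.Agent.HC

open Finset Complex Filter Topology MeasureTheory Pool.Agent.Var35 Pool.Agent.Var73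
open scoped ArithmeticFunction ArithmeticFunction.Moebius

theorem SPE_eq (a : ℕ → ℂ) (x : ℝ) (hx : 1 ≤ x) (σ : ℝ) (hσ : 1 < σ)
    (hs : LSeriesSummable a (σ : ℂ)) :
    ∑ n ∈ Icc 1 ⌊x⌋₊, a n * ((Real.log (x / n) : ℝ) : ℂ) = (1 / (2 * Real.pi) : ℂ) *
      ∫ t : ℝ, LSeries a (σ + t * I) *
        ((x : ℂ) ^ ((σ : ℂ) + t * I) / ((σ : ℂ) + t * I) ^ 2) := by
  classical
  have hx0 : 0 < x := by linarith
  have hre : ∀ t : ℝ, ((σ : ℂ) + t * I).re = σ := by intro t; simp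
  set K : ℝ → ℂ := fun t => (x : ℂ) ^ ((σ : ℂ) + t * I) / ((σ : ℂ) + t * I) ^ 2 with hK
  have hKint : Integrable K := (Pool.Agent.BG.PER_perron (by linarith : 0 < σ) hx0).1
  set F : ℕ → ℝ → ℂ := fun n t => LSeries.term a ((σ : ℂ) + t * I) n * K t with hF
  -- the terms
  have hterm : ∀ n : ℕ, n ≠ 0 → ∀ t : ℝ, F n t =
      a n * ((((x / n : ℝ)) : ℂ) ^ ((σ : ℂ) + t * I) / ((σ : ℂ) + t * I) ^ 2) := by
    intro n hn t
    have hn0 : (0 : ℝ) < n := by exact_mod_cast Nat.pos_of_ne_zero hn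
    simp only [hF, hK, LSeries.term_of_ne_zero hn]
    have h1 : (x : ℂ) ^ ((σ : ℂ) + t * I) = (((x / n : ℝ)) : ℂ) ^ ((σ : ℂ) + t * I) *
        (n : ℂ) ^ ((σ : ℂ) + t * I) := by
      have h2 := Complex.mul_cpow_ofReal_nonneg (a := x / n) (b := (n : ℝ)) (by positivity)
        hn0.le ((σ : ℂ) + t * I)
      rw [← Complex.ofReal_mul, div_mul_cancel₀ _ hn0.ne'] at h2
      rw [h2]; simp
    have h3 : (n : ℂ) ^ ((σ : ℂ) + t * I) ≠ 0 := by
      rw [Complex.cpow_def_of_ne_zero (by exact_mod_cast hn)]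
      exact Complex.exp_ne_zero _
    rw [h1]
    field_simp
  have hzero : ∀ t : ℝ, F 0 t = 0 := by intro t; simp [hF]
  have hFint : ∀ n, Integrable (F n) := by
    intro n
    rcases eq_or_ne n 0 with rfl | hn
    · have : F 0 = fun _ => 0 := funext hzero
      rw [this]; exact integrable_zero _ _ _
    · have : F n = fun t : ℝ => a n * ((((x / n : ℝ)) : ℂ) ^ ((σ : ℂ) + t * I) /
          ((σ : ℂ) + t * I) ^ 2) := funext (hterm n hn)
      rw [this]
      have hn0 : (0 : ℝ) < n := by exact_mod_cast Nat.pos_of_ne_zero hn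
      exact ((Pool.Agent.BG.PER_perron (by linarith : 0 < σ) (by positivity : 0 < x / n)).1).const_mul _
  have hval : ∀ n : ℕ, n ≠ 0 → ∫ t, F n t = a n * (2 * Real.pi * (max 0 (Real.log (x / n)) : ℝ)) := by
    intro n hn
    have hn0 : (0 : ℝ) < n := by exact_mod_cast Nat.pos_of_ne_zero hn
    have : F n = fun t : ℝ => a n * ((((x / n : ℝ)) : ℂ) ^ ((σ : ℂ) + t * I) /
          ((σ : ℂ) + t * I) ^ 2) := funext (hterm n hn)
    rw [this, integral_const_mul,
      (Pool.Agent.BG.PER_perron (by linarith : 0 < σ) (by positivity : 0 < x / n)).2]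
  have hnorm : ∀ n t, ‖F n t‖ = ‖LSeries.term a (σ : ℂ) n‖ * ‖K t‖ := by
    intro n t
    simp only [hF, norm_mul]
    congr 1
    rw [LSeries.norm_term_eq, LSeries.norm_term_eq, hre]
    simp
  have hsum : Summable fun n => ∫ t, ‖F n t‖ := by
    have : (fun n => ∫ t, ‖F n t‖) = fun n => ‖LSeries.term a (σ : ℂ) n‖ * ∫ t, ‖K t‖ := by
      funext n
      simp_rw [hnorm n]
      rw [integral_const_mul]
    rw [this]
    exact (hs.norm).mul_right _
  have hmain := hasSum_integral_of_summable_integral_norm hFint hsum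
  have hG : ∀ t : ℝ, ∑' n, F n t = LSeries a (σ + t * I) * K t := by
    intro t
    simp only [hF]
    rw [tsum_mul_right]
    rfl
  simp_rw [hG] at hmain
  have hfin : HasSum (fun n => ∫ t, F n t) (∑ n ∈ Icc 1 ⌊x⌋₊, ∫ t, F n t) := by
    refine hasSum_sum_of_ne_finset_zero fun n hn => ?_
    rcases eq_or_ne n 0 with rfl | hn0
    · simp_rw [hzero]; simp
    · rw [hval n hn0]
      have hn1 : ⌊x⌋₊ < n := by
        by_contra hcon
        exact hn (mem_Icc.2 ⟨Nat.one_le_iff_ne_zero.2 hn0, not_lt.1 hcon⟩)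
      have hn2 : x < n := (Nat.floor_lt hx0.le).1 hn1
      have hnpos : (0 : ℝ) < n := hx0.trans hn2
      have : Real.log (x / n) ≤ 0 := Real.log_nonpos (by positivity) ((div_le_one hnpos).2 hn2.le)
      rw [max_eq_left this]; simp
  have heq := hmain.unique hfin
  rw [heq, Finset.mul_sum]
  refine Finset.sum_congr rfl fun n hn => ?_
  rw [mem_Icc] at hn
  have hn0 : n ≠ 0 := by omega
  have hnpos : (0 : ℝ) < n := by exact_mod_cast Nat.pos_of_ne_zero hn0
  have hnx : (n : ℝ) ≤ x := (Nat.le_floor_iff hx0.le).1 hn.2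
  rw [hval n hn0, max_eq_right (Real.log_nonneg ((one_le_div hnpos).2 hnx))]
  have hpi : (Real.pi : ℂ) ≠ 0 := by exact_mod_cast Real.pi_ne_zero
  field_simp

/-- The elementary bound used for integrability. -/
theorem SPE_log_pow (m : ℕ) (hm : 0 < m) : ∃ K : ℝ, 0 < K ∧ ∀ t : ℝ,
    (1 + Real.log (|t| + 2)) ^ m / (1 + t ^ 2) ≤ K * (1 + ‖t‖) ^ (-(3 / 2 : ℝ)) := by
  set e : ℝ := 1 / (2 * m) with he
  have hmpos : (0 : ℝ) < m := by exact_mod_cast hm
  have hepos : 0 < e := by positivity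
  refine ⟨(1 + 1 / e) ^ m * 2 * 2, by positivity, fun t => ?_⟩
  have ht := abs_nonneg t
  have hy : 0 < |t| + 2 := by positivity
  have h1 : 1 + Real.log (|t| + 2) ≤ (1 + 1 / e) * (|t| + 2) ^ e := by
    have h2 := Real.log_le_rpow_div hy.le hepos
    have h3 : 1 ≤ (|t| + 2) ^ e := Real.one_le_rpow (by linarith) hepos.le
    have h4 : (|t| + 2) ^ e / e = 1 / e * (|t| + 2) ^ e := by ring
    linarith
  have h0 : 0 ≤ 1 + Real.log (|t| + 2) := by
    have := Real.log_nonneg (by linarith : (1 : ℝ) ≤ |t| + 2)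
    linarith
  have h5 : (1 + Real.log (|t| + 2)) ^ m ≤ (1 + 1 / e) ^ m * (|t| + 2) ^ (1 / 2 : ℝ) := by
    calc (1 + Real.log (|t| + 2)) ^ m ≤ ((1 + 1 / e) * (|t| + 2) ^ e) ^ m :=
          pow_le_pow_left₀ h0 h1 m
      _ = (1 + 1 / e) ^ m * (|t| + 2) ^ (1 / 2 : ℝ) := by
          rw [mul_pow, ← Real.rpow_natCast ((|t| + 2) ^ e) m, ← Real.rpow_mul hy.le]
          congr 2
          rw [he]
          field_simp
  have h6 : (|t| + 2) ^ (1 / 2 : ℝ) ≤ 2 * (1 + |t|) ^ (1 / 2 : ℝ) := by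
    calc (|t| + 2) ^ (1 / 2 : ℝ) ≤ (4 * (1 + |t|)) ^ (1 / 2 : ℝ) :=
          Real.rpow_le_rpow hy.le (by linarith) (by norm_num)
      _ = 2 * (1 + |t|) ^ (1 / 2 : ℝ) := by
          rw [Real.mul_rpow (by norm_num) (by positivity)]
          congr 1
          rw [show (4 : ℝ) = 2 ^ (2 : ℝ) by norm_num, ← Real.rpow_mul (by norm_num)]
          norm_num
  have h7 : (1 + |t|) ^ 2 / 2 ≤ 1 + t ^ 2 := by
    have : t ^ 2 = |t| ^ 2 := (sq_abs t).symm
    rw [this]
    nlinarith [sq_nonneg (|t| - 1)]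
  have hu : 0 < 1 + |t| := by positivity
  have h8 : (1 + |t|) ^ (-(3 / 2 : ℝ)) = (1 + |t|) ^ (1 / 2 : ℝ) / (1 + |t|) ^ 2 := by
    rw [← Real.rpow_natCast (1 + |t|) 2, ← Real.rpow_sub hu]
    norm_num
  rw [Real.norm_eq_abs, h8]
  calc (1 + Real.log (|t| + 2)) ^ m / (1 + t ^ 2)
      ≤ ((1 + 1 / e) ^ m * (2 * (1 + |t|) ^ (1 / 2 : ℝ))) / ((1 + |t|) ^ 2 / 2) := by
        apply div_le_div₀ (by positivity) _ (by positivity) h7
        exact h5.trans (mul_le_mul_of_nonneg_left h6 (by positivity))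
    _ = (1 + 1 / e) ^ m * 2 * 2 * ((1 + |t|) ^ (1 / 2 : ℝ) / (1 + |t|) ^ 2) := by
        field_simp

theorem SPE_char (n : ℕ) : (1 : DirichletCharacter ℂ 1) (n : ZMod 1) = 1 :=
  MulChar.one_apply (isUnit_of_subsingleton _)

theorem SPE_summable (j : ℕ) (s : ℂ) (hs : 1 < s.re) :
    LSeriesSummable (fun n => (1 : DirichletCharacter ℂ 1) (n : ZMod 1) *
      (((Real.log n) ^ j : ℝ) : ℂ)) s := by
  set ε : ℝ := (s.re - 1) / (2 * (j + 1)) with hε
  have hε0 : 0 < ε := by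
    apply div_pos (by linarith) (by positivity)
  have hx1 : 1 + j * ε < s.re := by
    rw [hε]
    have : (j : ℝ) * ((s.re - 1) / (2 * (j + 1))) = (s.re - 1) * (j / (2 * (j + 1))) := by
      field_simp
    rw [this]
    have h2 : (j : ℝ) / (2 * (j + 1)) < 1 := by
      rw [div_lt_one (by positivity)]
      linarith
    nlinarith
  refine LSeriesSummable_of_le_const_mul_rpow (x := 1 + j * ε) hx1
    ⟨(1 / ε) ^ j, fun n hn => ?_⟩
  have hlog : 0 ≤ Real.log n := Real.log_natCast_nonneg n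
  have h1 : Real.log n ≤ (n : ℝ) ^ ε / ε := Real.log_natCast_le_rpow_div n hε0
  have h2 : ‖(1 : DirichletCharacter ℂ 1) (n : ZMod 1) * (((Real.log n) ^ j : ℝ) : ℂ)‖ ≤
      Real.log n ^ j := by
    rw [norm_mul, Complex.norm_real, Real.norm_eq_abs, abs_of_nonneg (pow_nonneg hlog j),
      SPE_char, norm_one, one_mul]
  refine h2.trans ((pow_le_pow_left₀ hlog h1 _).trans (le_of_eq ?_))
  rw [div_pow, one_div, inv_pow, ← Real.rpow_natCast ((n : ℝ) ^ ε), ← Real.rpow_mul (Nat.cast_nonneg n)]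
  have : ε * (j : ℝ) = 1 + j * ε - 1 := by ring
  rw [this, div_eq_inv_mul]

theorem pj_bound_pr (j : ℕ) : ∃ C : ℝ, 0 < C ∧ ∀ x : ℝ, 2 ≤ x →
    |∑ n ∈ Icc 1 ⌊x⌋₊, (Lam n - 1) * Real.log n ^ j * Real.log (x / n)| ≤ C * x := by
  obtain ⟨C1, hC1, hG⟩ := gj_bound j
  obtain ⟨C2, hC2, hL⟩ := zj_bound j
  obtain ⟨C3, hC3, hD⟩ := dj_small j
  obtain ⟨K, hK, hKb⟩ := SPE_log_pow (10 * (j + 1)) (by positivity)
  set C : ℝ := C1 + C2 + C3 with hC
  have hC0 : 0 < C := by positivity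
  set J : ℝ := ∫ t : ℝ, (1 + ‖t‖) ^ (-(3 / 2 : ℝ)) with hJ
  have hJ0 : 0 ≤ J := MeasureTheory.integral_nonneg fun t => by positivity
  refine ⟨C * Real.exp 1 * K * (J + 1), by positivity, ?_⟩
  intro x hx
  have hxpos : 0 < x := by linarith
  have hlogx : 1 / 2 ≤ Real.log x := by
    have h1 := Real.log_two_gt_d9
    have h2 := Real.log_le_log (by norm_num : (0:ℝ) < 2) hx
    linarith
  set σ : ℝ := 1 + 1 / (2 * Real.log x) with hσ
  have hσ1 : 1 < σ := by
    have : 0 < 1 / (2 * Real.log x) := by positivity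
    linarith
  have hσ2 : σ ≤ 2 := by
    have : 1 / (2 * Real.log x) ≤ 1 := by
      rw [div_le_one (by linarith)]; linarith
    linarith
  set a : ℕ → ℂ := fun n => (((Λ n - 1) * Real.log n ^ j : ℝ) : ℂ) with ha
  have haeq : a = (fun n : ℕ => ((Λ n : ℝ) : ℂ) * (1 : DirichletCharacter ℂ 1) (n : ZMod 1) *
      (((Real.log n) ^ j : ℝ) : ℂ)) - (fun n : ℕ => (1 : DirichletCharacter ℂ 1) (n : ZMod 1) *
      (((Real.log n) ^ j : ℝ) : ℂ)) := by
    funext n
    simp only [ha, Pi.sub_apply, SPE_char]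
    push_cast
    ring
  have hs1 : ∀ s : ℂ, 1 < s.re → LSeriesSummable (fun n : ℕ => ((Λ n : ℝ) : ℂ) *
      (1 : DirichletCharacter ℂ 1) (n : ZMod 1) * (((Real.log n) ^ j : ℝ) : ℂ)) s :=
    fun s hs => Pool.Agent.BG.PER_summable (1 : DirichletCharacter ℂ 1) j s hs
  have hs2 := SPE_summable j
  have hsa : ∀ s : ℂ, 1 < s.re → LSeriesSummable a s := by
    intro s hs
    rw [haeq]
    exact (hs1 s hs).sub (hs2 s hs)
  have hLa : ∀ t : ℝ, LSeries a (σ + t * I) =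
      Pool.Agent.BG.Gj (1 : DirichletCharacter ℂ 1) j (σ + t * I)
        - Pool.Agent.BG.Lj (1 : DirichletCharacter ℂ 1) j (σ + t * I) := by
    intro t
    have hre : 1 < ((σ : ℂ) + t * I).re := by simpa using hσ1
    rw [haeq, LSeries_sub (hs1 _ hre) (hs2 _ hre)]
    rfl
  have hmain := SPE_eq a x (by linarith) σ hσ1 (hsa _ (by simpa using hσ1))
  have hcast : ((∑ n ∈ Icc 1 ⌊x⌋₊, (Lam n - 1) * Real.log n ^ j * Real.log (x / n) : ℝ) : ℂ) =
      ∑ n ∈ Icc 1 ⌊x⌋₊, a n * ((Real.log (x / n) : ℝ) : ℂ) := by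
    push_cast
    refine Finset.sum_congr rfl fun n _ => ?_
    simp only [ha, Lam]
    push_cast
    ring
  have hxσ : x ^ σ ≤ Real.exp 1 * x := by
    rw [Real.rpow_def_of_pos hxpos, hσ, mul_add, mul_one, Real.exp_add, Real.exp_log hxpos]
    have : Real.log x * (1 / (2 * Real.log x)) = 1 / 2 := by
      have : Real.log x ≠ 0 := by positivity
      field_simp
    rw [this, mul_comm]
    have h1 : Real.exp (1 / 2) ≤ Real.exp 1 := Real.exp_le_exp.2 (by norm_num)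
    exact mul_le_mul_of_nonneg_right h1 hxpos.le
  -- bound of the difference
  have hdiff : ∀ t : ℝ, ‖LSeries a (σ + t * I)‖ ≤
      C * (1 + Real.log (|t| + 2)) ^ (10 * (j + 1)) := by
    intro t
    have hl : 0 ≤ Real.log (|t| + 2) := Real.log_nonneg (by linarith [abs_nonneg t])
    have h1l : 1 ≤ 1 + Real.log (|t| + 2) := by linarith
    rw [hLa]
    rcases le_or_gt 1 |t| with h | h
    · have h1 := hG σ t hσ1 hσ2 h
      have h2 := hL σ t hσ1 hσ2 h
      have h3 : Real.log (|t| + 2) ^ (10 * (j + 1)) ≤ (1 + Real.log (|t| + 2)) ^ (10 * (j + 1)) :=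
        pow_le_pow_left₀ hl (by linarith) _
      have h4 : Real.log (|t| + 2) ^ (j + 1) ≤ (1 + Real.log (|t| + 2)) ^ (10 * (j + 1)) :=
        (pow_le_pow_left₀ hl (by linarith) _).trans (pow_le_pow_right₀ h1l (by omega))
      have h5 : 0 ≤ (1 + Real.log (|t| + 2)) ^ (10 * (j + 1)) := by positivity
      calc _ ≤ ‖Pool.Agent.BG.Gj (1 : DirichletCharacter ℂ 1) j (σ + t * I)‖ +
            ‖Pool.Agent.BG.Lj (1 : DirichletCharacter ℂ 1) j (σ + t * I)‖ := norm_sub_le _ _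
        _ ≤ C1 * (1 + Real.log (|t| + 2)) ^ (10 * (j + 1)) +
            C2 * (1 + Real.log (|t| + 2)) ^ (10 * (j + 1)) :=
          add_le_add (h1.trans (mul_le_mul_of_nonneg_left h3 hC1.le))
            (h2.trans (mul_le_mul_of_nonneg_left h4 hC2.le))
        _ ≤ _ := by rw [hC]; nlinarith
    · have h1 := hD σ t hσ1 hσ2 h.le
      have h5 : 1 ≤ (1 + Real.log (|t| + 2)) ^ (10 * (j + 1)) := one_le_pow₀ h1l
      calc _ ≤ C3 := h1
        _ ≤ C * 1 := by rw [hC]; linarith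
        _ ≤ _ := mul_le_mul_of_nonneg_left h5 hC0.le
  have hbound : ∀ t : ℝ, ‖LSeries a (σ + t * I) * ((x : ℂ) ^ ((σ : ℂ) + t * I) /
      ((σ : ℂ) + t * I) ^ 2)‖ ≤ (C * Real.exp 1 * K * x) * (1 + ‖t‖) ^ (-(3 / 2 : ℝ)) := by
    intro t
    rw [norm_mul, norm_div, norm_pow, Complex.norm_cpow_eq_rpow_re_of_pos hxpos]
    have hre : ((σ : ℂ) + t * I).re = σ := by simp
    rw [hre]
    have hnsq : ‖((σ : ℂ) + t * I)‖ ^ 2 = σ ^ 2 + t ^ 2 := by
      rw [← Complex.normSq_eq_norm_sq, Complex.normSq_apply]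
      simp
      ring
    rw [hnsq]
    have h3 : (1 : ℝ) + t ^ 2 ≤ σ ^ 2 + t ^ 2 := by nlinarith
    have hl0 : 0 ≤ 1 + Real.log (|t| + 2) := by
      have := Real.log_nonneg (by linarith [abs_nonneg t] : (1 : ℝ) ≤ |t| + 2)
      linarith
    calc ‖LSeries a (σ + t * I)‖ * (x ^ σ / (σ ^ 2 + t ^ 2))
        ≤ (C * (1 + Real.log (|t| + 2)) ^ (10 * (j + 1))) * (Real.exp 1 * x / (1 + t ^ 2)) := by
          apply mul_le_mul (hdiff t) _ (by positivity) (by positivity)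
          exact div_le_div₀ (by positivity) hxσ (by positivity) h3
      _ = (C * Real.exp 1 * x) * ((1 + Real.log (|t| + 2)) ^ (10 * (j + 1)) / (1 + t ^ 2)) := by
          ring
      _ ≤ (C * Real.exp 1 * x) * (K * (1 + ‖t‖) ^ (-(3 / 2 : ℝ))) :=
          mul_le_mul_of_nonneg_left (hKb t) (by positivity)
      _ = (C * Real.exp 1 * K * x) * (1 + ‖t‖) ^ (-(3 / 2 : ℝ)) := by ring
  have hint : MeasureTheory.Integrable (fun t : ℝ => (C * Real.exp 1 * K * x) *
      (1 + ‖t‖) ^ (-(3 / 2 : ℝ))) := by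
    apply MeasureTheory.Integrable.const_mul
    exact integrable_one_add_norm (by simp; norm_num)
  have h4 := MeasureTheory.norm_integral_le_of_norm_le hint (Filter.Eventually.of_forall hbound)
  rw [MeasureTheory.integral_const_mul, ← hJ] at h4
  rw [← Real.norm_eq_abs, ← Complex.norm_real, hcast, hmain, norm_mul]
  have h5 : ‖(1 / (2 * Real.pi) : ℂ)‖ ≤ 1 := by
    have : (1 / (2 * Real.pi) : ℂ) = ((1 / (2 * Real.pi) : ℝ) : ℂ) := by push_cast; ring
    rw [this, Complex.norm_real, Real.norm_eq_abs, abs_of_nonneg (by positivity),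
      div_le_one (by positivity)]
    have := Real.pi_gt_three
    linarith
  calc ‖(1 / (2 * Real.pi) : ℂ)‖ * ‖∫ t : ℝ, LSeries a (σ + t * I) * ((x : ℂ) ^ ((σ : ℂ) + t * I) /
        ((σ : ℂ) + t * I) ^ 2)‖ ≤ 1 * ((C * Real.exp 1 * K * x) * J) := by
        exact mul_le_mul h5 h4 (norm_nonneg _) (by norm_num)
    _ ≤ C * Real.exp 1 * K * (J + 1) * x := by
        have : 0 ≤ C * Real.exp 1 * K * x := by positivity
        nlinarith

alias pj_bound := pj_bound_pr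

end Pool.Agent.HC
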