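import Pool.Agent.Lib_helper92.HCF.Base
import Pool.Agent.Lib_helper23.BG.Defs
import Pool.Agent.Lib_helper92.HCF.SPE

/-! Block SPF: the prime number theorem with an arbitrary power of the logarithm. -/

set_option autoImplicit false

namespace Pool.Agent.HC

open Finset Complex Filter Topology MeasureTheory Pool.Agent.Var35 Pool.Agent.Var73
open scoped ArithmeticFunction ArithmeticFunction.Moebius

noncomputable def SPF_c (j n : ℕ) : ℝ := (Lam n - 1) * Real.log n ^ j

noncomputable def SPF_P (j : ℕ) (y : ℝ) : ℝ :=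
  ∑ n ∈ Icc 1 ⌊y⌋₊, SPF_c j n * Real.log (y / n)

noncomputable def SPF_E (j : ℕ) (y : ℝ) : ℝ := ∑ n ∈ Icc 1 ⌊y⌋₊, SPF_c j n

theorem SPF_split {a b : ℕ} (hab : a ≤ b) (f : ℕ → ℝ) :
    ∑ n ∈ Icc 1 b, f n = ∑ n ∈ Icc 1 a, f n + ∑ n ∈ Ioc a b, f n := by
  have h1 : Icc 1 b = Icc 1 a ∪ Ioc a b := by
    ext n
    simp only [mem_union, mem_Icc, mem_Ioc]
    omega
  rw [h1, sum_union]
  rw [disjoint_left]
  intro n
  simp only [mem_Icc, mem_Ioc]
  omega

theorem SPF_key {j : ℕ} {x y : ℝ} (hx : 0 < x) (hxy : x < y) (hy : 1 ≤ y) :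
    Real.log (y / x) * SPF_E j x ≤ SPF_P j y - SPF_P j x +
      Real.log (y / x) * ((y - x + 1) * Real.log y ^ j) ∧
    SPF_P j y - SPF_P j x - Real.log (y / x) * ((y - x + 1) * Real.log y ^ j) ≤
      Real.log (y / x) * SPF_E j y := by
  set L : ℝ := Real.log (y / x) with hL
  have hy0 : 0 < y := by linarith
  have hL0 : 0 ≤ L := Real.log_nonneg (by rw [le_div_iff₀ hx]; linarith)
  have hfl : ⌊x⌋₊ ≤ ⌊y⌋₊ := Nat.floor_le_floor hxy.le
  have hlogy : 0 ≤ Real.log y := Real.log_nonneg hy
  -- facts on the middle range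
  have hmid : ∀ n ∈ Ioc ⌊x⌋₊ ⌊y⌋₊, 0 ≤ Real.log (y / n) ∧ Real.log (y / n) ≤ L ∧
      - Real.log y ^ j ≤ SPF_c j n := by
    intro n hn
    rw [mem_Ioc] at hn
    have hn0 : 0 < n := by omega
    have hn1 : (1 : ℝ) ≤ n := by exact_mod_cast hn0
    have hnx : x < n := (Nat.floor_lt hx.le).1 hn.1
    have hny : (n : ℝ) ≤ y := (Nat.le_floor_iff hy0.le).1 hn.2
    refine ⟨Real.log_nonneg (by rw [le_div_iff₀ (by linarith)]; linarith), ?_, ?_⟩
    · exact Real.log_le_log (by positivity) (div_le_div_of_nonneg_left hy0.le hx hnx.le)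
    · unfold SPF_c
      have h1 : 0 ≤ Lam n := ArithmeticFunction.vonMangoldt_nonneg
      have h2 : 0 ≤ Real.log n := Real.log_nonneg hn1
      have h3 : Real.log n ^ j ≤ Real.log y ^ j :=
        pow_le_pow_left₀ h2 (Real.log_le_log (by linarith) hny) j
      have h4 : 0 ≤ Real.log n ^ j := by positivity
      nlinarith [mul_nonneg h1 h4]
  have hcard : ((Ioc ⌊x⌋₊ ⌊y⌋₊).card : ℝ) ≤ y - x + 1 := by
    rw [Nat.card_Ioc, Nat.cast_sub hfl]
    have h1 := Nat.floor_le hy0.le
    have h2 := Nat.lt_floor_add_one x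
    linarith
  have hpow : 0 ≤ Real.log y ^ j := by positivity
  have hconst : -(L * ((y - x + 1) * Real.log y ^ j)) ≤
      ∑ n ∈ Ioc ⌊x⌋₊ ⌊y⌋₊, -(Real.log y ^ j * L) := by
    rw [sum_const, nsmul_eq_mul]
    have h1 : 0 ≤ Real.log y ^ j * L := mul_nonneg hpow hL0
    nlinarith [mul_le_mul_of_nonneg_right hcard h1]
  have hPx : SPF_P j y - SPF_P j x =
      L * SPF_E j x + ∑ n ∈ Ioc ⌊x⌋₊ ⌊y⌋₊, SPF_c j n * Real.log (y / n) := by
    unfold SPF_P SPF_E
    rw [SPF_split hfl, mul_sum]
    have h1 : ∀ n ∈ Icc 1 ⌊x⌋₊, SPF_c j n * Real.log (y / n) =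
        SPF_c j n * Real.log (x / n) + L * SPF_c j n := by
      intro n hn
      rw [mem_Icc] at hn
      have hn0 : (0 : ℝ) < n := by exact_mod_cast hn.1
      have h2 : Real.log (y / n) = Real.log (x / n) + L := by
        rw [hL, ← Real.log_mul (by positivity) (by positivity)]
        congr 1
        field_simp
      rw [h2]; ring
    rw [sum_congr rfl h1, sum_add_distrib]
    ring
  constructor
  · have h1 : ∑ n ∈ Ioc ⌊x⌋₊ ⌊y⌋₊, -(Real.log y ^ j * L) ≤
        ∑ n ∈ Ioc ⌊x⌋₊ ⌊y⌋₊, SPF_c j n * Real.log (y / n) := by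
      refine sum_le_sum fun n hn => ?_
      obtain ⟨h2, h3, h4⟩ := hmid n hn
      nlinarith [mul_nonneg h2 (sub_nonneg.2 h4), mul_nonneg hpow (sub_nonneg.2 h3)]
    linarith
  · have hE : L * SPF_E j y = L * SPF_E j x + ∑ n ∈ Ioc ⌊x⌋₊ ⌊y⌋₊, L * SPF_c j n := by
      unfold SPF_E
      rw [SPF_split hfl, mul_add, ← mul_sum]
    have h1 : ∑ n ∈ Ioc ⌊x⌋₊ ⌊y⌋₊, -(Real.log y ^ j * L) ≤
        ∑ n ∈ Ioc ⌊x⌋₊ ⌊y⌋₊, (L * SPF_c j n - SPF_c j n * Real.log (y / n)) := by
      refine sum_le_sum fun n hn => ?_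
      obtain ⟨h2, h3, h4⟩ := hmid n hn
      nlinarith [mul_nonneg (sub_nonneg.2 h3) (sub_nonneg.2 h4), mul_nonneg hpow h2]
    rw [sum_sub_distrib] at h1
    linarith

theorem SPF_P_bound (j : ℕ) (hj : 1 ≤ j) : ∃ C : ℝ, 0 < C ∧ ∀ y : ℝ, 0 ≤ y →
    |SPF_P j y| ≤ C * y := by
  obtain ⟨C, hC, h⟩ := pj_bound j
  refine ⟨C, hC, fun y hy => ?_⟩
  rcases le_or_gt 2 y with h2 | h2
  · exact h y h2
  · have h3 : SPF_P j y = 0 := by
      unfold SPF_P
      refine sum_eq_zero fun n hn => ?_
      rw [mem_Icc] at hn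
      have hfl : ⌊y⌋₊ < 2 := (Nat.floor_lt hy).2 (by exact_mod_cast h2)
      have hn1 : n = 1 := by omega
      subst hn1
      have : SPF_c j 1 = 0 := by
        unfold SPF_c
        rw [Nat.cast_one, Real.log_one, zero_pow (by omega), mul_zero]
      rw [this, zero_mul]
    rw [h3, abs_zero]
    positivity

theorem SPF_pow (p : ℕ) : ∃ C : ℝ, 1 ≤ C ∧ ∀ x : ℝ, 1 ≤ x → (1 + Real.log x) ^ p ≤ C * √x := by
  refine ⟨(1 + 2 * ((p : ℝ) + 1)) ^ p, one_le_pow₀ (by
    have : (0 : ℝ) ≤ p := Nat.cast_nonneg p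
    linarith), fun x hx => ?_⟩
  set e : ℝ := 1 / (2 * ((p : ℝ) + 1)) with he
  have hp : (0 : ℝ) ≤ p := Nat.cast_nonneg p
  have he0 : 0 < e := by positivity
  have hx0 : 0 < x := by linarith
  have h1 : Real.log x ≤ x ^ e / e := Real.log_le_rpow_div hx0.le he0
  have h2 : 1 ≤ x ^ e := Real.one_le_rpow hx he0.le
  have h3 : 1 + Real.log x ≤ (1 + 2 * ((p : ℝ) + 1)) * x ^ e := by
    have : x ^ e / e = 2 * ((p : ℝ) + 1) * x ^ e := by
      rw [he]
      field_simp
    rw [this] at h1
    linarith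
  have h0 : 0 ≤ 1 + Real.log x := by
    have := Real.log_nonneg hx
    linarith
  calc (1 + Real.log x) ^ p ≤ ((1 + 2 * ((p : ℝ) + 1)) * x ^ e) ^ p := pow_le_pow_left₀ h0 h3 p
    _ = (1 + 2 * ((p : ℝ) + 1)) ^ p * x ^ (e * p) := by
        rw [mul_pow, ← Real.rpow_natCast (x ^ e) p, ← Real.rpow_mul hx0.le]
    _ ≤ (1 + 2 * ((p : ℝ) + 1)) ^ p * √x := by
        apply mul_le_mul_of_nonneg_left _ (by positivity)
        rw [Real.sqrt_eq_rpow]
        apply Real.rpow_le_rpow_of_exponent_le hx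
        rw [he]
        rw [div_mul_eq_mul_div, one_mul, div_le_div_iff₀ (by positivity) (by norm_num)]
        linarith

/-- The bound for the weighted sum. -/
theorem SPF_E_bound (m : ℕ) (hm : 1 ≤ m) : ∃ K : ℝ, 0 < K ∧ ∀ x : ℝ, 2 ≤ x →
    |SPF_E (2 * m) x| ≤ K * x * (1 + Real.log x) ^ m := by
  obtain ⟨C, hC, hP⟩ := SPF_P_bound (2 * m) (by omega)
  obtain ⟨D, hD, hpow⟩ := SPF_pow m
  refine ⟨6 * C + 1 + D, by positivity, fun x hx => ?_⟩
  have hx0 : 0 < x := by linarith
  have hlog : 0 < Real.log x := Real.log_pos (by linarith)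
  set l : ℝ := 1 + Real.log x with hl
  have hl1 : 1 < l := by rw [hl]; linarith
  have hlm : 1 < l ^ m := one_lt_pow₀ hl1 (by omega)
  have hlm0 : 0 < l ^ m := by linarith
  set h : ℝ := x / l ^ m with hh
  have hh0 : 0 < h := by positivity
  have hhx : h < x := by
    rw [hh, div_lt_iff₀ hlm0]
    nlinarith
  have hxh : x / h = l ^ m := by
    rw [hh]
    field_simp
  -- bound of `(h + 1) * log ^ j`
  have hlogp : ∀ y : ℝ, 1 ≤ y → y ≤ 2 * x →
      (h + 1) * Real.log y ^ (2 * m) ≤ (1 + D) * x * l ^ m := by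
    intro y hy1 hy
    have h1 : Real.log y ≤ l := by
      have h2 := Real.log_le_log (by linarith) hy
      rw [Real.log_mul (by norm_num) hx0.ne'] at h2
      have h3 := Real.log_two_lt_d9
      rw [hl]
      linarith
    have h2 : Real.log y ^ (2 * m) ≤ l ^ (2 * m) :=
      pow_le_pow_left₀ (Real.log_nonneg hy1) h1 _
    have h3 : l ^ (2 * m) = l ^ m * l ^ m := by rw [two_mul, pow_add]
    have h4 : l ^ m ≤ D * x := by
      have h5 := hpow x (by linarith)
      have h6 : √x ≤ x := by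
        rw [Real.sqrt_le_left hx0.le]
        nlinarith
      calc l ^ m ≤ D * √x := h5
        _ ≤ D * x := by nlinarith
    have h7 : h * l ^ m = x := by
      rw [hh]
      field_simp
    calc (h + 1) * Real.log y ^ (2 * m) ≤ (h + 1) * (l ^ m * l ^ m) := by
          rw [← h3]
          exact mul_le_mul_of_nonneg_left h2 (by positivity)
      _ = (h * l ^ m) * l ^ m + l ^ m * l ^ m := by ring
      _ ≤ x * l ^ m + (D * x) * l ^ m := by
          rw [h7]
          have := mul_le_mul_of_nonneg_right h4 hlm0.le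
          linarith
      _ = (1 + D) * x * l ^ m := by ring
  have hup : SPF_E (2 * m) x ≤ (6 * C + 1 + D) * x * l ^ m := by
    have hy1 : 1 ≤ x + h := by linarith
    obtain ⟨h1, -⟩ := SPF_key (j := 2 * m) hx0 (by linarith : x < x + h) hy1
    have hL : h / (2 * x) ≤ Real.log ((x + h) / x) := by
      have h2 := Real.one_sub_inv_le_log_of_pos (by positivity : 0 < (x + h) / x)
      refine le_trans ?_ h2
      have h3 : 1 - ((x + h) / x)⁻¹ = h / (x + h) := by
        field_simp
        ring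
      rw [h3]
      exact div_le_div_of_nonneg_left hh0.le (by positivity) (by linarith)
    have hL0 : 0 < Real.log ((x + h) / x) := lt_of_lt_of_le (by positivity) hL
    have h4 := abs_le.1 (hP (x + h) (by linarith))
    have h5 := abs_le.1 (hP x hx0.le)
    have h6 := hlogp (x + h) hy1 (by linarith)
    have h7 : x + h - x + 1 = h + 1 := by ring
    rw [h7] at h1
    have h8 : Real.log ((x + h) / x) * (SPF_E (2 * m) x - (1 + D) * x * l ^ m) ≤ 3 * C * x := by
      nlinarith [mul_le_mul_of_nonneg_left h6 hL0.le]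
    have h9 : SPF_E (2 * m) x - (1 + D) * x * l ^ m ≤ 6 * C * x * l ^ m := by
      by_contra hcon
      have hcon := not_le.1 hcon
      have h10 : h / (2 * x) * (6 * C * x * l ^ m) < 
          Real.log ((x + h) / x) * (SPF_E (2 * m) x - (1 + D) * x * l ^ m) := by
        apply mul_lt_mul' hL hcon (by positivity) hL0
      have h11 : h / (2 * x) * (6 * C * x * l ^ m) = 3 * C * (h * l ^ m) := by
        field_simp
        ring
      have h12 : h * l ^ m = x := by
        rw [hh]
        field_simp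
      rw [h11, h12] at h10
      linarith
    linarith
  have hdown : -((6 * C + 1 + D) * x * l ^ m) ≤ SPF_E (2 * m) x := by
    have hxh0 : 0 < x - h := by linarith
    obtain ⟨-, h1⟩ := SPF_key (j := 2 * m) hxh0 (by linarith : x - h < x) (by linarith)
    have hL : h / x ≤ Real.log (x / (x - h)) := by
      have h2 := Real.one_sub_inv_le_log_of_pos (by positivity : 0 < x / (x - h))
      refine le_trans (le_of_eq ?_) h2
      field_simp
      ring
    have hL0 : 0 < Real.log (x / (x - h)) := lt_of_lt_of_le (by positivity) hL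
    have h4 := abs_le.1 (hP x hx0.le)
    have h5 := abs_le.1 (hP (x - h) hxh0.le)
    have h6 := hlogp x (by linarith) (by linarith)
    have h7 : x - (x - h) + 1 = h + 1 := by ring
    rw [h7] at h1
    have h8 : -(2 * C * x) ≤ Real.log (x / (x - h)) * (SPF_E (2 * m) x + (1 + D) * x * l ^ m) := by
      nlinarith [mul_le_mul_of_nonneg_left h6 hL0.le]
    have h9 : -(2 * C * x * l ^ m) ≤ SPF_E (2 * m) x + (1 + D) * x * l ^ m := by
      by_contra hcon
      have hcon := not_le.1 hcon
      have h10 : h / x * (2 * C * x * l ^ m) < 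
          Real.log (x / (x - h)) * (-(SPF_E (2 * m) x + (1 + D) * x * l ^ m)) := by
        apply mul_lt_mul' hL (by linarith) (by positivity) hL0
      have h11 : h / x * (2 * C * x * l ^ m) = 2 * C * (h * l ^ m) := by
        field_simp
      have h12 : h * l ^ m = x := by
        rw [hh]
        field_simp
      rw [h11, h12] at h10
      linarith
    have h13 : 0 ≤ C * x * l ^ m := by positivity
    nlinarith
  rw [abs_le]
  exact ⟨hdown, hup⟩

/-- Abel's inequality. -/
theorem SPF_abel (c g : ℕ → ℝ) (B : ℝ) (hg : Antitone g) (hg0 : ∀ n, 0 ≤ g n)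
    (hB : ∀ n, |∑ i ∈ range n, c i| ≤ B) (n : ℕ) : |∑ i ∈ range n, c i * g i| ≤ g 0 * B := by
  have hB0 : 0 ≤ B := (abs_nonneg _).trans (hB 0)
  have key : ∀ n, |∑ i ∈ range n, c i * g i - g n * ∑ i ∈ range n, c i| ≤ (g 0 - g n) * B := by
    intro n
    induction n with
    | zero => simp
    | succ n ih =>
      have h1 : ∑ i ∈ range (n + 1), c i * g i - g (n + 1) * ∑ i ∈ range (n + 1), c i =
          (∑ i ∈ range n, c i * g i - g n * ∑ i ∈ range n, c i) +
            (g n - g (n + 1)) * ∑ i ∈ range (n + 1), c i := by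
        rw [sum_range_succ, sum_range_succ]
        ring
      rw [h1]
      have h2 : 0 ≤ g n - g (n + 1) := sub_nonneg.2 (hg (Nat.le_succ n))
      calc _ ≤ |∑ i ∈ range n, c i * g i - g n * ∑ i ∈ range n, c i| +
            |(g n - g (n + 1)) * ∑ i ∈ range (n + 1), c i| := abs_add_le _ _
        _ ≤ (g 0 - g n) * B + (g n - g (n + 1)) * B := by
            refine add_le_add ih ?_
            rw [abs_mul, abs_of_nonneg h2]
            exact mul_le_mul_of_nonneg_left (hB _) h2
        _ = _ := by ring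
  have h1 := key n
  have h2 : |g n * ∑ i ∈ range n, c i| ≤ g n * B := by
    rw [abs_mul, abs_of_nonneg (hg0 n)]
    exact mul_le_mul_of_nonneg_left (hB n) (hg0 n)
  calc |∑ i ∈ range n, c i * g i| =
        |(∑ i ∈ range n, c i * g i - g n * ∑ i ∈ range n, c i) + g n * ∑ i ∈ range n, c i| := by
        congr 1; ring
    _ ≤ (g 0 - g n) * B + g n * B := (abs_add_le _ _).trans (add_le_add h1 h2)
    _ = g 0 * B := by ring

theorem SPF_main (m : ℕ) (hm : 1 ≤ m) : ∃ C : ℝ, 0 < C ∧ ∀ x : ℝ, 2 ≤ x →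
    |psi x - x| ≤ C * x / Real.log x ^ m := by
  obtain ⟨K, hK, hE⟩ := SPF_E_bound m hm
  obtain ⟨D, hD, hpow⟩ := SPF_pow (m + 1)
  refine ⟨2 ^ (2 * m) * (2 * K) * 3 ^ m + D + D, by positivity, fun x hx => ?_⟩
  have hx0 : 0 < x := by linarith
  have hlog2 : 1 / 2 ≤ Real.log x := by
    have h1 := Real.log_two_gt_d9
    have h2 := Real.log_le_log (by norm_num : (0:ℝ) < 2) hx
    linarith
  set l : ℝ := Real.log x with hl
  have hl0 : 0 < l := by linarith
  have hl3 : 1 + l ≤ 3 * l := by linarith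
  set N : ℕ := ⌊x⌋₊ with hN
  set M : ℕ := ⌊√x⌋₊ with hM
  have hsx : √x ≤ x := by
    rw [Real.sqrt_le_left hx0.le]
    nlinarith
  have hMN : M ≤ N := Nat.floor_le_floor hsx
  have hNx : (N : ℝ) ≤ x := Nat.floor_le hx0.le
  have hMx : (M : ℝ) ≤ √x := Nat.floor_le (Real.sqrt_nonneg x)
  -- the part above the square root
  set c : ℕ → ℝ := fun i => if M + 1 + i ≤ N then SPF_c (2 * m) (M + 1 + i) else 0 with hc
  set g : ℕ → ℝ := fun i => 1 / Real.log (M + 1 + i : ℕ) ^ (2 * m) with hg
  have hM1 : 1 ≤ M := by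
    rw [hM]
    apply Nat.le_floor
    rw [Nat.cast_one]
    rw [Real.one_le_sqrt]
    linarith
  have hlogi : ∀ i : ℕ, 0 < Real.log (M + 1 + i : ℕ) := by
    intro i
    apply Real.log_pos
    have : 1 < M + 1 + i := by omega
    exact_mod_cast this
  have hganti : Antitone g := by
    intro i j hij
    simp only [hg]
    apply one_div_le_one_div_of_le (pow_pos (hlogi i) _)
    apply pow_le_pow_left₀ (hlogi i).le
    apply Real.log_le_log
    · have : 0 < M + 1 + i := by omega
      exact_mod_cast this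
    · have : M + 1 + i ≤ M + 1 + j := by omega
      exact_mod_cast this
  have hg0 : ∀ i, 0 ≤ g i := fun i => by
    have := hlogi i
    positivity
  have hEnat : ∀ t : ℕ, t ≤ N → |SPF_E (2 * m) t| ≤ K * x * (1 + l) ^ m := by
    intro t ht
    have htx : (t : ℝ) ≤ x := le_trans (by exact_mod_cast ht) hNx
    rcases le_or_gt 2 t with h2 | h2
    · have h3 := hE t (by exact_mod_cast h2)
      have ht0 : (0 : ℝ) < t := by
        have : 0 < t := by omega
        exact_mod_cast this
      have h4 : Real.log t ≤ l := Real.log_le_log ht0 htx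
      have h5 : 0 ≤ Real.log t := Real.log_natCast_nonneg t
      refine h3.trans ?_
      gcongr
    · have h3 : SPF_E (2 * m) t = 0 := by
        unfold SPF_E
        rw [Nat.floor_natCast]
        refine sum_eq_zero fun n hn => ?_
        rw [mem_Icc] at hn
        have hn1 : n = 1 := by omega
        subst hn1
        unfold SPF_c
        rw [Nat.cast_one, Real.log_one, zero_pow (by omega), mul_zero]
      rw [h3, abs_zero]
      positivity
  have hB : ∀ n, |∑ i ∈ range n, c i| ≤ 2 * (K * x * (1 + l) ^ m) := by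
    have hval : ∀ n, M + n ≤ N →
        ∑ i ∈ range n, c i = SPF_E (2 * m) ((M + n : ℕ) : ℝ) - SPF_E (2 * m) (M : ℝ) := by
      intro n hn
      unfold SPF_E
      rw [Nat.floor_natCast, Nat.floor_natCast]
      induction n with
      | zero => simp
      | succ n ih =>
        rw [sum_range_succ, ih (by omega), ← add_assoc, sum_Icc_succ_top (by omega)]
        simp only [hc]
        rw [if_pos (by omega), show M + 1 + n = M + n + 1 by omega]
        ring
    intro n
    rcases le_or_gt (M + n) N with h | h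
    · rw [hval n h]
      have h1 := hEnat (M + n) h
      have h2 := hEnat M (by omega)
      calc _ ≤ |SPF_E (2 * m) ((M + n : ℕ) : ℝ)| + |SPF_E (2 * m) (M : ℝ)| := abs_sub _ _
        _ ≤ _ := by linarith
    · have h3 : ∑ i ∈ range n, c i = ∑ i ∈ range (N - M), c i := by
        symm
        apply sum_subset
        · intro i hi
          rw [mem_range] at hi ⊢
          omega
        · intro i _ hi
          rw [mem_range] at hi
          simp only [hc]
          rw [if_neg (by omega)]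
      rw [h3, hval (N - M) (by omega)]
      have h1 := hEnat (M + (N - M)) (by omega)
      have h2 := hEnat M (by omega)
      calc _ ≤ |SPF_E (2 * m) ((M + (N - M) : ℕ) : ℝ)| + |SPF_E (2 * m) (M : ℝ)| := abs_sub _ _
        _ ≤ _ := by linarith
  have hab := SPF_abel c g _ hganti hg0 hB (N - M)
  have hsum : ∑ i ∈ range (N - M), c i * g i = ∑ n ∈ Ioc M N, (Lam n - 1) := by
    have h1 : Ioc M N = (range (N - M)).image (fun i => M + 1 + i) := by
      ext n
      simp only [mem_Ioc, mem_image, mem_range]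
      constructor
      · intro h
        exact ⟨n - (M + 1), by omega, by omega⟩
      · rintro ⟨i, h, rfl⟩
        omega
    rw [h1, sum_image (by intro a _ b _ h; simpa using h)]
    refine sum_congr rfl fun i hi => ?_
    rw [mem_range] at hi
    simp only [hc, hg]
    rw [if_pos (by omega)]
    unfold SPF_c
    have := (pow_pos (hlogi i) (2 * m)).ne'
    field_simp
  rw [hsum] at hab
  have hg0b : g 0 ≤ 2 ^ (2 * m) / l ^ (2 * m) := by
    simp only [hg]
    have h1 : l / 2 ≤ Real.log (M + 1 + 0 : ℕ) := by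
      have h2 : √x ≤ (M + 1 + 0 : ℕ) := by
        push_cast
        rw [add_zero]
        exact (Nat.lt_floor_add_one _).le
      have h3 := Real.log_le_log (by positivity) h2
      rwa [Real.log_sqrt hx0.le] at h3
    have h4 : (l / 2) ^ (2 * m) ≤ Real.log (M + 1 + 0 : ℕ) ^ (2 * m) :=
      pow_le_pow_left₀ (by positivity) h1 _
    calc _ ≤ 1 / (l / 2) ^ (2 * m) := one_div_le_one_div_of_le (by positivity) h4
      _ = _ := by rw [div_pow, one_div_div]
  have hbig : |∑ n ∈ Ioc M N, (Lam n - 1)| ≤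
      2 ^ (2 * m) * (2 * K) * 3 ^ m * x / l ^ m := by
    have h1 : (1 + l) ^ m ≤ 3 ^ m * l ^ m := by
      rw [← mul_pow]
      exact pow_le_pow_left₀ (by positivity) hl3 m
    calc _ ≤ g 0 * (2 * (K * x * (1 + l) ^ m)) := hab
      _ ≤ (2 ^ (2 * m) / l ^ (2 * m)) * (2 * (K * x * (3 ^ m * l ^ m))) := by gcongr
      _ = _ := by
          rw [two_mul m, pow_add l]
          field_simp
  -- the part below the square root
  have hsmall : |∑ n ∈ Icc 1 M, (Lam n - 1)| ≤ √x * (1 + l) := by
    calc _ ≤ ∑ n ∈ Icc 1 M, |Lam n - 1| := abs_sum_le_sum_abs _ _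
      _ ≤ ∑ n ∈ Icc 1 M, (1 + l) := by
          refine sum_le_sum fun n hn => ?_
          rw [mem_Icc] at hn
          have h1 : 0 ≤ Lam n := ArithmeticFunction.vonMangoldt_nonneg
          have h2 : Lam n ≤ Real.log n := ArithmeticFunction.vonMangoldt_le_log
          have hn0 : (0 : ℝ) < n := by
            have : 0 < n := by omega
            exact_mod_cast this
          have h3 : Real.log n ≤ l := by
            apply Real.log_le_log hn0
            have : (n : ℝ) ≤ M := by exact_mod_cast hn.2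
            linarith
          rw [abs_le]
          constructor <;> linarith
      _ = M * (1 + l) := by rw [sum_const, Nat.card_Icc, nsmul_eq_mul]; simp
      _ ≤ _ := by gcongr
  have hpow' : (1 + l) ^ (m + 1) ≤ D * √x := hpow x (by linarith)
  have hsq : √x * √x = x := Real.mul_self_sqrt hx0.le
  have hlm0 : 0 < l ^ m := by positivity
  have hlle : l ^ m ≤ (1 + l) ^ m := pow_le_pow_left₀ hl0.le (by linarith) m
  have hsmall' : √x * (1 + l) ≤ D * x / l ^ m := by
    rw [le_div_iff₀ hlm0]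
    calc √x * (1 + l) * l ^ m ≤ √x * (1 + l) * (1 + l) ^ m := by gcongr
      _ = √x * (1 + l) ^ (m + 1) := by ring
      _ ≤ √x * (D * √x) := by gcongr
      _ = D * (√x * √x) := by ring
      _ = D * x := by rw [hsq]
  have hone : 1 ≤ D * x / l ^ m := by
    refine le_trans ?_ hsmall'
    have : 1 ≤ √x := by rw [Real.one_le_sqrt]; linarith
    nlinarith
  have hpsi : psi x - x = ∑ n ∈ Icc 1 M, (Lam n - 1) + ∑ n ∈ Ioc M N, (Lam n - 1) + (N - x) := by
    rw [← SPF_split hMN, sum_sub_distrib, sum_const, Nat.card_Icc, nsmul_eq_mul]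
    unfold psi
    push_cast [← hN]
    simp
  have hfl : |(N : ℝ) - x| ≤ 1 := by
    have := Nat.lt_floor_add_one x
    rw [← hN] at this
    rw [abs_le]
    constructor <;> linarith
  rw [hpsi]
  calc _ ≤ |∑ n ∈ Icc 1 M, (Lam n - 1)| + |∑ n ∈ Ioc M N, (Lam n - 1)| + |(N : ℝ) - x| :=
        abs_add_three _ _ _
    _ ≤ D * x / l ^ m + 2 ^ (2 * m) * (2 * K) * 3 ^ m * x / l ^ m + D * x / l ^ m := by
        linarith
    _ = _ := by ring

/-- strong prime number theorem -/
theorem pnt_strong_pr (k : ℕ) : ∃ C : ℝ, 0 < C ∧ ∀ x : ℝ, 2 ≤ x →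
    |psi x - x| ≤ C * x / Real.log x ^ k := by
  obtain ⟨C, hC, h⟩ := SPF_main (k + 1) (by omega)
  refine ⟨2 * C, by positivity, fun x hx => (h x hx).trans ?_⟩
  have hlog2 : 1 / 2 ≤ Real.log x := by
    have h1 := Real.log_two_gt_d9
    have h2 := Real.log_le_log (by norm_num : (0:ℝ) < 2) hx
    linarith
  have hl0 : 0 < Real.log x := by linarith
  have hx0 : 0 < x := by linarith
  rw [div_le_div_iff₀ (by positivity) (by positivity), pow_succ]
  have : 0 ≤ C * x * Real.log x ^ k := by positivity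
  nlinarith

alias pnt_strong := pnt_strong_pr

end Pool.Agent.HC
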