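import Pool.Agent.Lib_helper92.HCF.Base
import Pool.Agent.Lib_helper23.BG.Defs
import Pool.Agent.Lib_helper92.HCF.SPF

set_option autoImplicit false

namespace Pool.Agent.HC

open Finset Complex Filter Topology MeasureTheory Pool.Agent.Var35 Pool.Agent.Var73
open scoped ArithmeticFunction ArithmeticFunction.Moebius

theorem diag_mono (N X : ℝ) (hN : 1 ≤ N) (hX : N ≤ X) :
    N * Real.log N - N ≤ X * Real.log X - X := by
  have hN0 : 0 < N := by linarith
  have hX0 : 0 < X := by linarith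
  have h1 : 1 - N / X ≤ Real.log X - Real.log N := by
    have h := Real.add_one_le_exp (Real.log N - Real.log X)
    rw [Real.exp_sub, Real.exp_log hN0, Real.exp_log hX0] at h
    have h2 := Real.one_sub_inv_le_log_of_pos (x := X / N) (by positivity)
    rw [Real.log_div hX0.ne' hN0.ne', inv_div] at h2
    exact h2
  have h2 : X - N ≤ X * (Real.log X - Real.log N) := by
    have := mul_le_mul_of_nonneg_left h1 hX0.le
    have e : X * (1 - N / X) = X - N := by field_simp
    linarith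
  have h3 : 0 ≤ (X - N) * Real.log N :=
    mul_nonneg (by linarith) (Real.log_nonneg hN)
  nlinarith

theorem diag_psi_nat (N : ℕ) : psi (N : ℝ) = ∑ n ∈ Icc 1 N, Lam n := by
  unfold psi
  rw [Nat.floor_natCast]

theorem diag_psi_succ (N : ℕ) : psi ((N + 1 : ℕ) : ℝ) = psi (N : ℝ) + Lam (N + 1) := by
  rw [diag_psi_nat, diag_psi_nat, Finset.sum_Icc_succ_top (by omega)]

theorem diag_abel (n₀ : ℕ) (hn₀ : 1 ≤ n₀) (c : ℝ)
    (h : ∀ N : ℕ, n₀ ≤ N → c ≤ psi (N : ℝ) * (Real.log (N + 1) - Real.log N)) (N : ℕ)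
    (hN : n₀ ≤ N) :
    ∑ n ∈ Icc 1 N, Lam n * Real.log n ≤ psi (N : ℝ) * Real.log N - c * ((N : ℝ) - n₀) := by
  induction N, hN using Nat.le_induction with
  | base =>
    rw [diag_psi_nat, Finset.sum_mul, sub_self, mul_zero, sub_zero]
    apply Finset.sum_le_sum
    intro n hn
    have h1 := Finset.mem_Icc.mp hn
    apply mul_le_mul_of_nonneg_left _ ArithmeticFunction.vonMangoldt_nonneg
    apply Real.log_le_log
    · exact_mod_cast h1.1
    · exact_mod_cast h1.2
  | succ N hN ih =>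
    rw [Finset.sum_Icc_succ_top (by omega), diag_psi_succ]
    have h1 := h N hN
    push_cast
    push_cast at ih
    nlinarith

/-- DIA (uses pnt_strong) -/
theorem diag_pr (η : ℝ) (hη : 0 < η) : ∃ X₀ : ℝ, ∀ X : ℝ, X₀ ≤ X →
    A2 Lam ⌊X⌋₊ ≤ X * Real.log X - X + η * X := by
  obtain ⟨C, hC, hpnt⟩ := pnt_strong 2
  set ε : ℝ := min (η / 4) (1 / 2) with hε
  have hε0 : 0 < ε := by
    rw [hε]; exact lt_min (by linarith) (by norm_num)
  have hε1 : ε ≤ 1 / 2 := min_le_right _ _
  have hε2 : 4 * ε ≤ η := by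
    have := min_le_left (η / 4) (1 / 2 : ℝ)
    linarith
  set n₀ : ℕ := 2 + ⌈Real.exp (1 + C / ε)⌉₊ + ⌈1 / ε⌉₊ with hn₀
  have hn2 : 2 ≤ n₀ := by omega
  have hne : Real.exp (1 + C / ε) ≤ n₀ := by
    have := Nat.le_ceil (Real.exp (1 + C / ε))
    rw [hn₀]; push_cast
    have h2 : (0 : ℝ) ≤ (⌈1 / ε⌉₊ : ℝ) := Nat.cast_nonneg _
    linarith
  have hni : 1 / ε ≤ n₀ := by
    have := Nat.le_ceil (1 / ε)
    rw [hn₀]; push_cast
    have h2 : (0 : ℝ) ≤ (⌈Real.exp (1 + C / ε)⌉₊ : ℝ) := Nat.cast_nonneg _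
    linarith
  have hlog : ∀ N : ℕ, n₀ ≤ N → 1 + C / ε ≤ Real.log N := by
    intro N hN
    have h1 : Real.exp (1 + C / ε) ≤ N := le_trans hne (by exact_mod_cast hN)
    have h2 := Real.log_le_log (Real.exp_pos _) h1
    rwa [Real.log_exp] at h2
  have hCε : 0 < C / ε := by positivity
  -- C / log N ≤ ε
  have hq : ∀ N : ℕ, n₀ ≤ N → C / Real.log N ≤ ε := by
    intro N hN
    have h1 := hlog N hN
    have h2 : 0 < Real.log N := by linarith
    rw [div_le_iff₀ h2]
    have h3 : C / ε ≤ Real.log N := by linarith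
    rw [div_le_iff₀ hε0] at h3
    linarith
  have hpsi : ∀ N : ℕ, n₀ ≤ N → |psi (N : ℝ) - N| ≤ ε * N / Real.log N := by
    intro N hN
    have h1 := hlog N hN
    have h2 : 0 < Real.log N := by linarith
    have h3 : (2 : ℝ) ≤ N := by exact_mod_cast le_trans hn2 hN
    refine le_trans (hpnt N h3) ?_
    have h4 := hq N hN
    have h5 : C * N / Real.log N ^ 2 = (C / Real.log N) * N / Real.log N := by
      field_simp
    rw [h5]
    apply div_le_div_of_nonneg_right _ h2.le
    exact mul_le_mul_of_nonneg_right h4 (by linarith)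
  have hstep : ∀ N : ℕ, n₀ ≤ N →
      (1 - 2 * ε) ≤ psi (N : ℝ) * (Real.log (N + 1) - Real.log N) := by
    intro N hN
    have h1 := hlog N hN
    have hl1 : 1 ≤ Real.log N := by linarith
    have hN2 : (2 : ℝ) ≤ N := by exact_mod_cast le_trans hn2 hN
    have h2 : (1 - ε) * N ≤ psi (N : ℝ) := by
      have h3 := hpsi N hN
      have h4 : ε * N / Real.log N ≤ ε * N := div_le_self (by positivity) hl1
      have h5 := (abs_le.mp (h3.trans h4)).1
      linarith
    have h6 : 1 / ((N : ℝ) + 1) ≤ Real.log (N + 1) - Real.log N := by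
      have h7 := Real.one_sub_inv_le_log_of_pos (x := ((N : ℝ) + 1) / N) (by positivity)
      rw [Real.log_div (by positivity) (by positivity), inv_div] at h7
      have e : 1 - (N : ℝ) / (N + 1) = 1 / (N + 1) := by field_simp; ring
      linarith
    have h8 : (1 - ε) * N * (1 / ((N : ℝ) + 1)) ≤ psi (N : ℝ) * (Real.log (N + 1) - Real.log N) := by
      apply mul_le_mul h2 h6 (by positivity)
      have : 0 ≤ (1 - ε) * N := mul_nonneg (by linarith) (by linarith)
      linarith
    refine le_trans ?_ h8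
    have h9 : 1 / ((N : ℝ) + 1) ≤ ε := by
      rw [div_le_iff₀ (by positivity)]
      have h10 : 1 / ε ≤ N := le_trans hni (by exact_mod_cast hN)
      rw [div_le_iff₀ hε0] at h10
      nlinarith
    have e : (1 - ε) * N * (1 / ((N : ℝ) + 1)) = (1 - ε) * (1 - 1 / ((N : ℝ) + 1)) := by
      field_simp; ring
    rw [e]
    nlinarith [sq_nonneg ε]
  refine ⟨n₀ / ε + n₀ + 1, fun X hX => ?_⟩
  have hn0r : (0 : ℝ) ≤ n₀ := Nat.cast_nonneg _
  have hX1 : (n₀ : ℝ) ≤ X := by
    have : 0 ≤ (n₀ : ℝ) / ε := by positivity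
    linarith
  have hX0 : 0 ≤ X := by linarith
  set N : ℕ := ⌊X⌋₊ with hNdef
  have hNn : n₀ ≤ N := Nat.le_floor hX1
  have hNX : (N : ℝ) ≤ X := Nat.floor_le hX0
  have hXN : X < N + 1 := Nat.lt_floor_add_one X
  have hN1 : (1 : ℝ) ≤ N := by exact_mod_cast (le_trans (by omega : 1 ≤ n₀) hNn)
  have hNε : (n₀ : ℝ) ≤ ε * N := by
    have h1 : (n₀ : ℝ) / ε ≤ N := by linarith
    rw [div_le_iff₀ hε0] at h1
    linarith
  have hA : A2 Lam N ≤ ∑ n ∈ Icc 1 N, Lam n * Real.log n := by
    unfold A2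
    apply Finset.sum_le_sum
    intro n _
    rw [sq]
    exact mul_le_mul_of_nonneg_left ArithmeticFunction.vonMangoldt_le_log
      ArithmeticFunction.vonMangoldt_nonneg
  have hB := diag_abel n₀ (by omega) (1 - 2 * ε) hstep N hNn
  have hlN := hlog N hNn
  have hlN0 : 0 < Real.log N := by linarith
  have hD : psi (N : ℝ) * Real.log N ≤ N * Real.log N + ε * N := by
    have h1 := (abs_le.mp (hpsi N hNn)).2
    have h2 : psi (N : ℝ) ≤ N + ε * N / Real.log N := by linarith
    have h3 := mul_le_mul_of_nonneg_right h2 hlN0.le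
    have e : (N + ε * N / Real.log N) * Real.log N = N * Real.log N + ε * N := by
      field_simp
    linarith
  have hE := diag_mono N X hN1 hNX
  have hF : (1 - 2 * ε) * ((N : ℝ) - n₀) ≥ N - 2 * ε * N - n₀ := by
    nlinarith
  have hG : 4 * ε * N ≤ η * X := by
    calc 4 * ε * N ≤ η * N := mul_le_mul_of_nonneg_right hε2 (by linarith)
      _ ≤ η * X := mul_le_mul_of_nonneg_left hNX hη.le
  linarith

alias diag := diag_pr

end Pool.Agent.HC
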