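import Pool.Agent.Lib_helper92.HCF.Base
import Pool.Agent.Lib_helper23.BG.Defs

set_option autoImplicit false

namespace Pool.Agent.HC

open Finset Complex Filter Topology MeasureTheory Pool.Agent.Var35 Pool.Agent.Var73
open scoped ArithmeticFunction ArithmeticFunction.Moebius

lemma CHZ_sum_range (Q : ℕ) [NeZero Q] (f : ZMod Q → ℂ) :
    ∑ b ∈ range Q, f (b : ZMod Q) = ∑ a : ZMod Q, f a := by
  refine Finset.sum_nbij' (fun b => (b : ZMod Q)) (fun a => a.val) ?_ ?_ ?_ ?_ ?_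
  · intro b _; exact mem_univ _
  · intro a _; exact mem_range.mpr (ZMod.val_lt a)
  · intro b hb; exact ZMod.val_cast_of_lt (mem_range.mp hb)
  · intro a _; exact ZMod.natCast_zmod_val a
  · intro b _; rfl

theorem char_zero_pr (Q : ℕ) (hQ : 1 ≤ Q) (χ : DirichletCharacter ℂ Q) (l : ℤ)
    (h : ¬ χ.conductor ∣ den l Q) :
    ∑ b ∈ range Q, χ (b : ZMod Q) * e (b * (l / Q)) = 0 := by
  have : NeZero Q := ⟨by omega⟩
  have hg : (Int.gcd l Q : ℤ) ∣ (Q : ℤ) := Int.gcd_dvd_right l Q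
  have hgl : (Int.gcd l Q : ℤ) ∣ l := Int.gcd_dvd_left l Q
  have hgQ : Int.gcd l Q ∣ Q := by exact_mod_cast hg
  have hr : den l Q ∣ Q := Nat.div_dvd_of_dvd hgQ
  have hQr : Q = den l Q * Int.gcd l Q := (Nat.div_mul_cancel hgQ).symm
  have hnf : ¬ χ.FactorsThrough (den l Q) := by
    intro hf
    exact h (DirichletCharacter.conductor_dvd_of_mem_conductorSet χ hf)
  rw [DirichletCharacter.factorsThrough_iff_ker_unitsMap hr] at hnf
  rw [SetLike.not_le_iff_exists] at hnf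
  obtain ⟨u, hu1, hu2⟩ := hnf
  rw [MonoidHom.mem_ker] at hu1 hu2
  have hχu : χ (u : ZMod Q) ≠ 1 := by
    intro hc
    apply hu2
    ext
    rw [MulChar.coe_toUnitHom, hc]
    simp
  have hul : (u : ZMod Q) * (l : ZMod Q) = (l : ZMod Q) := by
    have h1 : ((u : ZMod Q).val : ZMod (den l Q)) = 1 := by
      have := congrArg (fun x : (ZMod (den l Q))ˣ => (x : ZMod (den l Q))) hu1
      simp only [ZMod.unitsMap_def, Units.coe_map, Units.val_one] at this
      rw [ZMod.natCast_val]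
      exact this
    have h2 : ((den l Q : ℕ) : ℤ) ∣ ((u : ZMod Q).val : ℤ) - 1 := by
      rw [← ZMod.intCast_zmod_eq_zero_iff_dvd]
      push_cast
      rw [h1]; ring
    obtain ⟨k, hk⟩ := h2
    obtain ⟨l', hl'⟩ := hgl
    have h3 : ((Q : ℕ) : ℤ) ∣ (((u : ZMod Q).val : ℤ) - 1) * l := by
      refine ⟨k * l', ?_⟩
      have hQz : (Q : ℤ) = (den l Q : ℤ) * (Int.gcd l Q : ℤ) := by exact_mod_cast hQr
      calc (((u : ZMod Q).val : ℤ) - 1) * l = ((den l Q : ℤ) * k) * (Int.gcd l Q * l') := by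
            rw [← hl', ← hk]
        _ = (den l Q : ℤ) * (Int.gcd l Q : ℤ) * (k * l') := by ring
        _ = (Q : ℤ) * (k * l') := by rw [← hQz]
    have h4 := (ZMod.intCast_zmod_eq_zero_iff_dvd _ Q).mpr h3
    push_cast at h4
    rw [ZMod.natCast_zmod_val] at h4
    linear_combination h4
  have hterm : ∀ b : ℕ, χ (b : ZMod Q) * e (b * (l / Q)) =
      (fun a : ZMod Q => χ a * ZMod.stdAddChar (N := Q) (a * (l : ZMod Q))) (b : ZMod Q) := by
    intro b
    simp only
    congr 1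
    have h5 := std_eq (r := Q) ((b : ℤ) * l)
    push_cast at h5
    rw [h5]
    congr 1; ring
  have hT : ∑ b ∈ range Q, χ (b : ZMod Q) * e (b * (l / Q)) =
      ∑ a : ZMod Q, χ a * ZMod.stdAddChar (N := Q) (a * (l : ZMod Q)) := by
    rw [← CHZ_sum_range Q (fun a : ZMod Q => χ a * ZMod.stdAddChar (N := Q) (a * (l : ZMod Q)))]
    exact Finset.sum_congr rfl (fun b _ => hterm b)
  rw [hT]
  have hS : ∑ a : ZMod Q, χ a * ZMod.stdAddChar (N := Q) (a * (l : ZMod Q)) =
      χ (u : ZMod Q) * ∑ a : ZMod Q, χ a * ZMod.stdAddChar (N := Q) (a * (l : ZMod Q)) := by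
    conv_lhs => rw [← Equiv.sum_comp (Units.mulLeft u)]
    rw [Finset.mul_sum]
    refine Finset.sum_congr rfl (fun a _ => ?_)
    rw [Units.mulLeft_apply, map_mul, mul_assoc]
    congr 2
    have : (u : ZMod Q) * a * (l : ZMod Q) = a * ((u : ZMod Q) * (l : ZMod Q)) := by ring
    rw [this, hul]
  have h6 : (1 - χ (u : ZMod Q)) * ∑ a : ZMod Q, χ a * ZMod.stdAddChar (N := Q) (a * (l : ZMod Q)) = 0 := by
    linear_combination hS
  rcases mul_eq_zero.mp h6 with h7 | h7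
  · exact absurd (sub_eq_zero.mp h7).symm hχu
  · exact h7

alias char_zero := char_zero_pr

end Pool.Agent.HC
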