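import Pool.Agent.Lib_helper92.HCF.Base
import Pool.Agent.Lib_helper23.BG.Defs
import Pool.Agent.Lib_helper92.HCF.CHZ

/-! HC, block CHL -/

set_option autoImplicit false

namespace Pool.Agent.HC

open Finset Complex Filter Topology MeasureTheory Pool.Agent.Var35 Pool.Agent.Var73
open scoped ArithmeticFunction ArithmeticFunction.Moebius

lemma CHL_sum {Q : ℕ} [NeZero Q] {M : Type*} [AddCommMonoid M] (f : ZMod Q → M) :
    ∑ x : ZMod Q, f x = ∑ b ∈ range Q, f (b : ZMod Q) := by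
  refine Finset.sum_nbij' (fun x : ZMod Q => x.val) (fun b : ℕ => (b : ZMod Q)) ?_ ?_ ?_ ?_ ?_
  · intro x _; exact mem_range.2 (ZMod.val_lt x)
  · intro b _; exact mem_univ _
  · intro x _; exact ZMod.natCast_zmod_val x
  · intro b hb; exact ZMod.val_cast_of_lt (mem_range.1 hb)
  · intro x _; simp

/-- the Fourier transform of a sequence on residues -/
noncomputable def CHL_hat {Q : ℕ} [NeZero Q] (u : ZMod Q → ℂ) (m : ZMod Q) : ℂ :=
  ∑ y : ZMod Q, u y * ZMod.stdAddChar (N := Q) (m * y)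

lemma CHL_inv {Q : ℕ} [NeZero Q] (u : ZMod Q → ℂ) (x : ZMod Q) :
    ∑ m : ZMod Q, CHL_hat u m * ZMod.stdAddChar (N := Q) (-(m * x)) = (Q : ℂ) * u x := by
  have h1 : ∀ m : ZMod Q, CHL_hat u m * ZMod.stdAddChar (N := Q) (-(m * x))
      = ∑ y : ZMod Q, u y * ZMod.stdAddChar (N := Q) (m * (y - x)) := by
    intro m
    unfold CHL_hat
    rw [sum_mul]
    refine sum_congr rfl fun y _ => ?_
    rw [mul_assoc, ← AddChar.map_add_eq_mul]
    congr 2; ring
  rw [sum_congr rfl fun m _ => h1 m, sum_comm, sum_eq_single x]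
  · rw [sub_self]
    simp only [mul_zero, AddChar.map_zero_eq_one, mul_one, sum_const, card_univ, ZMod.card,
      nsmul_eq_mul]
  · intro y _ hy
    rw [← mul_sum]
    have h2 : ∑ m : ZMod Q, ZMod.stdAddChar (N := Q) (m * (y - x)) = 0 := by
      have h3 := AddChar.sum_mulShift (y - x) (ZMod.isPrimitive_stdAddChar Q)
      rw [if_neg (sub_ne_zero.mpr hy)] at h3
      simpa using h3
    rw [h2, mul_zero]
  · intro h; exact absurd (mem_univ _) h

/-- CHL -/
theorem char_le_pr (a : ℕ → ℝ) (N Q : ℕ) (hQ : 1 ≤ Q) (D : ℝ) :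
    (1 / (Nat.totient Q : ℝ)) * ∑ χ : DirichletCharacter ℂ Q,
      (if D < (χ.conductor : ℝ) then ‖∑ n ∈ Icc 1 N, (a n : ℂ) * χ (n : ZMod Q)‖ ^ 2 else 0)
    ≤ (1 / (Q : ℝ)) * ∑ l ∈ (range Q).filter (fun l : ℕ => D < (den l Q : ℝ)), Sq a N (l / Q) := by
  classical
  have : NeZero Q := ⟨by omega⟩
  have hQ0 : (Q : ℂ) ≠ 0 := by exact_mod_cast (by omega : Q ≠ 0)
  have hQr : (0 : ℝ) < Q := by exact_mod_cast (by omega : 0 < Q)
  -- the residue sums
  set u : ZMod Q → ℂ := fun x => ∑ n ∈ (Icc 1 N).filter (fun n : ℕ => (n : ZMod Q) = x), (a n : ℂ) with hu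
  have hpush : ∀ F : ZMod Q → ℂ, ∑ n ∈ Icc 1 N, (a n : ℂ) * F (n : ZMod Q)
      = ∑ x : ZMod Q, u x * F x := by
    intro F
    rw [← Finset.sum_fiberwise (Icc 1 N) (fun n : ℕ => (n : ZMod Q))
      (fun n : ℕ => (a n : ℂ) * F (n : ZMod Q))]
    refine sum_congr rfl fun x _ => ?_
    rw [hu, sum_mul]
    refine sum_congr rfl fun n hn => ?_
    rw [(mem_filter.1 hn).2]
  -- transform values
  have hhat : ∀ l : ℕ, CHL_hat u (l : ZMod Q) = S a N (l / Q) := by
    intro l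
    unfold CHL_hat S
    rw [← hpush (fun x => ZMod.stdAddChar (N := Q) ((l : ZMod Q) * x))]
    refine sum_congr rfl fun n _ => ?_
    congr 1
    have := std_eq_nat Q (l * n)
    push_cast at this
    rw [this]
    congr 1
    field_simp
  set B : Finset (ZMod Q) := univ.filter (fun m : ZMod Q => D < (den (m.val : ℤ) Q : ℝ)) with hB
  set g : ZMod Q → ℂ := fun x => (1 / (Q : ℂ)) * ∑ m ∈ B, CHL_hat u m * ZMod.stdAddChar (N := Q) (-(m * x)) with hg
  set v : ZMod Q → ℂ := fun x => (1 / (Q : ℂ)) * ∑ m ∈ univ.filter (fun m : ZMod Q => ¬ (D < (den (m.val : ℤ) Q : ℝ))),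
    CHL_hat u m * ZMod.stdAddChar (N := Q) (-(m * x)) with hv
  have huv : ∀ x, u x = g x + v x := by
    intro x
    have h1 := CHL_inv u x
    rw [← Finset.sum_filter_add_sum_filter_not univ (fun m : ZMod Q => D < (den (m.val : ℤ) Q : ℝ))] at h1
    rw [hg, hv]
    simp only
    rw [← mul_add, h1]
    field_simp
  -- large conductor kills v
  have hden : ∀ l : ℤ, den (-l) Q = den l Q := by
    intro l; unfold den; rw [Int.neg_gcd]
  have hdpos : ∀ l : ℤ, 0 < den l Q := by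
    intro l
    unfold den
    have h1 : Int.gcd l Q ∣ Q := by
      have := Int.gcd_dvd_right l (Q : ℤ)
      exact_mod_cast this
    exact Nat.div_pos (Nat.le_of_dvd (by omega) h1) (Nat.pos_of_dvd_of_pos h1 (by omega))
  have hvz : ∀ χ : DirichletCharacter ℂ Q, D < (χ.conductor : ℝ) → ∑ x : ZMod Q, v x * χ x = 0 := by
    intro χ hχ
    have h1 : ∀ x : ZMod Q, v x * χ x = (1 / (Q : ℂ)) * ∑ m ∈ univ.filter (fun m : ZMod Q => ¬ (D < (den (m.val : ℤ) Q : ℝ))),
        CHL_hat u m * (χ x * ZMod.stdAddChar (N := Q) (-(m * x))) := by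
      intro x
      rw [hv]; simp only
      rw [mul_assoc, sum_mul]
      congr 1
      refine sum_congr rfl fun m _ => ?_
      ring
    rw [sum_congr rfl fun x _ => h1 x, ← mul_sum, sum_comm]
    rw [sum_eq_zero, mul_zero]
    intro m hm
    rw [← mul_sum]
    have hm' := (mem_filter.1 hm).2
    have h2 : ∑ x : ZMod Q, χ x * ZMod.stdAddChar (N := Q) (-(m * x)) = 0 := by
      rw [CHL_sum]
      have h3 := char_zero Q hQ χ (-(m.val : ℤ)) (by
        intro hd
        apply hm'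
        rw [hden] at hd
        have := Nat.le_of_dvd (hdpos _) hd
        exact lt_of_lt_of_le hχ (by exact_mod_cast this))
      rw [← h3]
      refine sum_congr rfl fun b _ => ?_
      congr 1
      have h4 := std_eq Q (-(m.val * b : ℤ))
      push_cast at h4
      rw [ZMod.natCast_zmod_val] at h4
      rw [h4]
      congr 1
      push_cast
      field_simp
    rw [h2, mul_zero]
  -- comparison of every character sum
  have hstep : ∀ χ : DirichletCharacter ℂ Q,
      (if D < (χ.conductor : ℝ) then ‖∑ n ∈ Icc 1 N, (a n : ℂ) * χ (n : ZMod Q)‖ ^ 2 else 0)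
      ≤ ‖∑ x : ZMod Q, χ x * g x‖ ^ 2 := by
    intro χ
    split_ifs with h
    · rw [hpush (fun x => χ x)]
      have : ∑ x : ZMod Q, u x * χ x = ∑ x : ZMod Q, χ x * g x := by
        have h5 : ∑ x : ZMod Q, u x * χ x = ∑ x : ZMod Q, χ x * g x + ∑ x : ZMod Q, v x * χ x := by
          rw [← sum_add_distrib]
          refine sum_congr rfl fun x _ => ?_
          rw [huv x]; ring
        rw [h5, hvz χ h, add_zero]
      rw [this]
    · positivity
  have hphi : (0 : ℝ) < Nat.totient Q := by exact_mod_cast Nat.totient_pos.2 (by omega)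
  have h10 : (1 / (Nat.totient Q : ℝ)) * ∑ χ : DirichletCharacter ℂ Q,
      (if D < (χ.conductor : ℝ) then ‖∑ n ∈ Icc 1 N, (a n : ℂ) * χ (n : ZMod Q)‖ ^ 2 else 0)
      ≤ ∑ x : ZMod Q, ‖g x‖ ^ 2 := by
    calc (1 / (Nat.totient Q : ℝ)) * ∑ χ : DirichletCharacter ℂ Q,
      (if D < (χ.conductor : ℝ) then ‖∑ n ∈ Icc 1 N, (a n : ℂ) * χ (n : ZMod Q)‖ ^ 2 else 0)
        ≤ (1 / (Nat.totient Q : ℝ)) * ∑ χ : DirichletCharacter ℂ Q, ‖∑ x : ZMod Q, χ x * g x‖ ^ 2 := by
          refine mul_le_mul_of_nonneg_left (sum_le_sum fun χ _ => hstep χ) (by positivity)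
      _ = ∑ x ∈ univ.filter (fun x : ZMod Q => IsUnit x), ‖g x‖ ^ 2 := by
          rw [orthr g, ← mul_assoc, one_div, inv_mul_cancel₀ hphi.ne', one_mul]
      _ ≤ ∑ x : ZMod Q, ‖g x‖ ^ 2 :=
          sum_le_sum_of_subset_of_nonneg (filter_subset _ _) (fun _ _ _ => by positivity)
  -- Parseval
  have h11 : ∑ x : ZMod Q, ‖g x‖ ^ 2 = (1 / (Q : ℝ)) * ∑ m ∈ B, ‖CHL_hat u m‖ ^ 2 := by
    have h12 := sum_norm_sq_shift (d := Q) (fun m => if m ∈ B then CHL_hat u m else 0)
    have h13 : ∑ x : ZMod Q, ‖g x‖ ^ 2 = ∑ x : ZMod Q, ‖g (-x)‖ ^ 2 :=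
      (Equiv.sum_comp (Equiv.neg (ZMod Q)) (fun x => ‖g x‖ ^ 2)).symm
    have h14 : ∀ x : ZMod Q, ‖g (-x)‖ ^ 2 = (1 / (Q : ℝ)) ^ 2 *
        ‖∑ m : ZMod Q, (if m ∈ B then CHL_hat u m else 0) * ZMod.stdAddChar (N := Q) (x * m)‖ ^ 2 := by
      intro x
      rw [hg]; simp only
      rw [norm_mul, mul_pow]
      congr 1
      · simp
      · congr 2
        simp only [ite_mul, zero_mul]
        rw [Finset.sum_ite_mem, univ_inter]
        refine sum_congr rfl fun m _ => ?_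
        congr 2; ring
    have h15 : ∑ m : ZMod Q, ‖(if m ∈ B then CHL_hat u m else 0)‖ ^ 2 = ∑ m ∈ B, ‖CHL_hat u m‖ ^ 2 := by
      rw [← Finset.sum_filter_add_sum_filter_not univ (fun m : ZMod Q => m ∈ B)]
      rw [Finset.sum_eq_zero (s := univ.filter (fun m : ZMod Q => ¬ m ∈ B)), add_zero]
      · rw [Finset.filter_mem_eq_inter, univ_inter]
        refine sum_congr rfl fun m hm => ?_
        rw [if_pos hm]
      · intro m hm
        rw [if_neg (mem_filter.1 hm).2]; simp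
    rw [h13, sum_congr rfl fun x _ => h14 x, ← mul_sum, h12, h15]
    field_simp
  have h16 : ∑ m ∈ B, ‖CHL_hat u m‖ ^ 2
      = ∑ l ∈ (range Q).filter (fun l : ℕ => D < (den l Q : ℝ)), Sq a N (l / Q) := by
    rw [hB, sum_filter, CHL_sum, sum_filter]
    refine sum_congr rfl fun l hl => ?_
    rw [ZMod.val_cast_of_lt (mem_range.1 hl)]
    unfold Sq
    rw [hhat l]
  rw [← h16, ← h11]
  exact h10

alias char_le := char_le_pr

end Pool.Agent.HC
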