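import Pool.Agent.Lib_helper92.HCF.Base
import Pool.Agent.Lib_helper23.BG.Defs

set_option autoImplicit false

namespace Pool.Agent.HC

open Finset Complex Filter Topology MeasureTheory Pool.Agent.Var35 Pool.Agent.Var73
open scoped ArithmeticFunction ArithmeticFunction.Moebius

/-- the parameters -/
structure Par (X L : ℝ) (Y Z T R U : ℕ) : Prop where
  hX : L = Real.log X
  hL : 100 ≤ L
  hXL : 100 ≤ X
  hYX : (Y : ℝ) ≤ X
  hY2 : X * L ^ 24 ≤ (Y : ℝ) ^ 2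
  hY : L ^ 24 ≤ Y
  hZ1 : (Z : ℝ) ≤ Y / L ^ 5
  hZ2 : (Y : ℝ) / (2 * L ^ 5) ≤ Z
  hT1 : (T : ℝ) ≤ Y / L ^ 11
  hT2 : (Y : ℝ) / (2 * L ^ 11) ≤ T
  hR1 : (R : ℝ) ≤ X / Y * L ^ 8
  hR2 : X / Y * L ^ 8 / 2 ≤ R
  hU1 : (U : ℝ) ≤ X / Z
  hU2 : X / Z / 2 ≤ U
  hZ : 1 ≤ Z
  hT : 1 ≤ T
  hR : 1 ≤ R
  hU : 1 ≤ U
  hZY : Z ≤ Y
  hTZ : T ≤ Z
  hRZ : R ≤ Z

lemma FIA_floor {x : ℝ} (hx : 2 ≤ x) : x / 2 ≤ (⌊x⌋₊ : ℝ) := by
  have := Nat.lt_floor_add_one x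
  linarith

lemma FIA_par : ∃ C : ℝ, ∀ (X : ℝ) (Y : ℕ), C ≤ X → Real.sqrt X * Real.log X ^ 12 ≤ Y →
    (Y : ℝ) ≤ X → ∃ Z T R U : ℕ, Par X (Real.log X) Y Z T R U := by
  refine ⟨Real.exp 100 + 100, fun X Y hX hY hYX => ?_⟩
  have hX0 : 0 < X := lt_of_lt_of_le (by positivity) hX
  have hL : 100 ≤ Real.log X := by
    rw [Real.le_log_iff_exp_le hX0]; linarith [Real.exp_pos 100]
  set L := Real.log X with hLd
  have hL0 : 0 < L := by linarith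
  have hL1 : 1 ≤ L := by linarith
  have hsq : Real.sqrt X ^ 2 = X := Real.sq_sqrt hX0.le
  have hY2 : X * L ^ 24 ≤ (Y : ℝ) ^ 2 := by
    have h0 : 0 ≤ Real.sqrt X * L ^ 12 := by positivity
    calc X * L ^ 24 = (Real.sqrt X * L ^ 12) ^ 2 := by rw [mul_pow, hsq]; ring
      _ ≤ (Y : ℝ) ^ 2 := pow_le_pow_left₀ h0 hY 2
  have hY0 : (0 : ℝ) < Y := by
    have : 0 < Real.sqrt X * L ^ 12 := by
      have := Real.sqrt_pos.mpr hX0
      positivity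
    linarith
  have hYL : L ^ 24 ≤ Y := by
    have h1 : (Y : ℝ) * L ^ 24 ≤ Y * Y := by
      calc (Y : ℝ) * L ^ 24 ≤ X * L ^ 24 := by gcongr
        _ ≤ (Y : ℝ) ^ 2 := hY2
        _ = Y * Y := by ring
    exact le_of_mul_le_mul_left h1 hY0
  have hLp : ∀ k : ℕ, 1 ≤ L ^ k := fun k => one_le_pow₀ hL1
  have hLL : ∀ k : ℕ, 1 ≤ k → 100 ≤ L ^ k := fun k hk =>
    le_trans hL (le_self_pow₀ hL1 (by omega))
  have hsplit : ∀ k : ℕ, k ≤ 23 → 100 ≤ (Y : ℝ) / L ^ k := by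
    intro k hk
    rw [le_div_iff₀ (by positivity)]
    calc 100 * L ^ k ≤ L ^ (24 - k) * L ^ k := by
          gcongr
          exact hLL _ (by omega)
      _ = L ^ 24 := by rw [← pow_add]; congr 1; omega
      _ ≤ Y := hYL
  have hZ5 := hsplit 5 (by norm_num)
  have hT11 := hsplit 11 (by norm_num)
  set Z := ⌊(Y : ℝ) / L ^ 5⌋₊ with hZd
  set T := ⌊(Y : ℝ) / L ^ 11⌋₊ with hTd
  set R := ⌊X / Y * L ^ 8⌋₊ with hRd
  set U := ⌊X / Z⌋₊ with hUd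
  have hXY : 1 ≤ X / Y := by rw [le_div_iff₀ hY0]; linarith
  have hR8 : 100 ≤ X / Y * L ^ 8 := by
    calc (100 : ℝ) ≤ 1 * L ^ 8 := by rw [one_mul]; exact hLL 8 (by norm_num)
      _ ≤ X / Y * L ^ 8 := by gcongr
  have hZ2 : (Y : ℝ) / (2 * L ^ 5) ≤ Z := by
    have := FIA_floor (x := (Y : ℝ) / L ^ 5) (by linarith)
    calc (Y : ℝ) / (2 * L ^ 5) = (Y : ℝ) / L ^ 5 / 2 := by field_simp
      _ ≤ (Z : ℝ) := this
  have hT2 : (Y : ℝ) / (2 * L ^ 11) ≤ T := by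
    have := FIA_floor (x := (Y : ℝ) / L ^ 11) (by linarith)
    calc (Y : ℝ) / (2 * L ^ 11) = (Y : ℝ) / L ^ 11 / 2 := by field_simp
      _ ≤ (T : ℝ) := this
  have hZ1 : (Z : ℝ) ≤ Y / L ^ 5 := Nat.floor_le (by positivity)
  have hT1 : (T : ℝ) ≤ Y / L ^ 11 := Nat.floor_le (by positivity)
  have hR1 : (R : ℝ) ≤ X / Y * L ^ 8 := Nat.floor_le (by positivity)
  have hR2 : X / Y * L ^ 8 / 2 ≤ R := FIA_floor (by linarith)
  have hZ0 : (0 : ℝ) < Z := by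
    refine lt_of_lt_of_le ?_ hZ2
    positivity
  have hZYr : (Z : ℝ) ≤ Y := hZ1.trans (div_le_self hY0.le (hLp 5))
  have hXZ : L ^ 5 ≤ X / Z := by
    rw [le_div_iff₀ hZ0]
    calc L ^ 5 * (Z : ℝ) ≤ L ^ 5 * ((Y : ℝ) / L ^ 5) := by gcongr
      _ = (Y : ℝ) := by field_simp
      _ ≤ X := hYX
  have hU1 : (U : ℝ) ≤ X / Z := Nat.floor_le (by positivity)
  have hU2 : X / Z / 2 ≤ U := FIA_floor (by linarith [hLL 5 (by norm_num)])
  have hTZ : T ≤ Z := by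
    refine Nat.floor_mono ?_
    apply div_le_div_of_nonneg_left hY0.le (by positivity)
    exact pow_le_pow_right₀ hL1 (by norm_num)
  have hRZ : R ≤ Z := by
    rw [hZd, Nat.le_floor_iff (by positivity)]
    refine hR1.trans ?_
    rw [le_div_iff₀ (by positivity)]
    have : X / Y * L ^ 8 * L ^ 5 = X * L ^ 13 / Y := by field_simp
    rw [this, div_le_iff₀ hY0]
    calc X * L ^ 13 ≤ X * L ^ 24 := by
          gcongr
          · norm_num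
      _ ≤ (Y : ℝ) ^ 2 := hY2
      _ = Y * Y := by ring
  refine ⟨Z, T, R, U, ⟨rfl, hL, by linarith [Real.exp_pos 100], hYX, hY2, hYL, hZ1, hZ2, hT1, hT2,
    hR1, hR2, hU1, hU2, ?_, ?_, ?_, ?_, ?_, hTZ, hRZ⟩⟩
  · exact Nat.one_le_iff_ne_zero.2 (by intro h; rw [h] at hZ0; simp at hZ0)
  · rw [hTd]; exact Nat.le_floor (by push_cast; linarith)
  · rw [hRd]; exact Nat.le_floor (by push_cast; linarith)
  · rw [hUd]; exact Nat.le_floor (by push_cast; linarith [hLL 5 (by norm_num)])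
  · exact_mod_cast hZYr

end Pool.Agent.HC
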