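import Pool.Agent.Lib_helper92.HCF.Base
import Pool.Agent.Lib_helper92.HCF.CHL
import Pool.Agent.Lib_helper92.HCF.FIA

set_option autoImplicit false

namespace Pool.Agent.HC

open Finset Complex Filter Topology MeasureTheory Pool.Agent.Var35 Pool.Agent.Var73
open scoped ArithmeticFunction ArithmeticFunction.Moebius

lemma FIB_sq_nonneg (a : ℕ → ℝ) (N : ℕ) (t : ℝ) : 0 ≤ Sq a N t := by
  unfold Sq; positivity

lemma FIB_hh_le (X : ℝ) (Q U : ℕ) (hQ : 1 ≤ Q) (D : ℝ) (hU : (U : ℝ) ≤ D) :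
    HH X Q D ≤ (1 / (Q : ℝ)) * ∑ l ∈ (range Q).filter (fun l : ℕ => U < den l Q),
      Sq Lam ⌊X⌋₊ (l / Q) := by
  have h := char_le Lam ⌊X⌋₊ Q hQ D
  unfold HH
  refine h.trans ?_
  apply mul_le_mul_of_nonneg_left _ (by positivity)
  apply Finset.sum_le_sum_of_subset_of_nonneg
  · intro l hl
    rw [mem_filter] at hl ⊢
    refine ⟨hl.1, ?_⟩
    have : (U : ℝ) < (den l Q : ℝ) := lt_of_le_of_lt hU hl.2
    exact_mod_cast this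
  · intro l _ _
    exact FIB_sq_nonneg _ _ _

lemma FIB_small {X L : ℝ} {Y Z T R U : ℕ} (h : Par X L Y Z T R U) (C : ℝ) (hC : 0 < C)
    (hs : ∀ (a : ℕ → ℝ) (N Z U : ℕ), 1 ≤ U → 1 ≤ Z →
      ∑ Q ∈ Icc 1 Z, (1 / (Q : ℝ)) * ∑ l ∈ (range Q).filter (fun l : ℕ => U < den l Q),
        Sq a N (l / Q) ≤ C * (1 + Real.log Z) * ((N : ℝ) / U + Z) * A2 a N)
    (hA : A2 Lam ⌊X⌋₊ ≤ X * L) :
    ∑ Q ∈ Icc 1 Z, HH X Q (X / Q * L ^ 8) ≤ 6 * C * (X * Y) / L ^ 3 := by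
  obtain ⟨hX, hL, hXL, hYX, hY2, hY, hZ1, hZ2, hT1, hT2, hR1, hR2, hU1, hU2, hZ, hT, hR, hU, hZY,
    hTZ, hRZ⟩ := h
  have hL1 : 1 ≤ L := by linarith
  have hX0 : 0 < X := by linarith
  have hZ0 : (0 : ℝ) < Z := by exact_mod_cast hZ
  have hU0 : (0 : ℝ) < U := by exact_mod_cast hU
  have hY0 : (0 : ℝ) < Y := by
    have : (Z : ℝ) ≤ Y := by exact_mod_cast hZY
    linarith
  have hA0 : 0 ≤ A2 Lam ⌊X⌋₊ := Finset.sum_nonneg fun _ _ => sq_nonneg _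
  have h1 : ∑ Q ∈ Icc 1 Z, HH X Q (X / Q * L ^ 8) ≤
      ∑ Q ∈ Icc 1 Z, (1 / (Q : ℝ)) * ∑ l ∈ (range Q).filter (fun l : ℕ => U < den l Q),
        Sq Lam ⌊X⌋₊ (l / Q) := by
    apply Finset.sum_le_sum
    intro Q hQ
    rw [mem_Icc] at hQ
    apply FIB_hh_le X Q U hQ.1
    have hQ0 : (0 : ℝ) < Q := by exact_mod_cast hQ.1
    have hQZ : (Q : ℝ) ≤ Z := by exact_mod_cast hQ.2
    calc (U : ℝ) ≤ X / Z := hU1
      _ ≤ X / Q := by gcongr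
      _ = X / Q * 1 := by ring
      _ ≤ X / Q * L ^ 8 := by gcongr; exact one_le_pow₀ hL1
  refine h1.trans ((hs Lam ⌊X⌋₊ Z U hU hZ).trans ?_)
  have hN : (⌊X⌋₊ : ℝ) ≤ X := Nat.floor_le hX0.le
  have h2 : (⌊X⌋₊ : ℝ) / U ≤ 2 * Z := by
    rw [div_le_iff₀ hU0]
    calc (⌊X⌋₊ : ℝ) ≤ X := hN
      _ = 2 * Z * (X / Z / 2) := by field_simp
      _ ≤ 2 * Z * U := by gcongr
  have h3 : Real.log Z ≤ L := by
    rw [hX]
    apply Real.log_le_log hZ0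
    have : (Z : ℝ) ≤ Y := by exact_mod_cast hZY
    linarith
  have h30 : 0 ≤ Real.log Z := Real.log_nonneg (by exact_mod_cast hZ)
  calc C * (1 + Real.log Z) * ((⌊X⌋₊ : ℝ) / U + Z) * A2 Lam ⌊X⌋₊
      ≤ C * (L + L) * (2 * Z + Z) * (X * L) := by
        gcongr
    _ = 6 * C * X * L ^ 2 * Z := by ring
    _ ≤ 6 * C * X * L ^ 2 * (Y / L ^ 5) := by gcongr
    _ = 6 * C * (X * Y) / L ^ 3 := by field_simp

/-- the total error mass -/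
noncomputable def EE (X L : ℝ) (Y Z T R : ℕ) : ℝ :=
  (1 + Real.log (Y / Z)) / R + (2 * Y / T + T * Y * (1 / (X * L ^ 6))) / Z
    + 2 * R * Y * (L ^ 2 / X + 1 / (X * L ^ 6)) / Z

lemma FIB_E {X L : ℝ} {Y Z T R U : ℕ} (h : Par X L Y Z T R U) :
    EE X L Y Z T R ≤ Y * (1 / (X * L ^ 6)) * ((2 * (1 + Real.log (2 * L ^ 5)) + 18) / L ^ 2) := by
  obtain ⟨hX, hL, hXL, hYX, hY2, hY, hZ1, hZ2, hT1, hT2, hR1, hR2, hU1, hU2, hZ, hT, hR, hU, hZY,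
    hTZ, hRZ⟩ := h
  have hL1 : 1 ≤ L := by linarith
  have hL0 : 0 < L := by linarith
  have hX0 : 0 < X := by linarith
  have hZ0 : (0 : ℝ) < Z := by exact_mod_cast hZ
  have hT0 : (0 : ℝ) < T := by exact_mod_cast hT
  have hR0 : (0 : ℝ) < R := by exact_mod_cast hR
  have hZYr : (Z : ℝ) ≤ Y := by exact_mod_cast hZY
  have hY0 : (0 : ℝ) < Y := by linarith
  have hlog0 : 0 ≤ Real.log (2 * L ^ 5) := Real.log_nonneg (by
    have := one_le_pow₀ (n := 5) hL1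
    linarith)
  have hYZ : (Y : ℝ) / Z ≤ 2 * L ^ 5 := by
    rw [div_le_iff₀ hZ0]
    calc (Y : ℝ) = 2 * L ^ 5 * ((Y : ℝ) / (2 * L ^ 5)) := by field_simp
      _ ≤ 2 * L ^ 5 * Z := by gcongr
  have hlog : Real.log ((Y : ℝ) / Z) ≤ Real.log (2 * L ^ 5) :=
    Real.log_le_log (by positivity) hYZ
  have hYZ1 : 1 ≤ (Y : ℝ) / Z := by rw [le_div_iff₀ hZ0]; linarith
  have hlog1 : 0 ≤ Real.log ((Y : ℝ) / Z) := Real.log_nonneg hYZ1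
  have hZinv : 1 / (Z : ℝ) ≤ 2 * L ^ 5 / Y := by
    rw [div_le_div_iff₀ hZ0 hY0]
    calc 1 * (Y : ℝ) = 2 * L ^ 5 * ((Y : ℝ) / (2 * L ^ 5)) := by field_simp
      _ ≤ 2 * L ^ 5 * Z := by gcongr
  have hTinv : 1 / (T : ℝ) ≤ 2 * L ^ 11 / Y := by
    rw [div_le_div_iff₀ hT0 hY0]
    calc 1 * (Y : ℝ) = 2 * L ^ 11 * ((Y : ℝ) / (2 * L ^ 11)) := by field_simp
      _ ≤ 2 * L ^ 11 * (T : ℝ) := by gcongr
  have hRinv : 1 / (R : ℝ) ≤ 2 * Y / (X * L ^ 8) := by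
    rw [div_le_div_iff₀ hR0 (by positivity)]
    calc 1 * (X * L ^ 8) = 2 * (Y : ℝ) * (X / Y * L ^ 8 / 2) := by field_simp
      _ ≤ 2 * (Y : ℝ) * (R : ℝ) := by gcongr
  have hXY2 : X * L ^ 22 / (Y : ℝ) ^ 2 ≤ 1 / L ^ 2 := by
    rw [div_le_div_iff₀ (by positivity) (by positivity)]
    calc X * L ^ 22 * L ^ 2 = X * L ^ 24 := by ring
      _ ≤ 1 * (Y : ℝ) ^ 2 := by rw [one_mul]; exact hY2
  have hLL : 1 / L ^ 6 ≤ 1 / L ^ 2 := by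
    apply one_div_le_one_div_of_le (by positivity)
    exact pow_le_pow_right₀ hL1 (by norm_num)
  set δ : ℝ := 1 / (X * L ^ 6) with hδ
  have hδ0 : 0 < δ := by positivity
  -- first term
  have e1 : (1 + Real.log ((Y : ℝ) / Z)) / R ≤ Y * δ * (2 * (1 + Real.log (2 * L ^ 5)) / L ^ 2) := by
    calc (1 + Real.log ((Y : ℝ) / Z)) / R = (1 + Real.log ((Y : ℝ) / Z)) * (1 / R) := by ring
      _ ≤ (1 + Real.log (2 * L ^ 5)) * (2 * Y / (X * L ^ 8)) := by gcongr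
      _ = Y * δ * (2 * (1 + Real.log (2 * L ^ 5)) / L ^ 2) := by rw [hδ]; field_simp
  have e2 : 2 * (Y : ℝ) / T / Z ≤ Y * δ * (8 / L ^ 2) := by
    calc 2 * (Y : ℝ) / T / Z = 2 * Y * (1 / T) * (1 / Z) := by ring
      _ ≤ 2 * Y * (2 * L ^ 11 / Y) * (2 * L ^ 5 / Y) := by gcongr
      _ = Y * δ * (8 * (X * L ^ 22 / (Y : ℝ) ^ 2)) := by rw [hδ]; field_simp; ring
      _ ≤ Y * δ * (8 * (1 / L ^ 2)) := by gcongr
      _ = Y * δ * (8 / L ^ 2) := by ring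
  have e3 : (T : ℝ) * Y * δ / Z ≤ Y * δ * (2 / L ^ 2) := by
    calc (T : ℝ) * Y * δ / Z = Y * δ * (T * (1 / Z)) := by ring
      _ ≤ Y * δ * ((Y / L ^ 11) * (2 * L ^ 5 / Y)) := by gcongr
      _ = Y * δ * (2 * (1 / L ^ 6)) := by field_simp
      _ ≤ Y * δ * (2 * (1 / L ^ 2)) := by gcongr
      _ = Y * δ * (2 / L ^ 2) := by ring
  have e4 : 2 * (R : ℝ) * Y * (L ^ 2 / X + δ) / Z ≤ Y * δ * (8 / L ^ 2) := by
    have hd : δ ≤ L ^ 2 / X := by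
      rw [hδ, div_le_div_iff₀ (by positivity) hX0]
      have h1 : 1 ≤ L ^ 8 := one_le_pow₀ hL1
      nlinarith
    calc 2 * (R : ℝ) * Y * (L ^ 2 / X + δ) / Z = 2 * R * Y * (L ^ 2 / X + δ) * (1 / Z) := by ring
      _ ≤ 2 * (X / Y * L ^ 8) * Y * (L ^ 2 / X + L ^ 2 / X) * (2 * L ^ 5 / Y) := by gcongr
      _ = Y * δ * (8 * (X * L ^ 22 / (Y : ℝ) ^ 2) * (1 / L)) := by rw [hδ]; field_simp; ring
      _ ≤ Y * δ * (8 * (1 / L ^ 2) * 1) := by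
          gcongr
          rw [div_le_iff₀ hL0]; linarith
      _ = Y * δ * (8 / L ^ 2) := by ring
  unfold EE
  rw [← hδ]
  calc (1 + Real.log ((Y : ℝ) / Z)) / R + (2 * Y / T + T * Y * δ) / Z
        + 2 * R * Y * (L ^ 2 / X + δ) / Z
      = (1 + Real.log ((Y : ℝ) / Z)) / R + 2 * (Y : ℝ) / T / Z + (T : ℝ) * Y * δ / Z
        + 2 * R * Y * (L ^ 2 / X + δ) / Z := by ring
    _ ≤ Y * δ * (2 * (1 + Real.log (2 * L ^ 5)) / L ^ 2) + Y * δ * (8 / L ^ 2)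
        + Y * δ * (2 / L ^ 2) + Y * δ * (8 / L ^ 2) := by linarith
    _ = Y * δ * ((2 * (1 + Real.log (2 * L ^ 5)) + 18) / L ^ 2) := by ring

end Pool.Agent.HC
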