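import Pool.Agent.Lib_helper92.HCF.Base
import Pool.Agent.Lib_helper23.BG.Defs

set_option autoImplicit false

namespace Pool.Agent.HC

open Finset MeasureTheory intervalIntegral

lemma psi_floor_le (u : ℝ) (hu : 0 ≤ u) : 0 ≤ (⌊u⌋₊ : ℝ) / u ∧ (⌊u⌋₊ : ℝ) / u ≤ 1 := by
  refine ⟨by positivity, ?_⟩
  rcases hu.eq_or_lt with rfl | h
  · simp
  · rw [div_le_one h]
    exact Nat.floor_le hu

lemma psi_meas : Measurable fun u : ℝ => (⌊u⌋₊ : ℝ) / u := by
  have h1 : Measurable fun u : ℝ => ⌊u⌋₊ := Nat.measurable_floor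
  have h2 : Measurable fun u : ℝ => ((⌊u⌋₊ : ℕ) : ℝ) := measurable_from_top.comp h1
  exact h2.div measurable_id

lemma psi_intble (a b : ℝ) (ha : 0 ≤ a) (hab : a ≤ b) :
    IntervalIntegrable (fun u : ℝ => (⌊u⌋₊ : ℝ) / u) volume a b := by
  rw [intervalIntegrable_iff_integrableOn_Ioc_of_le hab]
  apply Measure.integrableOn_of_bounded (M := 1)
  · simp
  · exact psi_meas.aestronglyMeasurable
  · filter_upwards [ae_restrict_mem measurableSet_Ioc] with u hu
    have := psi_floor_le u (ha.trans hu.1.le)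
    rw [Real.norm_eq_abs, abs_le]
    constructor <;> linarith

/-- PSI -/
theorem psi_int_pr (M : ℝ) (hM : 0 ≤ M) : Psi M = ∫ u in (0 : ℝ)..M, (⌊u⌋₊ : ℝ) / u := by
  set F : ℕ → ℝ → ℝ := fun m u => if (m : ℝ) ≤ u then u⁻¹ else 0 with hF
  have hm0 : ∀ m ∈ Icc 1 ⌊M⌋₊, (0 : ℝ) < m ∧ (m : ℝ) ≤ M := by
    intro m hm
    rw [mem_Icc] at hm
    exact ⟨by exact_mod_cast hm.1, (Nat.le_floor_iff hM).1 hm.2⟩
  have hA : ∀ m ∈ Icc 1 ⌊M⌋₊, IntervalIntegrable (F m) volume 0 m ∧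
      ∫ u in (0 : ℝ)..m, F m u = 0 := by
    intro m hm
    obtain ⟨h0, h1⟩ := hm0 m hm
    have hz : ∀ᵐ u : ℝ, u ∈ Set.uIoc (0 : ℝ) m → F m u = (fun _ => (0 : ℝ)) u := by
      filter_upwards [Measure.ae_ne volume (m : ℝ)] with u hu hu2
      rw [Set.uIoc_of_le h0.le] at hu2
      have : ¬ ((m : ℝ) ≤ u) := fun h => hu (le_antisymm hu2.2 h)
      simp only [hF]
      rw [if_neg this]
    constructor
    · have h2 : IntervalIntegrable (fun _ : ℝ => (0 : ℝ)) volume 0 m := _root_.intervalIntegrable_const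
      rw [intervalIntegrable_iff] at h2 ⊢
      apply h2.congr
      rw [Filter.EventuallyEq, ae_restrict_iff' measurableSet_uIoc]
      filter_upwards [hz] with u hu hu2
      exact (hu hu2).symm
    · rw [intervalIntegral.integral_congr_ae hz]
      simp
  have hB : ∀ m ∈ Icc 1 ⌊M⌋₊, IntervalIntegrable (F m) volume m M ∧
      ∫ u in (m : ℝ)..M, F m u = Real.log (M / m) := by
    intro m hm
    obtain ⟨h0, h1⟩ := hm0 m hm
    have he : Set.EqOn (F m) (fun u => u⁻¹) (Set.uIcc (m : ℝ) M) := by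
      intro u hu
      rw [Set.uIcc_of_le h1] at hu
      simp only [hF]
      rw [if_pos hu.1]
    have hne : ∀ u ∈ Set.uIcc (m : ℝ) M, u ≠ 0 := by
      intro u hu
      rw [Set.uIcc_of_le h1] at hu
      exact (h0.trans_le hu.1).ne'
    constructor
    · have h2 : IntervalIntegrable (fun u : ℝ => u⁻¹) volume m M := by
        apply ContinuousOn.intervalIntegrable
        exact continuousOn_inv₀.mono hne
      apply h2.congr
      intro u hu
      exact (he (Set.uIoc_subset_uIcc hu)).symm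
    · rw [intervalIntegral.integral_congr he, integral_inv_of_pos h0 (h0.trans_le h1)]
  have hC : ∀ m ∈ Icc 1 ⌊M⌋₊, IntervalIntegrable (F m) volume 0 M ∧
      ∫ u in (0 : ℝ)..M, F m u = Real.log (M / m) := by
    intro m hm
    refine ⟨(hA m hm).1.trans (hB m hm).1, ?_⟩
    rw [← intervalIntegral.integral_add_adjacent_intervals (hA m hm).1 (hB m hm).1,
      (hA m hm).2, (hB m hm).2, zero_add]
  have hsum : Set.EqOn (fun u : ℝ => (⌊u⌋₊ : ℝ) / u) (fun u => ∑ m ∈ Icc 1 ⌊M⌋₊, F m u)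
      (Set.uIcc 0 M) := by
    intro u hu
    rw [Set.uIcc_of_le hM] at hu
    simp only [hF]
    rw [← sum_filter, sum_const, nsmul_eq_mul, div_eq_mul_inv]
    congr 2
    have : (Icc 1 ⌊M⌋₊).filter (fun m : ℕ => (m : ℝ) ≤ u) = Icc 1 ⌊u⌋₊ := by
      ext m
      rw [mem_filter, mem_Icc, mem_Icc]
      constructor
      · rintro ⟨⟨h1, h2⟩, h3⟩
        exact ⟨h1, (Nat.le_floor_iff hu.1).2 h3⟩
      · rintro ⟨h1, h2⟩
        exact ⟨⟨h1, h2.trans (Nat.floor_mono hu.2)⟩, (Nat.le_floor_iff hu.1).1 h2⟩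
    rw [this, Nat.card_Icc, Nat.add_sub_cancel]
  rw [intervalIntegral.integral_congr hsum, intervalIntegral.integral_finsetSum
    (fun m hm => (hC m hm).1)]
  unfold Psi
  exact (sum_congr rfl fun m hm => (hC m hm).2).symm

/-- PSI -/
theorem psi_lip_pr (M₁ M₂ : ℝ) (h1 : 0 ≤ M₁) (h2 : M₁ ≤ M₂) :
    0 ≤ Psi M₂ - Psi M₁ ∧ Psi M₂ - Psi M₁ ≤ M₂ - M₁ := by
  have hd : Psi M₂ - Psi M₁ = ∫ u in M₁..M₂, (⌊u⌋₊ : ℝ) / u := by
    rw [psi_int_pr M₁ h1, psi_int_pr M₂ (h1.trans h2)]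
    exact intervalIntegral.integral_interval_sub_left (psi_intble 0 M₂ le_rfl (h1.trans h2))
      (psi_intble 0 M₁ le_rfl h1)
  rw [hd]
  constructor
  · apply intervalIntegral.integral_nonneg h2
    intro u hu
    exact (psi_floor_le u (h1.trans hu.1)).1
  · have h3 : ∫ u in M₁..M₂, (⌊u⌋₊ : ℝ) / u ≤ ∫ _ in M₁..M₂, (1 : ℝ) := by
      apply intervalIntegral.integral_mono_on h2 (psi_intble M₁ M₂ h1 h2)
        _root_.intervalIntegrable_const
      intro u hu
      exact (psi_floor_le u (h1.trans hu.1)).2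
    simpa using h3

alias psi_int := psi_int_pr
alias psi_lip := psi_lip_pr

end Pool.Agent.HC
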