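import Pool.Agent.Lib_helper92.HCF.Base
import Pool.Agent.Lib_helper23.BG.Defs
import Pool.Agent.Lib_helper92.HCF.PSI

/-! HC, block FQI. -/

set_option autoImplicit false

namespace Pool.Agent.HC

open Finset Complex Pool.Agent.Var35 Pool.Agent.Var73 MeasureTheory
open scoped ArithmeticFunction ArithmeticFunction.Moebius

lemma fqi_zero : Psi 0 = 0 := by
  unfold Psi
  simp

lemma fqi_psi (Y : ℝ) (hY : 0 ≤ Y) (q : ℕ) (hq : 1 ≤ q) (b₁ b₂ : ℝ) (h1 : 0 ≤ b₁) (h2 : b₁ ≤ b₂) :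
    0 ≤ Psi (q * Y * b₂) / q - Psi (q * Y * b₁) / q ∧
      Psi (q * Y * b₂) / q - Psi (q * Y * b₁) / q ≤ Y * (b₂ - b₁) := by
  have hq0 : (0 : ℝ) < q := by exact_mod_cast hq
  have h3 := psi_lip (q * Y * b₁) (q * Y * b₂) (by positivity)
    (mul_le_mul_of_nonneg_left h2 (by positivity))
  rw [← sub_div]
  refine ⟨div_nonneg h3.1 hq0.le, ?_⟩
  rw [div_le_iff₀ hq0]
  calc _ ≤ _ := h3.2
    _ = _ := by ring

/-- FQI (uses psi_int, psi_lip) -/
theorem fq_lip_pr (Y : ℝ) (hY : 0 ≤ Y) (q : ℕ) (hq : 1 ≤ q) (β₁ β₂ : ℝ) (h : β₁ ≤ β₂) :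
    0 ≤ Fq Y q β₂ - Fq Y q β₁ ∧ Fq Y q β₂ - Fq Y q β₁ ≤ Y * (β₂ - β₁) := by
  unfold Fq
  by_cases h1 : 0 ≤ β₁
  · have h2 : 0 ≤ β₂ := le_trans h1 h
    rw [if_pos h1, if_pos h2]
    exact fqi_psi Y hY q hq β₁ β₂ h1 h
  · by_cases h2 : 0 ≤ β₂
    · rw [if_neg h1, if_pos h2]
      have h3 := fqi_psi Y hY q hq 0 β₂ le_rfl h2
      have h4 := fqi_psi Y hY q hq 0 (-β₁) le_rfl (by linarith)
      rw [mul_zero, fqi_zero, zero_div, sub_zero, sub_zero] at h3 h4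
      constructor
      · linarith [h3.1, h4.1]
      · linarith [h3.2, h4.2]
    · rw [if_neg h1, if_neg h2]
      have h3 := fqi_psi Y hY q hq (-β₂) (-β₁) (by linarith) (by linarith)
      constructor
      · linarith [h3.1]
      · linarith [h3.2]

lemma fqi_rho_even (Y : ℝ) (q : ℕ) (β : ℝ) : rho Y q (-β) = rho Y q β := by
  unfold rho
  rw [abs_neg]

lemma fqi_meas (Y : ℝ) (q : ℕ) : Measurable (rho Y q) := by
  unfold rho
  have h1 : Measurable (fun β : ℝ => |β|) := continuous_abs.measurable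
  have h2 : Measurable (fun β : ℝ => (⌊(q : ℝ) * Y * |β|⌋₊ : ℝ)) :=
    (measurable_from_nat.comp (Nat.measurable_floor.comp (h1.const_mul _)))
  exact h2.div (h1.const_mul _)

lemma fqi_bound (Y : ℝ) (hY : 0 ≤ Y) (q : ℕ) (hq : 1 ≤ q) (β : ℝ) : ‖rho Y q β‖ ≤ ‖Y‖ := by
  have hq0 : (0 : ℝ) < q := by exact_mod_cast hq
  have h0 : 0 ≤ rho Y q β := by
    unfold rho
    positivity
  rw [Real.norm_of_nonneg h0, Real.norm_of_nonneg hY]
  unfold rho
  rcases eq_or_ne β 0 with h | h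
  · subst h
    simpa using hY
  · have h1 : 0 < |β| := abs_pos.2 h
    rw [div_le_iff₀ (by positivity)]
    calc (⌊(q : ℝ) * Y * |β|⌋₊ : ℝ) ≤ q * Y * |β| := Nat.floor_le (by positivity)
      _ = _ := by ring

lemma fqi_int (Y : ℝ) (hY : 0 ≤ Y) (q : ℕ) (hq : 1 ≤ q) (a b : ℝ) :
    IntervalIntegrable (rho Y q) volume a b := by
  have h : IntervalIntegrable (fun _ : ℝ => Y) volume a b := intervalIntegrable_const
  refine h.mono_fun (fqi_meas Y q).aestronglyMeasurable ?_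
  exact Filter.Eventually.of_forall fun x => fqi_bound Y hY q hq x

lemma fqi_pos (Y : ℝ) (hY : 0 ≤ Y) (q : ℕ) (hq : 1 ≤ q) (b : ℝ) (hb : 0 ≤ b) :
    ∫ β in (0 : ℝ)..b, rho Y q β = Psi (q * Y * b) / q := by
  have hq0 : (0 : ℝ) < q := by exact_mod_cast hq
  rw [psi_int _ (by positivity)]
  have h1 : ∫ β in (0 : ℝ)..b, rho Y q β =
      ∫ β in (0 : ℝ)..b, Y * ((fun u : ℝ => (⌊u⌋₊ : ℝ) / u) (q * Y * β)) := by
    apply intervalIntegral.integral_congr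
    intro β hβ
    rw [Set.uIcc_of_le hb] at hβ
    simp only
    unfold rho
    rw [abs_of_nonneg hβ.1]
    rcases eq_or_lt_of_le hY with h | h
    · rw [← h]
      simp
    · rcases eq_or_lt_of_le hβ.1 with h' | h'
      · rw [← h']
        simp
      · field_simp
  rw [h1, intervalIntegral.integral_const_mul, eq_div_iff hq0.ne']
  have h2 := intervalIntegral.mul_integral_comp_mul_left (a := (0 : ℝ)) (b := b)
    (f := fun u : ℝ => (⌊u⌋₊ : ℝ) / u) ((q : ℝ) * Y)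
  rw [mul_zero] at h2
  rw [← h2]
  ring

lemma fqi_Fq (Y : ℝ) (hY : 0 ≤ Y) (q : ℕ) (hq : 1 ≤ q) (b : ℝ) :
    ∫ β in (0 : ℝ)..b, rho Y q β = Fq Y q b := by
  unfold Fq
  split_ifs with h
  · exact fqi_pos Y hY q hq b h
  · push Not at h
    have h1 : ∫ β in (0 : ℝ)..b, rho Y q β = ∫ β in (0 : ℝ)..b, rho Y q (-β) := by
      apply intervalIntegral.integral_congr
      intro β _
      exact (fqi_rho_even Y q β).symm
    rw [h1, intervalIntegral.integral_comp_neg, neg_zero, intervalIntegral.integral_symm,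
      fqi_pos Y hY q hq (-b) (by linarith)]

/-- FQI (uses psi_int, psi_lip) -/
theorem fq_int_pr (Y : ℝ) (hY : 0 ≤ Y) (q : ℕ) (hq : 1 ≤ q) (β₁ β₂ : ℝ) (h : β₁ ≤ β₂) :
    IntervalIntegrable (rho Y q) volume β₁ β₂ ∧
    Fq Y q β₂ - Fq Y q β₁ = ∫ β in β₁..β₂, rho Y q β := by
  refine ⟨fqi_int Y hY q hq β₁ β₂, ?_⟩
  rw [← fqi_Fq Y hY q hq, ← fqi_Fq Y hY q hq]
  exact intervalIntegral.integral_interval_sub_left (fqi_int Y hY q hq 0 β₂)
    (fqi_int Y hY q hq 0 β₁)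

alias fq_lip := fq_lip_pr
alias fq_int := fq_int_pr

end Pool.Agent.HC
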