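import Pool.Agent.Lib_helper92.HCF.Base
import Pool.Agent.Lib_helper23.BG.Defs

set_option autoImplicit false

namespace Pool.Agent.HC

open Finset Complex Filter Topology MeasureTheory Pool.Agent.Var35 Pool.Agent.Var73
open scoped ArithmeticFunction ArithmeticFunction.Moebius

lemma FOL_ind (g : ℝ → ℝ) (α β : ℝ) (hα : -1 < α) (hαβ : α ≤ β) (hβ : β ≤ 2) :
    ∫ t in (-1 : ℝ)..2, (Set.Icc α β).indicator g t = ∫ t in α..β, g t := by
  rw [intervalIntegral.integral_of_le (by norm_num), intervalIntegral.integral_of_le hαβ,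
    ← MeasureTheory.integral_Icc_eq_integral_Ioc (x := α) (y := β),
    MeasureTheory.setIntegral_indicator measurableSet_Icc]
  congr 2
  ext x
  simp only [Set.mem_inter_iff, Set.mem_Ioc, Set.mem_Icc]
  constructor
  · rintro ⟨_, h⟩; exact h
  · rintro ⟨h1, h2⟩; exact ⟨⟨by linarith, by linarith⟩, h1, h2⟩

lemma FOL_ii (g : ℝ → ℝ) (hc : Continuous g) (α β a b : ℝ) :
    IntervalIntegrable ((Set.Icc α β).indicator g) volume a b := by
  rw [intervalIntegrable_iff]
  have h : IntervalIntegrable g volume a b := hc.intervalIntegrable a b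
  rw [intervalIntegrable_iff] at h
  exact h.indicator measurableSet_Icc

lemma FOL_split (F : ℝ → ℝ) (hF : ∀ a b, IntervalIntegrable F volume a b) :
    ∫ t in (-1 : ℝ)..2, F t = (∫ t in (0 : ℝ)..1, F (t + 1)) + (∫ t in (0 : ℝ)..1, F t) +
      ∫ t in (0 : ℝ)..1, F (t - 1) := by
  rw [intervalIntegral.integral_comp_add_right, intervalIntegral.integral_comp_sub_right]
  have e1 : (0 : ℝ) - 1 = -1 := by norm_num
  have e2 : (1 : ℝ) - 1 = 0 := by norm_num
  have e3 : (0 : ℝ) + 1 = 1 := by norm_num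
  have e4 : (1 : ℝ) + 1 = 2 := by norm_num
  rw [e1, e2, e3, e4]
  have h1 := intervalIntegral.integral_add_adjacent_intervals (hF (-1) 0) (hF 0 1)
  have h2 := intervalIntegral.integral_add_adjacent_intervals (hF (-1) 1) (hF 1 2)
  linarith

lemma FOL_den (l m : ℤ) (Q : ℕ) : den (l + m * Q) Q = den l Q := by
  unfold den
  have : Int.gcd (l + m * Q) Q = Int.gcd l Q := by
    exact Int.gcd_add_mul_right_left _ _ _
  rw [this]

/-- the summand of `cnt` -/
noncomputable def FOL_f (R Q : ℕ) (δ t : ℝ) (y : ℤ) : ℝ :=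
  if R < den y Q ∧ |(y : ℝ) / Q - t| ≤ δ / 2 then (1 : ℝ) else 0

lemma FOL_f_nonneg (R Q : ℕ) (δ t : ℝ) (y : ℤ) : 0 ≤ FOL_f R Q δ t y := by
  unfold FOL_f; split_ifs <;> norm_num

lemma FOL_cnt (R Q : ℕ) (hQ : 1 ≤ Q) (δ t : ℝ) :
    ∑ l ∈ range Q, ∑ k ∈ range 3, FOL_f R Q δ t ((l : ℤ) + ((k : ℤ) - 1) * Q) ≤ cnt R Q δ t := by
  have hinj : Set.InjOn (fun x : ℕ × ℕ => (x.1 : ℤ) + ((x.2 : ℤ) - 1) * Q)
      ((range Q ×ˢ range 3 : Finset (ℕ × ℕ)) : Set (ℕ × ℕ)) := by
    rintro ⟨a, b⟩ ha ⟨c, d⟩ hc h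
    simp only [Finset.coe_product, Set.mem_prod, Finset.mem_coe, Finset.mem_range] at ha hc
    simp only at h
    have hb : b = d := by
      rcases lt_trichotomy b d with h' | h' | h'
      · exfalso
        have h1 : (b : ℤ) + 1 ≤ d := by exact_mod_cast h'
        have h2 : ((d : ℤ) - b) * Q ≥ 1 * Q := by
          apply mul_le_mul_of_nonneg_right (by linarith) (by positivity)
        have h3 : (a : ℤ) < Q := by exact_mod_cast ha.1
        have h4 : (0 : ℤ) ≤ c := by positivity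
        nlinarith
      · exact h'
      · exfalso
        have h1 : (d : ℤ) + 1 ≤ b := by exact_mod_cast h'
        have h2 : ((b : ℤ) - d) * Q ≥ 1 * Q := by
          apply mul_le_mul_of_nonneg_right (by linarith) (by positivity)
        have h3 : (c : ℤ) < Q := by exact_mod_cast hc.1
        have h4 : (0 : ℤ) ≤ a := by positivity
        nlinarith
    subst hb
    have : (a : ℤ) = c := by linarith
    have : a = c := by exact_mod_cast this
    subst this; rfl
  have h1 : ∑ l ∈ range Q, ∑ k ∈ range 3, FOL_f R Q δ t ((l : ℤ) + ((k : ℤ) - 1) * Q) =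
      ∑ y ∈ (range Q ×ˢ range 3).image (fun x : ℕ × ℕ => (x.1 : ℤ) + ((x.2 : ℤ) - 1) * Q),
        FOL_f R Q δ t y := by
    rw [Finset.sum_image hinj, Finset.sum_product]
  rw [h1]
  unfold cnt
  apply Finset.sum_le_sum_of_subset_of_nonneg
  · intro y hy
    rw [Finset.mem_image] at hy
    obtain ⟨⟨a, b⟩, hab, rfl⟩ := hy
    rw [Finset.mem_product, Finset.mem_range, Finset.mem_range] at hab
    rw [Finset.mem_Icc]
    have h3 : (a : ℤ) < Q := by exact_mod_cast hab.1
    have h4 : (0 : ℤ) ≤ a := by positivity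
    have h5 : (b : ℤ) ≤ 2 := by have := hab.2; omega
    have h6 : (0 : ℤ) ≤ b := by positivity
    have h7 : (0 : ℤ) ≤ Q := by positivity
    constructor <;> simp only <;> nlinarith
  · intro y _ _
    exact FOL_f_nonneg R Q δ t y

lemma FOL_one (g : ℝ → ℝ) (hc : Continuous g) (h1 : ∀ t, g (t + 1) = g t)
    (R Q : ℕ) (hQ : 1 ≤ Q) (δ : ℝ) (hδ : 0 < δ) (hδ1 : δ ≤ 1) (l : ℕ) (hl : l < Q)
    (hR : R < den l Q) :
    (∫ t in ((l : ℝ) / Q - δ / 2)..((l : ℝ) / Q + δ / 2), g t) =
      ∑ k ∈ range 3, ∫ t in (0 : ℝ)..1, g t * FOL_f R Q δ t ((l : ℤ) + ((k : ℤ) - 1) * Q) := by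
  have hQ0 : (0 : ℝ) < Q := by exact_mod_cast hQ
  have hc0 : 0 ≤ (l : ℝ) / Q := by positivity
  have hc1 : (l : ℝ) / Q < 1 := by
    rw [div_lt_one hQ0]; exact_mod_cast hl
  set c : ℝ := (l : ℝ) / Q with hcdef
  rw [← FOL_ind g (c - δ / 2) (c + δ / 2) (by linarith) (by linarith) (by linarith),
    FOL_split _ (fun a b => FOL_ii g hc _ _ a b)]
  rw [Finset.sum_range_succ, Finset.sum_range_succ, Finset.sum_range_one]
  have hm1 : ∀ t, g (t - 1) = g t := by
    intro t; have := h1 (t - 1); rw [sub_add_cancel] at this; exact this.symm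
  have hd : ∀ m : ℤ, R < den ((l : ℤ) + m * Q) Q := by
    intro m; rw [FOL_den]; exact hR
  have hcast : ∀ m : ℤ, (((l : ℤ) + m * Q : ℤ) : ℝ) / Q = c + m := by
    intro m; push_cast; rw [hcdef]; field_simp
  congr 1
  · congr 1
    · apply intervalIntegral.integral_congr
      intro t _
      simp only [FOL_f]
      rw [Set.indicator_apply]
      have : ((t + 1) ∈ Set.Icc (c - δ / 2) (c + δ / 2)) ↔
          (R < den ((l : ℤ) + (((0 : ℕ) : ℤ) - 1) * Q) Q ∧
            |(((l : ℤ) + (((0 : ℕ) : ℤ) - 1) * Q : ℤ) : ℝ) / Q - t| ≤ δ / 2) := by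
        rw [hcast, Set.mem_Icc, abs_le]
        push_cast
        constructor
        · rintro ⟨a, b⟩; exact ⟨hd (-1), by linarith, by linarith⟩
        · rintro ⟨_, a, b⟩; exact ⟨by linarith, by linarith⟩
      by_cases h : (t + 1) ∈ Set.Icc (c - δ / 2) (c + δ / 2)
      · rw [if_pos h, if_pos (this.mp h), h1, mul_one]
      · rw [if_neg h, if_neg (fun h' => h (this.mpr h')), mul_zero]
    · apply intervalIntegral.integral_congr
      intro t _
      simp only [FOL_f]
      rw [Set.indicator_apply]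
      have : (t ∈ Set.Icc (c - δ / 2) (c + δ / 2)) ↔
          (R < den ((l : ℤ) + (((1 : ℕ) : ℤ) - 1) * Q) Q ∧
            |(((l : ℤ) + (((1 : ℕ) : ℤ) - 1) * Q : ℤ) : ℝ) / Q - t| ≤ δ / 2) := by
        rw [hcast, Set.mem_Icc, abs_le]
        push_cast
        constructor
        · rintro ⟨a, b⟩; exact ⟨by simpa using hd 0, by linarith, by linarith⟩
        · rintro ⟨_, a, b⟩; exact ⟨by linarith, by linarith⟩
      by_cases h : t ∈ Set.Icc (c - δ / 2) (c + δ / 2)
      · rw [if_pos h, if_pos (this.mp h), mul_one]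
      · rw [if_neg h, if_neg (fun h' => h (this.mpr h')), mul_zero]
  · apply intervalIntegral.integral_congr
    intro t _
    simp only [FOL_f]
    rw [Set.indicator_apply]
    have : ((t - 1) ∈ Set.Icc (c - δ / 2) (c + δ / 2)) ↔
        (R < den ((l : ℤ) + (((2 : ℕ) : ℤ) - 1) * Q) Q ∧
          |(((l : ℤ) + (((2 : ℕ) : ℤ) - 1) * Q : ℤ) : ℝ) / Q - t| ≤ δ / 2) := by
      rw [hcast, Set.mem_Icc, abs_le]
      push_cast
      constructor
      · rintro ⟨a, b⟩; exact ⟨hd 1, by linarith, by linarith⟩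
      · rintro ⟨_, a, b⟩; exact ⟨by linarith, by linarith⟩
    by_cases h : (t - 1) ∈ Set.Icc (c - δ / 2) (c + δ / 2)
    · rw [if_pos h, if_pos (this.mp h), hm1, mul_one]
    · rw [if_neg h, if_neg (fun h' => h (this.mpr h')), mul_zero]

lemma FOL_int (g : ℝ → ℝ) (hc : Continuous g) (R Q : ℕ) (δ : ℝ) (y : ℤ) :
    IntervalIntegrable (fun t => g t * FOL_f R Q δ t y) volume 0 1 := by
  by_cases hR : R < den y Q
  · have : (fun t => g t * FOL_f R Q δ t y) =
        (Set.Icc ((y : ℝ) / Q - δ / 2) ((y : ℝ) / Q + δ / 2)).indicator g := by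
      funext t
      rw [Set.indicator_apply]
      unfold FOL_f
      have h2 : (t ∈ Set.Icc ((y : ℝ) / Q - δ / 2) ((y : ℝ) / Q + δ / 2)) ↔
          (R < den y Q ∧ |(y : ℝ) / Q - t| ≤ δ / 2) := by
        rw [Set.mem_Icc, abs_le]
        constructor
        · rintro ⟨a, b⟩; exact ⟨hR, by linarith, by linarith⟩
        · rintro ⟨_, a, b⟩; exact ⟨by linarith, by linarith⟩
      by_cases h : t ∈ Set.Icc ((y : ℝ) / Q - δ / 2) ((y : ℝ) / Q + δ / 2)
      · rw [if_pos h, if_pos (h2.mp h), mul_one]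
      · rw [if_neg h, if_neg (fun h' => h (h2.mpr h')), mul_zero]
    rw [this]
    exact FOL_ii g hc _ _ 0 1
  · have : (fun t => g t * FOL_f R Q δ t y) = fun _ => 0 := by
      funext t
      unfold FOL_f
      rw [if_neg (fun h => hR h.1), mul_zero]
    rw [this]
    exact intervalIntegrable_const

lemma FOL_sum {ι : Type*} (s : Finset ι) (f : ι → ℝ → ℝ)
    (h : ∀ i ∈ s, IntervalIntegrable (f i) volume 0 1) :
    IntervalIntegrable (fun t => ∑ i ∈ s, f i t) volume 0 1 := by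
  rw [intervalIntegrable_iff]
  apply MeasureTheory.integrable_finsetSum
  intro i hi
  exact (intervalIntegrable_iff.mp (h i hi))

theorem fold_pr (g : ℝ → ℝ) (hc : Continuous g) (h0 : ∀ t, 0 ≤ g t) (h1 : ∀ t, g (t + 1) = g t)
    (R Q : ℕ) (hQ : 1 ≤ Q) (δ : ℝ) (hδ : 0 < δ) (hδ1 : δ ≤ 1) :
    ∑ l ∈ (range Q).filter (fun l : ℕ => R < den l Q),
      (∫ t in ((l : ℝ) / Q - δ / 2)..((l : ℝ) / Q + δ / 2), g t) ≤
    ∫ t in (0 : ℝ)..1, g t * cnt R Q δ t := by
  have hcnt : (fun t => g t * cnt R Q δ t) =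
      fun t => ∑ y ∈ Icc (-(Q : ℤ)) (2 * Q), g t * FOL_f R Q δ t y := by
    funext t
    unfold cnt FOL_f
    rw [Finset.mul_sum]
  have hI : IntervalIntegrable (fun t => g t * cnt R Q δ t) volume 0 1 := by
    rw [hcnt]
    exact FOL_sum _ _ (fun y _ => FOL_int g hc R Q δ y)
  have hI2 : IntervalIntegrable (fun t => ∑ l ∈ range Q, ∑ k ∈ range 3,
      g t * FOL_f R Q δ t ((l : ℤ) + ((k : ℤ) - 1) * Q)) volume 0 1 := by
    apply FOL_sum
    intro l _
    apply FOL_sum
    intro k _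
    exact FOL_int g hc R Q δ _
  calc ∑ l ∈ (range Q).filter (fun l : ℕ => R < den l Q),
        (∫ t in ((l : ℝ) / Q - δ / 2)..((l : ℝ) / Q + δ / 2), g t)
      = ∑ l ∈ (range Q).filter (fun l : ℕ => R < den l Q),
        ∑ k ∈ range 3, ∫ t in (0 : ℝ)..1, g t * FOL_f R Q δ t ((l : ℤ) + ((k : ℤ) - 1) * Q) := by
        apply Finset.sum_congr rfl
        intro l hl
        rw [Finset.mem_filter, Finset.mem_range] at hl
        exact FOL_one g hc h1 R Q hQ δ hδ hδ1 l hl.1 hl.2
    _ ≤ ∑ l ∈ range Q,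
        ∑ k ∈ range 3, ∫ t in (0 : ℝ)..1, g t * FOL_f R Q δ t ((l : ℤ) + ((k : ℤ) - 1) * Q) := by
        apply Finset.sum_le_sum_of_subset_of_nonneg (Finset.filter_subset _ _)
        intro l _ _
        apply Finset.sum_nonneg
        intro k _
        apply intervalIntegral.integral_nonneg (by norm_num)
        intro t _
        exact mul_nonneg (h0 t) (FOL_f_nonneg _ _ _ _ _)
    _ = ∫ t in (0 : ℝ)..1, ∑ l ∈ range Q, ∑ k ∈ range 3,
        g t * FOL_f R Q δ t ((l : ℤ) + ((k : ℤ) - 1) * Q) := by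
        rw [intervalIntegral.integral_finsetSum]
        · apply Finset.sum_congr rfl
          intro l _
          rw [intervalIntegral.integral_finsetSum]
          intro k _
          exact FOL_int g hc R Q δ _
        · intro l _
          apply FOL_sum
          intro k _
          exact FOL_int g hc R Q δ _
    _ ≤ ∫ t in (0 : ℝ)..1, g t * cnt R Q δ t := by
        apply intervalIntegral.integral_mono_on (by norm_num) hI2 hI
        intro t _
        have : ∑ l ∈ range Q, ∑ k ∈ range 3,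
            g t * FOL_f R Q δ t ((l : ℤ) + ((k : ℤ) - 1) * Q) =
            g t * ∑ l ∈ range Q, ∑ k ∈ range 3,
              FOL_f R Q δ t ((l : ℤ) + ((k : ℤ) - 1) * Q) := by
          rw [Finset.mul_sum]
          apply Finset.sum_congr rfl
          intro l _
          rw [Finset.mul_sum]
        rw [this]
        exact mul_le_mul_of_nonneg_left (FOL_cnt R Q hQ δ t) (h0 t)

alias fold := fold_pr

end Pool.Agent.HC
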