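import Pool.Agent.Lib_helper92.HCF.Base
import Pool.Agent.Lib_helper23.BG.Defs

/-! MP_5dd4bb_nt, HC, block PAR. -/

set_option autoImplicit false

namespace Pool.Agent.HC

open Finset Complex Pool.Agent.Var35 Pool.Agent.Var73
open scoped ArithmeticFunction ArithmeticFunction.Moebius

theorem par_int (k : ℤ) : ∫ t in (0 : ℝ)..1, e (k * t) = if k = 0 then 1 else 0 := by
  split_ifs with h
  · subst h
    simp [e_zero]
  · have hc : ((2 * Real.pi * k : ℝ) : ℂ) * I ≠ 0 := by
      have : (2 * Real.pi * k : ℝ) ≠ 0 := by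
        have h2 : (k : ℝ) ≠ 0 := by exact_mod_cast h
        positivity
      exact mul_ne_zero (by exact_mod_cast this) I_ne_zero
    have h1 : ∀ t : ℝ, e (k * t) = Complex.exp (((2 * Real.pi * k : ℝ) : ℂ) * I * t) := by
      intro t
      unfold e
      congr 1
      push_cast
      ring
    simp_rw [h1]
    rw [integral_exp_mul_complex hc]
    have h2 : Complex.exp (((2 * Real.pi * k : ℝ) : ℂ) * I * ((1 : ℝ) : ℂ)) = 1 := by
      have := e_int k
      unfold e at this
      rw [← this]
      congr 1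
      push_cast; ring
    rw [h2]
    simp

theorem par_cont (r : ℝ) : Continuous (fun t : ℝ => e (r * t)) := by
  unfold e
  fun_prop

/-- Parseval -/
theorem par_parseval (c : ℕ → ℂ) (N : ℕ) :
    ∫ t in (0 : ℝ)..1, ‖∑ n ∈ Icc 1 N, c n * e (n * t)‖ ^ 2 = ∑ n ∈ Icc 1 N, ‖c n‖ ^ 2 := by
  have h1 : ∀ t : ℝ, ((‖∑ n ∈ Icc 1 N, c n * e (n * t)‖ ^ 2 : ℝ) : ℂ) =
      ∑ m ∈ Icc 1 N, ∑ n ∈ Icc 1 N, (c m * (starRingEnd ℂ) (c n)) * e (((m : ℤ) - (n : ℤ) : ℤ) * t) := by
    intro t
    rw [Complex.ofReal_pow, ← Complex.mul_conj', map_sum, Finset.sum_mul_sum]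
    refine Finset.sum_congr rfl fun m _ => Finset.sum_congr rfl fun n _ => ?_
    rw [map_mul]
    have : e (((m : ℤ) - (n : ℤ) : ℤ) * t) = e (m * t) * (starRingEnd ℂ) (e (n * t)) := by
      rw [← e_sub]
      congr 1
      push_cast; ring
    rw [this]; ring
  have h2 : ((∫ t in (0 : ℝ)..1, ‖∑ n ∈ Icc 1 N, c n * e (n * t)‖ ^ 2 : ℝ) : ℂ) =
      ((∑ n ∈ Icc 1 N, ‖c n‖ ^ 2 : ℝ) : ℂ) := by
    rw [← intervalIntegral.integral_ofReal]
    simp_rw [h1]
    rw [intervalIntegral.integral_finsetSum]
    · have h3 : ∀ m ∈ Icc 1 N, ∫ t in (0 : ℝ)..1, ∑ n ∈ Icc 1 N,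
          (c m * (starRingEnd ℂ) (c n)) * e (((m : ℤ) - (n : ℤ) : ℤ) * t) =
          ((‖c m‖ ^ 2 : ℝ) : ℂ) := by
        intro m hm
        rw [intervalIntegral.integral_finsetSum]
        · simp_rw [intervalIntegral.integral_const_mul, par_int]
          rw [Finset.sum_eq_single m]
          · rw [sub_self, if_pos rfl, mul_one, Complex.mul_conj']
            push_cast; rfl
          · intro n _ hn
            rw [if_neg (by intro h; apply hn; omega), mul_zero]
          · intro h; exact absurd hm h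
        · intro n _
          exact (continuous_const.mul (par_cont _)).intervalIntegrable _ _
      rw [Finset.sum_congr rfl h3]
      push_cast; rfl
    · intro m _
      exact (continuous_finsetSum _ fun n _ => continuous_const.mul (par_cont _)).intervalIntegrable _ _
  exact_mod_cast h2

/-- block PAR -/
theorem sq_basic_pr (a : ℕ → ℝ) (N : ℕ) : (∀ t, Sq a N (t + 1) = Sq a N t) ∧
    ∫ t in (0 : ℝ)..1, Sq a N t = A2 a N := by
  constructor
  · intro t
    unfold Sq S
    congr 2
    refine Finset.sum_congr rfl fun n _ => ?_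
    rw [mul_add, mul_one, e_add, e_nat, mul_one]
  · unfold Sq S
    rw [par_parseval (fun n => (a n : ℂ)) N]
    unfold A2
    refine Finset.sum_congr rfl fun n _ => ?_
    rw [Complex.norm_real, Real.norm_eq_abs, sq_abs]

theorem par_deriv (n : ℕ) (t : ℝ) :
    HasDerivAt (fun t : ℝ => e (n * t)) (((2 * Real.pi * n : ℝ) : ℂ) * I * e (n * t)) t := by
  unfold e
  have h1 : HasDerivAt (fun t : ℝ => ((2 * Real.pi * (n * t) : ℝ) : ℂ) * I)
      (((2 * Real.pi * n : ℝ) : ℂ) * I) t := by
    have h2 : HasDerivAt (fun t : ℝ => (2 * Real.pi * (n * t) : ℝ)) (2 * Real.pi * n) t := by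
      have := ((hasDerivAt_id t).const_mul (n : ℝ)).const_mul (2 * Real.pi)
      refine this.congr_deriv (by ring)
    exact h2.ofReal_comp.mul_const I
  refine h1.cexp.congr_deriv ?_
  ring

/-- the derivative of `S` -/
noncomputable def par_S' (a : ℕ → ℝ) (N : ℕ) (t : ℝ) : ℂ :=
  ∑ n ∈ Icc 1 N, ((a n : ℂ) * (((2 * Real.pi * n : ℝ) : ℂ) * I)) * e (n * t)

theorem par_hasDeriv (a : ℕ → ℝ) (N : ℕ) (t : ℝ) : HasDerivAt (S a N) (par_S' a N t) t := by
  have h : HasDerivAt (fun t : ℝ => ∑ n ∈ Icc 1 N, (a n : ℂ) * e (n * t))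
      (∑ n ∈ Icc 1 N, (a n : ℂ) * (((2 * Real.pi * n : ℝ) : ℂ) * I * e (n * t))) t :=
    HasDerivAt.fun_sum fun n _ => (par_deriv n t).const_mul (a n : ℂ)
  refine HasDerivAt.congr_deriv h ?_
  unfold par_S'
  refine Finset.sum_congr rfl fun n _ => ?_
  ring

theorem par_contS (a : ℕ → ℝ) (N : ℕ) : Continuous (S a N) :=
  continuous_iff_continuousAt.2 fun t => (par_hasDeriv a N t).continuousAt

theorem par_contS' (a : ℕ → ℝ) (N : ℕ) : Continuous (par_S' a N) :=
  continuous_finsetSum _ fun _ _ => continuous_const.mul (par_cont _)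

theorem sq_deriv_pr (a : ℕ → ℝ) (N : ℕ) : ∃ g' : ℝ → ℝ, Continuous g' ∧
    (∀ x, HasDerivAt (Sq a N) (g' x) x) ∧ (∀ x, g' (x + 1) = g' x) ∧
    ∫ t in (0 : ℝ)..1, |g' t| ≤ 4 * Real.pi * N * A2 a N := by
  have hcont : Continuous (fun t => 2 * inner ℝ (S a N t) (par_S' a N t)) :=
    continuous_const.mul ((par_contS a N).inner (par_contS' a N))
  refine ⟨fun t => 2 * inner ℝ (S a N t) (par_S' a N t), hcont, ?_, ?_, ?_⟩
  · intro t
    exact (par_hasDeriv a N t).norm_sq
  · intro t
    have h1 : S a N (t + 1) = S a N t := by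
      unfold S
      refine Finset.sum_congr rfl fun n _ => ?_
      rw [mul_add, mul_one, e_add, e_nat, mul_one]
    have h2 : par_S' a N (t + 1) = par_S' a N t := by
      unfold par_S'
      refine Finset.sum_congr rfl fun n _ => ?_
      rw [mul_add (n : ℝ), mul_one, e_add, e_nat, mul_one]
    show 2 * inner ℝ (S a N (t + 1)) (par_S' a N (t + 1)) = 2 * inner ℝ (S a N t) (par_S' a N t)
    rw [h1, h2]
  · rcases Nat.eq_zero_or_pos N with hN | hN
    · subst hN
      simp [S, par_S', A2]
    · have hN' : (0 : ℝ) < N := by exact_mod_cast hN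
      have hc : (0 : ℝ) < 2 * Real.pi * N := by positivity
      have hb : ∀ t, |2 * inner ℝ (S a N t) (par_S' a N t)| ≤
          2 * Real.pi * N * ‖S a N t‖ ^ 2 + (2 * Real.pi * N)⁻¹ * ‖par_S' a N t‖ ^ 2 := by
        intro t
        have h1 := abs_real_inner_le_norm (S a N t) (par_S' a N t)
        rw [abs_mul, abs_two]
        set x := ‖S a N t‖
        set y := ‖par_S' a N t‖
        set c := 2 * Real.pi * N
        have h2 : 0 ≤ c⁻¹ * (c * x - y) ^ 2 := by positivity
        have h3 : c⁻¹ * (c * x - y) ^ 2 = c * x ^ 2 + c⁻¹ * y ^ 2 - 2 * (x * y) := by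
          field_simp
          ring
        linarith
      calc ∫ t in (0 : ℝ)..1, |2 * inner ℝ (S a N t) (par_S' a N t)|
          ≤ ∫ t in (0 : ℝ)..1, (2 * Real.pi * N * ‖S a N t‖ ^ 2 +
            (2 * Real.pi * N)⁻¹ * ‖par_S' a N t‖ ^ 2) := by
            apply intervalIntegral.integral_mono_on zero_le_one
            · exact hcont.abs.intervalIntegrable _ _
            · apply Continuous.intervalIntegrable
              exact (continuous_const.mul ((par_contS a N).norm.pow 2)).add
                (continuous_const.mul ((par_contS' a N).norm.pow 2))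
            · intro t _
              exact hb t
        _ = 2 * Real.pi * N * A2 a N + (2 * Real.pi * N)⁻¹ *
            ∑ n ∈ Icc 1 N, ‖(a n : ℂ) * (((2 * Real.pi * n : ℝ) : ℂ) * I)‖ ^ 2 := by
            rw [intervalIntegral.integral_add, intervalIntegral.integral_const_mul,
              intervalIntegral.integral_const_mul]
            · congr 2
              · exact (sq_basic_pr a N).2
              · exact par_parseval _ N
            · exact (continuous_const.mul ((par_contS a N).norm.pow 2)).intervalIntegrable _ _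
            · exact (continuous_const.mul ((par_contS' a N).norm.pow 2)).intervalIntegrable _ _
        _ ≤ 2 * Real.pi * N * A2 a N + (2 * Real.pi * N)⁻¹ * ((2 * Real.pi * N) ^ 2 * A2 a N) := by
            gcongr
            unfold A2
            rw [Finset.mul_sum]
            refine Finset.sum_le_sum fun n hn => ?_
            rw [norm_mul, norm_mul, Complex.norm_I, mul_one, Complex.norm_real, Complex.norm_real,
              Real.norm_eq_abs, Real.norm_eq_abs, mul_pow, sq_abs, sq_abs, mul_comm]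
            gcongr
            exact (Finset.mem_Icc.1 hn).2
        _ = 4 * Real.pi * N * A2 a N := by
            field_simp
            ring

alias sq_basic := sq_basic_pr
alias sq_deriv := sq_deriv_pr

end Pool.Agent.HC
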