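import Pool.Agent.Lib_helper92.HCF.Base
import Pool.Agent.Lib_helper23.BG.Defs

/-! HC block SOB -/

set_option autoImplicit false

namespace Pool.Agent.HC

open Finset Complex Pool.Agent.Var35 Pool.Agent.Var73
open scoped ArithmeticFunction ArithmeticFunction.Moebius

/-- SOB -/
theorem sob_pr (g g' : ℝ → ℝ) (hg : ∀ x, HasDerivAt g (g' x) x) (hc : Continuous g') (δ x : ℝ)
    (hδ : 0 < δ) :
    g x ≤ (1 / δ) * (∫ t in (x - δ / 2)..(x + δ / 2), g t) +
      ∫ t in (x - δ / 2)..(x + δ / 2), |g' t| := by
  set J : ℝ := ∫ t in (x - δ / 2)..(x + δ / 2), |g' t| with hJ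
  have hgc : Continuous g := continuous_iff_continuousAt.2 fun y => (hg y).continuousAt
  have hab : Continuous fun t => |g' t| := hc.abs
  have key : ∀ t ∈ Set.Icc (x - δ / 2) (x + δ / 2), g x - J ≤ g t := by
    intro t ht
    have hF : ∀ a b : ℝ, ∫ y in a..b, g' y = g b - g a := fun a b =>
      intervalIntegral.integral_eq_sub_of_hasDerivAt (fun y _ => hg y)
        (hc.intervalIntegrable _ _)
    have hsub : ∀ a b : ℝ, x - δ / 2 ≤ a → a ≤ b → b ≤ x + δ / 2 → ∫ y in a..b, |g' y| ≤ J := by
      intro a b h1 h2 h3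
      rw [hJ]
      apply intervalIntegral.integral_mono_interval h1 h2 h3
      · exact Filter.Eventually.of_forall fun y => abs_nonneg _
      · exact hab.intervalIntegrable _ _
    have habs : ∀ a b : ℝ, x - δ / 2 ≤ a → a ≤ b → b ≤ x + δ / 2 → |g b - g a| ≤ J := by
      intro a b h1 h2 h3
      rw [← hF a b]
      exact (intervalIntegral.abs_integral_le_integral_abs h2).trans (hsub a b h1 h2 h3)
    rcases le_total t x with h | h
    · have := habs t x ht.1 h (by linarith)
      have h2 := le_abs_self (g x - g t)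
      linarith
    · have := habs x t (by linarith) h ht.2
      have h2 := neg_abs_le (g t - g x)
      linarith
  have hint : ∫ t in (x - δ / 2)..(x + δ / 2), (g x - J) ≤ ∫ t in (x - δ / 2)..(x + δ / 2), g t := by
    apply intervalIntegral.integral_mono_on (by linarith)
    · exact continuous_const.intervalIntegrable _ _
    · exact hgc.intervalIntegrable _ _
    · exact key
  rw [intervalIntegral.integral_const, smul_eq_mul] at hint
  have h1 : (x + δ / 2 - (x - δ / 2)) = δ := by ring
  rw [h1] at hint
  have h2 : g x - J ≤ (1 / δ) * ∫ t in (x - δ / 2)..(x + δ / 2), g t := by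
    rw [one_div, inv_mul_eq_div, le_div_iff₀ hδ]
    linarith
  linarith

alias sob := sob_pr

end Pool.Agent.HC
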