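import Pool.Agent.Lib_helper92.HCF.Base
import Pool.Agent.Lib_helper23.BG.Defs
import Pool.Agent.Lib_helper92.HCF.SOB
import Pool.Agent.Lib_helper92.HCF.PAR
import Pool.Agent.Lib_helper92.HCF.FOL

set_option autoImplicit false

namespace Pool.Agent.HC

open Finset Complex Filter Topology MeasureTheory Pool.Agent.Var35 Pool.Agent.Var73
open scoped ArithmeticFunction ArithmeticFunction.Moebius

theorem gal_cnt_nonneg (R Q : ℕ) (δ t : ℝ) : 0 ≤ cnt R Q δ t := by
  unfold cnt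
  apply Finset.sum_nonneg
  intro l _
  split_ifs <;> norm_num

theorem gal_W_nonneg (Z Y R : ℕ) (δ t : ℝ) : 0 ≤ W Z Y R δ t := by
  unfold W
  apply Finset.sum_nonneg
  intro Q _
  exact div_nonneg (gal_cnt_nonneg _ _ _ _) (Nat.cast_nonneg _)

theorem gal_cnt_int (R Q : ℕ) (δ : ℝ) (a b : ℝ) :
    IntervalIntegrable (fun t => cnt R Q δ t) volume a b := by
  have h0 : (fun t => cnt R Q δ t) = ∑ l ∈ Icc (-(Q : ℤ)) (2 * Q), fun t : ℝ =>
      if R < den l Q ∧ |(l : ℝ) / Q - t| ≤ δ / 2 then (1 : ℝ) else 0 := by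
    funext t
    simp only [cnt, Finset.sum_apply]
  rw [h0]
  apply IntervalIntegrable.sum
  intro l _
  by_cases hl : R < den l Q
  · have h1 : (fun t : ℝ => if R < den l Q ∧ |(l : ℝ) / Q - t| ≤ δ / 2 then (1 : ℝ) else 0) =
        Set.indicator {t : ℝ | |(l : ℝ) / Q - t| ≤ δ / 2} (fun _ => (1 : ℝ)) := by
      funext t
      simp only [hl, true_and, Set.indicator, Set.mem_ofPred_eq]
    have hm : MeasurableSet {t : ℝ | |(l : ℝ) / Q - t| ≤ δ / 2} := by
      apply measurableSet_le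
      · fun_prop
      · exact measurable_const
    have h2 : IntervalIntegrable (fun t : ℝ => Set.indicator {t : ℝ | |(l : ℝ) / Q - t| ≤ δ / 2}
        (fun _ => (1 : ℝ)) t) volume a b := by
      rw [intervalIntegrable_iff]
      apply Integrable.indicator _ hm
      have h3 : IntervalIntegrable (fun _ : ℝ => (1 : ℝ)) volume a b :=
        _root_.intervalIntegrable_const
      exact intervalIntegrable_iff.mp h3
    rw [h1]
    exact h2
  · have h1 : (fun t : ℝ => if R < den l Q ∧ |(l : ℝ) / Q - t| ≤ δ / 2 then (1 : ℝ) else 0) =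
        fun _ => (0 : ℝ) := by
      funext t
      simp [hl]
    rw [h1]
    exact _root_.intervalIntegrable_const

theorem gal_mul_int (g : ℝ → ℝ) (hc : Continuous g) (R Q : ℕ) (δ : ℝ) (a b : ℝ) :
    IntervalIntegrable (fun t => g t * cnt R Q δ t) volume a b :=
  (gal_cnt_int R Q δ a b).continuousOn_mul hc.continuousOn

theorem gal_W_eq (g : ℝ → ℝ) (hc : Continuous g) (Z Y R : ℕ) (δ : ℝ) :
    ∑ Q ∈ Ioc Z Y, (1 / (Q : ℝ)) * (∫ t in (0 : ℝ)..1, g t * cnt R Q δ t) =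
      ∫ t in (0 : ℝ)..1, g t * W Z Y R δ t := by
  have h1 : ∀ Q ∈ Ioc Z Y, (1 / (Q : ℝ)) * (∫ t in (0 : ℝ)..1, g t * cnt R Q δ t) =
      ∫ t in (0 : ℝ)..1, (1 / (Q : ℝ)) * (g t * cnt R Q δ t) := by
    intro Q _
    rw [intervalIntegral.integral_const_mul]
  rw [Finset.sum_congr rfl h1, ← intervalIntegral.integral_finsetSum]
  · apply intervalIntegral.integral_congr
    intro t _
    simp only [W]
    rw [Finset.mul_sum]
    apply Finset.sum_congr rfl
    intro Q _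
    ring
  · intro Q _
    exact (gal_mul_int g hc R Q δ 0 1).const_mul _

theorem gal_W_int (g : ℝ → ℝ) (hc : Continuous g) (Z Y R : ℕ) (δ : ℝ) :
    IntervalIntegrable (fun t => g t * W Z Y R δ t) volume 0 1 := by
  have : (fun t => g t * W Z Y R δ t) =
      ∑ Q ∈ Ioc Z Y, fun t => (1 / (Q : ℝ)) * (g t * cnt R Q δ t) := by
    funext t
    simp only [W, Finset.sum_apply]
    rw [Finset.mul_sum]
    apply Finset.sum_congr rfl
    intro Q _
    ring
  rw [this]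
  apply IntervalIntegrable.sum
  intro Q _
  exact (gal_mul_int g hc R Q δ 0 1).const_mul _

/-- GAL (uses sob, sq_basic, sq_deriv, fold) -/
theorem gal_pr (a : ℕ → ℝ) (N Z Y R : ℕ) (δ M : ℝ) (hδ : 0 < δ) (hδ1 : δ ≤ 1)
    (hM : ∀ t, 0 ≤ t → t ≤ 1 → W Z Y R δ t ≤ M) :
    Big a N Z Y R ≤ (1 / δ) * (∫ t in (0 : ℝ)..1, Sq a N t * W Z Y R δ t) +
      M * (4 * Real.pi * N * A2 a N) := by
  obtain ⟨g', hgc, hgd, hgp, hgi⟩ := sq_deriv a N
  have hSqc : Continuous (Sq a N) := by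
    rw [continuous_iff_continuousAt]
    intro x
    exact (hgd x).continuousAt
  have hSq0 : ∀ t, 0 ≤ Sq a N t := fun t => by unfold Sq; positivity
  have hM0 : 0 ≤ M := le_trans (gal_W_nonneg Z Y R δ 0) (hM 0 le_rfl zero_le_one)
  have hac : Continuous (fun t => |g' t|) := hgc.abs
  have key : ∀ Q ∈ Ioc Z Y, (1 / (Q : ℝ)) *
      ∑ l ∈ (range Q).filter (fun l : ℕ => R < den l Q), Sq a N (l / Q) ≤
      (1 / δ) * ((1 / (Q : ℝ)) * (∫ t in (0 : ℝ)..1, Sq a N t * cnt R Q δ t)) +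
      (1 / (Q : ℝ)) * (∫ t in (0 : ℝ)..1, |g' t| * cnt R Q δ t) := by
    intro Q hQ
    have hQ1 : 1 ≤ Q := by
      have := (Finset.mem_Ioc.mp hQ).1
      omega
    have hQ0 : (0 : ℝ) ≤ 1 / (Q : ℝ) := by positivity
    have f1 := fold (Sq a N) hSqc hSq0 (sq_basic a N).1 R Q hQ1 δ hδ hδ1
    have f2 := fold (fun t => |g' t|) hac (fun t => abs_nonneg _)
      (fun t => by simp only [hgp]) R Q hQ1 δ hδ hδ1
    have f3 : ∑ l ∈ (range Q).filter (fun l : ℕ => R < den l Q), Sq a N (l / Q) ≤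
        ∑ l ∈ (range Q).filter (fun l : ℕ => R < den l Q),
          ((1 / δ) * (∫ t in ((l : ℝ) / Q - δ / 2)..((l : ℝ) / Q + δ / 2), Sq a N t) +
          ∫ t in ((l : ℝ) / Q - δ / 2)..((l : ℝ) / Q + δ / 2), |g' t|) := by
      apply Finset.sum_le_sum
      intro l _
      exact sob (Sq a N) g' hgd hgc δ ((l : ℝ) / Q) hδ
    rw [Finset.sum_add_distrib, ← Finset.mul_sum] at f3
    have hd0 : (0 : ℝ) ≤ 1 / δ := by positivity
    have f4 : ∑ l ∈ (range Q).filter (fun l : ℕ => R < den l Q), Sq a N (l / Q) ≤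
        (1 / δ) * (∫ t in (0 : ℝ)..1, Sq a N t * cnt R Q δ t) +
        ∫ t in (0 : ℝ)..1, |g' t| * cnt R Q δ t := by
      refine le_trans f3 (add_le_add (mul_le_mul_of_nonneg_left f1 hd0) f2)
    calc _ ≤ (1 / (Q : ℝ)) * ((1 / δ) * (∫ t in (0 : ℝ)..1, Sq a N t * cnt R Q δ t) +
        ∫ t in (0 : ℝ)..1, |g' t| * cnt R Q δ t) := mul_le_mul_of_nonneg_left f4 hQ0
      _ = _ := by ring
  have h2 : Big a N Z Y R ≤ (1 / δ) * (∫ t in (0 : ℝ)..1, Sq a N t * W Z Y R δ t) +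
      ∫ t in (0 : ℝ)..1, |g' t| * W Z Y R δ t := by
    unfold Big
    refine le_trans (Finset.sum_le_sum key) ?_
    rw [Finset.sum_add_distrib, ← Finset.mul_sum, gal_W_eq _ hSqc, gal_W_eq _ hac]
  have h3 : ∫ t in (0 : ℝ)..1, |g' t| * W Z Y R δ t ≤ ∫ t in (0 : ℝ)..1, |g' t| * M := by
    apply intervalIntegral.integral_mono_on zero_le_one (gal_W_int _ hac Z Y R δ)
      ((hac.mul continuous_const).intervalIntegrable _ _)
    intro t ht
    exact mul_le_mul_of_nonneg_left (hM t ht.1 ht.2) (abs_nonneg _)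
  rw [intervalIntegral.integral_mul_const] at h3
  have h4 : (∫ t in (0 : ℝ)..1, |g' t|) * M ≤ M * (4 * Real.pi * N * A2 a N) := by
    rw [mul_comm]
    exact mul_le_mul_of_nonneg_left hgi hM0
  linarith

alias gal := gal_pr

end Pool.Agent.HC
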