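import Pool.Agent.Lib_helper92.HCF.Base
import Pool.Agent.Lib_helper23.BG.Defs
import Pool.Agent.Lib_helper92.HCF.PAR
import Pool.Agent.Lib_helper92.HCF.FQI

/-! HC, block HOL: the holes of the density on the major arcs. -/

set_option autoImplicit false

namespace Pool.Agent.HC

open Finset Complex Pool.Agent.Var35 Pool.Agent.Var73
open MeasureTheory

lemma hol_e_cont : Continuous e := by
  unfold e
  fun_prop

lemma hol_sq_cont (a : ℕ → ℝ) (N : ℕ) : Continuous (Sq a N) := by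
  unfold Sq S
  refine Continuous.pow (Continuous.norm ?_) 2
  refine continuous_finsetSum _ (fun n _ => ?_)
  exact continuous_const.mul (hol_e_cont.comp (by fun_prop))

lemma hol_sq_nonneg (a : ℕ → ℝ) (N : ℕ) (t : ℝ) : 0 ≤ Sq a N t := by
  unfold Sq
  positivity

lemma hol_w_meas (Z Y R : ℕ) (δ : ℝ) : Measurable (W Z Y R δ) := by
  unfold W cnt
  refine Finset.measurable_sum _ (fun Q _ => Measurable.div_const ?_ _)
  refine Finset.measurable_sum _ (fun l _ => ?_)
  refine Measurable.ite ?_ measurable_const measurable_const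
  by_cases h : R < den l Q
  · have : {t : ℝ | R < den l Q ∧ |(l : ℝ) / Q - t| ≤ δ / 2} = {t : ℝ | |(l : ℝ) / Q - t| ≤ δ / 2} := by
      ext t
      simp [h]
    rw [this]
    exact measurableSet_le (by fun_prop) measurable_const
  · have : {t : ℝ | R < den l Q ∧ |(l : ℝ) / Q - t| ≤ δ / 2} = ∅ := by
      ext t
      simp [h]
    rw [this]
    exact MeasurableSet.empty

lemma hol_w_nonneg (Z Y R : ℕ) (δ t : ℝ) : 0 ≤ W Z Y R δ t := by
  unfold W cnt
  refine Finset.sum_nonneg (fun Q _ => div_nonneg (Finset.sum_nonneg (fun l _ => ?_)) (by positivity))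
  split_ifs <;> norm_num

lemma hol_fq_cont (Y : ℝ) (hY : 0 ≤ Y) (q : ℕ) (hq : 1 ≤ q) : Continuous (Fq Y q) := by
  have : LipschitzWith (Real.toNNReal Y) (Fq Y q) := by
    refine LipschitzWith.of_dist_le_mul (fun s s' => ?_)
    rw [Real.dist_eq, Real.dist_eq, Real.coe_toNNReal _ hY]
    rcases le_total s s' with h | h
    · have h1 := fq_lip Y hY q hq s s' h
      rw [abs_sub_comm, abs_of_nonneg h1.1, abs_sub_comm, abs_of_nonneg (by linarith : 0 ≤ s' - s)]
      exact h1.2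
    · have h1 := fq_lip Y hY q hq s' s h
      rw [abs_of_nonneg h1.1, abs_of_nonneg (by linarith : 0 ≤ s - s')]
      exact h1.2
  exact this.continuous

lemma hol_kq_cont (Y : ℝ) (hY : 0 ≤ Y) (q : ℕ) (hq : 1 ≤ q) (δ : ℝ) : Continuous (Kq Y q δ) := by
  unfold Kq
  have h := hol_fq_cont Y hY q hq
  exact continuous_const.sub ((h.comp (continuous_id.add_const _)).sub
    (h.comp (continuous_id.sub continuous_const)))

/-- one arc -/
lemma hol_arc (f K : ℝ → ℝ) (x Δ : ℝ) (hf : Continuous f) (hK : Continuous K) (hΔ : 0 ≤ Δ)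
    (h0 : Δ ≤ x) (h1 : x + Δ ≤ 1) :
    ∫ t in (0 : ℝ)..1, f t * (if |t - x| ≤ Δ then K (t - x) else 0) =
      ∫ β in (-Δ)..Δ, f (x + β) * K β := by
  have hm : MeasurableSet (Set.Icc (x - Δ) (x + Δ)) := measurableSet_Icc
  have e1 : (fun t => f t * (if |t - x| ≤ Δ then K (t - x) else 0)) =
      (Set.Icc (x - Δ) (x + Δ)).indicator (fun t => f t * K (t - x)) := by
    funext t
    by_cases ht : |t - x| ≤ Δ
    · have : t ∈ Set.Icc (x - Δ) (x + Δ) := by
        rw [abs_le] at ht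
        exact ⟨by linarith [ht.1], by linarith [ht.2]⟩
      rw [if_pos ht, Set.indicator_of_mem this]
    · have : t ∉ Set.Icc (x - Δ) (x + Δ) := by
        intro hh
        exact ht (abs_le.mpr ⟨by linarith [hh.1], by linarith [hh.2]⟩)
      rw [if_neg ht, Set.indicator_of_notMem this, mul_zero]
  rw [e1, intervalIntegral.integral_of_le zero_le_one, ← integral_Icc_eq_integral_Ioc,
    setIntegral_indicator hm]
  have e2 : Set.Icc (0 : ℝ) 1 ∩ Set.Icc (x - Δ) (x + Δ) = Set.Icc (x - Δ) (x + Δ) := by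
    rw [Set.inter_eq_right]
    exact Set.Icc_subset_Icc (by linarith) h1
  rw [e2, integral_Icc_eq_integral_Ioc, ← intervalIntegral.integral_of_le (by linarith)]
  have e3 : x - Δ = -Δ + x := by ring
  have e4 : x + Δ = Δ + x := by ring
  rw [e3, e4, ← intervalIntegral.integral_comp_add_right (fun t => f t * K (t - x)) x]
  refine intervalIntegral.integral_congr (fun β _ => ?_)
  simp only [add_sub_cancel_right]
  rw [add_comm]

/-- the arc around zero and one -/
lemma hol_arc0 (f K : ℝ → ℝ) (Δ : ℝ) (hf : Continuous f) (hK : Continuous K) (hΔ : 0 ≤ Δ)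
    (h1 : Δ ≤ 1) (hp : ∀ t, f (t + 1) = f t) :
    (∫ t in (0 : ℝ)..1, f t * (if |t - 0| ≤ Δ then K (t - 0) else 0)) +
      (∫ t in (0 : ℝ)..1, f t * (if |t - 1| ≤ Δ then K (t - 1) else 0)) =
      ∫ β in (-Δ)..Δ, f β * K β := by
  have a1 : ∫ t in (0 : ℝ)..1, f t * (if |t - 0| ≤ Δ then K (t - 0) else 0) =
      ∫ β in (0 : ℝ)..Δ, f β * K β := by
    have e1 : (fun t => f t * (if |t - 0| ≤ Δ then K (t - 0) else 0)) =
        (Set.Icc (-Δ) Δ).indicator (fun t => f t * K t) := by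
      funext t
      rw [sub_zero]
      by_cases ht : |t| ≤ Δ
      · have hmem : t ∈ Set.Icc (-Δ) Δ := abs_le.mp ht
        rw [if_pos ht, Set.indicator_of_mem hmem]
      · have hmem : t ∉ Set.Icc (-Δ) Δ := fun hh => ht (abs_le.mpr hh)
        rw [if_neg ht, Set.indicator_of_notMem hmem, mul_zero]
    rw [e1, intervalIntegral.integral_of_le zero_le_one, ← integral_Icc_eq_integral_Ioc,
      setIntegral_indicator measurableSet_Icc]
    have e2 : Set.Icc (0 : ℝ) 1 ∩ Set.Icc (-Δ) Δ = Set.Icc 0 Δ := by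
      ext t
      constructor
      · rintro ⟨ha, hb⟩
        exact ⟨ha.1, hb.2⟩
      · rintro ha
        exact ⟨⟨ha.1, ha.2.trans h1⟩, ⟨by linarith [ha.1], ha.2⟩⟩
    rw [e2, integral_Icc_eq_integral_Ioc, ← intervalIntegral.integral_of_le hΔ]
  have a2 : ∫ t in (0 : ℝ)..1, f t * (if |t - 1| ≤ Δ then K (t - 1) else 0) =
      ∫ β in (-Δ)..(0 : ℝ), f β * K β := by
    have e1 : (fun t => f t * (if |t - 1| ≤ Δ then K (t - 1) else 0)) =
        (Set.Icc (1 - Δ) (1 + Δ)).indicator (fun t => f t * K (t - 1)) := by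
      funext t
      by_cases ht : |t - 1| ≤ Δ
      · have : t ∈ Set.Icc (1 - Δ) (1 + Δ) := by
          rw [abs_le] at ht
          exact ⟨by linarith [ht.1], by linarith [ht.2]⟩
        rw [if_pos ht, Set.indicator_of_mem this]
      · have : t ∉ Set.Icc (1 - Δ) (1 + Δ) := by
          intro hh
          exact ht (abs_le.mpr ⟨by linarith [hh.1], by linarith [hh.2]⟩)
        rw [if_neg ht, Set.indicator_of_notMem this, mul_zero]
    rw [e1, intervalIntegral.integral_of_le zero_le_one, ← integral_Icc_eq_integral_Ioc,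
      setIntegral_indicator measurableSet_Icc]
    have e2 : Set.Icc (0 : ℝ) 1 ∩ Set.Icc (1 - Δ) (1 + Δ) = Set.Icc (1 - Δ) 1 := by
      ext t
      constructor
      · rintro ⟨ha, hb⟩
        exact ⟨hb.1, ha.2⟩
      · rintro ha
        exact ⟨⟨by linarith [ha.1], ha.2⟩, ⟨ha.1, by linarith [ha.2]⟩⟩
    rw [e2, integral_Icc_eq_integral_Ioc, ← intervalIntegral.integral_of_le (by linarith)]
    have e3 : (1 : ℝ) - Δ = -Δ + 1 := by ring
    have e4 : ∫ t in (-Δ + 1)..(1 : ℝ), f t * K (t - 1) =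
        ∫ t in (-Δ + 1)..((0 : ℝ) + 1), f t * K (t - 1) := by rw [zero_add]
    rw [e3, e4, ← intervalIntegral.integral_comp_add_right (fun t => f t * K (t - 1)) 1]
    refine intervalIntegral.integral_congr (fun β _ => ?_)
    simp only [add_sub_cancel_right]
    rw [hp]
  rw [a1, a2, add_comm]
  have hi : ∀ a b : ℝ, IntervalIntegrable (fun β => f β * K β) volume a b := fun a b =>
    (hf.mul hK).intervalIntegrable _ _
  exact intervalIntegral.integral_add_adjacent_intervals (hi _ _) (hi _ _)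

/-- distinct reduced fractions -/
lemma hol_sep (R q q' : ℕ) (c c' : ℤ) (hq : 1 ≤ q) (hqR : q ≤ R) (hq' : 1 ≤ q') (hqR' : q' ≤ R)
    (hc : IsCoprime c (q : ℤ)) (hc' : IsCoprime c' (q' : ℤ)) (hne : ¬ (q = q' ∧ c = c'))
    (Δ : ℝ) (hΔR : 2 * Δ * (R : ℝ) ^ 2 < 1) (t : ℝ) (h1 : |t - c / q| ≤ Δ)
    (h2 : |t - c' / q'| ≤ Δ) : False := by
  have hqp : (0 : ℝ) < q := by exact_mod_cast hq
  have hqp' : (0 : ℝ) < q' := by exact_mod_cast hq'
  have hRp : (0 : ℝ) < R := by
    have : 1 ≤ R := hq.trans hqR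
    exact_mod_cast this
  have hdet : c * q' - c' * q ≠ 0 := by
    intro h0
    apply hne
    have h3 : c * (q' : ℤ) = c' * q := by linarith
    have hd1 : (q : ℤ) ∣ q' := by
      have : (q : ℤ) ∣ c * q' := by
        rw [h3]
        exact Dvd.intro_left c' rfl
      exact hc.symm.dvd_of_dvd_mul_left this
    have hd2 : (q' : ℤ) ∣ q := by
      have : (q' : ℤ) ∣ c' * q := by
        rw [← h3]
        exact Dvd.intro_left c rfl
      exact hc'.symm.dvd_of_dvd_mul_left this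
    have hqq : q = q' := Nat.dvd_antisymm (by exact_mod_cast hd1) (by exact_mod_cast hd2)
    subst hqq
    refine ⟨rfl, ?_⟩
    have hq0 : (q : ℤ) ≠ 0 := by exact_mod_cast (by omega : q ≠ 0)
    exact mul_right_cancel₀ hq0 h3
  have h4 : (1 : ℝ) ≤ |(c : ℝ) * q' - c' * q| := by
    have h5 : (1 : ℤ) ≤ |c * q' - c' * q| := Int.one_le_abs hdet
    have h6 : ((1 : ℤ) : ℝ) ≤ ((|c * q' - c' * q| : ℤ) : ℝ) := by exact_mod_cast h5
    simpa using h6
  have h7 : |(c : ℝ) / q - c' / q'| ≤ 2 * Δ := by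
    have : (c : ℝ) / q - c' / q' = (t - c' / q') - (t - c / q) := by ring
    rw [this]
    refine (abs_sub _ _).trans ?_
    linarith
  have h8 : (c : ℝ) / q - c' / q' = ((c : ℝ) * q' - c' * q) / (q * q') := by
    field_simp
  rw [h8, abs_div, abs_of_pos (by positivity : (0 : ℝ) < q * q'), div_le_iff₀ (by positivity)] at h7
  have hΔ : 0 ≤ Δ := (abs_nonneg _).trans h1
  have h9 : (q : ℝ) * q' ≤ (R : ℝ) ^ 2 := by
    rw [sq]
    exact mul_le_mul (by exact_mod_cast hqR) (by exact_mod_cast hqR') hqp'.le hRp.le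
  have h10 : 2 * Δ * ((q : ℝ) * q') ≤ 2 * Δ * (R : ℝ) ^ 2 :=
    mul_le_mul_of_nonneg_left h9 (by positivity)
  linarith

/-- HOL -/
theorem hole_pr (a : ℕ → ℝ) (N Z Y R : ℕ) (δ E Δ : ℝ) (hδ : 0 < δ) (hδ1 : δ ≤ 1) (hΔ : 0 < Δ)
    (hR : 1 ≤ R) (hΔR : 2 * Δ * (R : ℝ) ^ 2 < 1) (hE : 0 ≤ E)
    (hU : ∀ t, W Z Y R δ t ≤ Y * δ + E)
    (hA : ∀ q ∈ Icc 1 R, ∀ c : ℤ, IsCoprime c (q : ℤ) → ∀ t : ℝ, |t - c / q| ≤ Δ →
      W Z Y R δ t ≤ Y * δ - Kq Y q δ (t - c / q) + E) :
    ∫ t in (0 : ℝ)..1, Sq a N t * W Z Y R δ t ≤ (Y * δ + E) * A2 a N -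
      ∑ q ∈ Icc 1 R, ∫ β in (-Δ)..Δ, (∑ c ∈ Cd q, Sq a N ((c : ℝ) / q + β)) * Kq Y q δ β := by
  classical
  have hY : (0 : ℝ) ≤ (Y : ℝ) := Nat.cast_nonneg _
  have hRp : (1 : ℝ) ≤ R := by exact_mod_cast hR
  set f : ℝ → ℝ := Sq a N with hf
  have hfc : Continuous f := hol_sq_cont a N
  have hf0 : ∀ t, 0 ≤ f t := hol_sq_nonneg a N
  have hfp : ∀ t, f (t + 1) = f t := (sq_basic a N).1
  set G : ℝ → ℝ := fun t => Y * δ + E - W Z Y R δ t with hG
  have hG0 : ∀ t, 0 ≤ G t := fun t => by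
    have := hU t
    simp only [hG]
    linarith
  have hWi : IntervalIntegrable (fun t => f t * W Z Y R δ t) volume 0 1 := by
    refine IntervalIntegrable.continuousOn_mul (f := W Z Y R δ) ?_ hfc.continuousOn
    refine IntervalIntegrable.mono_fun (f := fun _ => (Y * δ + E : ℝ)) intervalIntegrable_const
      (hol_w_meas Z Y R δ).aestronglyMeasurable ?_
    refine Filter.Eventually.of_forall (fun t => ?_)
    show ‖W Z Y R δ t‖ ≤ ‖(Y * δ + E : ℝ)‖
    rw [Real.norm_of_nonneg (hol_w_nonneg Z Y R δ t), Real.norm_of_nonneg (by positivity)]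
    exact hU t
  have hGi : IntervalIntegrable (fun t => f t * G t) volume 0 1 := by
    have h1 : (fun t => f t * G t) = fun t => (Y * δ + E) * f t - f t * W Z Y R δ t := by
      funext t
      simp only [hG]
      ring
    rw [h1]
    exact ((hfc.intervalIntegrable _ _).const_mul _).sub hWi
  have hsplit : ∫ t in (0 : ℝ)..1, f t * W Z Y R δ t =
      (Y * δ + E) * A2 a N - ∫ t in (0 : ℝ)..1, f t * G t := by
    have h1 : (fun t => f t * G t) = fun t => (Y * δ + E) * f t - f t * W Z Y R δ t := by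
      funext t
      simp only [hG]
      ring
    rw [h1, intervalIntegral.integral_sub ((hfc.intervalIntegrable _ _).const_mul _) hWi,
      intervalIntegral.integral_const_mul, (sq_basic a N).2]
    ring
  rw [hsplit]
  -- the index set
  set P : Finset (ℕ × ℕ) := ((Icc 1 R) ×ˢ (range (R + 1))).filter (fun x => x.2 ∈ Cd x.1) with hP
  have hPm : ∀ x, x ∈ P ↔ x.1 ∈ Icc 1 R ∧ x.2 ∈ Cd x.1 := fun x => by
    rw [hP, Finset.mem_filter, Finset.mem_product]
    constructor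
    · rintro ⟨⟨h1, _⟩, h2⟩
      exact ⟨h1, h2⟩
    · rintro ⟨h1, h2⟩
      refine ⟨⟨h1, ?_⟩, h2⟩
      have h3 := (Finset.mem_filter.mp h2).1
      rw [Finset.mem_range] at h3 ⊢
      have := (Finset.mem_Icc.mp h1).2
      omega
  have hnot : ((1, 1) : ℕ × ℕ) ∉ P := by
    rw [hPm]
    rintro ⟨_, h2⟩
    have h3 := (Finset.mem_filter.mp h2).1
    simp at h3
  set T : Finset (ℕ × ℕ) := insert (1, 1) P with hT
  have hTm : ∀ x ∈ T, x.1 ∈ Icc 1 R ∧ IsCoprime (x.2 : ℤ) (x.1 : ℤ) := by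
    intro x hx
    rw [hT, Finset.mem_insert] at hx
    rcases hx with hx | hx
    · subst hx
      exact ⟨Finset.mem_Icc.mpr ⟨le_refl 1, hR⟩, by simpa using (isCoprime_one_left : IsCoprime (1 : ℤ) 1)⟩
    · have h1 := (hPm x).mp hx
      refine ⟨h1.1, ?_⟩
      have h2 := (Finset.mem_filter.mp h1.2).2
      exact Nat.isCoprime_iff_coprime.mpr h2
  set κ : ℕ × ℕ → ℝ → ℝ := fun x t =>
    if |t - (x.2 : ℝ) / x.1| ≤ Δ then Kq Y x.1 δ (t - (x.2 : ℝ) / x.1) else 0 with hκ
  -- pointwise bound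
  have hpt : ∀ t, ∑ x ∈ T, κ x t ≤ G t := by
    intro t
    by_cases hex : ∃ x ∈ T, |t - (x.2 : ℝ) / x.1| ≤ Δ
    · obtain ⟨x, hx, hxt⟩ := hex
      have hsingle : ∑ y ∈ T, κ y t = κ x t := by
        refine Finset.sum_eq_single_of_mem x hx (fun y hy hyx => ?_)
        simp only [hκ]
        rw [if_neg]
        intro hyt
        have h1 := hTm x hx
        have h2 := hTm y hy
        rw [Finset.mem_Icc] at h1 h2
        refine hol_sep R y.1 x.1 (y.2 : ℤ) (x.2 : ℤ) h2.1.1 h2.1.2 h1.1.1 h1.1.2 h2.2 h1.2 ?_ Δ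
          hΔR t (by simpa using hyt) (by simpa using hxt)
        rintro ⟨h3, h4⟩
        apply hyx
        exact Prod.ext h3 (by exact_mod_cast h4)
      rw [hsingle]
      simp only [hκ]
      rw [if_pos hxt]
      have h1 := hTm x hx
      have h2 := hA x.1 h1.1 (x.2 : ℤ) h1.2 t (by simpa using hxt)
      simp only [hG]
      have h3 : ((x.2 : ℤ) : ℝ) = (x.2 : ℝ) := by simp
      rw [h3] at h2
      linarith
    · have h0 : ∑ y ∈ T, κ y t = 0 := by
        refine Finset.sum_eq_zero (fun y hy => ?_)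
        simp only [hκ]
        rw [if_neg]
        intro hyt
        exact hex ⟨y, hy, hyt⟩
      rw [h0]
      exact hG0 t
  have hκi : ∀ x ∈ T, IntervalIntegrable (fun t => f t * κ x t) volume 0 1 := by
    intro x hx
    have hx1 : 1 ≤ x.1 := (Finset.mem_Icc.mp (hTm x hx).1).1
    have hKc := hol_kq_cont Y hY x.1 hx1 δ
    have e1 : (fun t => f t * κ x t) =
        (Set.Icc ((x.2 : ℝ) / x.1 - Δ) ((x.2 : ℝ) / x.1 + Δ)).indicator
          (fun t => f t * Kq Y x.1 δ (t - (x.2 : ℝ) / x.1)) := by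
      funext t
      simp only [hκ]
      by_cases ht : |t - (x.2 : ℝ) / x.1| ≤ Δ
      · have : t ∈ Set.Icc ((x.2 : ℝ) / x.1 - Δ) ((x.2 : ℝ) / x.1 + Δ) := by
          rw [abs_le] at ht
          exact ⟨by linarith [ht.1], by linarith [ht.2]⟩
        rw [if_pos ht, Set.indicator_of_mem this]
      · have : t ∉ Set.Icc ((x.2 : ℝ) / x.1 - Δ) ((x.2 : ℝ) / x.1 + Δ) := by
          intro hh
          exact ht (abs_le.mpr ⟨by linarith [hh.1], by linarith [hh.2]⟩)
        rw [if_neg ht, Set.indicator_of_notMem this, mul_zero]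
    rw [e1, intervalIntegrable_iff_integrableOn_Ioc_of_le zero_le_one]
    refine Integrable.indicator ?_ measurableSet_Icc
    have h2 : Continuous (fun t => f t * Kq Y x.1 δ (t - (x.2 : ℝ) / x.1)) :=
      hfc.mul (hKc.comp (continuous_id.sub continuous_const))
    exact (intervalIntegrable_iff_integrableOn_Ioc_of_le zero_le_one).mp
      (h2.intervalIntegrable 0 1)
  have hle : ∑ x ∈ T, ∫ t in (0 : ℝ)..1, f t * κ x t ≤ ∫ t in (0 : ℝ)..1, f t * G t := by
    rw [← intervalIntegral.integral_finsetSum hκi]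
    refine intervalIntegral.integral_mono_on zero_le_one ?_ hGi (fun t _ => ?_)
    · have : (fun t => ∑ x ∈ T, f t * κ x t) = ∑ x ∈ T, fun t => f t * κ x t := by
        funext t
        rw [Finset.sum_apply]
      rw [this]
      exact IntervalIntegrable.sum T hκi
    · rw [← Finset.mul_sum]
      exact mul_le_mul_of_nonneg_left (hpt t) (hf0 t)
  -- the sum over the arcs
  have hsum : ∑ q ∈ Icc 1 R, ∫ β in (-Δ)..Δ, (∑ c ∈ Cd q, f ((c : ℝ) / q + β)) * Kq Y q δ β =
      ∑ x ∈ P, ∫ β in (-Δ)..Δ, f ((x.2 : ℝ) / x.1 + β) * Kq Y x.1 δ β := by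
    have h1 : ∀ q ∈ Icc 1 R,
        ∫ β in (-Δ)..Δ, (∑ c ∈ Cd q, f ((c : ℝ) / q + β)) * Kq Y q δ β =
        ∑ c ∈ Cd q, ∫ β in (-Δ)..Δ, f ((c : ℝ) / q + β) * Kq Y q δ β := by
      intro q hq
      have hKc := hol_kq_cont Y hY q (Finset.mem_Icc.mp hq).1 δ
      rw [← intervalIntegral.integral_finsetSum]
      · refine intervalIntegral.integral_congr (fun β _ => ?_)
        exact Finset.sum_mul _ _ _
      · intro c _
        exact ((hfc.comp (continuous_const.add continuous_id)).mul hKc).intervalIntegrable _ _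
    rw [Finset.sum_congr rfl h1]
    refine (Finset.sum_finset_product' P (Icc 1 R) (fun q => Cd q) ?_).symm
    intro x
    exact hPm x
  have harc : ∀ x ∈ P, x ≠ (1, 0) → ∫ t in (0 : ℝ)..1, f t * κ x t =
      ∫ β in (-Δ)..Δ, f ((x.2 : ℝ) / x.1 + β) * Kq Y x.1 δ β := by
    intro x hx hne
    have h1 := (hPm x).mp hx
    have h2 := Finset.mem_Icc.mp h1.1
    have h3 := Finset.mem_filter.mp h1.2
    have h4 : x.2 < x.1 := Finset.mem_range.mp h3.1
    have hx2 : 2 ≤ x.1 := by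
      by_contra hlt
      have h5 : x.1 = 1 := by omega
      have h6 : x.2 = 0 := by omega
      exact hne (Prod.ext h5 h6)
    have hx0 : 1 ≤ x.2 := by
      by_contra hlt
      have h6 : x.2 = 0 := by omega
      have h7 := h3.2
      rw [h6, Nat.coprime_zero_left] at h7
      omega
    have hq : (0 : ℝ) < x.1 := by exact_mod_cast (by omega : 0 < x.1)
    have hΔq : Δ ≤ 1 / x.1 := by
      rw [le_div_iff₀ hq]
      have h8 : (x.1 : ℝ) ≤ R := by exact_mod_cast h2.2
      have h9 : Δ * x.1 ≤ Δ * R := mul_le_mul_of_nonneg_left h8 hΔ.le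
      have h10 : Δ * R ≤ Δ * R ^ 2 := mul_le_mul_of_nonneg_left (by nlinarith) hΔ.le
      nlinarith
    have h11 : (1 : ℝ) ≤ x.2 := by exact_mod_cast hx0
    have h12 : (x.2 : ℝ) + 1 ≤ x.1 := by exact_mod_cast h4
    refine hol_arc f (Kq Y x.1 δ) ((x.2 : ℝ) / x.1) Δ hfc
      (hol_kq_cont Y hY x.1 (by omega) δ) hΔ.le ?_ ?_
    · refine hΔq.trans ?_
      exact div_le_div_of_nonneg_right h11 hq.le
    · have h13 : (x.2 : ℝ) / x.1 + 1 / x.1 ≤ 1 := by
        rw [← add_div, div_le_one hq]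
        exact h12
      linarith
  have h10 : ((1, 0) : ℕ × ℕ) ∈ P := by
    rw [hPm]
    refine ⟨Finset.mem_Icc.mpr ⟨le_refl 1, hR⟩, ?_⟩
    simp [Cd]
  have hΔ1 : Δ ≤ 1 := by nlinarith
  have hzero := hol_arc0 f (Kq Y 1 δ) Δ hfc (hol_kq_cont Y hY 1 (le_refl 1) δ) hΔ.le hΔ1 hfp
  have htot : ∑ x ∈ T, ∫ t in (0 : ℝ)..1, f t * κ x t =
      ∑ x ∈ P, ∫ β in (-Δ)..Δ, f ((x.2 : ℝ) / x.1 + β) * Kq Y x.1 δ β := by
    rw [hT, Finset.sum_insert hnot, ← Finset.add_sum_erase P _ h10,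
      ← Finset.add_sum_erase P (fun x => ∫ β in (-Δ)..Δ, f ((x.2 : ℝ) / x.1 + β) * Kq Y x.1 δ β)
        h10]
    have h14 : ∑ x ∈ P.erase (1, 0), ∫ t in (0 : ℝ)..1, f t * κ x t =
        ∑ x ∈ P.erase (1, 0), ∫ β in (-Δ)..Δ, f ((x.2 : ℝ) / x.1 + β) * Kq Y x.1 δ β :=
      Finset.sum_congr rfl (fun x hx => harc x (Finset.mem_of_mem_erase hx)
        (Finset.ne_of_mem_erase hx))
    rw [h14, ← add_assoc]
    congr 1
    simp only [hκ, Nat.cast_one, Nat.cast_zero, div_one, zero_add]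
    rw [add_comm]
    exact hzero
  rw [hsum, ← htot]
  linarith

alias hole := hole_pr

end Pool.Agent.HC
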