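import Pool.Agent.Lib_helper92.HCF.Base
import Pool.Agent.Lib_helper23.BG.Defs

/-! HC, block APS. -/

set_option autoImplicit false

namespace Pool.Agent.HC

open Finset Complex Pool.Agent.Var35 Pool.Agent.Var73
open scoped ArithmeticFunction ArithmeticFunction.Moebius

/-- APS -/
theorem ap_sum_pr (q : ℕ) (hq : 1 ≤ q) (s : Finset ℕ) (A B : ℝ) (hA : 0 < A) (hAB : A ≤ B)
    (hs : ∀ x ∈ s, A ≤ x ∧ (x : ℝ) ≤ B) (hmod : ∀ x ∈ s, ∀ y ∈ s, x ≡ y [MOD q]) :
    ∑ x ∈ s, 1 / (x : ℝ) ≤ 1 / A + Real.log (B / A) / q := by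
  have hq0 : (0 : ℝ) < q := by exact_mod_cast hq
  revert B
  induction s using Finset.induction_on_max with
  | empty =>
    intro B hAB _
    rw [Finset.sum_empty]
    have : 0 ≤ Real.log (B / A) := Real.log_nonneg (by rw [le_div_iff₀ hA]; linarith)
    positivity
  | insert a t ht ih =>
    intro B hAB hs
    have hat : a ∉ t := fun h => lt_irrefl _ (ht a h)
    rw [Finset.sum_insert hat]
    have ha := hs a (mem_insert_self _ _)
    have ha0 : (0 : ℝ) < a := lt_of_lt_of_le hA ha.1
    have hmono : Real.log (a / A) ≤ Real.log (B / A) := by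
      apply Real.log_le_log (by positivity)
      exact div_le_div_of_nonneg_right ha.2 hA.le
    rcases t.eq_empty_or_nonempty with h0 | ⟨y, hy⟩
    · subst h0
      rw [Finset.sum_empty, add_zero]
      have h1 : 1 / (a : ℝ) ≤ 1 / A := one_div_le_one_div_of_le hA ha.1
      have h2 : 0 ≤ Real.log (B / A) := Real.log_nonneg (by rw [le_div_iff₀ hA]; linarith)
      have h3 : 0 ≤ Real.log (B / A) / q := by positivity
      linarith
    · have hle : ∀ x ∈ t, (x : ℝ) ≤ (a : ℝ) - q := by
        intro x hx
        have h1 : x < a := ht x hx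
        have h2 : x ≡ a [MOD q] := hmod x (mem_insert_of_mem hx) a (mem_insert_self _ _)
        have h3 : q ∣ a - x := (Nat.modEq_iff_dvd' h1.le).1 h2
        have h4 : q ≤ a - x := Nat.le_of_dvd (by omega) h3
        have h5 : x + q ≤ a := by omega
        have : (x : ℝ) + q ≤ a := by exact_mod_cast h5
        linarith
      have hA' : A ≤ (a : ℝ) - q := le_trans (hs y (mem_insert_of_mem hy)).1 (hle y hy)
      have h1 := ih (fun x hx z hz => hmod x (mem_insert_of_mem hx) z (mem_insert_of_mem hz))
        ((a : ℝ) - q) hA' (fun x hx => ⟨(hs x (mem_insert_of_mem hx)).1, hle x hx⟩)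
      have hpos : 0 < (a : ℝ) - q := lt_of_lt_of_le hA hA'
      have h2 : 1 - ((a : ℝ) / (a - q))⁻¹ ≤ Real.log ((a : ℝ) / (a - q)) :=
        Real.one_sub_inv_le_log_of_pos (by positivity)
      have h3 : 1 - ((a : ℝ) / (a - q))⁻¹ = q / a := by
        rw [inv_div]
        field_simp
        ring
      have h4 : Real.log ((a : ℝ) / (a - q)) = Real.log (a / A) - Real.log ((a - q) / A) := by
        rw [Real.log_div ha0.ne' hpos.ne', Real.log_div ha0.ne' hA.ne',
          Real.log_div hpos.ne' hA.ne']
        ring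
      have h5 : 1 / (a : ℝ) = (q / a) / q := by field_simp
      have h6 : 1 / (a : ℝ) ≤ (Real.log (a / A) - Real.log ((a - q) / A)) / q := by
        rw [h5]
        apply div_le_div_of_nonneg_right _ hq0.le
        rw [← h3, ← h4]
        exact h2
      have h7 : Real.log (a / A) / q ≤ Real.log (B / A) / q :=
        div_le_div_of_nonneg_right hmono hq0.le
      rw [sub_div] at h6
      linarith

alias ap_sum := ap_sum_pr

end Pool.Agent.HC
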