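import Pool.Agent.Lib_helper92.HCF.Base
import Pool.Agent.Lib_helper23.BG.Defs
import Pool.Agent.Lib_helper92.HCF.APS

/-! HC, block LIN. -/

set_option autoImplicit false

namespace Pool.Agent.HC

open Finset Complex Pool.Agent.Var35 Pool.Agent.Var73
open scoped ArithmeticFunction ArithmeticFunction.Moebius

/-- LIN -/
theorem ld_line_pr (Z Y q : ℕ) (hZ : 1 ≤ Z) (hZY : Z ≤ Y) (hq : 1 ≤ q) (m : ℕ) (hm : 1 ≤ m)
    (β₁ β₂ : ℝ) (hβ2 : 0 < β₂) (hβ : β₁ ≤ β₂) (s : Finset ℕ)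
    (hs : ∀ x ∈ s, Z < x ∧ x ≤ Y ∧ β₁ ≤ (m : ℝ) / (q * x) ∧ (m : ℝ) / (q * x) ≤ β₂)
    (hmod : ∀ x ∈ s, ∀ y ∈ s, x ≡ y [MOD q]) :
    ∑ x ∈ s, 1 / (x : ℝ) ≤
      (if (m : ℝ) ≤ q * Y * β₂ then 1 / (Z : ℝ) + (Real.log (q * Y * β₂ / m)
        - Real.log (max 1 (q * Y * β₁ / m))) / q else 0) := by
  have hq0 : (0 : ℝ) < q := by exact_mod_cast hq
  have hm0 : (0 : ℝ) < m := by exact_mod_cast hm
  have hZ0 : (0 : ℝ) < Z := by exact_mod_cast hZ
  have hY0 : (0 : ℝ) < Y := by exact_mod_cast (lt_of_lt_of_le hZ hZY)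
  rcases s.eq_empty_or_nonempty with h0 | ⟨x₀, hx₀⟩
  · subst h0
    rw [Finset.sum_empty]
    split_ifs with h
    · have h1 : max 1 ((q : ℝ) * Y * β₁ / m) ≤ q * Y * β₂ / m := by
        apply max_le
        · rw [le_div_iff₀ hm0]
          linarith
        · apply div_le_div_of_nonneg_right _ hm0.le
          exact mul_le_mul_of_nonneg_left hβ (by positivity)
      have h2 : Real.log (max 1 ((q : ℝ) * Y * β₁ / m)) ≤ Real.log (q * Y * β₂ / m) :=
        Real.log_le_log (lt_of_lt_of_le one_pos (le_max_left _ _)) h1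
      have h3 : 0 ≤ (Real.log (q * Y * β₂ / m) - Real.log (max 1 (q * Y * β₁ / m))) / q :=
        div_nonneg (by linarith) hq0.le
      positivity
    · exact le_refl _
  · have hx : ∀ x ∈ s, (0 : ℝ) < x ∧ (m : ℝ) / (q * β₂) ≤ x ∧ q * β₁ * x ≤ m := by
      intro x hxs
      obtain ⟨h1, h2, h3, h4⟩ := hs x hxs
      have hx0 : (0 : ℝ) < x := by exact_mod_cast (by omega : 0 < x)
      refine ⟨hx0, ?_, ?_⟩
      · rw [div_le_iff₀ (by positivity)] at h4 ⊢
        nlinarith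
      · rw [le_div_iff₀ (by positivity)] at h3
        nlinarith
    have hcond : (m : ℝ) ≤ q * Y * β₂ := by
      obtain ⟨h1, h2, h3⟩ := hx x₀ hx₀
      rw [div_le_iff₀ (by positivity)] at h2
      have h4 : (x₀ : ℝ) ≤ Y := by exact_mod_cast (hs x₀ hx₀).2.1
      have h5 : (x₀ : ℝ) * (q * β₂) ≤ Y * (q * β₂) :=
        mul_le_mul_of_nonneg_right h4 (by positivity)
      linarith
    rw [if_pos hcond]
    set M : ℝ := max 1 ((q : ℝ) * Y * β₁ / m) with hM
    have hM1 : 1 ≤ M := le_max_left _ _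
    have hM0 : 0 < M := lt_of_lt_of_le one_pos hM1
    set A : ℝ := max Z ((m : ℝ) / (q * β₂)) with hA
    have hA0 : 0 < A := lt_of_lt_of_le hZ0 (le_max_left _ _)
    have hsx : ∀ x ∈ s, A ≤ x ∧ (x : ℝ) ≤ Y / M := by
      intro x hxs
      obtain ⟨h1, h2, h3⟩ := hx x hxs
      obtain ⟨h4, h5, -, -⟩ := hs x hxs
      refine ⟨max_le (by exact_mod_cast h4.le) h2, ?_⟩
      rw [le_div_iff₀ hM0, hM, mul_max_of_nonneg _ _ h1.le]
      apply max_le
      · rw [mul_one]
        exact_mod_cast h5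
      · have h6 : (x : ℝ) * (q * Y * β₁ / m) = (q * β₁ * x) * Y / m := by ring
        rw [h6, div_le_iff₀ hm0]
        nlinarith
    have hAB : A ≤ Y / M := le_trans (hsx x₀ hx₀).1 (hsx x₀ hx₀).2
    refine le_trans (ap_sum q hq s A (Y / M) hA0 hAB hsx hmod) ?_
    apply add_le_add
    · exact one_div_le_one_div_of_le hZ0 (le_max_left _ _)
    · apply div_le_div_of_nonneg_right _ hq0.le
      have hmq : (0 : ℝ) < m / (q * β₂) := by positivity
      have h1 : Real.log (m / (q * β₂)) ≤ Real.log A :=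
        Real.log_le_log hmq (le_max_right _ _)
      have h2 : Real.log (Y / M / A) = Real.log Y - Real.log M - Real.log A := by
        rw [Real.log_div (by positivity) hA0.ne', Real.log_div hY0.ne' hM0.ne']
      have h3 : Real.log (q * Y * β₂ / m) = Real.log Y - Real.log (m / (q * β₂)) := by
        rw [← Real.log_div hY0.ne' hmq.ne']
        congr 1
        field_simp
      rw [h2, h3]
      linarith

alias ld_line := ld_line_pr

end Pool.Agent.HC
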