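import Pool.Agent.Lib_helper92.HCF.Base
import Pool.Agent.Lib_helper23.BG.Defs
import Pool.Agent.Lib_helper92.HCF.APS
import Pool.Agent.Lib_helper92.HCF.LIN

/-! Block LDE: the local density of the fractions with large denominator. -/

set_option autoImplicit false

namespace Pool.Agent.HC

open Finset Complex Filter Topology MeasureTheory Pool.Agent.Var35 Pool.Agent.Var73
open scoped ArithmeticFunction ArithmeticFunction.Moebius

theorem LDE_psi_zero : Psi 0 = 0 := by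
  unfold Psi
  simp

theorem LDE_psi_sum (M₁ M₂ : ℝ) (h : M₁ ≤ M₂) (h2 : 0 < M₂) :
    ∑ m ∈ Icc 1 ⌊M₂⌋₊, Real.log (max 1 (M₁ / m)) = Psi (max M₁ 0) := by
  unfold Psi
  have hsub : Icc 1 ⌊max M₁ 0⌋₊ ⊆ Icc 1 ⌊M₂⌋₊ := by
    apply Finset.Icc_subset_Icc_right
    apply Nat.floor_le_floor
    exact max_le h h2.le
  rw [← Finset.sum_subset hsub]
  · refine Finset.sum_congr rfl fun m hm => ?_
    rw [Finset.mem_Icc] at hm
    have hm0 : (0 : ℝ) < m := by exact_mod_cast hm.1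
    have h3 : (m : ℝ) ≤ max M₁ 0 := by
      rw [← Nat.le_floor_iff (le_max_right _ _)]
      exact hm.2
    have h4 : (m : ℝ) ≤ M₁ := by
      rcases le_max_iff.1 h3 with h5 | h5
      · exact h5
      · linarith
    have h6 : max M₁ 0 = M₁ := max_eq_left (hm0.le.trans h4)
    rw [h6, max_eq_right]
    rw [le_div_iff₀ hm0, one_mul]
    exact h4
  · intro m hm hm'
    rw [Finset.mem_Icc] at hm hm'
    have hm0 : (0 : ℝ) < m := by exact_mod_cast hm.1
    have h3 : max M₁ 0 < m := by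
      by_contra hcon
      rw [not_lt, ← Nat.le_floor_iff (le_max_right _ _)] at hcon
      exact hm' ⟨hm.1, hcon⟩
    have h4 : M₁ < m := lt_of_le_of_lt (le_max_left _ _) h3
    rw [max_eq_left, Real.log_one]
    rw [div_le_one hm0]
    exact h4.le

/-- one half of the lattice lines -/
theorem LDE_half (Z Y q : ℕ) (hZ : 1 ≤ Z) (hZY : Z ≤ Y) (hq : 1 ≤ q) (β₁ β₂ : ℝ)
    (hβ : β₁ ≤ β₂) (P : Finset (ℕ × ℕ))
    (hP : ∀ p ∈ P, 1 ≤ p.2 ∧ Z < p.1 ∧ p.1 ≤ Y ∧ β₁ ≤ (p.2 : ℝ) / (q * p.1) ∧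
      (p.2 : ℝ) / (q * p.1) ≤ β₂)
    (hmod : ∀ p ∈ P, ∀ r ∈ P, p.2 = r.2 → p.1 ≡ r.1 [MOD q]) :
    ∑ p ∈ P, 1 / (p.1 : ℝ) ≤ max (q * Y * β₂) 0 / Z +
      (Psi (max (q * Y * β₂) 0) - Psi (max (q * Y * β₁) 0)) / q := by
  have hq0 : (0 : ℝ) < q := by exact_mod_cast hq
  have hZ0 : (0 : ℝ) < Z := by exact_mod_cast hZ
  have hY0 : (0 : ℝ) < Y := by exact_mod_cast (lt_of_lt_of_le hZ hZY)
  rcases le_or_gt β₂ 0 with hβ2 | hβ2
  · have hPe : P = ∅ := by
      rw [Finset.eq_empty_iff_forall_notMem]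
      intro p hp
      obtain ⟨h1, h2, h3, h4, h5⟩ := hP p hp
      have h6 : (0 : ℝ) < p.2 := by exact_mod_cast h1
      have h7 : (0 : ℝ) < p.1 := by exact_mod_cast (lt_of_le_of_lt (Nat.zero_le _) h2)
      have h8 : 0 < (p.2 : ℝ) / (q * p.1) := by positivity
      linarith
    rw [hPe, Finset.sum_empty]
    have h1 : (q : ℝ) * Y * β₂ ≤ 0 := mul_nonpos_of_nonneg_of_nonpos (by positivity) hβ2
    have h2 : (q : ℝ) * Y * β₁ ≤ 0 :=
      mul_nonpos_of_nonneg_of_nonpos (by positivity) (hβ.trans hβ2)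
    rw [max_eq_right h1, max_eq_right h2]
    simp
  · set M₂ : ℝ := q * Y * β₂ with hM2
    set M₁ : ℝ := q * Y * β₁ with hM1
    have hM2pos : 0 < M₂ := by positivity
    have hM12 : M₁ ≤ M₂ := mul_le_mul_of_nonneg_left hβ (by positivity)
    rw [max_eq_left hM2pos.le]
    have hmaps : ∀ p ∈ P, p.2 ∈ Icc 1 ⌊M₂⌋₊ := by
      intro p hp
      obtain ⟨h1, h2, h3, h4, h5⟩ := hP p hp
      have h7 : (0 : ℝ) < p.1 := by exact_mod_cast (lt_of_le_of_lt (Nat.zero_le _) h2)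
      rw [Finset.mem_Icc]
      refine ⟨h1, Nat.le_floor ?_⟩
      rw [div_le_iff₀ (by positivity)] at h5
      have h8 : (p.1 : ℝ) ≤ Y := by exact_mod_cast h3
      calc (p.2 : ℝ) ≤ β₂ * (q * p.1) := h5
        _ ≤ β₂ * (q * Y) := by gcongr
        _ = M₂ := by rw [hM2]; ring
    rw [← Finset.sum_fiberwise_of_maps_to hmaps]
    have hline : ∀ m ∈ Icc 1 ⌊M₂⌋₊, ∑ p ∈ P with p.2 = m, 1 / (p.1 : ℝ) ≤
        1 / (Z : ℝ) + (Real.log (M₂ / m) - Real.log (max 1 (M₁ / m))) / q := by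
      intro m hm
      rw [Finset.mem_Icc] at hm
      have hinj : Set.InjOn (fun p : ℕ × ℕ => p.1) (P.filter (fun p => p.2 = m)) := by
        intro p hp r hr hpr
        rw [Finset.mem_coe, Finset.mem_filter] at hp hr
        exact Prod.ext hpr (hp.2.trans hr.2.symm)
      rw [← Finset.sum_image (f := fun x : ℕ => 1 / (x : ℝ)) hinj]
      have h := ld_line Z Y q hZ hZY hq m hm.1 β₁ β₂ hβ2 hβ
        ((P.filter (fun p => p.2 = m)).image (fun p => p.1)) ?_ ?_
      · have hmM : (m : ℝ) ≤ M₂ := by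
          rw [← Nat.le_floor_iff hM2pos.le]
          exact hm.2
        rw [if_pos hmM] at h
        exact h
      · intro x hx
        rw [Finset.mem_image] at hx
        obtain ⟨p, hp, rfl⟩ := hx
        rw [Finset.mem_filter] at hp
        obtain ⟨h1, h2, h3, h4, h5⟩ := hP p hp.1
        rw [hp.2] at h4 h5
        exact ⟨h2, h3, h4, h5⟩
      · intro x hx y hy
        rw [Finset.mem_image] at hx hy
        obtain ⟨p, hp, rfl⟩ := hx
        obtain ⟨r, hr, rfl⟩ := hy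
        rw [Finset.mem_filter] at hp hr
        exact hmod p hp.1 r hr.1 (hp.2.trans hr.2.symm)
    refine (Finset.sum_le_sum hline).trans ?_
    have h0 : ∑ m ∈ Icc 1 ⌊M₂⌋₊, (Real.log (M₂ / m) - Real.log (max 1 (M₁ / m))) / (q : ℝ) =
        (∑ m ∈ Icc 1 ⌊M₂⌋₊, Real.log (M₂ / m) - Psi (max M₁ 0)) / q := by
      rw [← Finset.sum_div, Finset.sum_sub_distrib, LDE_psi_sum M₁ M₂ hM12 hM2pos]
    rw [Finset.sum_add_distrib, h0, Finset.sum_const, Nat.card_Icc]
    have h1 : ((⌊M₂⌋₊ + 1 - 1) • (1 / (Z : ℝ))) ≤ M₂ / Z := by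
      rw [Nat.add_sub_cancel, nsmul_eq_mul, mul_one_div]
      exact div_le_div_of_nonneg_right (Nat.floor_le hM2pos.le) hZ0.le
    have h2 : ∑ m ∈ Icc 1 ⌊M₂⌋₊, Real.log (M₂ / m) = Psi M₂ := rfl
    rw [h2]
    linarith

theorem LDE_fq (Y q : ℕ) (hY : 1 ≤ Y) (hq : 1 ≤ q) (β : ℝ) :
    Fq Y q β = (Psi (max (q * Y * β) 0) - Psi (max (q * Y * (-β)) 0)) / q := by
  have hq0 : (0 : ℝ) < q := by exact_mod_cast hq
  have hY0 : (0 : ℝ) < Y := by exact_mod_cast hY
  unfold Fq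
  split_ifs with h
  · have h1 : 0 ≤ (q : ℝ) * Y * β := by positivity
    have h2 : (q : ℝ) * Y * (-β) ≤ 0 := by
      rw [mul_neg]
      linarith
    rw [max_eq_left h1, max_eq_right h2, LDE_psi_zero, sub_zero]
  · rw [not_le] at h
    have h1 : (q : ℝ) * Y * β ≤ 0 := mul_nonpos_of_nonneg_of_nonpos (by positivity) h.le
    have h2 : 0 ≤ (q : ℝ) * Y * (-β) := by
      rw [mul_neg]
      linarith
    rw [max_eq_right h1, max_eq_left h2, LDE_psi_zero, zero_sub, neg_div]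

/-- the denominator on the line `m = 0` -/
theorem LDE_den (q Q : ℕ) (c l : ℤ) (hq : 1 ≤ q) (hQ : 1 ≤ Q) (hc : IsCoprime c (q : ℤ))
    (h : l * q - c * Q = 0) : q ∣ Q ∧ den l Q = q := by
  have h1 : c * Q = l * q := by linarith
  have h2 : (q : ℤ) ∣ Q := by
    refine hc.symm.dvd_of_dvd_mul_left ?_
    exact ⟨l, by rw [h1]; ring⟩
  have h3 : q ∣ Q := by exact_mod_cast h2
  refine ⟨h3, ?_⟩
  obtain ⟨k, rfl⟩ := h3
  have hk : 1 ≤ k := by
    rcases Nat.eq_zero_or_pos k with h4 | h4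
    · subst h4
      simp at hQ
    · exact h4
  have hq0 : (q : ℤ) ≠ 0 := by
    have : (0 : ℤ) < q := by exact_mod_cast hq
    exact this.ne'
  have h5 : l = c * k := by
    have : l * q = (c * k) * q := by
      rw [← h1]
      push_cast
      ring
    exact mul_right_cancel₀ hq0 this
  unfold den
  have h6 : Int.gcd l ((q * k : ℕ) : ℤ) = k := by
    rw [h5]
    push_cast
    rw [Int.gcd_mul_right, Int.isCoprime_iff_gcd_eq_one.1 hc, one_mul]
    simp
  rw [h6]
  exact Nat.mul_div_cancel _ hk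

/-- LDE (uses ld_line, ap_sum) -/
theorem ld_pr (Z Y R q : ℕ) (c : ℤ) (t δ : ℝ) (hZ : 1 ≤ Z) (hZY : Z ≤ Y) (hq : 1 ≤ q) (hqZ : q ≤ Z)
    (hc : IsCoprime c (q : ℤ)) (hδ : 0 < δ) :
    W Z Y R δ t ≤ (Fq Y q ((t - c / q) + δ / 2) - Fq Y q ((t - c / q) - δ / 2))
      + (if R < q then (1 + Real.log (Y / Z)) / q else 0)
      + 2 * q * Y * (|t - c / q| + δ / 2) / Z := by
  classical
  have hq0 : (0 : ℝ) < q := by exact_mod_cast hq
  have hZ0 : (0 : ℝ) < Z := by exact_mod_cast hZ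
  have hY1 : 1 ≤ Y := hZ.trans hZY
  have hY0 : (0 : ℝ) < Y := by exact_mod_cast hY1
  set β₁ : ℝ := (t - c / q) - δ / 2 with hβ1
  set β₂ : ℝ := (t - c / q) + δ / 2 with hβ2
  have hβ : β₁ ≤ β₂ := by
    rw [hβ1, hβ2]
    linarith
  -- the set of pairs
  let T : Finset (ℕ × ℤ) := ((Ioc Z Y) ×ˢ (Icc (-(Y : ℤ)) (2 * Y))).filter
    (fun p => p.2 ∈ Icc (-(p.1 : ℤ)) (2 * p.1) ∧ R < den p.2 p.1 ∧ |(p.2 : ℝ) / p.1 - t| ≤ δ / 2)
  have hW : W Z Y R δ t = ∑ p ∈ T, 1 / (p.1 : ℝ) := by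
    unfold W cnt
    rw [Finset.sum_filter, Finset.sum_product]
    refine Finset.sum_congr rfl fun Q hQ => ?_
    rw [Finset.mem_Ioc] at hQ
    rw [Finset.sum_div]
    have hsub : Icc (-(Q : ℤ)) (2 * Q) ⊆ Icc (-(Y : ℤ)) (2 * Y) := by
      have : (Q : ℤ) ≤ Y := by exact_mod_cast hQ.2
      apply Finset.Icc_subset_Icc <;> linarith
    rw [← Finset.sum_subset hsub]
    · refine Finset.sum_congr rfl fun l hl => ?_
      by_cases h : R < den l Q ∧ |(l : ℝ) / Q - t| ≤ δ / 2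
      · rw [if_pos h, if_pos ⟨hl, h⟩]
      · rw [if_neg h, if_neg (fun h' => h h'.2), zero_div]
    · intro l _ hl
      exact if_neg (fun h' => hl h'.1)
  have hTmem : ∀ p ∈ T, Z < p.1 ∧ p.1 ≤ Y ∧ R < den p.2 p.1 ∧
      β₁ ≤ ((p.2 * q - c * p.1 : ℤ) : ℝ) / (q * p.1) ∧
      ((p.2 * q - c * p.1 : ℤ) : ℝ) / (q * p.1) ≤ β₂ := by
    intro p hp
    rw [Finset.mem_filter, Finset.mem_product, Finset.mem_Ioc] at hp
    obtain ⟨⟨⟨h1, h2⟩, _⟩, _, h3, h4⟩ := hp
    have h7 : (0 : ℝ) < p.1 := by exact_mod_cast (lt_of_le_of_lt (Nat.zero_le _) h1)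
    have h5 : ((p.2 * q - c * p.1 : ℤ) : ℝ) / (q * p.1) = (p.2 : ℝ) / p.1 - c / q := by
      push_cast
      field_simp
    rw [abs_le] at h4
    refine ⟨h1, h2, h3, ?_, ?_⟩
    · rw [h5, hβ1]
      linarith [h4.1]
    · rw [h5, hβ2]
      linarith [h4.2]
  have hmod : ∀ p ∈ T, ∀ r ∈ T, p.2 * q - c * p.1 = r.2 * q - c * r.1 → p.1 ≡ r.1 [MOD q] := by
    intro p _ r _ h
    have h1 : c * ((r.1 : ℤ) - p.1) = q * (r.2 - p.2) := by linarith
    have h2 : (q : ℤ) ∣ (r.1 : ℤ) - p.1 :=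
      hc.symm.dvd_of_dvd_mul_left ⟨_, h1⟩
    exact (Nat.modEq_iff_dvd).2 h2
  -- splitting
  have hsplit : ∑ p ∈ T, 1 / (p.1 : ℝ) =
      ∑ p ∈ T.filter (fun p => p.2 * q - c * p.1 = 0), 1 / (p.1 : ℝ) +
      (∑ p ∈ T.filter (fun p => 0 < p.2 * q - c * p.1), 1 / (p.1 : ℝ) +
      ∑ p ∈ T.filter (fun p => p.2 * q - c * p.1 < 0), 1 / (p.1 : ℝ)) := by
    simp only [Finset.sum_filter]
    rw [← Finset.sum_add_distrib, ← Finset.sum_add_distrib]
    refine Finset.sum_congr rfl fun p _ => ?_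
    rcases lt_trichotomy (p.2 * q - c * p.1) 0 with h | h | h
    · rw [if_neg h.ne, if_neg (not_lt.2 h.le), if_pos h]
      ring
    · rw [if_pos h, if_neg (by rw [h]; exact lt_irrefl _), if_neg (by rw [h]; exact lt_irrefl _)]
      ring
    · rw [if_neg h.ne', if_pos h, if_neg (not_lt.2 h.le)]
      ring
  -- the line `m = 0`
  have hzero : ∑ p ∈ T.filter (fun p => p.2 * q - c * p.1 = 0), 1 / (p.1 : ℝ) ≤
      (if R < q then (1 + Real.log (Y / Z)) / q else 0) := by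
    have hden : ∀ p ∈ T.filter (fun p => p.2 * q - c * p.1 = 0), R < q := by
      intro p hp
      rw [Finset.mem_filter] at hp
      obtain ⟨h1, h2, h3, _⟩ := hTmem p hp.1
      have := (LDE_den q p.1 c p.2 hq (by omega) hc hp.2).2
      rwa [this] at h3
    by_cases hR : R < q
    · rw [if_pos hR]
      have hinj : Set.InjOn (fun p : ℕ × ℤ => p.1) (T.filter (fun p => p.2 * q - c * p.1 = 0)) := by
        intro p hp r hr hpr
        rw [Finset.mem_coe, Finset.mem_filter] at hp hr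
        have h0 : p.1 = r.1 := hpr
        have h1 : p.2 * q = r.2 * q := by
          have e1 := hp.2
          have e2 := hr.2
          rw [h0] at e1
          linarith
        have hqz : (q : ℤ) ≠ 0 := by
          have : (0 : ℤ) < q := by exact_mod_cast hq
          exact this.ne'
        exact Prod.ext h0 (mul_right_cancel₀ hqz h1)
      rw [← Finset.sum_image (f := fun x : ℕ => 1 / (x : ℝ)) hinj]
      have h := ap_sum q hq ((T.filter (fun p => p.2 * q - c * p.1 = 0)).image (fun p => p.1))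
        Z Y hZ0 (by exact_mod_cast hZY) ?_ ?_
      · refine h.trans ?_
        rw [add_div]
        have : 1 / (Z : ℝ) ≤ 1 / q := by
          apply one_div_le_one_div_of_le hq0
          exact_mod_cast hqZ
        linarith
      · intro x hx
        rw [Finset.mem_image] at hx
        obtain ⟨p, hp, rfl⟩ := hx
        rw [Finset.mem_filter] at hp
        obtain ⟨h1, h2, _⟩ := hTmem p hp.1
        exact ⟨by exact_mod_cast h1.le, by exact_mod_cast h2⟩
      · intro x hx y hy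
        rw [Finset.mem_image] at hx hy
        obtain ⟨p, hp, rfl⟩ := hx
        obtain ⟨r, hr, rfl⟩ := hy
        rw [Finset.mem_filter] at hp hr
        exact hmod p hp.1 r hr.1 (hp.2.trans hr.2.symm)
    · rw [if_neg hR]
      have : T.filter (fun p => p.2 * q - c * p.1 = 0) = ∅ := by
        rw [Finset.eq_empty_iff_forall_notMem]
        intro p hp
        exact hR (hden p hp)
      rw [this, Finset.sum_empty]
  -- positive lines
  have hpos : ∑ p ∈ T.filter (fun p => 0 < p.2 * q - c * p.1), 1 / (p.1 : ℝ) ≤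
      max (q * Y * β₂) 0 / Z + (Psi (max (q * Y * β₂) 0) - Psi (max (q * Y * β₁) 0)) / q := by
    have hinj : Set.InjOn (fun p : ℕ × ℤ => (p.1, (p.2 * q - c * p.1).toNat))
        (T.filter (fun p => 0 < p.2 * q - c * p.1)) := by
      intro p hp r hr hpr
      rw [Finset.mem_coe, Finset.mem_filter] at hp hr
      obtain ⟨h0, h1⟩ := Prod.mk.inj hpr
      have h2 : p.2 * q - c * p.1 = r.2 * q - c * r.1 := by
        have e1 := Int.toNat_of_nonneg hp.2.le
        have e2 := Int.toNat_of_nonneg hr.2.le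
        rw [← e1, ← e2, h1]
      have h3 : p.2 * q = r.2 * q := by
        rw [h0] at h2
        linarith
      have hqz : (q : ℤ) ≠ 0 := by
        have : (0 : ℤ) < q := by exact_mod_cast hq
        exact this.ne'
      exact Prod.ext h0 (mul_right_cancel₀ hqz h3)
    have hs : ∑ p ∈ T.filter (fun p => 0 < p.2 * q - c * p.1), 1 / (p.1 : ℝ) =
        ∑ x ∈ (T.filter (fun p => 0 < p.2 * q - c * p.1)).image
          (fun p : ℕ × ℤ => (p.1, (p.2 * q - c * p.1).toNat)), 1 / (x.1 : ℝ) := by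
      rw [Finset.sum_image hinj]
    rw [hs]
    refine LDE_half Z Y q hZ hZY hq β₁ β₂ hβ _ ?_ ?_
    · intro x hx
      rw [Finset.mem_image] at hx
      obtain ⟨p, hp, rfl⟩ := hx
      rw [Finset.mem_filter] at hp
      obtain ⟨h1, h2, _, h4, h5⟩ := hTmem p hp.1
      have e1 : (((p.2 * q - c * p.1).toNat : ℕ) : ℝ) = ((p.2 * q - c * p.1 : ℤ) : ℝ) := by
        rw [← Int.cast_natCast, Int.toNat_of_nonneg hp.2.le]
      refine ⟨?_, h1, h2, ?_, ?_⟩
      · show 1 ≤ (p.2 * q - c * p.1).toNat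
        have := hp.2
        omega
      · show β₁ ≤ (((p.2 * q - c * p.1).toNat : ℕ) : ℝ) / (q * p.1)
        rw [e1]
        exact h4
      · show (((p.2 * q - c * p.1).toNat : ℕ) : ℝ) / (q * p.1) ≤ β₂
        rw [e1]
        exact h5
    · intro x hx y hy hxy
      rw [Finset.mem_image] at hx hy
      obtain ⟨p, hp, rfl⟩ := hx
      obtain ⟨r, hr, rfl⟩ := hy
      rw [Finset.mem_filter] at hp hr
      refine hmod p hp.1 r hr.1 ?_
      have h1 : (p.2 * q - c * p.1).toNat = (r.2 * q - c * r.1).toNat := hxy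
      have e1 := Int.toNat_of_nonneg hp.2.le
      have e2 := Int.toNat_of_nonneg hr.2.le
      rw [← e1, ← e2, h1]
  -- negative lines
  have hneg : ∑ p ∈ T.filter (fun p => p.2 * q - c * p.1 < 0), 1 / (p.1 : ℝ) ≤
      max (q * Y * (-β₁)) 0 / Z +
        (Psi (max (q * Y * (-β₁)) 0) - Psi (max (q * Y * (-β₂)) 0)) / q := by
    have hinj : Set.InjOn (fun p : ℕ × ℤ => (p.1, (-(p.2 * q - c * p.1)).toNat))
        (T.filter (fun p => p.2 * q - c * p.1 < 0)) := by
      intro p hp r hr hpr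
      rw [Finset.mem_coe, Finset.mem_filter] at hp hr
      obtain ⟨h0, h1⟩ := Prod.mk.inj hpr
      have h2 : -(p.2 * q - c * p.1) = -(r.2 * q - c * r.1) := by
        have e1 := Int.toNat_of_nonneg (neg_nonneg.2 hp.2.le)
        have e2 := Int.toNat_of_nonneg (neg_nonneg.2 hr.2.le)
        rw [← e1, ← e2, h1]
      have h3 : p.2 * q = r.2 * q := by
        rw [h0] at h2
        linarith
      have hqz : (q : ℤ) ≠ 0 := by
        have : (0 : ℤ) < q := by exact_mod_cast hq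
        exact this.ne'
      exact Prod.ext h0 (mul_right_cancel₀ hqz h3)
    have hs : ∑ p ∈ T.filter (fun p => p.2 * q - c * p.1 < 0), 1 / (p.1 : ℝ) =
        ∑ x ∈ (T.filter (fun p => p.2 * q - c * p.1 < 0)).image
          (fun p : ℕ × ℤ => (p.1, (-(p.2 * q - c * p.1)).toNat)), 1 / (x.1 : ℝ) := by
      rw [Finset.sum_image hinj]
    rw [hs]
    refine LDE_half Z Y q hZ hZY hq (-β₂) (-β₁) (neg_le_neg hβ) _ ?_ ?_
    · intro x hx
      rw [Finset.mem_image] at hx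
      obtain ⟨p, hp, rfl⟩ := hx
      rw [Finset.mem_filter] at hp
      obtain ⟨h1, h2, _, h4, h5⟩ := hTmem p hp.1
      have e1 : (((-(p.2 * q - c * p.1)).toNat : ℕ) : ℝ) =
          -((p.2 * q - c * p.1 : ℤ) : ℝ) := by
        rw [← Int.cast_natCast, Int.toNat_of_nonneg (neg_nonneg.2 hp.2.le), Int.cast_neg]
      refine ⟨?_, h1, h2, ?_, ?_⟩
      · show 1 ≤ (-(p.2 * q - c * p.1)).toNat
        have := hp.2
        omega
      · show -β₂ ≤ (((-(p.2 * q - c * p.1)).toNat : ℕ) : ℝ) / (q * p.1)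
        rw [e1, neg_div]
        exact neg_le_neg h5
      · show (((-(p.2 * q - c * p.1)).toNat : ℕ) : ℝ) / (q * p.1) ≤ -β₁
        rw [e1, neg_div]
        exact neg_le_neg h4
    · intro x hx y hy hxy
      rw [Finset.mem_image] at hx hy
      obtain ⟨p, hp, rfl⟩ := hx
      obtain ⟨r, hr, rfl⟩ := hy
      rw [Finset.mem_filter] at hp hr
      refine hmod p hp.1 r hr.1 ?_
      have h1 : (-(p.2 * q - c * p.1)).toNat = (-(r.2 * q - c * r.1)).toNat := hxy
      have e1 := Int.toNat_of_nonneg (neg_nonneg.2 hp.2.le)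
      have e2 := Int.toNat_of_nonneg (neg_nonneg.2 hr.2.le)
      have h2 : -(p.2 * q - c * p.1) = -(r.2 * q - c * r.1) := by
        rw [← e1, ← e2, h1]
      linarith
  have herr : max (q * Y * β₂) 0 / Z + max (q * Y * (-β₁)) 0 / Z ≤
      2 * q * Y * (|t - c / q| + δ / 2) / Z := by
    rw [← add_div]
    apply div_le_div_of_nonneg_right _ hZ0.le
    have habs := le_abs_self (t - c / q)
    have habs' := neg_abs_le (t - c / q)
    have habs0 := abs_nonneg (t - c / q)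
    have h1 : max ((q : ℝ) * Y * β₂) 0 ≤ q * Y * (|t - c / q| + δ / 2) := by
      apply max_le
      · apply mul_le_mul_of_nonneg_left _ (by positivity)
        rw [hβ2]
        linarith
      · positivity
    have h2 : max ((q : ℝ) * Y * (-β₁)) 0 ≤ q * Y * (|t - c / q| + δ / 2) := by
      apply max_le
      · apply mul_le_mul_of_nonneg_left _ (by positivity)
        rw [hβ1]
        linarith
      · positivity
    linarith
  rw [hW, hsplit, LDE_fq Y q hY1 hq β₂, LDE_fq Y q hY1 hq β₁]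
  have hmain : (Psi (max (q * Y * β₂) 0) - Psi (max (q * Y * β₁) 0)) / q +
      (Psi (max (q * Y * (-β₁)) 0) - Psi (max (q * Y * (-β₂)) 0)) / q =
      (Psi (max (q * Y * β₂) 0) - Psi (max (q * Y * (-β₂)) 0)) / q -
      (Psi (max (q * Y * β₁) 0) - Psi (max (q * Y * (-β₁)) 0)) / q := by
    ring
  linarith [hzero, hpos, hneg, herr, hmain]

alias ld := ld_pr

end Pool.Agent.HC
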