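import Pool.Agent.Lib_helper92.HCF.Base
import Pool.Agent.Lib_helper23.BG.Defs
import Pool.Agent.Lib_helper92.HCF.FQI
import Pool.Agent.Lib_helper92.HCF.LDE

/-! HC, block LDU. -/

set_option autoImplicit false

namespace Pool.Agent.HC

open Finset Complex Pool.Agent.Var35 Pool.Agent.Var73
open scoped ArithmeticFunction ArithmeticFunction.Moebius

/-- LDU (uses ld, fq_lip) -/
theorem ldu_pr (Z Y R T : ℕ) (t δ : ℝ) (hT : 1 ≤ T) (hTZ : T ≤ Z) (hZY : Z ≤ Y) (hR : 1 ≤ R)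
    (hδ : 0 < δ) :
    W Z Y R δ t ≤ Y * δ + (1 + Real.log (Y / Z)) / R + (2 * Y / T + T * Y * δ) / Z := by
  have hZ : 1 ≤ Z := le_trans hT hTZ
  have hZ0 : (0 : ℝ) < Z := by exact_mod_cast hZ
  have hT0 : (0 : ℝ) < T := by exact_mod_cast hT
  have hR0 : (0 : ℝ) < R := by exact_mod_cast hR
  have hY0 : (0 : ℝ) < Y := by exact_mod_cast (lt_of_lt_of_le hZ hZY)
  obtain ⟨r, hr1, hr2⟩ := Real.exists_rat_abs_sub_le_and_den_le t (n := T) hT
  have hq : 1 ≤ r.den := r.den_pos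
  have hq0 : (0 : ℝ) < r.den := by exact_mod_cast hq
  have hqT : (r.den : ℝ) ≤ T := by exact_mod_cast hr2
  have hrr : (r : ℝ) = (r.num : ℝ) / r.den := by
    rw [← Rat.cast_def]
  have hc : IsCoprime r.num (r.den : ℤ) := by
    rw [Int.isCoprime_iff_gcd_eq_one]
    have := r.reduced
    rw [Nat.Coprime] at this
    rw [Int.gcd, Int.natAbs_natCast]
    exact this
  have h1 := ld Z Y R r.den r.num t δ hZ hZY hq (le_trans hr2 hTZ) hc hδ
  have h2 := (fq_lip Y hY0.le r.den hq ((t - r.num / r.den) - δ / 2)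
    ((t - r.num / r.den) + δ / 2) (by linarith)).2
  have h3 : (Y : ℝ) * ((t - r.num / r.den) + δ / 2 - ((t - r.num / r.den) - δ / 2)) = Y * δ := by
    ring
  rw [h3] at h2
  have hlog : 0 ≤ Real.log ((Y : ℝ) / Z) := by
    apply Real.log_nonneg
    rw [le_div_iff₀ hZ0, one_mul]
    exact_mod_cast hZY
  have h4 : (if R < r.den then (1 + Real.log (Y / Z)) / (r.den : ℝ) else 0) ≤
      (1 + Real.log (Y / Z)) / R := by
    split_ifs with h
    · apply div_le_div_of_nonneg_left (by linarith) hR0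
      exact_mod_cast h.le
    · positivity
  have h5 : (r.den : ℝ) * |t - (r.num : ℝ) / r.den| ≤ 1 / T := by
    rw [hrr] at hr1
    calc (r.den : ℝ) * |t - (r.num : ℝ) / r.den| ≤ r.den * (1 / ((T + 1) * r.den)) :=
          mul_le_mul_of_nonneg_left hr1 hq0.le
      _ = 1 / (T + 1) := by field_simp
      _ ≤ 1 / T := one_div_le_one_div_of_le hT0 (by linarith)
  have h6 : 2 * (r.den : ℝ) * Y * (|t - (r.num : ℝ) / r.den| + δ / 2) / Z ≤
      (2 * Y / T + T * Y * δ) / Z := by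
    apply div_le_div_of_nonneg_right _ hZ0.le
    have e1 : 2 * (r.den : ℝ) * Y * (|t - (r.num : ℝ) / r.den| + δ / 2) =
        2 * Y * (r.den * |t - (r.num : ℝ) / r.den|) + r.den * (Y * δ) := by ring
    rw [e1]
    have e2 : 2 * (Y : ℝ) * (r.den * |t - (r.num : ℝ) / r.den|) ≤ 2 * Y * (1 / T) :=
      mul_le_mul_of_nonneg_left h5 (by positivity)
    have e3 : (r.den : ℝ) * (Y * δ) ≤ T * (Y * δ) :=
      mul_le_mul_of_nonneg_right hqT (by positivity)
    have e4 : 2 * (Y : ℝ) * (1 / T) = 2 * Y / T := by ring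
    have e5 : (T : ℝ) * (Y * δ) = T * Y * δ := by ring
    linarith
  linarith

alias ldu := ldu_pr

end Pool.Agent.HC
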