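import Pool.Agent.Lib_helper92.HCF.Base
import Pool.Agent.Lib_helper23.BG.Defs

set_option autoImplicit false

/-! Block CSU: sum over the reduced residues -/

namespace Pool.Agent.HC

open Finset Complex Pool.Agent.Var35 Pool.Agent.Var73
open scoped ArithmeticFunction ArithmeticFunction.Moebius

/-- the sum of distinct integers at least two is at most their product (nonempty set) -/
lemma CSU_sum_le_prod (T : Finset ℕ) (hT : ∀ t ∈ T, 2 ≤ t) :
    (T = ∅ ∧ ∑ t ∈ T, t = 0) ∨ (2 ≤ ∏ t ∈ T, t ∧ ∑ t ∈ T, t ≤ ∏ t ∈ T, t) := by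
  induction T using Finset.induction_on with
  | empty => left; simp
  | insert a T ha ih =>
    right
    have ha2 : 2 ≤ a := hT a (mem_insert_self a T)
    rw [prod_insert ha, sum_insert ha]
    rcases ih (fun t ht => hT t (mem_insert_of_mem ht)) with ⟨h1, h2⟩ | ⟨h1, h2⟩
    · subst h1
      simp [ha2]
    · constructor
      · nlinarith
      · nlinarith

lemma CSU_sum_primes (q : ℕ) (hq : Squarefree q) : ∑ p ∈ q.primeFactors, p ≤ q := by
  have h0 : ∏ p ∈ q.primeFactors, p = q := Nat.prod_primeFactors_of_squarefree hq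
  rcases CSU_sum_le_prod q.primeFactors
    (fun t ht => (Nat.prime_of_mem_primeFactors ht).two_le) with ⟨_, h2⟩ | ⟨_, h2⟩
  · rw [h2]; exact Nat.zero_le _
  · rw [h0] at h2; exact h2

/-- the Ramanujan sum at a power of a prime divisor -/
lemma CSU_ram_pow (q : ℕ) (hq : Squarefree q) (p k : ℕ) (hp : p ∈ q.primeFactors) :
    ‖ram q ((p ^ k : ℕ) : ℤ) - ((μ q : ℤ) : ℂ)‖ ≤ p := by
  have hq0 : q ≠ 0 := hq.ne_zero
  have hq1 : 1 ≤ q := Nat.one_le_iff_ne_zero.2 hq0
  have hpp := Nat.prime_of_mem_primeFactors hp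
  have hpq := Nat.dvd_of_mem_primeFactors hp
  rw [ram_eq q hq1, ← Finset.sum_erase_add _ _ (Nat.mem_divisors_self q hq0), Nat.div_self hq1]
  simp only [Nat.cast_one, isUnit_one, IsUnit.dvd, if_true, mul_one, add_sub_cancel_right]
  refine (norm_sum_le _ _).trans ?_
  have h1 : ∀ d ∈ q.divisors.erase q, ‖((μ d : ℤ) : ℂ) *
      (if ((q / d : ℕ) : ℤ) ∣ ((p ^ k : ℕ) : ℤ) then ((q / d : ℕ) : ℂ) else 0)‖ ≤
      if d = q / p then (p : ℝ) else 0 := by
    intro d hd
    rw [mem_erase, Nat.mem_divisors] at hd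
    obtain ⟨hd1, hd2, _⟩ := hd
    by_cases h2 : ((q / d : ℕ) : ℤ) ∣ ((p ^ k : ℕ) : ℤ)
    · rw [if_pos h2]
      have h3 : q / d ∣ p ^ k := by exact_mod_cast h2
      obtain ⟨j, hj, hj'⟩ := (Nat.dvd_prime_pow hpp).1 h3
      have h4 : Squarefree (q / d) := hq.squarefree_of_dvd (Nat.div_dvd_of_dvd hd2)
      have h5 : q / d * d = q := Nat.div_mul_cancel hd2
      have h6 : j = 1 := by
        have hj0 : j ≠ 0 := by
          rintro rfl
          rw [pow_zero] at hj'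
          rw [hj', one_mul] at h5
          exact hd1 h5
        by_contra h7
        have h8 : p * p ∣ q / d := by
          rw [hj', ← pow_two]
          exact pow_dvd_pow p (by omega)
        exact hpp.one_lt.ne' (Nat.isUnit_iff.1 (h4 p h8))
      rw [h6, pow_one] at hj'
      have h7 : d = q / p := by
        rw [hj'] at h5
        rw [← h5, Nat.mul_div_cancel_left d hpp.pos]
      rw [if_pos h7, hj', norm_mul, Complex.norm_natCast]
      have h8 : ‖((μ d : ℤ) : ℂ)‖ ≤ 1 := by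
        rw [Complex.norm_intCast]
        exact_mod_cast ArithmeticFunction.abs_moebius_le_one (n := d)
      nlinarith [Nat.cast_nonneg (α := ℝ) p]
    · rw [if_neg h2, mul_zero, norm_zero]
      split_ifs <;> positivity
  refine (sum_le_sum h1).trans ?_
  rw [Finset.sum_ite_eq']
  split_ifs
  · exact le_rfl
  · positivity

/-- the sum over the reduced residues -/
lemma CSU_sum (N q : ℕ) (β : ℝ) :
    ∑ c ∈ Cd q, S Lam N ((c : ℝ) / q + β) =
      ∑ n ∈ Icc 1 N, (Lam n : ℂ) * ram q (n : ℤ) * e (n * β) := by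
  unfold S
  rw [sum_comm]
  refine sum_congr rfl fun n _ => ?_
  unfold ram Cd
  rw [mul_assoc, sum_mul, mul_sum]
  refine sum_congr rfl fun c _ => ?_
  rw [← e_add]
  congr 2
  push_cast
  ring

lemma CSU_err (N q : ℕ) (hq : Squarefree q) (β : ℝ) :
    ‖∑ c ∈ Cd q, S Lam N ((c : ℝ) / q + β) - ((μ q : ℤ) : ℂ) * S Lam N β‖ ≤
      q * Real.log N := by
  classical
  have hq0 : q ≠ 0 := hq.ne_zero
  have hq1 : 1 ≤ q := Nat.one_le_iff_ne_zero.2 hq0
  have hlN : 0 ≤ Real.log N := Real.log_natCast_nonneg N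
  rw [CSU_sum]
  unfold S
  rw [mul_sum, ← sum_sub_distrib]
  refine (norm_sum_le _ _).trans ?_
  have h1 : ∀ n ∈ Icc 1 N, ‖(Lam n : ℂ) * ram q (n : ℤ) * e (n * β) -
      ((μ q : ℤ) : ℂ) * ((Lam n : ℂ) * e (n * β))‖ ≤
      ∑ p ∈ q.primeFactors, (p : ℝ) * (if ∃ k, 1 ≤ k ∧ n = p ^ k then Λ n else 0) := by
    intro n _
    have hnn : ∀ r ∈ q.primeFactors,
        (0:ℝ) ≤ (r : ℝ) * (if ∃ k, 1 ≤ k ∧ n = r ^ k then Λ n else 0) := by
      intro r _
      apply mul_nonneg (Nat.cast_nonneg _)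
      split_ifs
      · exact ArithmeticFunction.vonMangoldt_nonneg
      · exact le_rfl
    have h2 : (Lam n : ℂ) * ram q (n : ℤ) * e (n * β) -
        ((μ q : ℤ) : ℂ) * ((Lam n : ℂ) * e (n * β)) =
        (Lam n : ℂ) * (ram q (n : ℤ) - ((μ q : ℤ) : ℂ)) * e (n * β) := by ring
    rw [h2, norm_mul, norm_mul, norm_e, mul_one, Complex.norm_real, Real.norm_of_nonneg
      ArithmeticFunction.vonMangoldt_nonneg]
    by_cases hc : Nat.Coprime n q
    · rw [ram_coprime q hq1 _ (by exact_mod_cast (Nat.isCoprime_iff_coprime.2 hc)), sub_self,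
        norm_zero, mul_zero]
      exact sum_nonneg hnn
    · by_cases hpp : IsPrimePow n
      · rw [isPrimePow_nat_iff] at hpp
        obtain ⟨r, k, hr, hk, rfl⟩ := hpp
        have hrm : r ∣ q := by
          by_contra h
          exact hc (Nat.Coprime.pow_left k ((Nat.Prime.coprime_iff_not_dvd hr).mpr h))
        have hmem : r ∈ q.primeFactors := Nat.mem_primeFactors.mpr ⟨hr, hrm, hq0⟩
        refine le_trans ?_ (single_le_sum hnn hmem)
        rw [if_pos ⟨k, hk, rfl⟩, mul_comm]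
        exact mul_le_mul_of_nonneg_right (CSU_ram_pow q hq r k hmem)
          ArithmeticFunction.vonMangoldt_nonneg
      · have h3 : Λ n = 0 := ArithmeticFunction.vonMangoldt_eq_zero_iff.mpr hpp
        rw [h3, zero_mul]
        rw [h3] at hnn
        exact sum_nonneg hnn
  refine (sum_le_sum h1).trans ?_
  rw [sum_comm]
  calc ∑ p ∈ q.primeFactors, ∑ n ∈ Icc 1 N, (p : ℝ) *
        (if ∃ k, 1 ≤ k ∧ n = p ^ k then Λ n else 0)
      ≤ ∑ p ∈ q.primeFactors, (p : ℝ) * Real.log N := by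
        refine sum_le_sum fun p hp => ?_
        rw [← mul_sum, ← sum_filter]
        exact mul_le_mul_of_nonneg_left
          (sum_prime_powers N p (Nat.prime_of_mem_primeFactors hp)) (Nat.cast_nonneg _)
    _ = ((∑ p ∈ q.primeFactors, p : ℕ) : ℝ) * Real.log N := by
        rw [← sum_mul]; push_cast; rfl
    _ ≤ q * Real.log N := by
        refine mul_le_mul_of_nonneg_right ?_ hlN
        exact_mod_cast CSU_sum_primes q hq

/-- CSU -/
theorem csum_pr (N q : ℕ) (hN : 1 ≤ N) (hq : Squarefree q) (β : ℝ) :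
    (Sq Lam N β - 2 * psi N * (q * Real.log N)) / (Nat.totient q : ℝ) ≤
      ∑ c ∈ Cd q, Sq Lam N ((c : ℝ) / q + β) := by
  have hq0 : q ≠ 0 := hq.ne_zero
  have hphi : (0 : ℝ) < (Nat.totient q : ℝ) := by
    exact_mod_cast Nat.totient_pos.2 (Nat.pos_of_ne_zero hq0)
  have hlN : 0 ≤ Real.log N := Real.log_natCast_nonneg N
  rw [div_le_iff₀ hphi]
  set P : ℂ := ∑ c ∈ Cd q, S Lam N ((c : ℝ) / q + β) with hP
  have h1 : ‖P‖ ^ 2 ≤ (∑ c ∈ Cd q, Sq Lam N ((c : ℝ) / q + β)) * (Nat.totient q : ℝ) := by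
    have h2 : ‖P‖ ≤ ∑ c ∈ Cd q, ‖S Lam N ((c : ℝ) / q + β)‖ := norm_sum_le _ _
    have h3 : (∑ c ∈ Cd q, ‖S Lam N ((c : ℝ) / q + β)‖) ^ 2 ≤
        (Cd q).card * ∑ c ∈ Cd q, ‖S Lam N ((c : ℝ) / q + β)‖ ^ 2 :=
      sq_sum_le_card_mul_sum_sq
    rw [card_Cd] at h3
    calc ‖P‖ ^ 2 ≤ (∑ c ∈ Cd q, ‖S Lam N ((c : ℝ) / q + β)‖) ^ 2 :=
          pow_le_pow_left₀ (norm_nonneg _) h2 2
      _ ≤ _ := h3
      _ = _ := by unfold Sq; ring
  refine le_trans ?_ h1
  have h4 := CSU_err N q hq β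
  rw [← hP] at h4
  have h5 : ‖((μ q : ℤ) : ℂ) * S Lam N β‖ = ‖S Lam N β‖ := by
    rw [norm_mul, Complex.norm_intCast]
    have : |((μ q : ℤ) : ℝ)| = 1 := by
      have h6 := ArithmeticFunction.abs_moebius_eq_one_of_squarefree hq
      exact_mod_cast h6
    rw [this, one_mul]
  have h6 : ‖S Lam N β‖ - q * Real.log N ≤ ‖P‖ := by
    have h7 := norm_sub_norm_le (((μ q : ℤ) : ℂ) * S Lam N β) P
    rw [h5, norm_sub_rev] at h7
    linarith
  have h8 : ‖S Lam N β‖ ≤ psi N := by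
    unfold S psi
    rw [Nat.floor_natCast]
    refine (norm_sum_le _ _).trans (sum_le_sum fun n _ => ?_)
    rw [norm_mul, norm_e, mul_one, Complex.norm_real, Real.norm_of_nonneg
      ArithmeticFunction.vonMangoldt_nonneg]
  have h9 : 0 ≤ ‖S Lam N β‖ := norm_nonneg _
  have h10 : 0 ≤ (q : ℝ) * Real.log N := mul_nonneg (Nat.cast_nonneg _) hlN
  unfold Sq
  rcases le_or_gt ((q : ℝ) * Real.log N) ‖S Lam N β‖ with h11 | h11
  · have h12 : (‖S Lam N β‖ - q * Real.log N) ^ 2 ≤ ‖P‖ ^ 2 :=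
      pow_le_pow_left₀ (by linarith) h6 2
    nlinarith
  · have h13 : 0 ≤ ‖P‖ ^ 2 := by positivity
    nlinarith

alias csum := csum_pr

end Pool.Agent.HC
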