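import Pool.Agent.Lib_helper92.HCF.Base
import Pool.Agent.Lib_helper23.BG.Defs
import Pool.Agent.Lib_helper92.HCF.FQI

/-! HC, block IKK: the smoothed integral over a major arc. -/

set_option autoImplicit false

namespace Pool.Agent.HC

open Finset Complex Pool.Agent.Var35 Pool.Agent.Var73
open MeasureTheory

lemma ikk_e_cont : Continuous e := by
  unfold e
  fun_prop

lemma ikk_e_sub (a b : ℝ) : ‖e a - e b‖ ≤ 2 * Real.pi * |a - b| := by
  have h1 : e a - e b = e b * (e (a - b) - 1) := by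
    have : e a = e b * e (a - b) := by
      rw [← e_add]
      congr 1
      ring
    rw [this]
    ring
  rw [h1, norm_mul, norm_e, one_mul]
  exact norm_e_sub_one_le _

lemma ikk_ic_norm (X s : ℝ) (hX : 0 ≤ X) : ‖Ic X s‖ ≤ X := by
  unfold Ic
  have h := intervalIntegral.norm_integral_le_of_norm_le_const (a := 0) (b := X) (C := 1)
    (f := fun t : ℝ => e (t * s)) (fun t _ => (norm_e _).le)
  rw [sub_zero, abs_of_nonneg hX, one_mul] at h
  exact h

lemma ikk_ic_sub (X s s' : ℝ) (hX : 0 ≤ X) :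
    ‖Ic X s - Ic X s'‖ ≤ 2 * Real.pi * X ^ 2 * |s - s'| := by
  unfold Ic
  have hc : ∀ s : ℝ, Continuous (fun t : ℝ => e (t * s)) := fun s =>
    ikk_e_cont.comp (by fun_prop)
  rw [← intervalIntegral.integral_sub ((hc s).intervalIntegrable _ _)
    ((hc s').intervalIntegrable _ _)]
  have h := intervalIntegral.norm_integral_le_of_norm_le_const (a := 0) (b := X)
    (C := 2 * Real.pi * X * |s - s'|)
    (f := fun t : ℝ => e (t * s) - e (t * s')) (fun t ht => by
      rw [Set.uIoc_of_le hX] at ht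
      refine (ikk_e_sub _ _).trans ?_
      rw [← mul_sub, abs_mul, abs_of_pos ht.1]
      have h1 : t * |s - s'| ≤ X * |s - s'| := mul_le_mul_of_nonneg_right ht.2 (abs_nonneg _)
      have h2 : 0 ≤ 2 * Real.pi := by positivity
      calc 2 * Real.pi * (t * |s - s'|) ≤ 2 * Real.pi * (X * |s - s'|) :=
            mul_le_mul_of_nonneg_left h1 h2
        _ = 2 * Real.pi * X * |s - s'| := by ring)
  rw [sub_zero, abs_of_nonneg hX] at h
  refine h.trans (le_of_eq ?_)
  ring

lemma ikk_ic_cont (X : ℝ) (hX : 0 ≤ X) : Continuous (fun s => Ic X s) := by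
  have : LipschitzWith (Real.toNNReal (2 * Real.pi * X ^ 2)) (fun s => Ic X s) := by
    refine LipschitzWith.of_dist_le_mul (fun s s' => ?_)
    rw [dist_eq_norm, Real.dist_eq, Real.coe_toNNReal _ (by positivity)]
    exact ikk_ic_sub X s s' hX
  exact this.continuous

lemma ikk_sq_sub (X s s' : ℝ) (hX : 0 ≤ X) :
    ‖Ic X s‖ ^ 2 - 4 * Real.pi * X ^ 3 * |s - s'| ≤ ‖Ic X s'‖ ^ 2 := by
  have h1 := ikk_ic_norm X s hX
  have h2 := ikk_ic_norm X s' hX
  have h3 := ikk_ic_sub X s s' hX
  have h4 : ‖Ic X s‖ - ‖Ic X s'‖ ≤ 2 * Real.pi * X ^ 2 * |s - s'| :=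
    (norm_sub_norm_le _ _).trans h3
  have h5 : 0 ≤ 2 * Real.pi * X ^ 2 * |s - s'| := by positivity
  have h6 : (‖Ic X s‖ - ‖Ic X s'‖) * (‖Ic X s‖ + ‖Ic X s'‖) ≤
      2 * Real.pi * X ^ 2 * |s - s'| * (X + X) := by
    refine (mul_le_mul_of_nonneg_right h4 (by positivity)).trans ?_
    exact mul_le_mul_of_nonneg_left (by linarith) h5
  nlinarith [h6]

lemma ikk_rho_meas (Y : ℝ) (q : ℕ) : Measurable (rho Y q) := by
  unfold rho
  fun_prop

lemma ikk_rho_bd (Y : ℝ) (hY : 0 ≤ Y) (q : ℕ) (hq : 1 ≤ q) (β : ℝ) :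
    0 ≤ rho Y q β ∧ rho Y q β ≤ Y := by
  unfold rho
  refine ⟨by positivity, ?_⟩
  by_cases hβ : β = 0
  · subst hβ
    simpa using hY
  · have hpos : 0 < (q : ℝ) * |β| := by
      have : 0 < (q : ℝ) := by exact_mod_cast hq
      positivity
    rw [div_le_iff₀ hpos]
    have h0 : 0 ≤ (q : ℝ) * Y * |β| := by positivity
    refine (Nat.floor_le h0).trans (le_of_eq ?_)
    ring

/-- IKK -/
theorem ik_pr (X Y δ Δ : ℝ) (q : ℕ) (hq : 1 ≤ q) (hX : 1 ≤ X) (hY : 0 < Y) (hδ : 0 < δ)
    (hδΔ : δ ≤ Δ) :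
    δ * (∫ s in (-(Δ - δ))..(Δ - δ), ‖Ic X s‖ ^ 2 * (Y - rho Y q s))
      - δ ^ 2 * (4 * Real.pi * X ^ 3 * Y * (2 * Δ)) ≤
    ∫ β in (-Δ)..Δ, ‖Ic X β‖ ^ 2 * Kq Y q δ β := by
  have hX0 : 0 ≤ X := by linarith
  have hΔ : 0 < Δ := by linarith
  set g : ℝ → ℝ := fun s => ‖Ic X s‖ ^ 2 with hg
  set R : ℝ → ℝ := fun s => Y - rho Y q s with hR
  have hgc : Continuous g := ((ikk_ic_cont X hX0).norm).pow 2
  have hg0 : ∀ s, 0 ≤ g s := fun s => by positivity
  have hgX : ∀ s, g s ≤ X ^ 2 := fun s =>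
    pow_le_pow_left₀ (norm_nonneg _) (ikk_ic_norm X s hX0) 2
  have hRm : Measurable R := measurable_const.sub (ikk_rho_meas Y q)
  have hR0 : ∀ s, 0 ≤ R s := fun s => by
    have := (ikk_rho_bd Y hY.le q hq s).2
    simp only [hR]
    linarith
  have hRY : ∀ s, R s ≤ Y := fun s => by
    have := (ikk_rho_bd Y hY.le q hq s).1
    simp only [hR]
    linarith
  have hRi : ∀ a b : ℝ, IntervalIntegrable R volume a b := fun a b => by
    refine IntervalIntegrable.mono_fun (f := fun _ => Y) intervalIntegrable_const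
      hRm.aestronglyMeasurable ?_
    refine Filter.Eventually.of_forall (fun s => ?_)
    show ‖R s‖ ≤ ‖Y‖
    rw [Real.norm_of_nonneg (hR0 s), Real.norm_of_nonneg hY.le]
    exact hRY s
  have hgRi : ∀ (a b v : ℝ), IntervalIntegrable (fun s => g (s - v) * R s) volume a b :=
    fun a b v => by
    refine IntervalIntegrable.mono_fun (f := fun _ => X ^ 2 * Y) intervalIntegrable_const
      ((hgc.measurable.comp (measurable_id.sub_const v)).mul hRm).aestronglyMeasurable ?_
    refine Filter.Eventually.of_forall (fun s => ?_)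
    show ‖g (s - v) * R s‖ ≤ ‖X ^ 2 * Y‖
    rw [Real.norm_of_nonneg (mul_nonneg (hg0 _) (hR0 s)), Real.norm_of_nonneg (by positivity)]
    exact mul_le_mul (hgX _) (hRY s) (hR0 s) (by positivity)
  -- the kernel as an integral
  have hK : ∀ β, Kq Y q δ β = ∫ v in (-(δ / 2))..(δ / 2), R (β + v) := fun β => by
    have h1 := (fq_int Y hY.le q hq (β - δ / 2) (β + δ / 2) (by linarith))
    unfold Kq
    rw [h1.2, intervalIntegral.integral_comp_add_left (fun s => R s) β]
    simp only [hR]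
    rw [intervalIntegral.integral_sub intervalIntegrable_const]
    · rw [intervalIntegral.integral_const, smul_eq_mul]
      have e1 : β + -(δ / 2) = β - δ / 2 := by ring
      rw [e1]
      ring
    · have e1 : β + -(δ / 2) = β - δ / 2 := by ring
      rw [e1]
      exact h1.1
  -- swap
  have hswap : ∫ β in (-Δ)..Δ, g β * Kq Y q δ β =
      ∫ v in (-(δ / 2))..(δ / 2), ∫ β in (-Δ)..Δ, g β * R (β + v) := by
    have h1 : ∀ β, g β * Kq Y q δ β = ∫ v in (-(δ / 2))..(δ / 2), g β * R (β + v) := fun β => by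
      rw [hK, intervalIntegral.integral_const_mul]
    simp_rw [h1]
    rw [intervalIntegral.integral_of_le (by linarith : -Δ ≤ Δ),
      intervalIntegral.integral_of_le (by linarith : -(δ / 2) ≤ δ / 2)]
    simp_rw [intervalIntegral.integral_of_le (by linarith : -Δ ≤ Δ),
      intervalIntegral.integral_of_le (by linarith : -(δ / 2) ≤ δ / 2)]
    refine MeasureTheory.integral_integral_swap ?_
    have hfin : IsFiniteMeasure ((volume.restrict (Set.Ioc (-Δ) Δ)).prod
        (volume.restrict (Set.Ioc (-(δ / 2)) (δ / 2)))) := by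
      infer_instance
    refine Integrable.mono' (g := fun _ => X ^ 2 * Y) (integrable_const _) ?_ ?_
    · refine Measurable.aestronglyMeasurable ?_
      exact (hgc.measurable.comp measurable_fst).mul
        (hRm.comp (measurable_fst.add measurable_snd))
    · refine Filter.Eventually.of_forall (fun z => ?_)
      simp only [Function.uncurry]
      rw [Real.norm_of_nonneg (mul_nonneg (hg0 _) (hR0 _))]
      exact mul_le_mul (hgX _) (hRY _) (hR0 _) (by positivity)
  -- lower bound for the inner integral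
  set I0 : ℝ := ∫ s in (-(Δ - δ))..(Δ - δ), g s * R s with hI0
  have hin : ∀ v ∈ Set.Icc (-(δ / 2)) (δ / 2),
      I0 - δ * (2 * Real.pi * X ^ 3 * Y * (2 * Δ)) ≤ ∫ β in (-Δ)..Δ, g β * R (β + v) := by
    intro v hv
    have h1 : ∫ β in (-Δ)..Δ, g β * R (β + v) = ∫ s in (-Δ + v)..(Δ + v), g (s - v) * R s := by
      rw [← intervalIntegral.integral_comp_add_right (fun s => g (s - v) * R s) v]
      simp only [add_sub_cancel_right]
    rw [h1]
    have hv1 := hv.1
    have hv2 := hv.2
    have h2 : ∫ s in (-(Δ - δ))..(Δ - δ), g (s - v) * R s ≤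
        ∫ s in (-Δ + v)..(Δ + v), g (s - v) * R s := by
      refine intervalIntegral.integral_mono_interval (by linarith) (by linarith) (by linarith) ?_
        (hgRi _ _ v)
      exact Filter.Eventually.of_forall (fun s => mul_nonneg (hg0 _) (hR0 _))
    refine le_trans ?_ h2
    have h3 : ∫ s in (-(Δ - δ))..(Δ - δ), (g s * R s - δ * (2 * Real.pi * X ^ 3 * Y)) ≤
        ∫ s in (-(Δ - δ))..(Δ - δ), g (s - v) * R s := by
      refine intervalIntegral.integral_mono_on (by linarith) ?_ (hgRi _ _ v) ?_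
      · have := hgRi (-(Δ - δ)) (Δ - δ) 0
        simp only [sub_zero] at this
        exact this.sub intervalIntegrable_const
      · intro s _
        have h4 := ikk_sq_sub X s (s - v) hX0
        have h5 : |s - (s - v)| ≤ δ / 2 := by
          rw [sub_sub_cancel]
          exact abs_le.mpr ⟨by linarith, by linarith⟩
        have h6 : g s - 4 * Real.pi * X ^ 3 * (δ / 2) ≤ g (s - v) := by
          refine le_trans ?_ h4
          have : 4 * Real.pi * X ^ 3 * |s - (s - v)| ≤ 4 * Real.pi * X ^ 3 * (δ / 2) :=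
            mul_le_mul_of_nonneg_left h5 (by positivity)
          simp only [hg]
          linarith
        have h7 : (g s - 4 * Real.pi * X ^ 3 * (δ / 2)) * R s ≤ g (s - v) * R s :=
          mul_le_mul_of_nonneg_right h6 (hR0 s)
        have h8 : 4 * Real.pi * X ^ 3 * (δ / 2) * R s ≤ 4 * Real.pi * X ^ 3 * (δ / 2) * Y :=
          mul_le_mul_of_nonneg_left (hRY s) (by positivity)
        nlinarith [h7, h8]
    refine le_trans ?_ h3
    have hi0 : IntervalIntegrable (fun s => g s * R s) volume (-(Δ - δ)) (Δ - δ) := by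
      have := hgRi (-(Δ - δ)) (Δ - δ) 0
      simpa only [sub_zero] using this
    rw [intervalIntegral.integral_sub hi0 intervalIntegrable_const,
      intervalIntegral.integral_const, smul_eq_mul, ← hI0]
    have h9 : (Δ - δ - -(Δ - δ)) * (δ * (2 * Real.pi * X ^ 3 * Y)) ≤
        δ * (2 * Real.pi * X ^ 3 * Y * (2 * Δ)) := by
      have h10 : (Δ - δ - -(Δ - δ)) ≤ 2 * Δ := by linarith
      have h11 : 0 ≤ δ * (2 * Real.pi * X ^ 3 * Y) := by positivity
      calc (Δ - δ - -(Δ - δ)) * (δ * (2 * Real.pi * X ^ 3 * Y)) ≤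
            (2 * Δ) * (δ * (2 * Real.pi * X ^ 3 * Y)) := mul_le_mul_of_nonneg_right h10 h11
        _ = _ := by ring
    linarith
  -- conclusion
  have hfin : ∫ β in (-Δ)..Δ, ‖Ic X β‖ ^ 2 * Kq Y q δ β =
      ∫ v in (-(δ / 2))..(δ / 2), ∫ β in (-Δ)..Δ, g β * R (β + v) := hswap
  rw [hfin]
  have hI : IntervalIntegrable (fun v => ∫ β in (-Δ)..Δ, g β * R (β + v)) volume
      (-(δ / 2)) (δ / 2) := by
    rw [intervalIntegrable_iff_integrableOn_Ioc_of_le (by linarith : -(δ / 2) ≤ δ / 2)]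
    simp_rw [intervalIntegral.integral_of_le (by linarith : -Δ ≤ Δ)]
    have hprod : Integrable (fun z : ℝ × ℝ => g z.2 * R (z.2 + z.1))
        ((volume.restrict (Set.Ioc (-(δ / 2)) (δ / 2))).prod
          (volume.restrict (Set.Ioc (-Δ) Δ))) := by
      refine Integrable.mono' (g := fun _ => X ^ 2 * Y) (integrable_const _) ?_ ?_
      · refine Measurable.aestronglyMeasurable ?_
        exact (hgc.measurable.comp measurable_snd).mul
          (hRm.comp (measurable_snd.add measurable_fst))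
      · refine Filter.Eventually.of_forall (fun z => ?_)
        rw [Real.norm_of_nonneg (mul_nonneg (hg0 _) (hR0 _))]
        exact mul_le_mul (hgX _) (hRY _) (hR0 _) (by positivity)
    exact hprod.integral_prod_left
  have hlow : ∫ v in (-(δ / 2))..(δ / 2), (I0 - δ * (2 * Real.pi * X ^ 3 * Y * (2 * Δ))) ≤
      ∫ v in (-(δ / 2))..(δ / 2), ∫ β in (-Δ)..Δ, g β * R (β + v) :=
    intervalIntegral.integral_mono_on (by linarith) intervalIntegrable_const hI hin
  refine le_trans ?_ hlow
  rw [intervalIntegral.integral_const, smul_eq_mul]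
  have h12 : 0 ≤ δ ^ 2 * (2 * Real.pi * X ^ 3 * Y * (2 * Δ)) := by positivity
  have h13 : (δ / 2 - -(δ / 2)) = δ := by ring
  rw [h13]
  nlinarith [h12]

alias ik := ik_pr

end Pool.Agent.HC
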