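import Pool.Agent.Lib_helper92.HCF.Base
import Pool.Agent.Lib_helper23.BG.Defs

/-! HC : block SCA -/

set_option autoImplicit false

namespace Pool.Agent.HC

open Finset Complex Filter Topology MeasureTheory Pool.Agent.Var35 Pool.Agent.Var73
open scoped ArithmeticFunction ArithmeticFunction.Moebius

theorem SCA_Ic (X s : ℝ) (hX : 0 < X) (hs : s ≠ 0) : ‖Ic X s‖ ^ 2 = X ^ 2 * sc (X * s) := by
  have hc : ((2 * Real.pi * s : ℝ) * I : ℂ) ≠ 0 := by
    have h1 : (2 * Real.pi * s : ℝ) ≠ 0 := by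
      have := Real.pi_ne_zero
      positivity
    have : ((2 * Real.pi * s : ℝ) : ℂ) ≠ 0 := by exact_mod_cast h1
    exact mul_ne_zero this I_ne_zero
  have h1 : Ic X s = (cexp (I * ((2 * Real.pi * s * X : ℝ) : ℂ)) - 1) / ((2 * Real.pi * s : ℝ) * I : ℂ) := by
    unfold Ic e
    have h3 := integral_exp_mul_complex (a := 0) (b := X) hc
    have h4 : ∀ t : ℝ, cexp (((2 * Real.pi * (t * s) : ℝ) : ℂ) * I) = cexp (((2 * Real.pi * s : ℝ) * I : ℂ) * t) := by
      intro t
      congr 1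
      push_cast
      ring
    simp_rw [h4]
    rw [h3]
    congr 2
    · congr 1
      push_cast
      ring
    · simp
  have h5 : ‖((2 * Real.pi * s : ℝ) * I : ℂ)‖ = |2 * Real.pi * s| := by
    rw [norm_mul, Complex.norm_I, mul_one, Complex.norm_real, Real.norm_eq_abs]
  rw [h1, norm_div, Complex.norm_exp_I_mul_ofReal_sub_one, h5, div_pow, sq_abs,
    Real.norm_eq_abs, sq_abs]
  unfold sc
  have h2 : 2 * Real.pi * s * X / 2 = Real.pi * (X * s) := by ring
  rw [h2]
  have hp := Real.pi_ne_zero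
  field_simp

theorem SCA_kk (X Y s : ℝ) (q : ℕ) (hq : 1 ≤ q) (hX : 0 < X) (hY : 0 < Y) (hs : 0 < s) :
    Y - rho Y q s = Y * kk (q * Y / X * (X * s)) := by
  unfold rho kk
  have hq0 : (0 : ℝ) < q := by exact_mod_cast hq
  have h1 : (q : ℝ) * Y / X * (X * s) = q * Y * |s| := by
    rw [abs_of_pos hs]
    field_simp
  rw [h1, abs_of_pos hs]
  field_simp

theorem SCA_meas (c : ℝ) : Measurable (fun u : ℝ => sc u * kk (c * u)) := by
  unfold sc kk
  have h1 : Measurable (fun u : ℝ => ((⌊c * u⌋₊ : ℕ) : ℝ)) :=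
    (measurable_from_nat (f := fun n : ℕ => (n : ℝ))).comp
      (Nat.measurable_floor.comp (measurable_const.mul measurable_id))
  fun_prop

theorem SCA_bound (c : ℝ) (hc : 0 ≤ c) (u : ℝ) (hu : 0 ≤ u) : |sc u * kk (c * u)| ≤ 1 := by
  rw [abs_mul]
  have h1 : |sc u| ≤ 1 := by
    unfold sc
    rw [abs_pow]
    have : |Real.sin (Real.pi * u) / (Real.pi * u)| ≤ 1 := by
      rw [abs_div]
      refine div_le_one_of_le₀ ?_ (abs_nonneg _)
      exact Real.abs_sin_le_abs
    exact pow_le_one₀ (abs_nonneg _) this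
  have h2 : |kk (c * u)| ≤ 1 := by
    unfold kk
    have h3 : 0 ≤ c * u := mul_nonneg hc hu
    have h4 : ((⌊c * u⌋₊ : ℕ) : ℝ) ≤ c * u := Nat.floor_le h3
    have h5 : 0 ≤ ((⌊c * u⌋₊ : ℕ) : ℝ) / (c * u) := by positivity
    have h6 : ((⌊c * u⌋₊ : ℕ) : ℝ) / (c * u) ≤ 1 := div_le_one_of_le₀ h4 h3
    rw [abs_of_nonneg (by linarith)]
    linarith
  calc _ ≤ (1 : ℝ) * 1 := mul_le_mul h1 h2 (abs_nonneg _) zero_le_one
    _ = 1 := one_mul 1

theorem ic_scale_pr (X Y : ℝ) (q : ℕ) (hq : 1 ≤ q) (Δ : ℝ) (hX : 0 < X) (hY : 0 < Y) (hΔ : 0 ≤ Δ) :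
    ∫ s in (-Δ)..Δ, ‖Ic X s‖ ^ 2 * (Y - rho Y q s) =
      X * Y * (2 * ∫ u in (0 : ℝ)..(X * Δ), sc u * kk (q * Y / X * u)) := by
  set c : ℝ := q * Y / X with hc
  have hq0 : (0 : ℝ) < q := by exact_mod_cast hq
  have hc0 : 0 ≤ c := by positivity
  set G : ℝ → ℝ := fun u => sc u * kk (c * u) with hG
  set F : ℝ → ℝ := fun s => ‖Ic X s‖ ^ 2 * (Y - rho Y q s) with hF
  have hFG : ∀ s : ℝ, 0 < s → F s = X ^ 2 * Y * G (X * s) := by
    intro s hs
    simp only [hF, hG]
    rw [SCA_Ic X s hX hs.ne', SCA_kk X Y s q hq hX hY hs]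
    ring
  have hFneg : ∀ s : ℝ, s ≠ 0 → F (-s) = F s := by
    intro s hs
    simp only [hF]
    rw [SCA_Ic X s hX hs, SCA_Ic X (-s) hX (neg_ne_zero.mpr hs)]
    have h1 : rho Y q (-s) = rho Y q s := by
      unfold rho
      rw [abs_neg]
    have h2 : sc (X * -s) = sc (X * s) := by
      unfold sc
      rw [show Real.pi * (X * -s) = -(Real.pi * (X * s)) by ring, Real.sin_neg, neg_div_neg_eq]
    rw [h1, h2]
  have hGi : IntervalIntegrable (fun s => X ^ 2 * Y * G (X * s)) volume 0 Δ := by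
    rw [intervalIntegrable_iff_integrableOn_Ioc_of_le hΔ]
    refine Measure.integrableOn_of_bounded (M := X ^ 2 * Y) (by simp) ?_ ?_
    · refine Measurable.aestronglyMeasurable ?_
      exact ((SCA_meas c).comp (measurable_const.mul measurable_id)).const_mul _
    · filter_upwards [self_mem_ae_restrict measurableSet_Ioc] with s hs
      rw [norm_mul, Real.norm_eq_abs, Real.norm_eq_abs, abs_of_pos (by positivity)]
      have := SCA_bound c hc0 (X * s) (mul_nonneg hX.le hs.1.le)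
      calc _ ≤ X ^ 2 * Y * 1 := mul_le_mul_of_nonneg_left this (by positivity)
        _ = X ^ 2 * Y := mul_one _
  have hFi : IntervalIntegrable F volume 0 Δ := by
    refine hGi.congr ?_
    rw [Set.uIoc_of_le hΔ]
    intro s hs
    exact (hFG s hs.1).symm
  have hFi2 : IntervalIntegrable F volume (-Δ) 0 := by
    have h1 : IntervalIntegrable (fun s => F (-s)) volume (-Δ) (-0) := by
      have h2 := (IntervalIntegrable.iff_comp_neg (f := F) (a := 0) (b := Δ)).mp hFi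
      rw [neg_zero] at h2 ⊢
      exact h2.symm
    rw [neg_zero] at h1
    refine h1.congr_ae ?_
    rw [Set.uIoc_of_le (by linarith : -Δ ≤ 0)]
    have h3 : ∀ᵐ x : ℝ ∂(volume.restrict (Set.Ioc (-Δ) 0)), x ≠ 0 := by
      refine ae_restrict_of_ae ?_
      exact (measure_eq_zero_iff_ae_notMem.mp (by simp : (volume : Measure ℝ) {(0:ℝ)} = 0)).mono (fun x hx h => hx (by simp [h]))
    filter_upwards [h3] with x hx
    exact hFneg x hx
  have h1 : ∫ s in (-Δ)..Δ, F s = (∫ s in (-Δ)..0, F s) + ∫ s in (0:ℝ)..Δ, F s :=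
    (intervalIntegral.integral_add_adjacent_intervals hFi2 hFi).symm
  have h2 : ∫ s in (-Δ)..0, F s = ∫ s in (0:ℝ)..Δ, F s := by
    have h3 : ∫ s in (0:ℝ)..Δ, F (-s) = ∫ s in (-Δ)..(-0), F s := by
      rw [intervalIntegral.integral_comp_neg]
    rw [neg_zero] at h3
    rw [← h3]
    refine intervalIntegral.integral_congr_ae ?_
    refine Filter.Eventually.of_forall fun s hs => ?_
    rw [Set.uIoc_of_le hΔ] at hs
    exact hFneg s hs.1.ne'
  have h4 : ∫ s in (0:ℝ)..Δ, F s = X * Y * ∫ u in (0:ℝ)..(X * Δ), G u := by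
    have h5 : ∫ s in (0:ℝ)..Δ, F s = ∫ s in (0:ℝ)..Δ, X ^ 2 * Y * G (X * s) := by
      refine intervalIntegral.integral_congr_ae ?_
      refine Filter.Eventually.of_forall fun s hs => ?_
      rw [Set.uIoc_of_le hΔ] at hs
      exact hFG s hs.1
    rw [h5, intervalIntegral.integral_const_mul, intervalIntegral.integral_comp_mul_left _ hX.ne']
    rw [mul_zero, smul_eq_mul]
    field_simp
  show ∫ s in (-Δ)..Δ, F s = X * Y * (2 * ∫ u in (0 : ℝ)..(X * Δ), G u)
  rw [h1, h2, h4]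
  ring

alias ic_scale := ic_scale_pr

end Pool.Agent.HC
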