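import Pool.Agent.Lib_helper92.HCF.Base
import Pool.Agent.Lib_helper23.BG.Defs

set_option autoImplicit false

/-! Block SIN: the exponential sum near zero -/

namespace Pool.Agent.HC

open Finset Complex Pool.Agent.Var35 Pool.Agent.Var73 MeasureTheory
open scoped ArithmeticFunction ArithmeticFunction.Moebius

lemma SIN_deriv (β t : ℝ) :
    HasDerivAt (fun t : ℝ => e (t * β)) (((2 * Real.pi * β : ℝ) : ℂ) * Complex.I * e (t * β)) t := by
  unfold e
  have h1 : HasDerivAt (fun t : ℝ => (((2 * Real.pi * (t * β) : ℝ)) : ℂ) * Complex.I)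
      (((2 * Real.pi * β : ℝ) : ℂ) * Complex.I) t := by
    have h2 : HasDerivAt (fun t : ℝ => 2 * Real.pi * (t * β)) (2 * Real.pi * β) t := by
      have := ((hasDerivAt_id t).mul_const β).const_mul (2 * Real.pi)
      simpa using this
    exact (h2.ofReal_comp).mul_const Complex.I
  have h3 := h1.cexp
  have h4 : ((2 * Real.pi * β : ℝ) : ℂ) * Complex.I * Complex.exp ((2 * Real.pi * (t * β) : ℝ) *
      Complex.I) = Complex.exp ((2 * Real.pi * (t * β) : ℝ) * Complex.I) *
      (((2 * Real.pi * β : ℝ) : ℂ) * Complex.I) := mul_comm _ _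
  rw [h4]
  exact h3

lemma SIN_cont (β : ℝ) : Continuous (fun t : ℝ => e (t * β)) :=
  continuous_iff_continuousAt.2 fun t => (SIN_deriv β t).continuousAt

lemma SIN_sum (x : ℝ) : ∑ k ∈ Icc 0 ⌊x⌋₊, (Lam k : ℂ) = (psi x : ℂ) := by
  unfold psi
  rw [Finset.Icc_eq_cons_Ioc (Nat.zero_le _), sum_cons]
  simp only [Lam, ArithmeticFunction.map_zero, Complex.ofReal_zero, zero_add]
  push_cast
  rfl

/-- SIN -/
theorem si_pr (X β E : ℝ) (hX : 1 ≤ X) (hE : ∀ x, 0 ≤ x → x ≤ X → |psi x - x| ≤ E) :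
    ‖S Lam ⌊X⌋₊ β - Ic X β‖ ≤ (1 + 2 * Real.pi * |β| * X) * E := by
  have hX0 : 0 ≤ X := by linarith
  set f : ℝ → ℂ := fun t => e (t * β) with hf
  have hd : deriv f = fun t => ((2 * Real.pi * β : ℝ) : ℂ) * Complex.I * e (t * β) := by
    funext t
    exact (SIN_deriv β t).deriv
  have hdc : Continuous (deriv f) := by
    rw [hd]
    exact continuous_const.mul (SIN_cont β)
  have hE0 : 0 ≤ E := (abs_nonneg _).trans (hE 0 le_rfl hX0)
  -- the sum
  have h1 : S Lam ⌊X⌋₊ β = f X * (psi X : ℂ) - ∫ t in (0:ℝ)..X, deriv f t * (psi t : ℂ) := by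
    have h2 := sum_mul_eq_sub_integral_mul (f := f) (fun k => (Lam k : ℂ)) hX0
      (fun t _ => (SIN_deriv β t).differentiableAt) (hdc.integrableOn_Icc)
    simp only [SIN_sum] at h2
    rw [intervalIntegral.integral_of_le hX0, ← h2]
    unfold S
    rw [Finset.Icc_eq_cons_Ioc (Nat.zero_le _), sum_cons]
    simp only [Lam, ArithmeticFunction.map_zero, Complex.ofReal_zero, mul_zero, zero_add]
    refine sum_congr rfl fun n _ => ?_
    rw [mul_comm]
  -- the integral
  have h3 : Ic X β = f X * (X : ℂ) - ∫ t in (0:ℝ)..X, deriv f t * (t : ℂ) := by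
    have h4 := intervalIntegral.integral_mul_deriv_eq_deriv_mul (a := 0) (b := X)
      (u := f) (u' := deriv f) (v := fun t : ℝ => (t : ℂ)) (v' := fun _ => (1 : ℂ))
      (fun t _ => by rw [hd]; exact SIN_deriv β t)
      (fun t _ => by simpa using (hasDerivAt_id t).ofReal_comp)
      (hdc.intervalIntegrable _ _) (continuous_const.intervalIntegrable _ _)
    simp only [mul_one, Complex.ofReal_zero, mul_zero, sub_zero] at h4
    unfold Ic
    exact h4
  -- integrability
  have h5 : IntervalIntegrable (fun t => deriv f t * (psi t : ℂ)) volume 0 X := by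
    rw [intervalIntegrable_iff_integrableOn_Icc_of_le hX0]
    have h6 := integrableOn_mul_sum_Icc (fun k => (Lam k : ℂ)) (m := 0) (a := 0) (b := X) le_rfl
      (hdc.integrableOn_Icc)
    simp only [SIN_sum] at h6
    exact h6
  have h7 : IntervalIntegrable (fun t => deriv f t * (t : ℂ)) volume 0 X :=
    (hdc.mul Complex.continuous_ofReal).intervalIntegrable _ _
  have h8 : S Lam ⌊X⌋₊ β - Ic X β = f X * ((psi X - X : ℝ) : ℂ) -
      ∫ t in (0:ℝ)..X, deriv f t * ((psi t - t : ℝ) : ℂ) := by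
    have h9 : ∫ t in (0:ℝ)..X, deriv f t * ((psi t - t : ℝ) : ℂ) =
        (∫ t in (0:ℝ)..X, deriv f t * (psi t : ℂ)) - ∫ t in (0:ℝ)..X, deriv f t * (t : ℂ) := by
      rw [← intervalIntegral.integral_sub h5 h7]
      refine intervalIntegral.integral_congr fun t _ => ?_
      push_cast
      ring
    rw [h1, h3, h9]
    push_cast
    ring
  rw [h8]
  refine (norm_sub_le _ _).trans ?_
  have h10 : ‖f X * ((psi X - X : ℝ) : ℂ)‖ ≤ E := by
    rw [norm_mul, hf, norm_e, one_mul, Complex.norm_real]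
    exact hE X hX0 le_rfl
  have h11 : ‖∫ t in (0:ℝ)..X, deriv f t * ((psi t - t : ℝ) : ℂ)‖ ≤
      2 * Real.pi * |β| * E * |X - 0| := by
    apply intervalIntegral.norm_integral_le_of_norm_le_const
    intro t ht
    rw [Set.uIoc_of_le hX0] at ht
    rw [hd, norm_mul, norm_mul, norm_mul, norm_e, Complex.norm_I, mul_one, mul_one,
      Complex.norm_real, Complex.norm_real, Real.norm_eq_abs, Real.norm_eq_abs, abs_mul,
      abs_of_pos (by positivity : (0:ℝ) < 2 * Real.pi)]
    exact mul_le_mul_of_nonneg_left (hE t ht.1.le ht.2) (by positivity)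
  rw [sub_zero, abs_of_nonneg hX0] at h11
  calc _ ≤ E + 2 * Real.pi * |β| * E * X := add_le_add h10 h11
    _ = _ := by ring

alias si := si_pr

end Pool.Agent.HC
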