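import Pool.Agent.Lib_helper92.HCF.Base
import Pool.Agent.Lib_helper23.BG.Defs
import Pool.Agent.Lib_helper92.HCF.FQI
import Pool.Agent.Lib_helper92.HCF.CSU
import Pool.Agent.Lib_helper92.HCF.SIN
import Pool.Agent.Lib_helper92.HCF.IKK
import Pool.Agent.Lib_helper92.HCF.SCA

/-! HC, block MJR -/

set_option autoImplicit false

namespace Pool.Agent.HC

open Finset Complex Filter Topology MeasureTheory Pool.Agent.Var35 Pool.Agent.Var73
open scoped ArithmeticFunction ArithmeticFunction.Moebius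

lemma MJR_e_cont : Continuous e := by
  unfold e
  fun_prop

lemma MJR_Sq_cont (a : ℕ → ℝ) (N : ℕ) : Continuous (Sq a N) := by
  unfold Sq S
  refine Continuous.pow (Continuous.norm (continuous_finsetSum _ fun n _ => ?_)) 2
  exact continuous_const.mul (MJR_e_cont.comp (continuous_const.mul continuous_id))

lemma MJR_Ic_cont (X : ℝ) : Continuous (Ic X) := by
  unfold Ic
  refine intervalIntegral.continuous_parametric_intervalIntegral_of_continuous' ?_ 0 X
  exact MJR_e_cont.comp (continuous_snd.mul continuous_fst)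

lemma MJR_Ic_le (X β : ℝ) (hX : 0 ≤ X) : ‖Ic X β‖ ≤ X := by
  unfold Ic
  have h := intervalIntegral.norm_integral_le_of_norm_le_const (a := 0) (b := X) (C := 1)
    (f := fun t : ℝ => e (t * β)) (fun t _ => by rw [norm_e])
  rw [sub_zero, abs_of_nonneg hX, one_mul] at h
  exact h

lemma MJR_Fq_cont (Y : ℝ) (hY : 0 ≤ Y) (q : ℕ) (hq : 1 ≤ q) : Continuous (Fq Y q) := by
  refine (LipschitzWith.of_dist_le_mul (K := ⟨Y, hY⟩) ?_).continuous
  intro x y
  rw [Real.dist_eq, Real.dist_eq]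
  show |Fq Y q x - Fq Y q y| ≤ Y * |x - y|
  rcases le_total x y with h | h
  · have := fq_lip Y hY q hq x y h
    rw [abs_sub_comm (Fq Y q x), abs_sub_comm x, abs_of_nonneg this.1, abs_of_nonneg (by linarith)]
    exact this.2
  · have := fq_lip Y hY q hq y x h
    rw [abs_of_nonneg this.1, abs_of_nonneg (by linarith)]
    exact this.2

lemma MJR_Kq_cont (Y : ℝ) (hY : 0 ≤ Y) (q : ℕ) (hq : 1 ≤ q) (δ : ℝ) : Continuous (Kq Y q δ) := by
  have hF := MJR_Fq_cont Y hY q hq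
  unfold Kq
  exact continuous_const.sub ((hF.comp (continuous_id.add continuous_const)).sub
    (hF.comp (continuous_id.sub continuous_const)))

lemma MJR_Kq_bd (Y : ℝ) (hY : 0 ≤ Y) (q : ℕ) (hq : 1 ≤ q) (δ : ℝ) (hδ : 0 ≤ δ) (β : ℝ) :
    0 ≤ Kq Y q δ β ∧ Kq Y q δ β ≤ Y * δ := by
  have h := fq_lip Y hY q hq (β - δ / 2) (β + δ / 2) (by linarith)
  have h2 : Y * (β + δ / 2 - (β - δ / 2)) = Y * δ := by ring
  rw [h2] at h
  unfold Kq
  constructor <;> linarith [h.1, h.2]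

/-- MJR (uses csum, si, ik, ic_scale, fq_lip) -/
theorem major_pr (X Y δ Δ E : ℝ) (q : ℕ) (hq : Squarefree q) (hX : 2 ≤ X) (hY : 0 < Y) (hδ : 0 < δ)
    (hδΔ : δ ≤ Δ) (hE : ∀ x, 0 ≤ x → x ≤ X → |psi x - x| ≤ E) :
    (δ * (X * Y * (2 * ∫ u in (0 : ℝ)..(X * (Δ - δ)), sc u * kk (q * Y / X * u)))
      - δ ^ 2 * (8 * Real.pi * X ^ 3 * Y * Δ)
      - (2 * X * ((1 + 2 * Real.pi * Δ * X) * E) + 2 * psi X * (q * Real.log X)) * (Y * δ) * (2 * Δ))
      / (Nat.totient q : ℝ) ≤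
    ∫ β in (-Δ)..Δ, (∑ c ∈ Cd q, Sq Lam ⌊X⌋₊ ((c : ℝ) / q + β)) * Kq Y q δ β := by
  have hq1 : 1 ≤ q := Nat.one_le_iff_ne_zero.2 hq.ne_zero
  have hΔ : 0 < Δ := lt_of_lt_of_le hδ hδΔ
  have hphi : (0 : ℝ) < Nat.totient q := by exact_mod_cast Nat.totient_pos.2 hq1
  set N : ℕ := ⌊X⌋₊ with hN
  have hN1 : 1 ≤ N := by
    rw [hN]; exact Nat.le_floor (by push_cast; linarith)
  have hE0 : 0 ≤ E := le_trans (abs_nonneg _) (hE 0 le_rfl (by linarith))
  have hpi := Real.pi_pos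
  set C : ℝ := 2 * X * ((1 + 2 * Real.pi * Δ * X) * E) + 2 * psi X * (q * Real.log X) with hC
  have hpsi0 : 0 ≤ psi X := by
    unfold psi
    exact sum_nonneg fun n _ => ArithmeticFunction.vonMangoldt_nonneg
  have hlogX : 0 ≤ Real.log X := Real.log_nonneg (by linarith)
  have hC0 : 0 ≤ C := by
    rw [hC]; positivity
  -- pointwise bound
  have hpt : ∀ β : ℝ, |β| ≤ Δ → (‖Ic X β‖ ^ 2 * Kq Y q δ β - C * (Y * δ)) / (Nat.totient q : ℝ)
      ≤ (∑ c ∈ Cd q, Sq Lam N ((c : ℝ) / q + β)) * Kq Y q δ β := by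
    intro β hβ
    obtain ⟨hK0, hK1⟩ := MJR_Kq_bd Y hY.le q hq1 δ hδ.le β
    have h1 := csum N q hN1 hq β
    have h2 := si X β E (by linarith) hE
    have h3 := MJR_Ic_le X β (by linarith)
    have h4 : ‖S Lam N β - Ic X β‖ ≤ (1 + 2 * Real.pi * Δ * X) * E := by
      refine le_trans h2 (mul_le_mul_of_nonneg_right ?_ hE0)
      have : 2 * Real.pi * |β| * X ≤ 2 * Real.pi * Δ * X := by
        apply mul_le_mul_of_nonneg_right _ (by linarith)
        exact mul_le_mul_of_nonneg_left hβ (by positivity)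
      linarith
    set e0 : ℝ := (1 + 2 * Real.pi * Δ * X) * E with he0
    have h5 : ‖Ic X β‖ - e0 ≤ ‖S Lam N β‖ := by
      have := norm_sub_norm_le (Ic X β) (S Lam N β)
      rw [norm_sub_rev] at this
      linarith
    have he00 : 0 ≤ e0 := le_trans (norm_nonneg _) h4
    have h6 : ‖Ic X β‖ ^ 2 - 2 * X * e0 ≤ Sq Lam N β := by
      unfold Sq
      have hi0 := norm_nonneg (Ic X β)
      have hs0 := norm_nonneg (S Lam N β)
      by_cases hle : e0 ≤ ‖Ic X β‖
      · nlinarith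
      · push Not at hle
        nlinarith
    have h7 : psi (N : ℝ) = psi X := by
      unfold psi
      rw [Nat.floor_natCast]
    have h8 : Real.log N ≤ Real.log X :=
      Real.log_le_log (by exact_mod_cast hN1) (Nat.floor_le (by linarith))
    have h9 : ‖Ic X β‖ ^ 2 - C ≤ Sq Lam N β - 2 * psi N * (q * Real.log N) := by
      rw [h7, hC]
      have : 2 * psi X * (q * Real.log N) ≤ 2 * psi X * (q * Real.log X) := by
        apply mul_le_mul_of_nonneg_left _ (by positivity)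
        exact mul_le_mul_of_nonneg_left h8 (by positivity)
      linarith
    calc (‖Ic X β‖ ^ 2 * Kq Y q δ β - C * (Y * δ)) / (Nat.totient q : ℝ)
        ≤ ((‖Ic X β‖ ^ 2 - C) * Kq Y q δ β) / (Nat.totient q : ℝ) := by
          apply div_le_div_of_nonneg_right _ hphi.le
          have := mul_le_mul_of_nonneg_left hK1 hC0
          linarith
      _ = ((‖Ic X β‖ ^ 2 - C) / (Nat.totient q : ℝ)) * Kq Y q δ β := by ring
      _ ≤ (∑ c ∈ Cd q, Sq Lam N ((c : ℝ) / q + β)) * Kq Y q δ β := by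
          apply mul_le_mul_of_nonneg_right _ hK0
          refine le_trans ?_ h1
          exact div_le_div_of_nonneg_right h9 hphi.le
  -- integrate
  have hKc := MJR_Kq_cont Y hY.le q hq1 δ
  have hIc := MJR_Ic_cont X
  have hint1 : Continuous (fun β : ℝ => (‖Ic X β‖ ^ 2 * Kq Y q δ β - C * (Y * δ)) / (Nat.totient q : ℝ)) :=
    (((hIc.norm.pow 2).mul hKc).sub continuous_const).div_const _
  have hint2 : Continuous (fun β : ℝ => (∑ c ∈ Cd q, Sq Lam N ((c : ℝ) / q + β)) * Kq Y q δ β) := by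
    refine Continuous.mul (continuous_finsetSum _ fun c _ => ?_) hKc
    exact (MJR_Sq_cont Lam N).comp (continuous_const.add continuous_id)
  have h20 : ∫ β in (-Δ)..Δ, (‖Ic X β‖ ^ 2 * Kq Y q δ β - C * (Y * δ)) / (Nat.totient q : ℝ)
      ≤ ∫ β in (-Δ)..Δ, (∑ c ∈ Cd q, Sq Lam N ((c : ℝ) / q + β)) * Kq Y q δ β := by
    refine intervalIntegral.integral_mono_on (by linarith) (hint1.intervalIntegrable _ _)
      (hint2.intervalIntegrable _ _) fun β hβ => hpt β (abs_le.2 ⟨hβ.1, hβ.2⟩)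
  refine le_trans ?_ h20
  rw [intervalIntegral.integral_div]
  apply div_le_div_of_nonneg_right _ hphi.le
  have hcc : Continuous (fun β : ℝ => ‖Ic X β‖ ^ 2 * Kq Y q δ β) := (hIc.norm.pow 2).mul hKc
  have h24 : ∫ β in (-Δ)..Δ, (‖Ic X β‖ ^ 2 * Kq Y q δ β - C * (Y * δ))
      = (∫ β in (-Δ)..Δ, ‖Ic X β‖ ^ 2 * Kq Y q δ β) - ∫ β in (-Δ)..Δ, C * (Y * δ) :=
    intervalIntegral.integral_sub (hcc.intervalIntegrable _ _)
      (continuous_const.intervalIntegrable _ _)
  rw [h24, intervalIntegral.integral_const]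
  have h21 := ik X Y δ Δ q hq1 (by linarith) hY hδ hδΔ
  rw [ic_scale X Y q hq1 (Δ - δ) (by linarith) hY (by linarith)] at h21
  rw [smul_eq_mul]
  have h22 : (Δ - -Δ) * (C * (Y * δ)) = C * (Y * δ) * (2 * Δ) := by ring
  have h23 : δ ^ 2 * (8 * Real.pi * X ^ 3 * Y * Δ) = δ ^ 2 * (4 * Real.pi * X ^ 3 * Y * (2 * Δ)) := by ring
  rw [h22, h23]
  linarith

alias major := major_pr

end Pool.Agent.HC
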