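import Pool.Agent.Lib_helper92.HCF.Base
import Pool.Agent.Lib_helper92.HCF.GAL
import Pool.Agent.Lib_helper92.HCF.FQI
import Pool.Agent.Lib_helper92.HCF.LDE
import Pool.Agent.Lib_helper92.HCF.LDU
import Pool.Agent.Lib_helper92.HCF.HOL
import Pool.Agent.Lib_helper92.HCF.MJR
import Pool.Agent.Lib_helper92.HCF.FIB

set_option autoImplicit false

namespace Pool.Agent.HC

open Finset Complex Filter Topology MeasureTheory Pool.Agent.Var35 Pool.Agent.Var73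
open scoped ArithmeticFunction ArithmeticFunction.Moebius

lemma FIC_kq_nonneg (Y : ℝ) (hY : 0 ≤ Y) (q : ℕ) (hq : 1 ≤ q) (δ β : ℝ) (hδ : 0 < δ) :
    0 ≤ Kq Y q δ β := by
  have h := (fq_lip Y hY q hq (β - δ / 2) (β + δ / 2) (by linarith)).2
  unfold Kq
  have : Y * (β + δ / 2 - (β - δ / 2)) = Y * δ := by ring
  linarith

/-- main integral -/
noncomputable def MI (B y : ℝ) : ℝ := 2 * ∫ u in (0 : ℝ)..B, sc u * kk (y * u)

/-- error term for one `q` -/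
noncomputable def er (X Y δ Δ E : ℝ) (q : ℕ) : ℝ :=
  δ ^ 2 * (8 * Real.pi * X ^ 3 * Y * Δ)
    + (2 * X * ((1 + 2 * Real.pi * Δ * X) * E) + 2 * psi X * (q * Real.log X)) * (Y * δ) * (2 * Δ)

lemma FIC_q (X Y δ Δ E : ℝ) (hX : 2 ≤ X) (hY : 0 < Y) (hδ : 0 < δ) (hδΔ : δ ≤ Δ)
    (hE : ∀ x, 0 ≤ x → x ≤ X → |psi x - x| ≤ E) (q : ℕ) (hq : 1 ≤ q) :
    mp q * (δ * (X * Y * MI (X * (Δ - δ)) (q * Y / X)) - er X Y δ Δ E q) ≤
      ∫ β in (-Δ)..Δ, (∑ c ∈ Cd q, Sq Lam ⌊X⌋₊ ((c : ℝ) / q + β)) * Kq Y q δ β := by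
  by_cases hs : Squarefree q
  · have h := major X Y δ Δ E q hs hX hY hδ hδΔ hE
    refine le_trans (le_of_eq ?_) h
    unfold mp MI er
    rw [if_pos hs]
    ring
  · unfold mp
    rw [if_neg hs, zero_mul]
    apply intervalIntegral.integral_nonneg (by linarith)
    intro β _
    apply mul_nonneg
    · exact Finset.sum_nonneg fun c _ => FIB_sq_nonneg _ _ _
    · exact FIC_kq_nonneg Y hY.le q hq δ β hδ

lemma FIC_big {X L : ℝ} {Y Z T R U : ℕ} (h : Par X L Y Z T R U) (E : ℝ)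
    (hE : ∀ x, 0 ≤ x → x ≤ X → |psi x - x| ≤ E) (δ Δ : ℝ) (hδ : δ = 1 / (X * L ^ 6))
    (hΔ : Δ = L ^ 2 / X) :
    Big Lam ⌊X⌋₊ Z Y R ≤ (Y + EE X L Y Z T R / δ) * A2 Lam ⌊X⌋₊
      + (Y * δ + EE X L Y Z T R) * (4 * Real.pi * ⌊X⌋₊ * A2 Lam ⌊X⌋₊)
      - ∑ q ∈ Icc 1 R, mp q * (X * Y * MI (X * (Δ - δ)) (q * Y / X) - er X Y δ Δ E q / δ) := by
  obtain ⟨hX, hL, hXL, hYX, hY2, hY, hZ1, hZ2, hT1, hT2, hR1, hR2, hU1, hU2, hZ, hT, hR, hU, hZY,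
    hTZ, hRZ⟩ := h
  have hL1 : 1 ≤ L := by linarith
  have hL0 : 0 < L := by linarith
  have hX0 : 0 < X := by linarith
  have hZ0 : (0 : ℝ) < Z := by exact_mod_cast hZ
  have hT0 : (0 : ℝ) < T := by exact_mod_cast hT
  have hR0 : (0 : ℝ) < R := by exact_mod_cast hR
  have hZYr : (Z : ℝ) ≤ Y := by exact_mod_cast hZY
  have hY0 : (0 : ℝ) < Y := by linarith
  have hδ0 : 0 < δ := by rw [hδ]; positivity
  have hΔ0 : 0 < Δ := by rw [hΔ]; positivity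
  have hδΔ : δ ≤ Δ := by
    rw [hδ, hΔ, div_le_div_iff₀ (by positivity) hX0]
    have h1 : 1 ≤ L ^ 8 := one_le_pow₀ hL1
    nlinarith
  have hδ1 : δ ≤ 1 := by
    rw [hδ, div_le_iff₀ (by positivity), one_mul]
    have h1 : 1 ≤ L ^ 6 := one_le_pow₀ hL1
    nlinarith
  have hYZ1 : 1 ≤ (Y : ℝ) / Z := by rw [le_div_iff₀ hZ0]; linarith
  have hlog1 : 0 ≤ Real.log ((Y : ℝ) / Z) := Real.log_nonneg hYZ1
  set EE' := EE X L Y Z T R with hEE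
  have t1 : 0 ≤ (1 + Real.log ((Y : ℝ) / Z)) / R := by positivity
  have t2 : 0 ≤ (2 * (Y : ℝ) / T + T * Y * δ) / Z := by positivity
  have t3 : 0 ≤ 2 * (R : ℝ) * Y * (Δ + δ) / Z := by positivity
  have hEE2 : EE' = (1 + Real.log ((Y : ℝ) / Z)) / R + (2 * (Y : ℝ) / T + T * Y * δ) / Z
      + 2 * (R : ℝ) * Y * (Δ + δ) / Z := by rw [hEE, hδ, hΔ]; rfl
  have hE0 : 0 ≤ EE' := by rw [hEE2]; positivity
  have hU' : ∀ t, W Z Y R δ t ≤ Y * δ + EE' := by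
    intro t
    have h1 := ldu Z Y R T t δ hT hTZ hZY hR hδ0
    rw [hEE2]
    linarith
  have hA' : ∀ q ∈ Icc 1 R, ∀ c : ℤ, IsCoprime c (q : ℤ) → ∀ t : ℝ, |t - c / q| ≤ Δ →
      W Z Y R δ t ≤ Y * δ - Kq Y q δ (t - c / q) + EE' := by
    intro q hq c hc t ht
    rw [mem_Icc] at hq
    have h1 := ld Z Y R q c t δ hZ hZY hq.1 (hq.2.trans hRZ) hc hδ0
    rw [if_neg (by omega)] at h1
    have hqR : (q : ℝ) ≤ R := by exact_mod_cast hq.2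
    have h2 : 2 * (q : ℝ) * Y * (|t - c / q| + δ / 2) / Z ≤ 2 * (R : ℝ) * Y * (Δ + δ) / Z := by
      gcongr
      linarith
    unfold Kq
    rw [hEE2]
    linarith
  have hΔR : 2 * Δ * (R : ℝ) ^ 2 < 1 := by
    have h1 : X * L ^ 18 / (Y : ℝ) ^ 2 ≤ 1 / L ^ 6 := by
      rw [div_le_div_iff₀ (by positivity) (by positivity)]
      calc X * L ^ 18 * L ^ 6 = X * L ^ 24 := by ring
        _ ≤ 1 * (Y : ℝ) ^ 2 := by rw [one_mul]; exact hY2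
    calc 2 * Δ * (R : ℝ) ^ 2 ≤ 2 * Δ * (X / Y * L ^ 8) ^ 2 := by gcongr
      _ = 2 * (X * L ^ 18 / (Y : ℝ) ^ 2) := by rw [hΔ]; field_simp
      _ ≤ 2 * (1 / L ^ 6) := by gcongr
      _ < 1 := by
        have h2 : 100 ≤ L ^ 6 := le_trans hL (le_self_pow₀ hL1 (by norm_num))
        have h3 : 1 / L ^ 6 ≤ 1 / 100 := one_div_le_one_div_of_le (by norm_num) h2
        linarith
  have hg := gal Lam ⌊X⌋₊ Z Y R δ (Y * δ + EE') hδ0 hδ1 (fun t _ _ => hU' t)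
  have hh := hole Lam ⌊X⌋₊ Z Y R δ EE' Δ hδ0 hδ1 hΔ0 hR hΔR hE0 hU' hA'
  have hsum : ∑ q ∈ Icc 1 R, mp q * (δ * (X * Y * MI (X * (Δ - δ)) (q * Y / X)) - er X Y δ Δ E q) ≤
      ∑ q ∈ Icc 1 R, ∫ β in (-Δ)..Δ, (∑ c ∈ Cd q, Sq Lam ⌊X⌋₊ ((c : ℝ) / q + β)) * Kq Y q δ β := by
    apply Finset.sum_le_sum
    intro q hq
    rw [mem_Icc] at hq
    exact FIC_q X Y δ Δ E (by linarith) hY0 hδ0 hδΔ hE q hq.1
  have hsum2 : ∑ q ∈ Icc 1 R, mp q * (δ * (X * Y * MI (X * (Δ - δ)) (q * Y / X)) - er X Y δ Δ E q) =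
      δ * ∑ q ∈ Icc 1 R, mp q * (X * Y * MI (X * (Δ - δ)) (q * Y / X) - er X Y δ Δ E q / δ) := by
    rw [Finset.mul_sum]
    apply Finset.sum_congr rfl
    intro q _
    field_simp
  set SS1 := ∑ q ∈ Icc 1 R, mp q * (X * Y * MI (X * (Δ - δ)) (q * Y / X) - er X Y δ Δ E q / δ) with hSS
  have h3 : (1 / δ) * (∫ t in (0 : ℝ)..1, Sq Lam ⌊X⌋₊ t * W Z Y R δ t) ≤
      (1 / δ) * ((Y * δ + EE') * A2 Lam ⌊X⌋₊ - δ * SS1) := by
    apply mul_le_mul_of_nonneg_left _ (by positivity)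
    refine hh.trans ?_
    rw [← hsum2]
    linarith
  have h4 : (1 / δ) * ((Y * δ + EE') * A2 Lam ⌊X⌋₊ - δ * SS1) =
      (Y + EE' / δ) * A2 Lam ⌊X⌋₊ - SS1 := by
    field_simp
  linarith

end Pool.Agent.HC
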