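import Pool.Agent.Lib_helper92.HCF.Base
import Pool.Agent.Lib_helper92.HCF.FIC

set_option autoImplicit false

namespace Pool.Agent.HC

open Finset Complex Filter Topology MeasureTheory Pool.Agent.Var35 Pool.Agent.Var73
open scoped ArithmeticFunction ArithmeticFunction.Moebius

lemma FID_pow (K : ℝ) (k : ℕ) (hk : k ≠ 0) (ε : ℝ) (hε : 0 < ε) : ∀ᶠ L : ℝ in atTop, K / L ^ k ≤ ε := by
  have h : Tendsto (fun L : ℝ => K / L ^ k) atTop (𝓝 0) :=
    tendsto_const_nhds.div_atTop (tendsto_pow_atTop hk)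
  exact (h.eventually (ge_mem_nhds hε)).mono fun _ h => h

lemma FID_log (ε : ℝ) (hε : 0 < ε) : ∀ᶠ L : ℝ in atTop, (2 * (1 + Real.log (2 * L ^ 5)) + 18) / L ≤ ε := by
  have h1 : Tendsto (fun L : ℝ => Real.log L / L) atTop (𝓝 0) := by
    have := Real.isLittleO_log_id_atTop.tendsto_div_nhds_zero
    simpa using this
  have h2 : Tendsto (fun L : ℝ => (20 + 2 * Real.log 2) / L) atTop (𝓝 0) :=
    tendsto_const_nhds.div_atTop tendsto_id
  have h3 : Tendsto (fun L : ℝ => (20 + 2 * Real.log 2) / L + 10 * (Real.log L / L)) atTop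
      (𝓝 (0 + 10 * 0)) := h2.add (h1.const_mul 10)
  rw [mul_zero, add_zero] at h3
  filter_upwards [h3.eventually (ge_mem_nhds hε), eventually_gt_atTop 0] with L hL hL0
  refine le_trans (le_of_eq ?_) hL
  rw [Real.log_mul (by norm_num) (by positivity), Real.log_pow]
  push_cast
  field_simp
  ring

lemma FID_er {X L : ℝ} {Y Z T R U : ℕ} (h : Par X L Y Z T R U) (Cp Cf δ Δ : ℝ) (hCp : 0 < Cp)
    (hCf : 0 < Cf) (hδ : δ = 1 / (X * L ^ 6)) (hΔ : Δ = L ^ 2 / X)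
    (hpsi : psi X ≤ 2 * X) (hpsi0 : 0 ≤ psi X)
    (hf1 : ∑ q ∈ Icc 1 R, (q : ℝ) / (Nat.totient q : ℝ) ≤ Cf * R)
    (hf2 : ∑ q ∈ Icc 1 R, mp q ≤ Cf * (1 + Real.log R)) :
    ∑ q ∈ Icc 1 R, mp q * (er X Y δ Δ (Cp * X / L ^ 8) q / δ) ≤
      X * Y * ((16 * Real.pi * Cf + 64 * Cf * Cp) / L ^ 3 + 8 * Cf / L ^ 13) := by
  obtain ⟨hX, hL, hXL, hYX, hY2, hY, hZ1, hZ2, hT1, hT2, hR1, hR2, hU1, hU2, hZ, hT, hR, hU, hZY,
    hTZ, hRZ⟩ := h
  have hL1 : 1 ≤ L := by linarith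
  have hL0 : 0 < L := by linarith
  have hX0 : 0 < X := by linarith
  have hZ0 : (0 : ℝ) < Z := by exact_mod_cast hZ
  have hR0 : (0 : ℝ) < R := by exact_mod_cast hR
  have hZYr : (Z : ℝ) ≤ Y := by exact_mod_cast hZY
  have hRZr : (R : ℝ) ≤ Z := by exact_mod_cast hRZ
  have hY0 : (0 : ℝ) < Y := by linarith
  have hδ0 : 0 < δ := by rw [hδ]; positivity
  have hlogR : 1 + Real.log R ≤ 2 * L := by
    have : Real.log R ≤ L := by
      rw [hX]
      exact Real.log_le_log hR0 (by linarith)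
    linarith
  have hpi : Real.pi < 3.15 := Real.pi_lt_d2
  have hpi0 := Real.pi_pos
  have hmp0 : ∀ q, 0 ≤ mp q := by
    intro q; unfold mp; split_ifs <;> positivity
  have e1 : ∀ q ∈ Icc 1 R, mp q * (er X Y δ Δ (Cp * X / L ^ 8) q / δ) ≤
      (8 * Real.pi * (X * Y) / L ^ 4 + 32 * Cp * (X * Y) / L ^ 4) * mp q
        + 4 * psi X * L ^ 3 * (Y / X) * ((q : ℝ) / (Nat.totient q : ℝ)) := by
    intro q hq
    have h1 : er X Y δ Δ (Cp * X / L ^ 8) q / δ =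
        8 * Real.pi * (X * Y) / L ^ 4 + 4 * (1 + 2 * Real.pi * L ^ 2) * Cp * (X * Y) / L ^ 6
          + 4 * psi X * L ^ 3 * (Y / X) * q := by
      unfold er
      rw [← hX]
      have h2 : (δ ^ 2 * (8 * Real.pi * X ^ 3 * Y * Δ) + (2 * X * ((1 + 2 * Real.pi * Δ * X) * (Cp * X / L ^ 8))
          + 2 * psi X * (q * L)) * (Y * δ) * (2 * Δ)) / δ =
          δ * (8 * Real.pi * X ^ 3 * Y * Δ) + (2 * X * ((1 + 2 * Real.pi * Δ * X) * (Cp * X / L ^ 8))
          + 2 * psi X * (q * L)) * Y * (2 * Δ) := by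
        field_simp
      rw [h2, hδ, hΔ]
      field_simp
      ring
    have h3 : 4 * (1 + 2 * Real.pi * L ^ 2) * Cp * (X * Y) / L ^ 6 ≤ 32 * Cp * (X * Y) / L ^ 4 := by
      have h4 : 1 + 2 * Real.pi * L ^ 2 ≤ 8 * L ^ 2 := by nlinarith
      calc 4 * (1 + 2 * Real.pi * L ^ 2) * Cp * (X * Y) / L ^ 6
          ≤ 4 * (8 * L ^ 2) * Cp * (X * Y) / L ^ 6 := by gcongr
        _ = 32 * Cp * (X * Y) / L ^ 4 := by field_simp; ring
    have h5 : mp q * q ≤ (q : ℝ) / (Nat.totient q : ℝ) := by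
      unfold mp
      split_ifs
      · rw [one_div, mul_comm, div_eq_mul_inv]
      · rw [zero_mul]; positivity
    rw [h1]
    have h6 : 0 ≤ 4 * psi X * L ^ 3 * (Y / X) := by positivity
    calc mp q * (8 * Real.pi * (X * Y) / L ^ 4 + 4 * (1 + 2 * Real.pi * L ^ 2) * Cp * (X * Y) / L ^ 6
          + 4 * psi X * L ^ 3 * (Y / X) * q)
        ≤ mp q * (8 * Real.pi * (X * Y) / L ^ 4 + 32 * Cp * (X * Y) / L ^ 4
          + 4 * psi X * L ^ 3 * (Y / X) * q) := by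
          apply mul_le_mul_of_nonneg_left _ (hmp0 q)
          linarith
      _ = (8 * Real.pi * (X * Y) / L ^ 4 + 32 * Cp * (X * Y) / L ^ 4) * mp q
          + 4 * psi X * L ^ 3 * (Y / X) * (mp q * q) := by ring
      _ ≤ _ := by
          have := mul_le_mul_of_nonneg_left h5 h6
          linarith
  refine (Finset.sum_le_sum e1).trans ?_
  rw [Finset.sum_add_distrib, ← Finset.mul_sum, ← Finset.mul_sum]
  have h7 : (8 * Real.pi * (X * Y) / L ^ 4 + 32 * Cp * (X * Y) / L ^ 4) * ∑ q ∈ Icc 1 R, mp q ≤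
      X * Y * ((16 * Real.pi * Cf + 64 * Cf * Cp) / L ^ 3) := by
    calc (8 * Real.pi * (X * Y) / L ^ 4 + 32 * Cp * (X * Y) / L ^ 4) * ∑ q ∈ Icc 1 R, mp q
        ≤ (8 * Real.pi * (X * Y) / L ^ 4 + 32 * Cp * (X * Y) / L ^ 4) * (Cf * (2 * L)) := by
          apply mul_le_mul_of_nonneg_left _ (by positivity)
          exact hf2.trans (mul_le_mul_of_nonneg_left hlogR hCf.le)
      _ = X * Y * ((16 * Real.pi * Cf + 64 * Cf * Cp) / L ^ 3) := by field_simp; ring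
  have h8 : 4 * psi X * L ^ 3 * (Y / X) * ∑ q ∈ Icc 1 R, (q : ℝ) / (Nat.totient q : ℝ) ≤
      X * Y * (8 * Cf / L ^ 13) := by
    calc 4 * psi X * L ^ 3 * (Y / X) * ∑ q ∈ Icc 1 R, (q : ℝ) / (Nat.totient q : ℝ)
        ≤ 4 * (2 * X) * L ^ 3 * (Y / X) * (Cf * (X / Y * L ^ 8)) := by
          apply mul_le_mul
          · gcongr
          · exact hf1.trans (mul_le_mul_of_nonneg_left hR1 hCf.le)
          · exact Finset.sum_nonneg fun q _ => by positivity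
          · positivity
      _ = X * L ^ 24 * (8 * Cf / L ^ 13) := by field_simp; ring
      _ ≤ X * Y * (8 * Cf / L ^ 13) := by gcongr
  linarith

end Pool.Agent.HC
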