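import Pool.Agent.Lib_helper92.HCF.Base
import Pool.Agent.Lib_helper23.BG.Defs

/-! HC, block SCI. -/

set_option autoImplicit false

namespace Pool.Agent.HC

open Finset Complex Filter Topology MeasureTheory Pool.Agent.Var35 Pool.Agent.Var73
open scoped ArithmeticFunction ArithmeticFunction.Moebius FourierTransform

/-- the triangle function -/
noncomputable def SCI_f (x : ℝ) : ℂ := ((max 0 (1 - |x|) : ℝ) : ℂ)

theorem SCI_cont : Continuous SCI_f := by
  unfold SCI_f
  fun_prop

theorem SCI_supp : HasCompactSupport SCI_f := by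
  apply HasCompactSupport.intro (isCompact_Icc (a := (-1 : ℝ)) (b := 1))
  intro x hx
  unfold SCI_f
  have h1 : 1 ≤ |x| := by
    by_contra h
    push Not at h
    exact hx ⟨(abs_lt.1 h).1.le, (abs_lt.1 h).2.le⟩
  rw [max_eq_left (by linarith)]
  simp

theorem SCI_int : Integrable SCI_f := SCI_cont.integrable_of_hasCompactSupport SCI_supp

theorem SCI_sc_nonneg (u : ℝ) : 0 ≤ sc u := by unfold sc; positivity

theorem SCI_half {c : ℂ} (hc : c ≠ 0) :
    (∫ x in (0 : ℝ)..1, (1 - (x : ℂ)) * cexp (c * x)) = cexp c / c ^ 2 - (1 / c + 1 / c ^ 2) := by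
  have h : ∀ x ∈ Set.uIcc (0 : ℝ) 1, HasDerivAt
      (fun x : ℝ => ((1 - (x : ℂ)) / c + 1 / c ^ 2) * cexp (c * x)) ((1 - (x : ℂ)) * cexp (c * x)) x := by
    intro x _
    have h1 : HasDerivAt (fun x : ℝ => (x : ℂ)) 1 x := Complex.ofRealCLM.hasDerivAt
    have h2 : HasDerivAt (fun x : ℝ => (1 - (x : ℂ)) / c + 1 / c ^ 2) (-1 / c) x := by
      have := ((h1.const_sub 1).div_const c).add_const (1 / c ^ 2)
      simpa using this
    have h3 : HasDerivAt (fun x : ℝ => cexp (c * x)) (cexp (c * x) * (c * 1)) x :=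
      (h1.const_mul c).cexp
    have h4 := h2.mul h3
    have e : (1 - (x : ℂ)) * cexp (c * x) = -1 / c * cexp (c * x) +
        ((1 - (x : ℂ)) / c + 1 / c ^ 2) * (cexp (c * x) * (c * 1)) := by
      field_simp
      ring
    rw [e]
    exact h4
  rw [intervalIntegral.integral_eq_sub_of_hasDerivAt h]
  · push_cast
    simp only [mul_one, mul_zero, Complex.exp_zero, sub_self, zero_div, zero_add, sub_zero]
    ring
  · apply Continuous.intervalIntegrable
    fun_prop

theorem SCI_half' {c : ℂ} (hc : c ≠ 0) :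
    (∫ x in (-1 : ℝ)..0, (1 + (x : ℂ)) * cexp (c * x)) = cexp (-c) / c ^ 2 + (1 / c - 1 / c ^ 2) := by
  have h : ∀ x ∈ Set.uIcc (-1 : ℝ) 0, HasDerivAt
      (fun x : ℝ => ((1 + (x : ℂ)) / c - 1 / c ^ 2) * cexp (c * x)) ((1 + (x : ℂ)) * cexp (c * x)) x := by
    intro x _
    have h1 : HasDerivAt (fun x : ℝ => (x : ℂ)) 1 x := Complex.ofRealCLM.hasDerivAt
    have h2 : HasDerivAt (fun x : ℝ => (1 + (x : ℂ)) / c - 1 / c ^ 2) (1 / c) x := by
      have := ((h1.const_add 1).div_const c).sub_const (1 / c ^ 2)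
      simpa using this
    have h3 : HasDerivAt (fun x : ℝ => cexp (c * x)) (cexp (c * x) * (c * 1)) x :=
      (h1.const_mul c).cexp
    have h4 := h2.mul h3
    have e : (1 + (x : ℂ)) * cexp (c * x) = 1 / c * cexp (c * x) +
        ((1 + (x : ℂ)) / c - 1 / c ^ 2) * (cexp (c * x) * (c * 1)) := by
      field_simp
      ring
    rw [e]
    exact h4
  rw [intervalIntegral.integral_eq_sub_of_hasDerivAt h]
  · push_cast
    simp only [mul_neg, mul_one, mul_zero, Complex.exp_zero, add_neg_cancel, zero_div, zero_sub,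
      add_zero]
    ring
  · apply Continuous.intervalIntegrable
    fun_prop

theorem SCI_fourier {u : ℝ} (hu : u ≠ 0) : 𝓕 SCI_f u = ((sc u : ℝ) : ℂ) := by
  rw [Real.fourier_real_eq_integral_exp_smul]
  set c : ℂ := -(2 * Real.pi * u) * I with hc
  have hpi : (Real.pi : ℂ) ≠ 0 := by exact_mod_cast Real.pi_ne_zero
  have hu' : (u : ℂ) ≠ 0 := by exact_mod_cast hu
  have hc0 : c ≠ 0 := by
    rw [hc]
    exact mul_ne_zero (neg_ne_zero.2 (mul_ne_zero (mul_ne_zero two_ne_zero hpi) hu')) I_ne_zero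
  have e1 : (fun v : ℝ => cexp (((-2 * Real.pi * v * u : ℝ) : ℂ) * I) • SCI_f v) =
      fun v : ℝ => SCI_f v * cexp (c * v) := by
    funext v
    rw [smul_eq_mul, mul_comm, hc]
    congr 2
    push_cast
    ring
  rw [e1]
  have e2 : (∫ v : ℝ, SCI_f v * cexp (c * v)) =
      ∫ v in (-1 : ℝ)..1, SCI_f v * cexp (c * v) := by
    rw [intervalIntegral.integral_of_le (by norm_num)]
    symm
    apply setIntegral_eq_integral_of_forall_compl_eq_zero
    intro x hx
    have h1 : 1 ≤ |x| := by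
      by_contra h
      push Not at h
      exact hx ⟨(abs_lt.1 h).1, (abs_lt.1 h).2.le⟩
    unfold SCI_f
    rw [max_eq_left (by linarith)]
    simp
  have hcont : Continuous fun v : ℝ => SCI_f v * cexp (c * v) := by
    have := SCI_cont
    fun_prop
  rw [e2, ← intervalIntegral.integral_add_adjacent_intervals (b := 0)
    (hcont.intervalIntegrable _ _) (hcont.intervalIntegrable _ _)]
  have e3 : (∫ v in (-1 : ℝ)..0, SCI_f v * cexp (c * v)) =
      ∫ v in (-1 : ℝ)..0, (1 + (v : ℂ)) * cexp (c * v) := by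
    apply intervalIntegral.integral_congr
    intro v hv
    rw [Set.uIcc_of_le (by norm_num)] at hv
    simp only
    unfold SCI_f
    rw [abs_of_nonpos hv.2, max_eq_right (by linarith [hv.1])]
    push_cast
    ring
  have e4 : (∫ v in (0 : ℝ)..1, SCI_f v * cexp (c * v)) =
      ∫ v in (0 : ℝ)..1, (1 - (v : ℂ)) * cexp (c * v) := by
    apply intervalIntegral.integral_congr
    intro v hv
    rw [Set.uIcc_of_le (by norm_num)] at hv
    simp only
    unfold SCI_f
    rw [abs_of_nonneg hv.1, max_eq_right (by linarith [hv.2])]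
    push_cast
    ring
  rw [e3, e4, SCI_half hc0, SCI_half' hc0]
  have e5 : cexp c + cexp (-c) = 2 - 4 * Complex.sin (Real.pi * u) ^ 2 := by
    have h1 : cexp c = Complex.cos (2 * (Real.pi * u)) - Complex.sin (2 * (Real.pi * u)) * I := by
      rw [hc, show -(2 * (Real.pi : ℂ) * u) * I = (-(2 * (Real.pi * u))) * I by ring,
        Complex.exp_mul_I, Complex.cos_neg, Complex.sin_neg]
      ring
    have h2 : cexp (-c) = Complex.cos (2 * (Real.pi * u)) + Complex.sin (2 * (Real.pi * u)) * I := by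
      rw [hc, show -(-(2 * (Real.pi : ℂ) * u) * I) = (2 * (Real.pi * u)) * I by ring,
        Complex.exp_mul_I]
    rw [h1, h2, Complex.cos_two_mul]
    have h3 := Complex.sin_sq_add_cos_sq ((Real.pi : ℂ) * u)
    linear_combination 4 * h3
  have e6 : c ^ 2 = -(4 * (Real.pi * u) ^ 2) := by
    rw [hc, mul_pow, I_sq]; ring
  have e7 : cexp (-c) / c ^ 2 + (1 / c - 1 / c ^ 2) + (cexp c / c ^ 2 - (1 / c + 1 / c ^ 2)) =
      (cexp c + cexp (-c) - 2) / c ^ 2 := by ring
  rw [e7, e5, e6]
  unfold sc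
  push_cast
  have h4 : (Real.pi * u : ℂ) ≠ 0 := mul_ne_zero hpi hu'
  field_simp
  ring

theorem SCI_sc_le (u : ℝ) : sc u ≤ 2 * (1 + u ^ 2)⁻¹ := by
  have h0 : sc u ≤ 1 := by
    unfold sc
    by_cases h : Real.pi * u = 0
    · rw [h]; simp
    · rw [div_pow, div_le_one (by positivity)]
      exact Real.sin_sq_le_sq
  by_cases h : u ^ 2 ≤ 1
  · refine h0.trans ?_
    rw [← div_eq_mul_inv, le_div_iff₀ (by positivity)]
    linarith
  · push Not at h
    unfold sc
    have h5 : 0 < (Real.pi * u) ^ 2 := by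
      rw [mul_pow]
      exact mul_pos (by positivity) (by linarith)
    rw [div_pow, ← div_eq_mul_inv, div_le_div_iff₀ h5 (by positivity)]
    have h1 : Real.sin (Real.pi * u) ^ 2 ≤ 1 := Real.sin_sq_le_one _
    have h2 : 9 ≤ Real.pi ^ 2 := by nlinarith [Real.pi_gt_three]
    have h3 : Real.sin (Real.pi * u) ^ 2 * (1 + u ^ 2) ≤ 1 * (1 + u ^ 2) :=
      mul_le_mul_of_nonneg_right h1 (by positivity)
    rw [mul_pow]
    nlinarith

theorem SCI_meas : Measurable sc := by
  unfold sc
  fun_prop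

theorem SCI_integrable : Integrable sc := by
  refine (integrable_inv_one_add_sq.const_mul 2).mono' SCI_meas.aestronglyMeasurable
    (Eventually.of_forall fun u => ?_)
  rw [Real.norm_eq_abs, abs_of_nonneg (SCI_sc_nonneg u)]
  exact SCI_sc_le u

theorem SCI_total : ∫ u, sc u = 1 := by
  have h1 : 𝓕 SCI_f =ᵐ[volume] fun u => ((sc u : ℝ) : ℂ) := by
    have : ∀ᵐ u : ℝ, u ≠ 0 := by
      rw [ae_iff]
      simp
    filter_upwards [this] with u hu
    exact SCI_fourier hu
  have h2 : Integrable (𝓕 SCI_f) := (SCI_integrable.ofReal (𝕜 := ℂ)).congr h1.symm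
  have h3 := SCI_int.fourierInv_fourier_eq h2 (v := 0) SCI_cont.continuousAt
  rw [Real.fourierInv_eq'] at h3
  simp only [inner_zero_right, mul_zero, ofReal_zero, zero_mul, Complex.exp_zero, one_smul] at h3
  rw [integral_congr_ae h1, integral_complex_ofReal] at h3
  have h4 : SCI_f 0 = 1 := by unfold SCI_f; simp
  rw [h4] at h3
  exact_mod_cast h3

/-- SCI -/
theorem sc_int_pr : IntegrableOn sc (Set.Ioi 0) ∧ ∫ u in Set.Ioi (0 : ℝ), sc u = 1 / 2 := by
  refine ⟨SCI_integrable.integrableOn, ?_⟩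
  have h1 := integral_comp_abs (f := sc)
  have h2 : (fun x : ℝ => sc |x|) = sc := by
    funext x
    rcases abs_choice x with h | h
    · rw [h]
    · rw [h]
      unfold sc
      rw [mul_neg, Real.sin_neg, neg_div_neg_eq]
  rw [h2, SCI_total] at h1
  linarith

alias sc_int := sc_int_pr

end Pool.Agent.HC
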