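import Pool.Agent.Lib_helper92.HCF.Base
import Pool.Agent.Lib_helper23.BG.Defs

/-! HC, block SCL : the logarithmic moment of the Fejer kernel. -/

set_option autoImplicit false

namespace Pool.Agent.HC

open Finset Complex Filter Topology MeasureTheory Pool.Agent.Var35 Pool.Agent.Var73
open scoped ArithmeticFunction ArithmeticFunction.Moebius

theorem scl_gint (s : ℝ) (hs : 0 < s) :
    IntegrableOn (fun y : ℝ => Real.exp (-y) * y ^ (s - 1)) (Set.Ioi 0) :=
  Real.GammaIntegral_convergent hs

theorem scl_i1 : IntegrableOn (fun y : ℝ => y * Real.exp (-y)) (Set.Ioi 0) := by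
  refine (scl_gint 2 (by norm_num)).congr_fun (fun y hy => ?_) measurableSet_Ioi
  have : (2 : ℝ) - 1 = 1 := by norm_num
  simp only [this, Real.rpow_one]
  ring

theorem scl_i1v : ∫ y in Set.Ioi (0 : ℝ), y * Real.exp (-y) = 1 := by
  have h := Real.Gamma_eq_integral (s := 2) (by norm_num)
  rw [Real.Gamma_two] at h
  rw [h]
  refine setIntegral_congr_fun measurableSet_Ioi (fun y hy => ?_)
  have : (2 : ℝ) - 1 = 1 := by norm_num
  simp only [this, Real.rpow_one]
  ring

theorem scl_i2 : IntegrableOn (fun y : ℝ => y * Real.log y * Real.exp (-y)) (Set.Ioi 0) := by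
  have h1 := scl_gint 1 (by norm_num)
  have h3 := scl_gint 3 (by norm_num)
  refine Integrable.mono' (h1.add h3) ?_ ?_
  · exact ((measurable_id.mul Real.measurable_log).mul
      (Real.measurable_exp.comp measurable_neg)).aestronglyMeasurable
  · refine (ae_restrict_iff' measurableSet_Ioi).2 (Eventually.of_forall fun y hy => ?_)
    have hy' : (0 : ℝ) < y := hy
    have he : 0 < Real.exp (-y) := Real.exp_pos _
    have e1 : y ^ ((1 : ℝ) - 1) = 1 := by norm_num
    have e3 : y ^ ((3 : ℝ) - 1) = y ^ 2 := by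
      have : (3 : ℝ) - 1 = (2 : ℕ) := by norm_num
      rw [this, Real.rpow_natCast]
    simp only [Pi.add_apply, e1, e3]
    rw [norm_mul, Real.norm_eq_abs, Real.norm_eq_abs, abs_of_pos he]
    have hk : |y * Real.log y| ≤ 1 + y ^ 2 := by
      rcases le_or_gt y 1 with h | h
      · have := Real.abs_log_mul_self_lt y hy' h
        rw [mul_comm] at this
        nlinarith [sq_nonneg y]
      · have hl : 0 ≤ Real.log y := Real.log_nonneg h.le
        have hl2 : Real.log y ≤ y - 1 := Real.log_le_sub_one_of_pos hy'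
        rw [abs_of_nonneg (by positivity)]
        nlinarith
    nlinarith

theorem scl_i2v : ∫ y in Set.Ioi (0 : ℝ), y * Real.log y * Real.exp (-y) =
    1 - Real.eulerMascheroniConstant := by
  have h1 : HasDerivAt Complex.GammaIntegral
      (∫ t : ℝ in Set.Ioi 0, (t : ℂ) ^ ((2 : ℂ) - 1) * (Real.log t * Real.exp (-t))) 2 :=
    Complex.hasDerivAt_GammaIntegral (by norm_num)
  have h2 : HasDerivAt Complex.Gamma (1 - Real.eulerMascheroniConstant : ℂ) 2 := by
    have := Complex.hasDerivAt_Gamma_nat 1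
    norm_num [harmonic] at this
    convert this using 1
    ring
  have h3 : Complex.GammaIntegral =ᶠ[𝓝 2] Complex.Gamma := by
    have ho : IsOpen {z : ℂ | 0 < z.re} := isOpen_lt continuous_const Complex.continuous_re
    filter_upwards [ho.mem_nhds (by simp : (2 : ℂ) ∈ {z : ℂ | 0 < z.re})] with z hz
    exact (Complex.Gamma_eq_integral hz).symm
  have h4 := (h2.congr_of_eventuallyEq h3).unique h1
  have h5 : (∫ t : ℝ in Set.Ioi 0, (t : ℂ) ^ ((2 : ℂ) - 1) * (Real.log t * Real.exp (-t))) =
      ((∫ y in Set.Ioi (0 : ℝ), y * Real.log y * Real.exp (-y) : ℝ) : ℂ) := by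
    rw [← integral_complex_ofReal]
    refine setIntegral_congr_fun measurableSet_Ioi (fun y hy => ?_)
    have : (2 : ℂ) - 1 = 1 := by norm_num
    simp only [this, Complex.cpow_one]
    push_cast
    ring
  rw [h5] at h4
  have h6 : ((1 - Real.eulerMascheroniConstant : ℝ) : ℂ) =
      ((∫ y in Set.Ioi (0 : ℝ), y * Real.log y * Real.exp (-y) : ℝ) : ℂ) := by
    rw [← h4]; push_cast; ring
  exact (Complex.ofReal_injective h6).symm

theorem scl_x (c t : ℝ) (ht : 0 < t) :
    IntegrableOn (fun x : ℝ => x * (c - Real.log x) * Real.exp (-(x * t))) (Set.Ioi 0) ∧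
    ∫ x in Set.Ioi (0 : ℝ), x * (c - Real.log x) * Real.exp (-(x * t)) =
      (c - (1 - Real.eulerMascheroniConstant) + Real.log t) / t ^ 2 := by
  set G : ℝ → ℝ := fun y => ((c + Real.log t) * (y * Real.exp (-y)) -
    y * Real.log y * Real.exp (-y)) * (1 / t) with hG
  have hGi : IntegrableOn G (Set.Ioi 0) :=
    ((scl_i1.const_mul (c + Real.log t)).sub scl_i2).mul_const (1 / t)
  have hGv : ∫ y in Set.Ioi (0 : ℝ), G y =
      (c - (1 - Real.eulerMascheroniConstant) + Real.log t) / t := by
    rw [hG, integral_mul_const, integral_sub (scl_i1.const_mul (c + Real.log t)) scl_i2,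
      integral_const_mul, scl_i1v, scl_i2v]
    ring
  have hc : ∀ x ∈ Set.Ioi (0 : ℝ), G (t * x) = x * (c - Real.log x) * Real.exp (-(x * t)) := by
    intro x hx
    have hx' : (0 : ℝ) < x := hx
    simp only [hG]
    rw [Real.log_mul ht.ne' hx'.ne', mul_comm t x]
    field_simp
    ring
  constructor
  · refine IntegrableOn.congr_fun ?_ hc measurableSet_Ioi
    rw [integrableOn_Ioi_comp_mul_left_iff _ _ ht, mul_zero]
    exact hGi
  · rw [← setIntegral_congr_fun measurableSet_Ioi hc, integral_comp_mul_left_Ioi _ _ ht, mul_zero,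
      hGv, smul_eq_mul]
    field_simp

theorem scl_t (x : ℝ) (hx : 0 < x) :
    IntegrableOn (fun t : ℝ => (1 - Real.cos t) * Real.exp (-(x * t))) (Set.Ioi 0) ∧
    ∫ t in Set.Ioi (0 : ℝ), (1 - Real.cos t) * Real.exp (-(x * t)) = 1 / (x * (1 + x ^ 2)) := by
  set A : ℝ → ℝ := fun t => Real.exp (-(x * t)) * (-(1 / x) -
    (Real.sin t - x * Real.cos t) / (1 + x ^ 2)) with hA
  have hx2 : (1 : ℝ) + x ^ 2 ≠ 0 := by positivity
  have hd : ∀ t ∈ Set.Ici (0 : ℝ), HasDerivAt A ((1 - Real.cos t) * Real.exp (-(x * t))) t := by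
    intro t _
    have h1 : HasDerivAt (fun t : ℝ => Real.exp (-(x * t))) (Real.exp (-(x * t)) * (-(x * 1))) t :=
      (((hasDerivAt_id t).const_mul x).neg).exp
    have h2 : HasDerivAt (fun t : ℝ => -(1 / x) - (Real.sin t - x * Real.cos t) / (1 + x ^ 2))
        (0 - (Real.cos t - x * (-Real.sin t)) / (1 + x ^ 2)) t :=
      (hasDerivAt_const t (-(1 / x))).sub
        (((Real.hasDerivAt_sin t).sub ((Real.hasDerivAt_cos t).const_mul x)).div_const _)
    refine (h1.mul h2).congr_deriv ?_
    field_simp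
    ring
  have hp : ∀ t ∈ Set.Ioi (0 : ℝ), 0 ≤ (1 - Real.cos t) * Real.exp (-(x * t)) := by
    intro t _
    have := Real.cos_le_one t
    have := Real.exp_pos (-(x * t))
    have h : 0 ≤ 1 - Real.cos t := by linarith
    positivity
  have hl : Tendsto A atTop (𝓝 0) := by
    have h1 : Tendsto (fun t : ℝ => Real.exp (-(x * t))) atTop (𝓝 0) := by
      refine Real.tendsto_exp_atBot.comp ?_
      exact tendsto_neg_atTop_atBot.comp (tendsto_id.const_mul_atTop hx)
    have h2 : ∀ t, |-(1 / x) - (Real.sin t - x * Real.cos t) / (1 + x ^ 2)| ≤ 1 / x + (1 + x) := by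
      intro t
      have hs := Real.abs_sin_le_one t
      have hc := Real.abs_cos_le_one t
      have h3 : |(Real.sin t - x * Real.cos t) / (1 + x ^ 2)| ≤ 1 + x := by
        rw [abs_div, abs_of_pos (by positivity : (0 : ℝ) < 1 + x ^ 2)]
        rw [div_le_iff₀ (by positivity)]
        have h4 : |Real.sin t - x * Real.cos t| ≤ 1 + x := by
          calc |Real.sin t - x * Real.cos t| ≤ |Real.sin t| + |x * Real.cos t| := abs_sub _ _
            _ = |Real.sin t| + x * |Real.cos t| := by rw [abs_mul, abs_of_pos hx]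
            _ ≤ 1 + x * 1 := by gcongr
            _ = 1 + x := by ring
        nlinarith [sq_nonneg x]
      calc |-(1 / x) - (Real.sin t - x * Real.cos t) / (1 + x ^ 2)|
          ≤ |-(1 / x)| + |(Real.sin t - x * Real.cos t) / (1 + x ^ 2)| := abs_sub _ _
        _ ≤ 1 / x + (1 + x) := by
            rw [abs_neg, abs_of_pos (by positivity : (0 : ℝ) < 1 / x)]
            gcongr
    refine squeeze_zero_norm (fun t => ?_) (by rw [← zero_mul (1 / x + (1 + x))]; exact h1.mul_const (1 / x + (1 + x)))
    rw [hA, norm_mul, Real.norm_eq_abs, Real.norm_eq_abs, Real.abs_exp]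
    exact mul_le_mul_of_nonneg_left (h2 t) (Real.exp_pos _).le
  constructor
  · exact integrableOn_Ioi_deriv_of_nonneg' hd hp hl
  · rw [integral_Ioi_of_hasDerivAt_of_nonneg' hd hp hl, hA]
    simp only [mul_zero, neg_zero, Real.exp_zero, Real.sin_zero, Real.cos_zero]
    field_simp
    ring

theorem scl_log : IntegrableOn (fun x : ℝ => Real.log x / (1 + x ^ 2)) (Set.Ioi 0) := by
  have h1 : IntegrableOn (fun x : ℝ => Real.log x / (1 + x ^ 2)) (Set.Ioc 0 1) := by
    have h := (intervalIntegral.intervalIntegrable_log' (a := 0) (b := 1)).1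
    refine Integrable.mono' h.norm ?_ ?_
    · exact (Real.measurable_log.div (by fun_prop)).aestronglyMeasurable
    · refine Eventually.of_forall fun y => ?_
      rw [norm_div, Real.norm_eq_abs (1 + y ^ 2), abs_of_pos (by positivity)]
      refine div_le_self (norm_nonneg _) ?_
      nlinarith [sq_nonneg y]
  have h2 : IntegrableOn (fun x : ℝ => Real.log x / (1 + x ^ 2)) (Set.Ioi 1) := by
    have h := (integrableOn_Ioi_rpow_of_lt (a := -(3 / 2)) (by norm_num) one_pos).const_mul 2
    refine Integrable.mono' h ?_ ?_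
    · exact (Real.measurable_log.div (by fun_prop)).aestronglyMeasurable
    · refine (ae_restrict_iff' measurableSet_Ioi).2 (Eventually.of_forall fun y hy => ?_)
      have hy' : (1 : ℝ) < y := hy
      have hy0 : (0 : ℝ) < y := by linarith
      have hl : 0 ≤ Real.log y := Real.log_nonneg hy'.le
      rw [norm_div, Real.norm_eq_abs, Real.norm_eq_abs, abs_of_nonneg hl,
        abs_of_pos (by positivity), div_le_iff₀ (by positivity)]
      have h3 := Real.log_le_rpow_div hy0.le (ε := 1 / 2) (by norm_num)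
      have h4 : y ^ (-(3 / 2) : ℝ) * y ^ 2 = y ^ (1 / 2 : ℝ) := by
        rw [← Real.rpow_natCast y 2, ← Real.rpow_add hy0]
        norm_num
      have h5 : 0 < y ^ (-(3 / 2) : ℝ) := Real.rpow_pos_of_pos hy0 _
      calc Real.log y ≤ y ^ (1 / 2 : ℝ) / (1 / 2) := h3
        _ = 2 * (y ^ (-(3 / 2) : ℝ) * y ^ 2) := by rw [h4]; ring
        _ ≤ 2 * y ^ (-(3 / 2) : ℝ) * (1 + y ^ 2) := by nlinarith
  rw [← Set.Ioc_union_Ioi_eq_Ioi (zero_le_one (α := ℝ))]
  exact h1.union h2

theorem scl_log0 : ∫ x in Set.Ioi (0 : ℝ), Real.log x / (1 + x ^ 2) = 0 := by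
  have h := integral_comp_rpow_Ioi (fun x : ℝ => Real.log x / (1 + x ^ 2)) (p := -1) (by norm_num)
  have h2 : ∫ x in Set.Ioi (0 : ℝ), (|(-1 : ℝ)| * x ^ ((-1 : ℝ) - 1)) •
      (Real.log (x ^ (-1 : ℝ)) / (1 + (x ^ (-1 : ℝ)) ^ 2)) =
      ∫ x in Set.Ioi (0 : ℝ), - (Real.log x / (1 + x ^ 2)) := by
    refine setIntegral_congr_fun measurableSet_Ioi (fun x hx => ?_)
    have hx' : (0 : ℝ) < x := hx
    have e1 : (-1 : ℝ) - 1 = ((-2 : ℤ) : ℝ) := by norm_num
    simp only [smul_eq_mul]
    rw [e1, Real.rpow_intCast, Real.rpow_neg_one, Real.log_inv]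
    rw [zpow_neg, abs_neg, abs_one]
    have e2 : x ^ (2 : ℤ) = x ^ 2 := by norm_cast
    rw [e2]
    have : (1 : ℝ) + x ^ 2 ≠ 0 := by positivity
    field_simp
    ring
  rw [h2, integral_neg] at h
  linarith

theorem scl_main (c : ℝ) :
    IntegrableOn (fun t : ℝ => (1 - Real.cos t) *
      ((c - (1 - Real.eulerMascheroniConstant) + Real.log t) / t ^ 2)) (Set.Ioi 0) ∧
    ∫ t in Set.Ioi (0 : ℝ), (1 - Real.cos t) *
      ((c - (1 - Real.eulerMascheroniConstant) + Real.log t) / t ^ 2) = c * (Real.pi / 2) := by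
  set f : ℝ → ℝ → ℝ := fun t x => (1 - Real.cos t) *
    (x * (c - Real.log x) * Real.exp (-(x * t))) with hf
  set mu0 : Measure ℝ := volume.restrict (Set.Ioi 0) with hmu0
  have hmeas : Measurable (Function.uncurry f) := by
    have m1 : Measurable (fun p : ℝ × ℝ => 1 - Real.cos p.1) :=
      (Real.measurable_cos.comp measurable_fst).const_sub 1
    have m2 : Measurable (fun p : ℝ × ℝ => p.2 * (c - Real.log p.2)) :=
      measurable_snd.mul ((Real.measurable_log.comp measurable_snd).const_sub c)
    have m3 : Measurable (fun p : ℝ × ℝ => Real.exp (-(p.2 * p.1))) :=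
      Real.measurable_exp.comp (measurable_snd.mul measurable_fst).neg
    exact m1.mul (m2.mul m3)
  have hnorm : ∀ x ∈ Set.Ioi (0 : ℝ), ∫ t, ‖f t x‖ ∂mu0 = |c - Real.log x| / (1 + x ^ 2) := by
    intro x hx
    have hx' : (0 : ℝ) < x := hx
    have h1 : ∫ t, ‖f t x‖ ∂mu0 = ∫ t in Set.Ioi (0 : ℝ),
        ((1 - Real.cos t) * Real.exp (-(x * t))) * (x * |c - Real.log x|) := by
      rw [hmu0]
      refine setIntegral_congr_fun measurableSet_Ioi (fun t ht => ?_)
      have hc : 0 ≤ 1 - Real.cos t := by linarith [Real.cos_le_one t]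
      simp only [hf]
      rw [norm_mul, norm_mul, norm_mul, Real.norm_eq_abs, Real.norm_eq_abs, Real.norm_eq_abs,
        Real.norm_eq_abs, Real.abs_exp, abs_of_nonneg hc, abs_of_pos hx']
      ring
    rw [h1, integral_mul_const, (scl_t x hx').2]
    field_simp
  have hint : Integrable (Function.uncurry f) (mu0.prod mu0) := by
    rw [integrable_prod_iff' hmeas.aestronglyMeasurable]
    constructor
    · refine (ae_restrict_iff' measurableSet_Ioi).2 (Eventually.of_forall fun x hx => ?_)
      have h1 := (scl_t x hx).1.mul_const (x * (c - Real.log x))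
      refine h1.congr (Eventually.of_forall fun t => ?_)
      simp only [Function.uncurry, hf]
      ring
    · have h1 : IntegrableOn (fun x : ℝ => |c - Real.log x| / (1 + x ^ 2)) (Set.Ioi 0) := by
        have h2 : IntegrableOn (fun x : ℝ => c * (1 + x ^ 2)⁻¹ - Real.log x / (1 + x ^ 2))
            (Set.Ioi 0) := (integrable_inv_one_add_sq.integrableOn.const_mul c).sub scl_log
        refine h2.norm.congr (Eventually.of_forall fun x => ?_)
        have hx2 : (0 : ℝ) < 1 + x ^ 2 := by positivity
        simp only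
        rw [← abs_of_pos hx2, ← abs_div, Real.norm_eq_abs, abs_of_pos hx2]
        congr 1
        field_simp
      refine h1.congr_fun (fun x hx => ?_) measurableSet_Ioi
      exact (hnorm x hx).symm
  have hin : ∀ t ∈ Set.Ioi (0 : ℝ), ∫ x, f t x ∂mu0 = (1 - Real.cos t) *
      ((c - (1 - Real.eulerMascheroniConstant) + Real.log t) / t ^ 2) := by
    intro t ht
    simp only [hf]
    rw [integral_const_mul, hmu0, (scl_x c t ht).2]
  constructor
  · refine (hint.integral_prod_left).congr ?_
    exact (ae_restrict_iff' measurableSet_Ioi).2 (Eventually.of_forall fun t ht => hin t ht)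
  · rw [← setIntegral_congr_fun measurableSet_Ioi hin, ← hmu0, integral_integral_swap hint]
    have h1 : ∀ x ∈ Set.Ioi (0 : ℝ), ∫ t, f t x ∂mu0 =
        c * (1 + x ^ 2)⁻¹ - Real.log x / (1 + x ^ 2) := by
      intro x hx
      have hx' : (0 : ℝ) < x := hx
      have h2 : ∫ t, f t x ∂mu0 = ∫ t in Set.Ioi (0 : ℝ),
          ((1 - Real.cos t) * Real.exp (-(x * t))) * (x * (c - Real.log x)) := by
        rw [hmu0]
        refine setIntegral_congr_fun measurableSet_Ioi (fun t ht => ?_)
        simp only [hf]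
        ring
      rw [h2, integral_mul_const, (scl_t x hx').2]
      field_simp
    rw [hmu0, setIntegral_congr_fun measurableSet_Ioi h1,
      integral_sub (integrable_inv_one_add_sq.integrableOn.const_mul c) scl_log,
      integral_const_mul, integral_Ioi_inv_one_add_sq, scl_log0, Real.arctan_zero]
    ring

theorem scl_sc (u : ℝ) (hu : 0 < u) : sc u * Real.log u =
    2 * ((1 - Real.cos (2 * Real.pi * u)) *
      ((1 - Real.eulerMascheroniConstant - Real.log (2 * Real.pi) -
        (1 - Real.eulerMascheroniConstant) + Real.log (2 * Real.pi * u)) /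
          (2 * Real.pi * u) ^ 2)) := by
  have hp := Real.pi_pos
  rw [Real.log_mul (by positivity) hu.ne', sc]
  have h : Real.cos (2 * Real.pi * u) = 1 - 2 * Real.sin (Real.pi * u) ^ 2 := by
    rw [mul_assoc, Real.cos_two_mul, Real.cos_sq']
    ring
  rw [h]
  field_simp
  ring

theorem sc_log_pr : IntegrableOn (fun u => sc u * Real.log u) (Set.Ioi 0) ∧
    ∫ u in Set.Ioi (0 : ℝ), sc u * Real.log u =
      (1 - Real.eulerMascheroniConstant - Real.log (2 * Real.pi)) / 2 := by
  have hp := Real.two_pi_pos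
  obtain ⟨h1, h2⟩ := scl_main (1 - Real.eulerMascheroniConstant - Real.log (2 * Real.pi))
  set G : ℝ → ℝ := fun t => (1 - Real.cos t) *
      ((1 - Real.eulerMascheroniConstant - Real.log (2 * Real.pi) -
        (1 - Real.eulerMascheroniConstant) + Real.log t) / t ^ 2) with hG
  have hc : ∀ u ∈ Set.Ioi (0 : ℝ), 2 * G (2 * Real.pi * u) = sc u * Real.log u :=
    fun u hu => (scl_sc u hu).symm
  constructor
  · refine IntegrableOn.congr_fun ?_ hc measurableSet_Ioi
    refine Integrable.const_mul ?_ 2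
    have := (integrableOn_Ioi_comp_mul_left_iff G 0 hp).2 (by rw [mul_zero]; exact h1)
    exact this
  · rw [← setIntegral_congr_fun measurableSet_Ioi hc, integral_const_mul,
      integral_comp_mul_left_Ioi G 0 hp, mul_zero, h2, smul_eq_mul]
    field_simp

alias sc_log := sc_log_pr

end Pool.Agent.HC
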