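import Pool.Agent.Lib_helper92.HCF.Base
import Pool.Agent.Lib_helper23.BG.Defs
import Pool.Agent.Lib_helper92.HCF.WWA
import Pool.Agent.Lib_helper92.HCF.WWB
import Pool.Agent.Lib_helper92.HCF.WWC
import Pool.Agent.Lib_helper92.HCF.WWD

/-! HC, block MPA : the sum of μ²/φ. -/

set_option autoImplicit false

namespace Pool.Agent.HC

open Finset Complex Filter Topology MeasureTheory Pool.Agent.Var35 Pool.Agent.Var73
open scoped ArithmeticFunction ArithmeticFunction.Moebius

theorem mpa_rearr (N : ℕ) : ∑ q ∈ Icc 1 N, mp q =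
    ∑ d ∈ Icc 1 N, ww d / d * ((harmonic (N / d) : ℚ) : ℝ) := by
  have h1 : ∀ q ∈ Icc 1 N, mp q = ∑ d ∈ Icc 1 N, if d ∣ q then ww d / q else 0 := by
    intro q hq
    rw [mem_Icc] at hq
    have hq0 : (q : ℝ) ≠ 0 := by have : q ≠ 0 := by omega
                                 exact_mod_cast this
    have h := ww_conv q hq.1
    rw [← sum_filter, ← sum_div]
    have h2 : (Icc 1 N).filter (fun d => d ∣ q) = q.divisors := by
      ext d
      simp only [mem_filter, mem_Icc, Nat.mem_divisors]
      constructor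
      · rintro ⟨_, h⟩; exact ⟨h, by omega⟩
      · rintro ⟨h, _⟩
        have := Nat.le_of_dvd (by omega) h
        have := Nat.pos_of_dvd_of_pos h (by omega)
        exact ⟨⟨by omega, by omega⟩, h⟩
    rw [h2, ← h]
    field_simp
  rw [sum_congr rfl h1, sum_comm]
  refine sum_congr rfl fun d hd => ?_
  rw [mem_Icc] at hd
  have hd0 : (d : ℝ) ≠ 0 := by have : d ≠ 0 := by omega
                               exact_mod_cast this
  rw [harmonic_eq_sum_Icc]
  push_cast
  rw [mul_sum, ← sum_filter]
  symm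
  refine sum_bij' (fun k _ => d * k) (fun q _ => q / d) ?_ ?_ ?_ ?_ ?_
  · intro k hk
    rw [mem_Icc] at hk
    simp only [mem_filter, mem_Icc]
    have h3 : d * k ≤ N := by
      calc d * k ≤ d * (N / d) := Nat.mul_le_mul_left _ hk.2
        _ ≤ N := Nat.mul_div_le N d
    exact ⟨⟨Nat.mul_pos (by omega) (by omega), h3⟩, dvd_mul_right _ _⟩
  · intro q hq
    simp only [mem_filter, mem_Icc] at hq
    rw [mem_Icc]
    refine ⟨Nat.div_pos (Nat.le_of_dvd (by omega) hq.2) (by omega), Nat.div_le_div_right hq.1.2⟩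
  · intro k hk
    exact Nat.mul_div_cancel_left k (by omega)
  · intro q hq
    simp only [mem_filter, mem_Icc] at hq
    exact Nat.mul_div_cancel' hq.2
  · intro k hk
    rw [mem_Icc] at hk
    have hk0 : (k : ℝ) ≠ 0 := by have : k ≠ 0 := by omega
                                 exact_mod_cast this
    push_cast
    field_simp

theorem mpa_harm : Tendsto (fun y : ℝ => ((harmonic ⌊y⌋₊ : ℚ) : ℝ) - Real.log y) atTop
    (𝓝 Real.eulerMascheroniConstant) := by
  have h1 : Tendsto (fun y : ℝ => ((harmonic ⌊y⌋₊ : ℚ) : ℝ) - Real.log ⌊y⌋₊) atTop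
      (𝓝 Real.eulerMascheroniConstant) :=
    Real.tendsto_harmonic_sub_log.comp tendsto_nat_floor_atTop
  have h2 : Tendsto (fun y : ℝ => Real.log ((⌊y⌋₊ : ℝ) / y)) atTop (𝓝 0) := by
    have := ((Real.continuousAt_log (x := 1) one_ne_zero).tendsto).comp
      (tendsto_nat_floor_div_atTop (R := ℝ))
    rw [Real.log_one] at this
    exact this
  have h3 := h1.add h2
  rw [add_zero] at h3
  refine h3.congr' ?_
  filter_upwards [eventually_ge_atTop (1 : ℝ)] with y hy
  have hf : (0 : ℝ) < (⌊y⌋₊ : ℝ) := by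
    have := Nat.floor_pos.2 hy
    exact_mod_cast this
  rw [Real.log_div hf.ne' (by linarith)]
  ring

theorem mpa_bound (x : ℝ) (hx : 1 ≤ x) (d : ℕ) (hd : 1 ≤ d) :
    |((harmonic (⌊x⌋₊ / d) : ℚ) : ℝ) - Real.log x| ≤ 1 + Real.log d := by
  have hd0 : (1 : ℝ) ≤ d := by exact_mod_cast hd
  have hl : 0 ≤ Real.log d := Real.log_nonneg hd0
  have hlx : 0 ≤ Real.log x := Real.log_nonneg hx
  rw [← Nat.floor_div_natCast]
  rcases le_or_gt (d : ℝ) x with h | h
  · have h1 : 1 ≤ x / d := by rw [le_div_iff₀ (by linarith)]; linarith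
    have h2 := log_le_harmonic_floor (x / d) (by positivity)
    have h3 := harmonic_floor_le_one_add_log (x / d) h1
    rw [Real.log_div (by linarith) (by linarith)] at h2 h3
    rw [abs_le]
    constructor <;> linarith
  · have h1 : ⌊x / d⌋₊ = 0 := by
      rw [Nat.floor_eq_zero, div_lt_one (by linarith)]
      exact h
    rw [h1, harmonic_zero]
    have h2 : Real.log x ≤ Real.log d := Real.log_le_log (by linarith) h.le
    rw [abs_le]
    constructor
    · push_cast; linarith
    · push_cast; linarith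

theorem mp_sum_pr : Tendsto (fun x : ℝ => ∑ q ∈ Icc 1 ⌊x⌋₊, mp q - Real.log x) atTop (𝓝 c1) := by
  have hs := ww_summable
  have hs1 : Summable (fun d : ℕ => |ww d / d|) := by
    refine Summable.of_nonneg_of_le (fun d => abs_nonneg _) (fun d => ?_) hs
    rw [abs_div, abs_of_nonneg (Nat.cast_nonneg d : (0 : ℝ) ≤ d)]
    rcases Nat.eq_zero_or_pos d with h | h
    · subst h; simp
    · have hl : 0 ≤ Real.log d := Real.log_nonneg (by exact_mod_cast h)
      gcongr
      nlinarith [abs_nonneg (ww d)]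
  have hs2 : Summable (fun d : ℕ => ww d * Real.log d / d) := by
    refine Summable.of_norm (Summable.of_nonneg_of_le (fun d => norm_nonneg _) (fun d => ?_) hs)
    rw [Real.norm_eq_abs, abs_div, abs_of_nonneg (Nat.cast_nonneg d : (0 : ℝ) ≤ d), abs_mul]
    rcases Nat.eq_zero_or_pos d with h | h
    · subst h; simp
    · have hl : 0 ≤ Real.log d := Real.log_nonneg (by exact_mod_cast h)
      rw [abs_of_nonneg hl]
      gcongr
      linarith
  have hs3 : Summable (fun d : ℕ => ww d / d) := hs1.of_abs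
  -- the limit of the dominated series
  have hlim : Tendsto (fun x : ℝ => ∑' d : ℕ, ww d / d *
      (((harmonic (⌊x⌋₊ / d) : ℚ) : ℝ) - Real.log x)) atTop
      (𝓝 (∑' d : ℕ, ww d / d * (Real.eulerMascheroniConstant - Real.log d))) := by
    refine tendsto_tsum_of_dominated_convergence hs ?_ ?_
    · intro d
      rcases Nat.eq_zero_or_pos d with h | h
      · subst h
        simp
      · refine Tendsto.const_mul _ ?_
        have hd0 : (0 : ℝ) < d := by exact_mod_cast h
        have h1 := mpa_harm.comp (tendsto_id.atTop_div_const hd0)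
        have h2 := h1.sub_const (Real.log d)
        refine h2.congr' ?_
        filter_upwards [eventually_gt_atTop (0 : ℝ)] with x hx
        simp only [Function.comp, id]
        rw [Nat.floor_div_natCast, Real.log_div hx.ne' hd0.ne']
        ring
    · filter_upwards [eventually_ge_atTop (1 : ℝ)] with x hx d
      rcases Nat.eq_zero_or_pos d with h | h
      · subst h; simp
      · rw [norm_mul, Real.norm_eq_abs, Real.norm_eq_abs, abs_div,
          abs_of_nonneg (Nat.cast_nonneg d : (0 : ℝ) ≤ d)]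
        have hb := mpa_bound x hx d h
        calc |ww d| / d * |((harmonic (⌊x⌋₊ / d) : ℚ) : ℝ) - Real.log x|
            ≤ |ww d| / d * (1 + Real.log d) := by gcongr
          _ = |ww d| * (1 + Real.log d) / d := by ring
  have hval : ∑' d : ℕ, ww d / d * (Real.eulerMascheroniConstant - Real.log d) = c1 := by
    have h1 : ∀ d : ℕ, ww d / d * (Real.eulerMascheroniConstant - Real.log d) =
        Real.eulerMascheroniConstant * (ww d / d) - ww d * Real.log d / d := by
      intro d; ring
    simp_rw [h1]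
    rw [(hs3.mul_left _).tsum_sub hs2, tsum_mul_left, ww_one.1, ww_log.2]
    unfold c1
    ring
  rw [hval] at hlim
  refine hlim.congr' ?_
  filter_upwards [eventually_ge_atTop (1 : ℝ)] with x hx
  have h1 : ∀ d : ℕ, ww d / d * (((harmonic (⌊x⌋₊ / d) : ℚ) : ℝ) - Real.log x) =
      ww d / d * ((harmonic (⌊x⌋₊ / d) : ℚ) : ℝ) - Real.log x * (ww d / d) := by
    intro d; ring
  have h2 : ∀ d : ℕ, d ∉ Icc 1 ⌊x⌋₊ → ww d / d * ((harmonic (⌊x⌋₊ / d) : ℚ) : ℝ) = 0 := by
    intro d hd
    rw [mem_Icc, not_and_or, not_le, not_le] at hd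
    rcases hd with h | h
    · have : d = 0 := by omega
      subst this; simp
    · rw [Nat.div_eq_of_lt h, harmonic_zero]; simp
  have h3 : Summable (fun d : ℕ => ww d / d * ((harmonic (⌊x⌋₊ / d) : ℚ) : ℝ)) :=
    summable_of_ne_finset_zero h2
  simp_rw [h1]
  rw [h3.tsum_sub (hs3.mul_left _), tsum_mul_left, ww_one.1, tsum_eq_sum h2, mpa_rearr, mul_one]

alias mp_sum := mp_sum_pr

end Pool.Agent.HC
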