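import Pool.Agent.Lib_helper92.HCF.Base
import Pool.Agent.Lib_helper23.BG.Defs
import Pool.Agent.Lib_helper92.HCF.MPA

/-! HC block MPB (helper76). -/

set_option autoImplicit false

namespace Pool.Agent.HC

open Finset Filter Topology MeasureTheory Pool.Agent.Var35 Pool.Agent.Var73

theorem mpb_zero : mp 0 = 0 := by
  unfold mp
  rw [if_neg]
  intro h
  exact not_squarefree_zero h

theorem mpb_nonneg (q : ℕ) : 0 ≤ mp q := by
  unfold mp
  split_ifs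
  · positivity
  · exact le_rfl

noncomputable def mpb_P (t : ℝ) : ℝ := ∑ k ∈ Icc 0 ⌊t⌋₊, mp k

theorem mpb_P_eq (t : ℝ) : mpb_P t = ∑ k ∈ Icc 1 ⌊t⌋₊, mp k := by
  unfold mpb_P
  rw [Finset.Icc_eq_cons_Ioc (Nat.zero_le _), sum_cons, mpb_zero, zero_add]
  rfl

theorem mpb_int1 {a b c : ℝ} (ha : 0 < a) (hab : a ≤ b) :
    ∫ t in a..b, (t ^ 2)⁻¹ * (Real.log t + c) =
      -(Real.log b + 1 + c) / b + (Real.log a + 1 + c) / a := by
  have h1 : ∀ t ∈ Set.uIcc a b, HasDerivAt (fun t : ℝ => -(Real.log t + 1 + c) / t)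
      ((t ^ 2)⁻¹ * (Real.log t + c)) t := by
    intro t ht
    rw [Set.uIcc_of_le hab] at ht
    have ht0 : t ≠ 0 := (lt_of_lt_of_le ha ht.1).ne'
    have h2 := (((Real.hasDerivAt_log ht0).add_const 1).add_const c).neg.div (hasDerivAt_id t) ht0
    refine (h2.congr_deriv ?_)
    simp only [id, Pi.neg_apply]
    field_simp
    ring
  rw [intervalIntegral.integral_eq_sub_of_hasDerivAt h1]
  · ring
  · apply ContinuousOn.intervalIntegrable
    intro t ht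
    rw [Set.uIcc_of_le hab] at ht
    have ht0 : t ≠ 0 := (lt_of_lt_of_le ha ht.1).ne'
    have : ContinuousAt (fun t : ℝ => (t ^ 2)⁻¹ * (Real.log t + c)) t :=
      ((continuousAt_id.pow 2).inv₀ (pow_ne_zero 2 ht0)).mul
        ((Real.continuousAt_log ht0).add continuousAt_const)
    exact this.continuousWithinAt

theorem mpb_int2 {a b : ℝ} (ha : 0 < a) (hab : a ≤ b) :
    IntervalIntegrable (fun t : ℝ => (t ^ 2)⁻¹) volume a b ∧
    ∫ t in a..b, (t ^ 2)⁻¹ = a⁻¹ - b⁻¹ := by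
  have h0 : IntervalIntegrable (fun t : ℝ => (t ^ 2)⁻¹) volume a b := by
    apply ContinuousOn.intervalIntegrable
    intro t ht
    rw [Set.uIcc_of_le hab] at ht
    have ht0 : t ≠ 0 := (lt_of_lt_of_le ha ht.1).ne'
    exact ((continuousAt_id.pow 2).inv₀ (pow_ne_zero 2 ht0)).continuousWithinAt
  refine ⟨h0, ?_⟩
  have h1 : ∀ t ∈ Set.uIcc a b, HasDerivAt (fun t : ℝ => -t⁻¹) ((t ^ 2)⁻¹) t := by
    intro t ht
    rw [Set.uIcc_of_le hab] at ht
    have ht0 : t ≠ 0 := (lt_of_lt_of_le ha ht.1).ne'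
    have h2 := (hasDerivAt_inv ht0).neg
    rw [neg_neg] at h2
    exact h2
  rw [intervalIntegral.integral_eq_sub_of_hasDerivAt h1 h0]
  ring

/-- partial summation -/
theorem mpb_abel {a b : ℝ} (ha : 0 < a) (hab : a ≤ b) :
    IntervalIntegrable (fun t : ℝ => (t ^ 2)⁻¹ * mpb_P t) volume a b ∧
    ∑ k ∈ Ioc ⌊a⌋₊ ⌊b⌋₊, mp k / k = b⁻¹ * mpb_P b - a⁻¹ * mpb_P a +
      ∫ t in a..b, (t ^ 2)⁻¹ * mpb_P t := by
  have hc : ContinuousOn (fun t : ℝ => (t ^ 2)⁻¹) (Set.Icc a b) := by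
    intro t ht
    have ht0 : t ≠ 0 := (lt_of_lt_of_le ha ht.1).ne'
    exact ((continuousAt_id.pow 2).inv₀ (pow_ne_zero 2 ht0)).continuousWithinAt
  have hint : IntegrableOn (fun t : ℝ => (t ^ 2)⁻¹) (Set.Icc a b) := hc.integrableOn_Icc
  have h1 := integrableOn_mul_sum_Icc (a := a) (b := b) mp (m := 0) ha.le hint
  have h2 : IntervalIntegrable (fun t : ℝ => (t ^ 2)⁻¹ * mpb_P t) volume a b := by
    rw [intervalIntegrable_iff_integrableOn_Icc_of_le hab]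
    exact h1
  refine ⟨h2, ?_⟩
  have hd : ∀ t ∈ Set.Icc a b, DifferentiableAt ℝ (fun t : ℝ => t⁻¹) t := by
    intro t ht
    have ht0 : t ≠ 0 := (lt_of_lt_of_le ha ht.1).ne'
    exact differentiableAt_inv ht0
  have hder : deriv (fun t : ℝ => t⁻¹) = fun t => -(t ^ 2)⁻¹ := by
    funext t
    exact deriv_inv
  have h3 := sum_mul_eq_sub_sub_integral_mul (f := fun t : ℝ => t⁻¹) mp ha.le hab hd
    (by rw [hder]; exact hint.neg)
  rw [hder] at h3
  have h4 : ∑ k ∈ Ioc ⌊a⌋₊ ⌊b⌋₊, mp k / k = ∑ k ∈ Ioc ⌊a⌋₊ ⌊b⌋₊, (k : ℝ)⁻¹ * mp k :=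
    sum_congr rfl fun k _ => by rw [div_eq_inv_mul]
  rw [h4, h3, intervalIntegral.integral_of_le hab]
  unfold mpb_P
  have h5 : ∫ t in Set.Ioc a b, -(t ^ 2)⁻¹ * ∑ k ∈ Icc 0 ⌊t⌋₊, mp k =
      - ∫ t in Set.Ioc a b, (t ^ 2)⁻¹ * ∑ k ∈ Icc 0 ⌊t⌋₊, mp k := by
    rw [← integral_neg]
    refine integral_congr_ae (Eventually.of_forall fun t => ?_)
    show _ = _
    ring
  rw [h5]
  ring

theorem mpb_key (ε : ℝ) (hε : 0 < ε) : ∃ T : ℝ, 1 ≤ T ∧ ∀ a b : ℝ, T ≤ a → a ≤ b →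
    |∑ k ∈ Ioc ⌊a⌋₊ ⌊b⌋₊, mp k / k - (a⁻¹ - b⁻¹)| ≤ 2 * ε * a⁻¹ := by
  have h1 := Metric.tendsto_atTop.mp mp_sum ε hε
  obtain ⟨T, hT⟩ := h1
  refine ⟨max T 1, le_max_right _ _, fun a b ha hab => ?_⟩
  have ha1 : 1 ≤ a := (le_max_right _ _).trans ha
  have ha0 : 0 < a := by linarith
  have hb0 : 0 < b := by linarith
  have hE : ∀ t, a ≤ t → |mpb_P t - (Real.log t + c1)| ≤ ε := by
    intro t ht
    have h2 := hT t ((le_max_left _ _).trans (ha.trans ht))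
    rw [Real.dist_eq, ← mpb_P_eq] at h2
    have e : mpb_P t - (Real.log t + c1) = mpb_P t - Real.log t - c1 := by ring
    rw [e]
    exact h2.le
  obtain ⟨hI, hS⟩ := mpb_abel ha0 hab
  rw [hS]
  have i1 := mpb_int1 (c := c1) ha0 hab
  obtain ⟨hI2, i2⟩ := mpb_int2 ha0 hab
  have hI3 : IntervalIntegrable (fun t : ℝ => (t ^ 2)⁻¹ * (Real.log t + c1)) volume a b := by
    apply ContinuousOn.intervalIntegrable
    intro t ht
    rw [Set.uIcc_of_le hab] at ht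
    have ht0 : t ≠ 0 := (lt_of_lt_of_le ha0 ht.1).ne'
    have : ContinuousAt (fun t : ℝ => (t ^ 2)⁻¹ * (Real.log t + c1)) t :=
      ((continuousAt_id.pow 2).inv₀ (pow_ne_zero 2 ht0)).mul
        ((Real.continuousAt_log ht0).add continuousAt_const)
    exact this.continuousWithinAt
  have h3 : |(∫ t in a..b, (t ^ 2)⁻¹ * mpb_P t) - ∫ t in a..b, (t ^ 2)⁻¹ * (Real.log t + c1)| ≤
      ε * (a⁻¹ - b⁻¹) := by
    rw [← intervalIntegral.integral_sub hI hI3, ← i2, ← intervalIntegral.integral_const_mul,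
      ← Real.norm_eq_abs]
    refine intervalIntegral.norm_integral_le_of_norm_le hab ?_ (hI2.const_mul ε)
    refine Eventually.of_forall fun t ht => ?_
    rw [← mul_sub, norm_mul, Real.norm_eq_abs, Real.norm_eq_abs, mul_comm]
    have h4 := hE t ht.1.le
    have h5 : |(t ^ 2)⁻¹| = (t ^ 2)⁻¹ := abs_of_nonneg (by positivity)
    rw [h5]
    exact mul_le_mul_of_nonneg_right h4 (by positivity)
  have hEa := hE a le_rfl
  have hEb := hE b hab
  rw [i1] at h3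
  have hai : 0 < a⁻¹ := by positivity
  have hbi : 0 < b⁻¹ := by positivity
  have h6 : |a⁻¹ * (mpb_P a - (Real.log a + c1))| ≤ a⁻¹ * ε := by
    rw [abs_mul, abs_of_pos hai]
    exact mul_le_mul_of_nonneg_left hEa hai.le
  have h7 : |b⁻¹ * (mpb_P b - (Real.log b + c1))| ≤ b⁻¹ * ε := by
    rw [abs_mul, abs_of_pos hbi]
    exact mul_le_mul_of_nonneg_left hEb hbi.le
  rw [abs_le] at h3 h6 h7 ⊢
  have e1 : -(Real.log b + 1 + c1) / b + (Real.log a + 1 + c1) / a =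
      -(Real.log b + 1 + c1) * b⁻¹ + (Real.log a + 1 + c1) * a⁻¹ := by
    rw [div_eq_mul_inv, div_eq_mul_inv]
  rw [e1] at h3
  constructor
  · nlinarith [h3.1, h3.2, h6.1, h6.2, h7.1, h7.2]
  · nlinarith [h3.1, h3.2, h6.1, h6.2, h7.1, h7.2]

theorem mpb_lim (s : ℝ) (hs0 : 0 ≤ s) (hs1 : s ≤ 1) (j J : ℕ) (hj : 1 ≤ j) (hjJ : j ≤ J) :
    Tendsto (fun x : ℝ => x * ∑ k ∈ Ioc ⌊j * x - s⌋₊ ⌊J * x⌋₊, mp k / k) atTop
      (𝓝 (1 / j - 1 / J)) := by
  have hj0 : (1 : ℝ) ≤ j := by exact_mod_cast hj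
  have hJ0 : (j : ℝ) ≤ J := by exact_mod_cast hjJ
  have hl : Tendsto (fun x : ℝ => x * ((j * x - s)⁻¹ - (J * x)⁻¹)) atTop
      (𝓝 (1 / j - 1 / J)) := by
    have h1 : Tendsto (fun x : ℝ => 1 / (j - s * x⁻¹) - 1 / (J : ℝ)) atTop
        (𝓝 (1 / (j - s * 0) - 1 / (J : ℝ))) := by
      refine Tendsto.sub ?_ tendsto_const_nhds
      refine Tendsto.div tendsto_const_nhds ?_ (by simp; omega)
      exact tendsto_const_nhds.sub (tendsto_const_nhds.mul tendsto_inv_atTop_zero)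
    rw [mul_zero, sub_zero] at h1
    refine h1.congr' ?_
    filter_upwards [eventually_gt_atTop 2] with x hx
    have hx0 : x ≠ 0 := by linarith
    have h2 : (j : ℝ) * x - s ≠ 0 := by nlinarith
    have h3 : (J : ℝ) ≠ 0 := by linarith
    have h4 : (j : ℝ) - s * x⁻¹ ≠ 0 := by
      intro h5
      apply h2
      have : (j : ℝ) * x - s = ((j : ℝ) - s * x⁻¹) * x := by field_simp
      rw [this, h5, zero_mul]
    have e1 : (j : ℝ) - s * x⁻¹ = (j * x - s) * x⁻¹ := by field_simp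
    rw [e1]
    field_simp
  rw [← sub_zero (1 / (j : ℝ) - 1 / (J : ℝ))] at hl ⊢
  have hdiff : Tendsto (fun x : ℝ => x * ∑ k ∈ Ioc ⌊j * x - s⌋₊ ⌊J * x⌋₊, mp k / k -
      x * ((j * x - s)⁻¹ - (J * x)⁻¹)) atTop (𝓝 0) := by
    rw [Metric.tendsto_atTop]
    intro ε hε
    obtain ⟨T, hT1, hT⟩ := mpb_key (ε / 8) (by positivity)
    refine ⟨T + 2, fun x hx => ?_⟩
    have hx2 : 2 ≤ x := by linarith
    have ha : T ≤ j * x - s := by nlinarith
    have hab : (j : ℝ) * x - s ≤ J * x := by nlinarith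
    have h1 := hT _ _ ha hab
    rw [Real.dist_eq, sub_zero, ← mul_sub, abs_mul, abs_of_pos (by linarith : 0 < x)]
    have ha0 : 0 < (j : ℝ) * x - s := by linarith
    have h2 : x * ((j : ℝ) * x - s)⁻¹ ≤ 2 := by
      rw [← div_eq_mul_inv, div_le_iff₀ ha0]
      nlinarith
    calc x * |∑ k ∈ Ioc ⌊j * x - s⌋₊ ⌊J * x⌋₊, mp k / k - ((j * x - s)⁻¹ - (J * x)⁻¹)|
        ≤ x * (2 * (ε / 8) * ((j : ℝ) * x - s)⁻¹) :=
          mul_le_mul_of_nonneg_left h1 (by linarith)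
      _ = (2 * (ε / 8)) * (x * ((j : ℝ) * x - s)⁻¹) := by ring
      _ ≤ (2 * (ε / 8)) * 2 := mul_le_mul_of_nonneg_left h2 (by positivity)
      _ < ε := by linarith
  have h3 := hdiff.add hl
  simp only [sub_zero, zero_add] at h3 ⊢
  refine h3.congr fun x => ?_
  ring

/-- MPB (uses mp_sum) -/
theorem mp_tail_pr (j J : ℕ) (hj : 1 ≤ j) (hjJ : j ≤ J) :
    Tendsto (fun x : ℝ => x * ∑ q ∈ (Icc 1 ⌊J * x⌋₊).filter (fun q : ℕ => j * x ≤ q), mp q / q)
      atTop (𝓝 (1 / j - 1 / J)) := by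
  have hj0 : (1 : ℝ) ≤ j := by exact_mod_cast hj
  refine tendsto_of_tendsto_of_tendsto_of_le_of_le' (mpb_lim 0 le_rfl zero_le_one j J hj hjJ)
    (mpb_lim (1 / 2) (by norm_num) (by norm_num) j J hj hjJ) ?_ ?_
  · filter_upwards [eventually_gt_atTop 2] with x hx
    apply mul_le_mul_of_nonneg_left _ (by linarith)
    apply sum_le_sum_of_subset_of_nonneg
    · intro q hq
      rw [mem_Ioc, sub_zero] at hq
      rw [mem_filter, mem_Icc]
      refine ⟨⟨by omega, hq.2⟩, ?_⟩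
      exact ((Nat.floor_lt (by positivity)).mp hq.1).le
    · intro q _ _
      exact div_nonneg (mpb_nonneg q) (Nat.cast_nonneg q)
  · filter_upwards [eventually_gt_atTop 2] with x hx
    apply mul_le_mul_of_nonneg_left _ (by linarith)
    apply sum_le_sum_of_subset_of_nonneg
    · intro q hq
      rw [mem_filter, mem_Icc] at hq
      rw [mem_Ioc]
      refine ⟨?_, hq.1.2⟩
      rw [Nat.floor_lt (by nlinarith)]
      linarith [hq.2]
    · intro q _ _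
      exact div_nonneg (mpb_nonneg q) (Nat.cast_nonneg q)

alias mp_tail := mp_tail_pr

end Pool.Agent.HC
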