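import Pool.Agent.Lib_helper92.HCF.Base
import Pool.Agent.Lib_helper23.BG.Defs
import Pool.Agent.Lib_helper92.HCF.MPA
import Pool.Agent.Lib_helper92.HCF.MPB

set_option autoImplicit false

namespace Pool.Agent.HC

open Finset Complex Filter Topology MeasureTheory Pool.Agent.Var35 Pool.Agent.Var73
open scoped ArithmeticFunction ArithmeticFunction.Moebius

lemma TTL_floor (J : ℕ) (x : ℝ) (hx : 0 < x) (q : ℕ) (hq : (q : ℝ) ≤ J * x) :
    ((⌊(q : ℝ) / x⌋₊ : ℕ) : ℝ) = ∑ j ∈ Icc 1 J, (if (j : ℝ) * x ≤ q then (1 : ℝ) else 0) := by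
  rw [← Finset.sum_filter, Finset.sum_const, nsmul_eq_mul, mul_one]
  congr 1
  have : (Icc 1 J).filter (fun j : ℕ => (j : ℝ) * x ≤ q) = Icc 1 ⌊(q : ℝ) / x⌋₊ := by
    ext j
    simp only [mem_filter, mem_Icc]
    constructor
    · rintro ⟨⟨h1, h2⟩, h3⟩
      refine ⟨h1, ?_⟩
      rw [Nat.le_floor_iff (by positivity), le_div_iff₀ hx]
      exact h3
    · rintro ⟨h1, h2⟩
      rw [Nat.le_floor_iff (by positivity), le_div_iff₀ hx] at h2
      refine ⟨⟨h1, ?_⟩, h2⟩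
      have h3 : (j : ℝ) * x ≤ J * x := h2.trans hq
      exact_mod_cast le_of_mul_le_mul_right h3 hx
  rw [this, Nat.card_Icc]
  omega

lemma TTL_ident (J : ℕ) (x : ℝ) (hx : 0 < x) :
    TT J x = ∑ q ∈ Icc 1 ⌊J * x⌋₊, mp q -
      ∑ j ∈ Icc 1 J, x * ∑ q ∈ (Icc 1 ⌊J * x⌋₊).filter (fun q : ℕ => j * x ≤ q), mp q / q := by
  unfold TT
  have h1 : ∀ q ∈ Icc 1 ⌊J * x⌋₊, mp q * kk (q / x) =
      mp q - ∑ j ∈ Icc 1 J, (if (j : ℝ) * x ≤ q then x * (mp q / q) else 0) := by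
    intro q hq
    rw [mem_Icc] at hq
    have hq0 : (0 : ℝ) < q := by exact_mod_cast hq.1
    have hqJ : (q : ℝ) ≤ J * x := by
      have := hq.2
      rwa [Nat.le_floor_iff (by positivity)] at this
    unfold kk
    rw [TTL_floor J x hx q hqJ]
    have h2 : ∑ j ∈ Icc 1 J, (if (j : ℝ) * x ≤ q then x * (mp q / q) else 0) =
        (∑ j ∈ Icc 1 J, (if (j : ℝ) * x ≤ q then (1 : ℝ) else 0)) * (x * (mp q / q)) := by
      rw [Finset.sum_mul]
      refine Finset.sum_congr rfl (fun j _ => ?_)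
      split_ifs <;> ring
    rw [h2]
    generalize (∑ j ∈ Icc 1 J, (if (j : ℝ) * x ≤ q then (1 : ℝ) else 0)) = T
    field_simp
  rw [Finset.sum_congr rfl h1, Finset.sum_sub_distrib, Finset.sum_comm]
  congr 1
  refine Finset.sum_congr rfl (fun j _ => ?_)
  rw [Finset.mul_sum, ← Finset.sum_filter]

theorem tt_lim_pr (J : ℕ) (hJ : 1 ≤ J) : Tendsto (fun x : ℝ => TT J x - Real.log x) atTop
    (𝓝 (c1 + Real.log J - ∑ j ∈ Icc 1 J, (1 : ℝ) / j + 1)) := by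
  have hJ0 : (0 : ℝ) < J := by exact_mod_cast hJ
  have h1 : Tendsto (fun x : ℝ => ∑ q ∈ Icc 1 ⌊(J : ℝ) * x⌋₊, mp q - Real.log ((J : ℝ) * x)) atTop
      (𝓝 c1) := mp_sum.comp (tendsto_id.const_mul_atTop hJ0)
  have h2 : Tendsto (fun x : ℝ => ∑ j ∈ Icc 1 J,
      x * ∑ q ∈ (Icc 1 ⌊J * x⌋₊).filter (fun q : ℕ => j * x ≤ q), mp q / q) atTop
      (𝓝 (∑ j ∈ Icc 1 J, (1 / (j : ℝ) - 1 / J))) := by
    refine tendsto_finsetSum _ (fun j hj => ?_)
    rw [mem_Icc] at hj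
    exact mp_tail j J hj.1 hj.2
  have h3 := (h1.add_const (Real.log J)).sub h2
  have h4 : c1 + Real.log J - ∑ j ∈ Icc 1 J, (1 / (j : ℝ) - 1 / J) =
      c1 + Real.log J - ∑ j ∈ Icc 1 J, (1 : ℝ) / j + 1 := by
    rw [Finset.sum_sub_distrib, Finset.sum_const, Nat.card_Icc, nsmul_eq_mul]
    have : ((J + 1 - 1 : ℕ) : ℝ) * (1 / (J : ℝ)) = 1 := by
      rw [Nat.add_sub_cancel]; field_simp
    rw [this]; ring
  rw [h4] at h3
  refine h3.congr' ?_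
  filter_upwards [eventually_gt_atTop 0] with x hx
  rw [TTL_ident J x hx, Real.log_mul hJ0.ne' hx.ne']
  ring

alias tt_lim := tt_lim_pr

end Pool.Agent.HC
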