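import Pool.Agent.Lib_helper92.HCF.Base
import Pool.Agent.Lib_helper23.BG.Defs
import Pool.Agent.Lib_helper92.HCF.TTL

set_option autoImplicit false

namespace Pool.Agent.HC

open Finset Complex Filter Topology MeasureTheory Pool.Agent.Var35 Pool.Agent.Var73
open scoped ArithmeticFunction ArithmeticFunction.Moebius

theorem tt_low_pr (η : ℝ) (hη : 0 < η) : ∃ J : ℕ, 1 ≤ J ∧ ∃ x₀ : ℝ, 1 ≤ x₀ ∧ ∀ x, x₀ ≤ x →
    Real.log x + c1 + 1 - Real.eulerMascheroniConstant - η ≤ TT J x := by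
  have h1 := Real.tendsto_harmonic_sub_log
  have h2 : ∀ᶠ n : ℕ in atTop, (harmonic n : ℝ) - Real.log n <
      Real.eulerMascheroniConstant + η / 2 :=
    h1.eventually_lt_const (by linarith)
  obtain ⟨J, hJ, hJ1⟩ := (h2.and (eventually_ge_atTop 1)).exists
  have hJ' : ∑ j ∈ Icc 1 J, (1 : ℝ) / j - Real.log J < Real.eulerMascheroniConstant + η / 2 := by
    have e : (harmonic J : ℝ) = ∑ j ∈ Icc 1 J, (1 : ℝ) / j := by
      rw [harmonic_eq_sum_Icc]
      push_cast
      exact Finset.sum_congr rfl fun j _ => by rw [one_div]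
    rw [← e]
    exact hJ
  have h3 := tt_lim J hJ1
  have h4 : ∀ᶠ x : ℝ in atTop, c1 + 1 - Real.eulerMascheroniConstant - η < TT J x - Real.log x :=
    h3.eventually_const_lt (by linarith)
  obtain ⟨x₀, hx₀⟩ := (h4.and (eventually_ge_atTop 1)).exists_forall_of_atTop
  refine ⟨J, hJ1, x₀, (hx₀ x₀ le_rfl).2, fun x hx => ?_⟩
  have := (hx₀ x hx).1
  linarith

alias tt_low := tt_low_pr

end Pool.Agent.HC
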