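import Pool.Agent.Lib_helper92.HCF.Base
import Pool.Agent.Lib_helper23.BG.Defs
import Pool.Agent.Lib_helper92.HCF.TTW
import Pool.Agent.Lib_helper92.HCF.SCI
import Pool.Agent.Lib_helper92.HCF.SCL

set_option autoImplicit false

namespace Pool.Agent.HC

open Finset Complex MeasureTheory Filter Topology Pool.Agent.Var35 Pool.Agent.Var73
open scoped ArithmeticFunction ArithmeticFunction.Moebius

lemma mte_mp_nonneg (q : ℕ) : 0 ≤ mp q := by
  unfold mp
  split_ifs <;> positivity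

lemma mte_kk_nonneg (v : ℝ) : 0 ≤ kk v := by
  unfold kk
  rcases le_or_gt v 0 with h | h
  · rw [Nat.floor_of_nonpos h]; simp
  · rw [sub_nonneg, div_le_one h]
    exact Nat.floor_le h.le

lemma mte_kk_le (v : ℝ) : kk v ≤ 1 := by
  unfold kk
  rcases le_or_gt v 0 with h | h
  · rw [Nat.floor_of_nonpos h]; simp
  · have : 0 ≤ (⌊v⌋₊ : ℝ) / v := by positivity
    linarith

lemma mte_kk_meas : Measurable kk := by
  unfold kk
  have h : Measurable fun v : ℝ => ((⌊v⌋₊ : ℕ) : ℝ) :=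
    (measurable_from_top (f := fun n : ℕ => (n : ℝ))).comp Nat.measurable_floor
  exact measurable_const.sub (h.div measurable_id)

lemma mte_sc_nonneg (u : ℝ) : 0 ≤ sc u := by unfold sc; positivity

lemma mte_sc_le_one (u : ℝ) : sc u ≤ 1 := by
  unfold sc
  rw [div_pow]
  apply div_le_one_of_le₀ _ (sq_nonneg _)
  rw [sq_le_sq]
  exact Real.abs_sin_le_abs

lemma mte_sc_le_inv {u : ℝ} (hu : 0 < u) : sc u ≤ u ^ (-2 : ℝ) := by
  unfold sc
  have hpi := Real.pi_gt_three
  rw [div_pow, Real.rpow_neg hu.le, Real.rpow_two, ← one_div]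
  have h1 : Real.sin (Real.pi * u) ^ 2 ≤ 1 := by
    have := Real.sin_sq_add_cos_sq (Real.pi * u)
    nlinarith [sq_nonneg (Real.cos (Real.pi * u))]
  apply div_le_div₀ zero_le_one h1 (by positivity)
  rw [mul_pow]
  have : 1 ≤ Real.pi ^ 2 := by nlinarith
  nlinarith [sq_nonneg u]

lemma mte_F_int (R : ℕ) (R₀ : ℝ) :
    IntegrableOn (fun u => sc u * ∑ q ∈ Icc 1 R, mp q * kk (q / R₀ * u)) (Set.Ioi 0) := by
  have h : (fun u => sc u * ∑ q ∈ Icc 1 R, mp q * kk (q / R₀ * u)) =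
      fun u => ∑ q ∈ Icc 1 R, mp q * (sc u * kk (q / R₀ * u)) := by
    funext u
    rw [mul_sum]
    exact sum_congr rfl fun q _ => by ring
  rw [h]
  apply integrable_finsetSum
  intro q _
  apply Integrable.const_mul
  refine sc_int.1.mono' ?_ ?_
  · exact sc_int.1.aestronglyMeasurable.mul
      (mte_kk_meas.comp (measurable_const.mul measurable_id)).aestronglyMeasurable
  · filter_upwards with u
    rw [Real.norm_eq_abs, abs_of_nonneg (mul_nonneg (mte_sc_nonneg u) (mte_kk_nonneg _))]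
    exact mul_le_of_le_one_right (mte_sc_nonneg u) (mte_kk_le _)

lemma mte_sum (R : ℕ) (R₀ B : ℝ) (hB : 0 ≤ B) :
    ∑ q ∈ Icc 1 R, mp q * (2 * ∫ u in (0 : ℝ)..B, sc u * kk (q / R₀ * u)) =
      2 * ∫ u in Set.Ioc 0 B, sc u * ∑ q ∈ Icc 1 R, mp q * kk (q / R₀ * u) := by
  have h : (fun u => sc u * ∑ q ∈ Icc 1 R, mp q * kk (q / R₀ * u)) =
      fun u => ∑ q ∈ Icc 1 R, mp q * (sc u * kk (q / R₀ * u)) := by
    funext u
    rw [mul_sum]
    exact sum_congr rfl fun q _ => by ring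
  rw [h, integral_finsetSum, mul_sum]
  · apply sum_congr rfl
    intro q _
    rw [intervalIntegral.integral_of_le hB, integral_const_mul]
    ring
  · intro q _
    apply Integrable.const_mul
    have hi : IntegrableOn (fun u => sc u * kk (q / R₀ * u)) (Set.Ioi 0) := by
      refine sc_int.1.mono' ?_ ?_
      · exact sc_int.1.aestronglyMeasurable.mul
          (mte_kk_meas.comp (measurable_const.mul measurable_id)).aestronglyMeasurable
      · filter_upwards with u
        rw [Real.norm_eq_abs, abs_of_nonneg (mul_nonneg (mte_sc_nonneg u) (mte_kk_nonneg _))]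
        exact mul_le_of_le_one_right (mte_sc_nonneg u) (mte_kk_le _)
    exact hi.mono_set Set.Ioc_subset_Ioi_self

lemma mte_low {J R : ℕ} {R₀ u : ℝ} (hR₀ : 0 < R₀) (hu : 0 < u) (hR : J * R₀ / u ≤ R) :
    TT J (R₀ / u) ≤ ∑ q ∈ Icc 1 R, mp q * kk (q / R₀ * u) := by
  unfold TT
  have h1 : ∀ q : ℕ, mp q * kk (q / (R₀ / u)) = mp q * kk (q / R₀ * u) := by
    intro q
    congr 2
    field_simp
  simp_rw [h1]
  apply sum_le_sum_of_subset_of_nonneg
  · apply Icc_subset_Icc_right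
    apply Nat.floor_le_of_le
    rw [← mul_div_assoc]
    exact hR
  · intro q _ _
    exact mul_nonneg (mte_mp_nonneg q) (mte_kk_nonneg _)

lemma mte_log {u : ℝ} (hu : 0 < u) : - Real.log u ≤ 2 * u ^ (-(1 / 2) : ℝ) := by
  have h := Real.log_le_sub_one_of_pos (Real.rpow_pos_of_pos hu (-(1 / 2)))
  rw [Real.log_rpow hu] at h
  linarith

lemma mte_sqrt_int {v : ℝ} (hv : 0 ≤ v) :
    IntegrableOn (fun u : ℝ => u ^ (-(1 / 2) : ℝ)) (Set.Ioc 0 v) ∧
    ∫ u in Set.Ioc 0 v, u ^ (-(1 / 2) : ℝ) = 2 * Real.sqrt v := by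
  constructor
  · exact (intervalIntegral.intervalIntegrable_rpow' (by norm_num)).1
  · rw [← intervalIntegral.integral_of_le hv, integral_rpow (Or.inl (by norm_num))]
    have : (-(1 / 2) : ℝ) + 1 = 1 / 2 := by norm_num
    rw [this, Real.zero_rpow (by norm_num), Real.sqrt_eq_rpow]
    ring

lemma mte_inv_int {x : ℝ} (hx : 0 < x) : IntegrableOn (fun u : ℝ => u ^ (-2 : ℝ)) (Set.Ioi x) ∧
    ∫ u in Set.Ioi x, u ^ (-2 : ℝ) = x⁻¹ := by
  constructor
  · exact integrableOn_Ioi_rpow_of_lt (by norm_num) hx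
  · rw [integral_Ioi_rpow_of_lt (by norm_num) hx]
    have : (-2 : ℝ) + 1 = -1 := by norm_num
    rw [this, Real.rpow_neg_one]
    ring

/-- the main inequality -/
lemma mte_main {J R : ℕ} {x₀ R₀ B L K η : ℝ} (hx₀ : 1 ≤ x₀) (hR₀ : 1 ≤ R₀) (hB : 1 ≤ B)
    (_hx : 1 ≤ R₀ / x₀) (hL : L = Real.log R₀) (hη : 0 ≤ η)
    (hK : K = |c1 + 1 - Real.eulerMascheroniConstant|) (hR : 0 < (R : ℝ))
    (_hu0 : J * R₀ / R ≤ 1)
    (hT : ∀ x, x₀ ≤ x → Real.log x + c1 + 1 - Real.eulerMascheroniConstant - η ≤ TT J x) :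
    (L + c1 + Real.log (2 * Real.pi) - η) / 2 ≤
      (∫ u in Set.Ioc 0 B, sc u * ∑ q ∈ Icc 1 R, mp q * kk (q / R₀ * u)) +
      ((L + K) * (J * R₀ / R) + 4 * Real.sqrt (J * R₀ / R)) + (L + K) * B⁻¹ +
      (K + Real.log x₀) * (R₀ / x₀)⁻¹ := by
  have hR₀' : 0 < R₀ := by linarith
  have hx₀' : 0 < x₀ := by linarith
  have hB' : 0 < B := by linarith
  have hL0 : 0 ≤ L := hL ▸ Real.log_nonneg hR₀
  have hK0 : 0 ≤ K := hK ▸ abs_nonneg _
  have hKle : c1 + 1 - Real.eulerMascheroniConstant ≤ K := hK ▸ le_abs_self _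
  have hlx : 0 ≤ Real.log x₀ := Real.log_nonneg hx₀
  set v := J * R₀ / R with hv
  have hv0 : 0 ≤ v := by positivity
  set F : ℝ → ℝ := fun u => ∑ q ∈ Icc 1 R, mp q * kk (q / R₀ * u) with hF
  have hF0 : ∀ u, 0 ≤ F u := fun u =>
    sum_nonneg fun q _ => mul_nonneg (mte_mp_nonneg q) (mte_kk_nonneg _)
  have hFi : IntegrableOn (fun u => sc u * F u) (Set.Ioi 0) := mte_F_int R R₀
  set K0 := L + c1 + 1 - Real.eulerMascheroniConstant - η with hK0d
  -- the left side
  have hleft : ∫ u in Set.Ioi (0 : ℝ), (K0 * sc u - sc u * Real.log u) =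
      (L + c1 + Real.log (2 * Real.pi) - η) / 2 := by
    rw [integral_sub (sc_int.1.const_mul _) sc_log.1, integral_const_mul, sc_int.2, sc_log.2]
    rw [hK0d]; ring
  have hlefti : IntegrableOn (fun u => K0 * sc u - sc u * Real.log u) (Set.Ioi 0) :=
    (sc_int.1.const_mul _).sub sc_log.1
  -- the right side
  set g1 : ℝ → ℝ := Set.indicator (Set.Ioc 0 B) (fun u => sc u * F u) with hg1
  set g2 : ℝ → ℝ := Set.indicator (Set.Ioc 0 v) (fun u => (L + K) + 2 * u ^ (-(1 / 2) : ℝ)) with hg2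
  set g3 : ℝ → ℝ := Set.indicator (Set.Ioi B) (fun u => (L + K) * u ^ (-2 : ℝ)) with hg3
  set g4 : ℝ → ℝ := Set.indicator (Set.Ioi (R₀ / x₀)) (fun u => (K + Real.log x₀) * u ^ (-2 : ℝ))
    with hg4
  have i1 : IntegrableOn g1 (Set.Ioi 0) := by
    rw [hg1]
    exact hFi.indicator measurableSet_Ioc
  have i2' : IntegrableOn (fun u : ℝ => (L + K) + 2 * u ^ (-(1 / 2) : ℝ)) (Set.Ioc 0 v) :=
    (integrableOn_const (by simp)).add ((mte_sqrt_int hv0).1.const_mul 2)
  have i2 : IntegrableOn g2 (Set.Ioi 0) := by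
    rw [hg2, integrableOn_indicator_iff measurableSet_Ioc]
    exact i2'.mono_set Set.inter_subset_left
  have i3 : IntegrableOn g3 (Set.Ioi 0) := by
    rw [hg3, integrableOn_indicator_iff measurableSet_Ioi]
    exact IntegrableOn.mono_set ((mte_inv_int hB').1.const_mul _) Set.inter_subset_left
  have i4 : IntegrableOn g4 (Set.Ioi 0) := by
    rw [hg4, integrableOn_indicator_iff measurableSet_Ioi]
    exact IntegrableOn.mono_set ((mte_inv_int (by positivity : 0 < R₀ / x₀)).1.const_mul _)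
      Set.inter_subset_left
  have hpt : ∀ u ∈ Set.Ioi (0 : ℝ), K0 * sc u - sc u * Real.log u ≤ g1 u + g2 u + g3 u + g4 u := by
    intro u hu
    have hu' : 0 < u := hu
    have hsc0 := mte_sc_nonneg u
    have n1 : 0 ≤ g1 u := Set.indicator_nonneg (fun w _ => mul_nonneg (mte_sc_nonneg w) (hF0 w)) u
    have n2 : 0 ≤ g2 u := Set.indicator_nonneg (fun w hw => by
      have : 0 < w := hw.1
      positivity) u
    have n3 : 0 ≤ g3 u := Set.indicator_nonneg (fun w hw => by
      have : 0 < w := hB'.trans hw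
      positivity) u
    have n4 : 0 ≤ g4 u := Set.indicator_nonneg (fun w (hw : R₀ / x₀ < w) => by
      have : 0 < w := lt_trans (by positivity) hw
      positivity) u
    have hrw : K0 * sc u - sc u * Real.log u = sc u * (K0 - Real.log u) := by ring
    rw [hrw]
    have hP : K0 - Real.log u ≤ L + K - Real.log u := by rw [hK0d]; linarith
    by_cases h1 : u ≤ v
    · have e2 : g2 u = (L + K) + 2 * u ^ (-(1 / 2) : ℝ) := by
        rw [hg2, Set.indicator_of_mem]; exact ⟨hu', h1⟩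
      have h2 := mte_log hu'
      have h3 : K0 - Real.log u ≤ g2 u := by rw [e2]; linarith
      have h4 : sc u * (K0 - Real.log u) ≤ sc u * g2 u := mul_le_mul_of_nonneg_left h3 hsc0
      have h5 : sc u * g2 u ≤ g2 u := mul_le_of_le_one_left n2 (mte_sc_le_one u)
      linarith
    · push Not at h1
      by_cases h2 : B < u
      · have e3 : g3 u = (L + K) * u ^ (-2 : ℝ) := by
          rw [hg3, Set.indicator_of_mem]; exact h2
        have h3 : 0 ≤ Real.log u := Real.log_nonneg (by linarith)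
        have h4 : sc u * (K0 - Real.log u) ≤ sc u * (L + K) :=
          mul_le_mul_of_nonneg_left (by linarith) hsc0
        have h5 : sc u * (L + K) ≤ u ^ (-2 : ℝ) * (L + K) :=
          mul_le_mul_of_nonneg_right (mte_sc_le_inv hu') (by linarith)
        linarith
      · push Not at h2
        by_cases h3 : R₀ / x₀ < u
        · have e4 : g4 u = (K + Real.log x₀) * u ^ (-2 : ℝ) := by
            rw [hg4, Set.indicator_of_mem]; exact h3
          have h4 : L - Real.log x₀ ≤ Real.log u := by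
            rw [hL, ← Real.log_div hR₀'.ne' hx₀'.ne']
            exact Real.log_le_log (by positivity) h3.le
          have h5 : sc u * (K0 - Real.log u) ≤ sc u * (K + Real.log x₀) :=
            mul_le_mul_of_nonneg_left (by linarith) hsc0
          have h6 : sc u * (K + Real.log x₀) ≤ u ^ (-2 : ℝ) * (K + Real.log x₀) :=
            mul_le_mul_of_nonneg_right (mte_sc_le_inv hu') (by linarith)
          linarith
        · push Not at h3
          have e1 : g1 u = sc u * F u := by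
            rw [hg1, Set.indicator_of_mem]; exact ⟨hu', h2⟩
          have h4 : J * R₀ / u ≤ R := by
            rw [div_le_iff₀ hu', mul_comm (R : ℝ)]
            rw [hv, div_lt_iff₀ hR] at h1
            exact h1.le
          have h5 := mte_low hR₀' hu' h4
          have h6 : x₀ ≤ R₀ / u := by
            rw [le_div_iff₀ hu', mul_comm]
            rwa [le_div_iff₀ hx₀'] at h3
          have h7 := hT _ h6
          rw [Real.log_div hR₀'.ne' hu'.ne', ← hL] at h7
          have h8 : K0 - Real.log u ≤ F u := by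
            refine le_trans ?_ (h7.trans h5)
            rw [hK0d]; linarith
          have h9 := mul_le_mul_of_nonneg_left h8 hsc0
          linarith
  have hint := setIntegral_mono_on hlefti (((i1.add i2).add i3).add i4) measurableSet_Ioi hpt
  simp only [Pi.add_apply] at hint
  rw [hleft] at hint
  refine hint.trans (le_of_eq ?_)
  have s1 := integral_add ((i1.add i2).add i3) i4
  have s2 := integral_add (i1.add i2) i3
  have s3 := integral_add i1 i2
  simp only [Pi.add_apply] at s1 s2 s3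
  rw [s1, s2, s3]
  have v1 : ∫ u in Set.Ioi (0 : ℝ), g1 u = ∫ u in Set.Ioc 0 B, sc u * F u := by
    rw [hg1, setIntegral_indicator measurableSet_Ioc,
      Set.inter_eq_self_of_subset_right Set.Ioc_subset_Ioi_self]
  have ic : Integrable (fun _ : ℝ => L + K) (volume.restrict (Set.Ioc 0 v)) :=
    integrableOn_const (by simp)
  have v2 : ∫ u in Set.Ioi (0 : ℝ), g2 u = (L + K) * v + 4 * Real.sqrt v := by
    rw [hg2, setIntegral_indicator measurableSet_Ioc,
      Set.inter_eq_self_of_subset_right Set.Ioc_subset_Ioi_self,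
      integral_add ic ((mte_sqrt_int hv0).1.const_mul 2), integral_const_mul, (mte_sqrt_int hv0).2, setIntegral_const]
    simp [hv0]
    ring
  have v3 : ∫ u in Set.Ioi (0 : ℝ), g3 u = (L + K) * B⁻¹ := by
    rw [hg3, setIntegral_indicator measurableSet_Ioi,
      Set.inter_eq_self_of_subset_right (Set.Ioi_subset_Ioi hB'.le), integral_const_mul,
      (mte_inv_int hB').2]
  have v4 : ∫ u in Set.Ioi (0 : ℝ), g4 u = (K + Real.log x₀) * (R₀ / x₀)⁻¹ := by
    have hp : 0 < R₀ / x₀ := by positivity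
    rw [hg4, setIntegral_indicator measurableSet_Ioi,
      Set.inter_eq_self_of_subset_right (Set.Ioi_subset_Ioi hp.le), integral_const_mul,
      (mte_inv_int hp).2]
  rw [v1, v2, v3, v4]

theorem mt_pr (η : ℝ) (hη : 0 < η) : ∃ C : ℝ, 1 ≤ C ∧ ∀ R₀ B : ℝ, C ≤ R₀ →
    C * (1 + Real.log R₀) ≤ B → ∀ R : ℕ, C * R₀ * (1 + Real.log R₀) ≤ R →
    Real.log R₀ + c1 + Real.log (2 * Real.pi) - η ≤
      ∑ q ∈ Icc 1 R, mp q * (2 * ∫ u in (0 : ℝ)..B, sc u * kk (q / R₀ * u)) := by
  obtain ⟨J, hJ, x₀, hx₀, hT⟩ := tt_low (η / 2) (by positivity)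
  set K := |c1 + 1 - Real.eulerMascheroniConstant| with hK
  have hK0 : 0 ≤ K := abs_nonneg _
  have hx₀' : 0 < x₀ := by linarith
  have hJ' : (1 : ℝ) ≤ J := by exact_mod_cast hJ
  have hlx : 0 ≤ Real.log x₀ := Real.log_nonneg hx₀
  -- choice of C
  have hlim : Tendsto (fun C : ℝ => 2 * (((1 + K) * (J * C⁻¹) + 4 * Real.sqrt (J * C⁻¹)) +
      (1 + K) * C⁻¹ + (K + Real.log x₀) * (x₀ * C⁻¹))) atTop
      (𝓝 (2 * (((1 + K) * (J * 0) + 4 * Real.sqrt (J * 0)) + (1 + K) * 0 +
        (K + Real.log x₀) * (x₀ * 0)))) := by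
    have h0 : Tendsto (fun C : ℝ => C⁻¹) atTop (𝓝 0) := tendsto_inv_atTop_zero
    have hJ0 := h0.const_mul (J : ℝ)
    have hs := (Real.continuous_sqrt.tendsto (J * 0)).comp hJ0
    exact ((((hJ0.const_mul (1 + K)).add (hs.const_mul 4)).add (h0.const_mul (1 + K))).add
      ((h0.const_mul x₀).const_mul (K + Real.log x₀))).const_mul 2
  have hz : 2 * (((1 + K) * (J * 0) + 4 * Real.sqrt (J * 0)) + (1 + K) * 0 +
        (K + Real.log x₀) * (x₀ * 0)) = 0 := by simp
  rw [hz] at hlim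
  have ev1 := hlim.eventually_lt_const (half_pos hη)
  have ev2 : ∀ᶠ C : ℝ in atTop, x₀ ≤ C := eventually_ge_atTop _
  have ev3 : ∀ᶠ C : ℝ in atTop, (J : ℝ) ≤ C := eventually_ge_atTop _
  obtain ⟨C, hC, hCx, hCJ⟩ := (ev1.and (ev2.and ev3)).exists
  have hC1 : 1 ≤ C := by linarith
  have hC0 : 0 < C := by linarith
  refine ⟨C, hC1, fun R₀ B hR₀ hB R hR => ?_⟩
  have hR₀1 : 1 ≤ R₀ := hC1.trans hR₀
  have hR₀0 : 0 < R₀ := by linarith
  set L := Real.log R₀ with hL
  have hL0 : 0 ≤ L := Real.log_nonneg hR₀1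
  have hB1 : C ≤ B := by nlinarith
  have hB0 : 0 < B := by linarith
  have hRpos : 0 < (R : ℝ) := lt_of_lt_of_le (by positivity) hR
  have hv : J * R₀ / R ≤ J * C⁻¹ * (1 + L)⁻¹ := by
    rw [div_le_iff₀ hRpos]
    calc J * R₀ = J * C⁻¹ * (1 + L)⁻¹ * (C * R₀ * (1 + L)) := by field_simp
      _ ≤ J * C⁻¹ * (1 + L)⁻¹ * R := mul_le_mul_of_nonneg_left hR (by positivity)
  have hinv1 : (1 + L)⁻¹ ≤ 1 := inv_le_one_of_one_le₀ (by linarith)
  have hv' : J * R₀ / R ≤ J * C⁻¹ := hv.trans (mul_le_of_le_one_right (by positivity) hinv1)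
  have hJC : J * C⁻¹ ≤ 1 := by
    rw [← div_eq_mul_inv, div_le_one hC0]; exact hCJ
  have hRx : 1 ≤ R₀ / x₀ := by rw [le_div_iff₀ hx₀']; linarith
  have main := mte_main (J := J) (R := R) (x₀ := x₀) (R₀ := R₀) (B := B) (L := L) (K := K)
    (η := η / 2) hx₀ hR₀1 (hC1.trans hB1) hRx hL (by positivity) hK hRpos (hv'.trans hJC) hT
  rw [mte_sum R R₀ B hB0.le]
  -- the errors
  have hLK : (L + K) * (1 + L)⁻¹ ≤ 1 + K := by
    rw [← div_eq_mul_inv, div_le_iff₀ (by positivity)]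
    nlinarith
  have t1 : (L + K) * (J * R₀ / R) ≤ (1 + K) * (J * C⁻¹) := by
    calc (L + K) * (J * R₀ / R) ≤ (L + K) * (J * C⁻¹ * (1 + L)⁻¹) :=
          mul_le_mul_of_nonneg_left hv (by positivity)
      _ = ((L + K) * (1 + L)⁻¹) * (J * C⁻¹) := by ring
      _ ≤ (1 + K) * (J * C⁻¹) := mul_le_mul_of_nonneg_right hLK (by positivity)
  have t2 : Real.sqrt (J * R₀ / R) ≤ Real.sqrt (J * C⁻¹) := Real.sqrt_le_sqrt hv'
  have t3 : (L + K) * B⁻¹ ≤ (1 + K) * C⁻¹ := by
    have h1 : B⁻¹ ≤ (C * (1 + L))⁻¹ := inv_anti₀ (by positivity) hB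
    calc (L + K) * B⁻¹ ≤ (L + K) * (C * (1 + L))⁻¹ := mul_le_mul_of_nonneg_left h1 (by positivity)
      _ = ((L + K) * (1 + L)⁻¹) * C⁻¹ := by rw [mul_inv]; ring
      _ ≤ (1 + K) * C⁻¹ := mul_le_mul_of_nonneg_right hLK (by positivity)
  have t4 : (K + Real.log x₀) * (R₀ / x₀)⁻¹ ≤ (K + Real.log x₀) * (x₀ * C⁻¹) := by
    apply mul_le_mul_of_nonneg_left _ (by positivity)
    rw [inv_div, div_eq_mul_inv]
    exact mul_le_mul_of_nonneg_left (inv_anti₀ hC0 hR₀) hx₀'.le
  linarith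

alias mt := mt_pr

end Pool.Agent.HC
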