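import Pool.Agent.Lib_helper92.HCF.Base
import Pool.Agent.Lib_helper23.BG.Defs
import Pool.Agent.Lib_helper92.PVF.LQB

/-! HC : block PHS -/

set_option autoImplicit false

namespace Pool.Agent.HC

open Finset Complex Filter Topology MeasureTheory Pool.Agent.Var35 Pool.Agent.Var73
open scoped ArithmeticFunction ArithmeticFunction.Moebius

theorem PHS_mp_nonneg (d : ℕ) : 0 ≤ mp d := by
  unfold mp
  split_ifs
  · positivity
  · exact le_rfl

theorem PHS_ratio (q : ℕ) (hq : 1 ≤ q) :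
    (q : ℝ) / (Nat.totient q : ℝ) = ∑ d ∈ q.divisors, mp d := by
  have hq0 : q ≠ 0 := by omega
  have h1 : ∑ d ∈ q.divisors, mp d
      = ∑ d ∈ q.divisors.filter Squarefree, 1 / (Nat.totient d : ℝ) := by
    rw [sum_filter]
    rfl
  have h2 : (Nat.totient q : ℝ) * ∏ p ∈ q.primeFactors, (p : ℝ)
      = q * ∏ p ∈ q.primeFactors, ((p : ℝ) - 1) := by
    have := Nat.totient_mul_prod_primeFactors q
    have h3 : ((Nat.totient q * ∏ p ∈ q.primeFactors, p : ℕ) : ℝ)
        = ((q * ∏ p ∈ q.primeFactors, (p - 1) : ℕ) : ℝ) := by rw [this]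
    push_cast at h3
    rw [h3]
    congr 1
    refine prod_congr rfl fun p hp => ?_
    have := (Nat.prime_of_mem_primeFactors hp).one_le
    push_cast [Nat.cast_sub this]
    ring
  have hpp : ∀ p ∈ q.primeFactors, (0 : ℝ) < (p : ℝ) - 1 := by
    intro p hp
    have : (1 : ℝ) < p := by exact_mod_cast (Nat.prime_of_mem_primeFactors hp).one_lt
    linarith
  have ht : (0 : ℝ) < Nat.totient q := by exact_mod_cast Nat.totient_pos.mpr hq
  have h4 : (q : ℝ) / (Nat.totient q : ℝ) = ∏ p ∈ q.primeFactors, (1 + 1 / ((p : ℝ) - 1)) := by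
    have h5 : ∏ p ∈ q.primeFactors, (1 + 1 / ((p : ℝ) - 1))
        = (∏ p ∈ q.primeFactors, (p : ℝ)) / ∏ p ∈ q.primeFactors, ((p : ℝ) - 1) := by
      rw [← prod_div_distrib]
      refine prod_congr rfl fun p hp => ?_
      have := hpp p hp
      field_simp
      ring
    rw [h5, div_eq_div_iff ht.ne' (prod_pos hpp).ne']
    linarith [h2]
  rw [h1, h4, prod_one_add, Nat.sum_divisors_filter_squarefree hq0]
  have hpf : (UniqueFactorizationMonoid.normalizedFactors q).toFinset = q.primeFactors := by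
    rw [Nat.factors_eq]
    rfl
  rw [hpf]
  refine sum_congr rfl fun t ht => ?_
  have htp : ∀ p ∈ t, p.Prime := fun p hp =>
    Nat.prime_of_mem_primeFactors ((mem_powerset.mp ht) hp)
  clear ht
  rw [Finset.prod_val]
  have key : ∀ s : Finset ℕ, (∀ p ∈ s, p.Prime) →
      ∏ p ∈ s, (1 / ((p : ℝ) - 1)) = 1 / (Nat.totient (s.prod id) : ℝ) := by
    intro s
    induction s using Finset.induction_on with
    | empty => intro _; simp
    | insert a s ha ih =>
      intro hs
      have hpa : a.Prime := hs a (mem_insert_self _ _)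
      have hs' : ∀ p ∈ s, p.Prime := fun p hp => hs p (mem_insert_of_mem hp)
      rw [prod_insert ha, prod_insert ha, ih hs']
      have hco : Nat.Coprime (id a) (s.prod id) := by
        refine Nat.Coprime.prod_right fun p hp => ?_
        simp only [id]
        refine (Nat.coprime_primes hpa (hs' p hp)).mpr ?_
        rintro rfl
        exact ha hp
      rw [Nat.totient_mul hco]
      simp only [id]
      rw [Nat.totient_prime hpa]
      have := hpa.one_le
      push_cast [Nat.cast_sub this]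
      rw [one_div_mul_one_div]
  exact key t htp

theorem PHS_sqrt (R : ℕ) : ∑ m ∈ Icc 1 R, 1 / Real.sqrt m ≤ 2 * Real.sqrt R := by
  induction R with
  | zero => simp
  | succ n ih =>
    rw [sum_Icc_succ_top (by omega)]
    have h0 : 0 ≤ Real.sqrt (n : ℝ) := Real.sqrt_nonneg _
    have h1 : 0 < Real.sqrt ((n + 1 : ℕ) : ℝ) := Real.sqrt_pos.mpr (by positivity)
    have h2 : Real.sqrt (n : ℝ) ^ 2 = n := Real.sq_sqrt (by positivity)
    have h3 : Real.sqrt ((n + 1 : ℕ) : ℝ) ^ 2 = n + 1 := by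
      rw [Real.sq_sqrt (by positivity)]
      push_cast
      ring
    have h4 : 1 / Real.sqrt ((n + 1 : ℕ) : ℝ)
        ≤ 2 * Real.sqrt ((n + 1 : ℕ) : ℝ) - 2 * Real.sqrt (n : ℝ) := by
      rw [div_le_iff₀ h1]
      nlinarith [sq_nonneg (Real.sqrt ((n + 1 : ℕ) : ℝ) - Real.sqrt (n : ℝ))]
    linarith

theorem PHS_mp : ∃ C : ℝ, 0 < C ∧ ∀ R : ℕ, 1 ≤ R → ∑ q ∈ Icc 1 R, mp q ≤ Real.log R + C := by
  obtain ⟨C, hC, h⟩ := Pool.Agent.PV.lq_one_upper
  refine ⟨C, hC, fun R hR => ?_⟩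
  refine le_trans (le_of_eq ?_) (h R hR)
  unfold Pool.Agent.PV.Lq
  rw [sum_filter]
  refine sum_congr rfl fun q _ => ?_
  unfold mp
  by_cases hq : Squarefree q
  · rw [if_pos hq, if_pos ⟨hq, Nat.coprime_one_right _⟩]
  · rw [if_neg hq, if_neg (fun h => hq h.1)]

theorem phi_sum_pr : ∃ C : ℝ, 0 < C ∧ ∀ R : ℕ, 1 ≤ R →
    ∑ q ∈ Icc 1 R, (q : ℝ) / (Nat.totient q : ℝ) ≤ C * R ∧
    ∑ q ∈ Icc 1 R, mp q ≤ C * (1 + Real.log R) := by
  obtain ⟨C, hC, h⟩ := PHS_mp
  refine ⟨C + 4, by linarith, fun R hR => ⟨?_, ?_⟩⟩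
  · have h1 : ∑ q ∈ Icc 1 R, (q : ℝ) / (Nat.totient q : ℝ)
        = ∑ m ∈ Icc 1 R, ∑ d ∈ Icc 1 (R / m), mp d := by
      rw [sum_congr rfl (fun q hq => PHS_ratio q (mem_Icc.mp hq).1)]
      rw [sum_sigma', sum_sigma']
      refine sum_bij' (fun x _ => ⟨x.1 / x.2, x.2⟩) (fun x _ => ⟨x.1 * x.2, x.2⟩) ?_ ?_ ?_ ?_ ?_
      · rintro ⟨q, d⟩ hx
        simp only [mem_sigma, mem_Icc, Nat.mem_divisors] at hx ⊢
        obtain ⟨⟨hq1, hq2⟩, hd, hq0⟩ := hx
        have hd1 : 0 < d := Nat.pos_of_dvd_of_pos hd (by omega)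
        obtain ⟨k, rfl⟩ := hd
        rw [Nat.mul_div_cancel_left _ hd1]
        have hk : 0 < k := Nat.pos_of_ne_zero (by rintro rfl; simp at hq1)
        refine ⟨⟨hk, ?_⟩, hd1, ?_⟩
        · exact le_trans (Nat.le_mul_of_pos_left _ hd1) hq2
        · rw [Nat.le_div_iff_mul_le hk]
          exact hq2
      · rintro ⟨m, d⟩ hx
        simp only [mem_sigma, mem_Icc, Nat.mem_divisors] at hx ⊢
        obtain ⟨⟨hm1, hm2⟩, hd1, hd2⟩ := hx
        rw [Nat.le_div_iff_mul_le (by omega)] at hd2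
        refine ⟨⟨Nat.mul_pos hm1 hd1, by rw [mul_comm]; exact hd2⟩, Dvd.intro_left _ rfl, ?_⟩
        exact (Nat.mul_pos hm1 hd1).ne'
      · rintro ⟨q, d⟩ hx
        simp only [mem_sigma, mem_Icc, Nat.mem_divisors] at hx
        simp only [Sigma.mk.injEq, heq_eq_eq, and_true]
        exact Nat.div_mul_cancel hx.2.1
      · rintro ⟨m, d⟩ hx
        simp only [mem_sigma, mem_Icc] at hx
        simp only [Sigma.mk.injEq, heq_eq_eq, and_true]
        exact Nat.mul_div_cancel _ (by omega)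
      · rintro ⟨q, d⟩ _
        rfl
    rw [h1]
    have hR0 : (0 : ℝ) < R := by exact_mod_cast hR
    have h2 : ∀ m ∈ Icc 1 R, ∑ d ∈ Icc 1 (R / m), mp d
        ≤ 2 * (Real.sqrt R * (1 / Real.sqrt m)) + C := by
      intro m hm
      rw [mem_Icc] at hm
      have hm0 : (0 : ℝ) < m := by exact_mod_cast hm.1
      have h3 : 1 ≤ R / m := by
        rw [Nat.le_div_iff_mul_le (by omega)]
        omega
      have h4 := h (R / m) h3
      have h5 : ((R / m : ℕ) : ℝ) ≤ R / m := Nat.cast_div_le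
      have h6 : (0 : ℝ) < ((R / m : ℕ) : ℝ) := by exact_mod_cast h3
      have h7 : Real.log ((R / m : ℕ) : ℝ) ≤ Real.log (R / m) := Real.log_le_log h6 h5
      have h8 : Real.log ((R : ℝ) / m) ≤ 2 * Real.sqrt (R / m) := by
        have h9 : (0 : ℝ) < R / m := by positivity
        have h10 : Real.log ((R : ℝ) / m) = 2 * Real.log (Real.sqrt (R / m)) := by
          rw [Real.log_sqrt h9.le]
          ring
        rw [h10]
        have h11 := Real.log_le_sub_one_of_pos (Real.sqrt_pos.mpr h9)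
        linarith
      have h12 : Real.sqrt ((R : ℝ) / m) = Real.sqrt R * (1 / Real.sqrt m) := by
        rw [Real.sqrt_div hR0.le]
        ring
      rw [h12] at h8
      linarith
    refine (sum_le_sum h2).trans ?_
    rw [sum_add_distrib, ← mul_sum, ← mul_sum, sum_const, Nat.card_Icc, nsmul_eq_mul]
    have h3 := PHS_sqrt R
    have h4 : Real.sqrt (R : ℝ) * ∑ m ∈ Icc 1 R, 1 / Real.sqrt (m : ℝ) ≤ 2 * R := by
      calc _ ≤ Real.sqrt (R : ℝ) * (2 * Real.sqrt R) :=
            mul_le_mul_of_nonneg_left h3 (Real.sqrt_nonneg _)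
        _ = 2 * (Real.sqrt R * Real.sqrt R) := by ring
        _ = 2 * R := by rw [Real.mul_self_sqrt hR0.le]
    have h5 : ((R + 1 - 1 : ℕ) : ℝ) = R := by simp
    rw [h5]
    nlinarith
  · have h1 := h R hR
    have h2 : 0 ≤ Real.log R := Real.log_nonneg (by exact_mod_cast hR)
    nlinarith

alias phi_sum := phi_sum_pr

end Pool.Agent.HC
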