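import Pool.Agent.Lib_helper92.HCF.Base
import Pool.Agent.Lib_helper23.BG.Defs

/-! MP_5dd4bb_nt, HC, block SML. -/

set_option autoImplicit false

namespace Pool.Agent.HC

open Finset Complex Pool.Agent.Var35 Pool.Agent.Var73
open scoped ArithmeticFunction ArithmeticFunction.Moebius

theorem sml_reindex (f : ℝ → ℝ) (U Q : ℕ) (hQ : 1 ≤ Q) :
    ∑ l ∈ (range Q).filter (fun l : ℕ => U < den l Q), f ((l : ℝ) / Q) =
      ∑ r ∈ Q.divisors.filter (fun r => U < r), ∑ c ∈ Cd r, f ((c : ℝ) / r) := by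
  rw [Finset.sum_sigma' (Q.divisors.filter (fun r => U < r)) (fun r => Cd r)
    (fun r c => f ((c : ℝ) / r))]
  refine Finset.sum_bij' (fun l _ => (⟨Q / Nat.gcd l Q, l / Nat.gcd l Q⟩ : Σ _ : ℕ, ℕ))
    (fun x _ => x.2 * (Q / x.1)) ?_ ?_ ?_ ?_ ?_
  · intro l hl
    simp only [mem_filter, mem_range, den, Int.gcd_natCast_natCast] at hl
    obtain ⟨hl1, hl2⟩ := hl
    have hg : 0 < Nat.gcd l Q := Nat.gcd_pos_of_pos_right _ hQ
    simp only [mem_sigma, mem_filter, Nat.mem_divisors, Cd, mem_range]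
    refine ⟨⟨⟨Nat.div_dvd_of_dvd (Nat.gcd_dvd_right l Q), by omega⟩, hl2⟩, ?_, ?_⟩
    · exact Nat.div_lt_div_of_lt_of_dvd (Nat.gcd_dvd_right l Q) hl1
    · exact Nat.coprime_div_gcd_div_gcd hg
  · rintro ⟨r, c⟩ hx
    simp only [mem_sigma, mem_filter, Nat.mem_divisors, Cd, mem_range] at hx
    obtain ⟨⟨⟨hr, -⟩, hU⟩, hc1, hc2⟩ := hx
    have hr0 : 0 < r := by omega
    obtain ⟨k, rfl⟩ := hr
    have hk : 0 < k := Nat.pos_of_ne_zero (by rintro rfl; omega)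
    have hgcd : Nat.gcd (c * k) (r * k) = k := by
      rw [Nat.gcd_mul_right, hc2, one_mul]
    simp only [mem_filter, mem_range, den, Int.gcd_natCast_natCast]
    rw [Nat.mul_div_cancel_left _ hr0, hgcd, Nat.mul_div_cancel _ hk]
    exact ⟨Nat.mul_lt_mul_of_pos_right hc1 hk, hU⟩
  · intro l hl
    have hg : 0 < Nat.gcd l Q := Nat.gcd_pos_of_pos_right _ hQ
    simp only
    rw [Nat.div_div_self (Nat.gcd_dvd_right l Q) (by omega)]
    exact Nat.div_mul_cancel (Nat.gcd_dvd_left l Q)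
  · rintro ⟨r, c⟩ hx
    simp only [mem_sigma, mem_filter, Nat.mem_divisors, Cd, mem_range] at hx
    obtain ⟨⟨⟨hr, -⟩, hU⟩, hc1, hc2⟩ := hx
    have hr0 : 0 < r := by omega
    obtain ⟨k, rfl⟩ := hr
    have hk : 0 < k := Nat.pos_of_ne_zero (by rintro rfl; omega)
    have hgcd : Nat.gcd (c * k) (r * k) = k := by
      rw [Nat.gcd_mul_right, hc2, one_mul]
    simp only
    rw [Nat.mul_div_cancel_left _ hr0, hgcd, Nat.mul_div_cancel _ hk, Nat.mul_div_cancel _ hk]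
  · intro l hl
    have hg : 0 < Nat.gcd l Q := Nat.gcd_pos_of_pos_right _ hQ
    have hg' : ((Nat.gcd l Q : ℕ) : ℝ) ≠ 0 := by exact_mod_cast hg.ne'
    simp only
    rw [Nat.cast_div (Nat.gcd_dvd_left l Q) hg', Nat.cast_div (Nat.gcd_dvd_right l Q) hg']
    rw [div_div_div_cancel_right₀ hg']

/-- swapping the sums -/
theorem sml_swap (H : ℕ → ℝ) (hH : ∀ r, 0 ≤ H r) (U Z : ℕ) (hU : 1 ≤ U) (hZ : 1 ≤ Z) :
    ∑ Q ∈ Icc 1 Z, (1 / (Q : ℝ)) * ∑ r ∈ Q.divisors.filter (fun r => U < r), H r ≤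
      (1 + Real.log Z) * ∑ r ∈ Ioc U Z, H r / r := by
  have h1 : ∑ Q ∈ Icc 1 Z, (1 / (Q : ℝ)) * ∑ r ∈ Q.divisors.filter (fun r => U < r), H r =
      ∑ r ∈ Ioc U Z, ∑ Q ∈ (Icc 1 Z).filter (fun Q => r ∣ Q), (1 / (Q : ℝ)) * H r := by
    simp_rw [Finset.mul_sum]
    apply Finset.sum_comm'
    intro Q r
    simp only [mem_Icc, mem_filter, Nat.mem_divisors, mem_Ioc]
    constructor
    · rintro ⟨⟨h1, h2⟩, ⟨h3, h4⟩, h5⟩
      exact ⟨⟨⟨h1, h2⟩, h3⟩, h5, (Nat.le_of_dvd (by omega) h3).trans h2⟩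
    · rintro ⟨⟨⟨h1, h2⟩, h3⟩, h4, h5⟩
      exact ⟨⟨h1, h2⟩, ⟨h3, by omega⟩, h4⟩
  rw [h1, Finset.mul_sum]
  refine Finset.sum_le_sum fun r hr => ?_
  rw [mem_Ioc] at hr
  have hr0 : 0 < r := by omega
  have hr0' : (0 : ℝ) < r := by exact_mod_cast hr0
  rw [← Finset.sum_mul]
  have h2 : ∑ Q ∈ (Icc 1 Z).filter (fun Q => r ∣ Q), (1 / (Q : ℝ)) ≤ (1 + Real.log Z) / r := by
    have h3 : (Icc 1 Z).filter (fun Q => r ∣ Q) ⊆ (Icc 1 Z).image (fun k => r * k) := by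
      intro Q hQ
      simp only [mem_filter, mem_Icc] at hQ
      obtain ⟨⟨h4, h5⟩, k, rfl⟩ := hQ
      simp only [mem_image, mem_Icc]
      refine ⟨k, ⟨Nat.pos_of_ne_zero (by rintro rfl; omega), ?_⟩, rfl⟩
      exact (Nat.le_mul_of_pos_left k hr0).trans h5
    calc ∑ Q ∈ (Icc 1 Z).filter (fun Q => r ∣ Q), (1 / (Q : ℝ))
        ≤ ∑ Q ∈ (Icc 1 Z).image (fun k => r * k), (1 / (Q : ℝ)) :=
          Finset.sum_le_sum_of_subset_of_nonneg h3 fun _ _ _ => by positivity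
      _ = ∑ k ∈ Icc 1 Z, (1 / ((r * k : ℕ) : ℝ)) := by
          rw [Finset.sum_image]
          intro x _ y _ hxy
          exact Nat.eq_of_mul_eq_mul_left hr0 hxy
      _ = (1 / r) * ∑ k ∈ Icc 1 Z, (1 / (k : ℝ)) := by
          rw [Finset.mul_sum]
          refine Finset.sum_congr rfl fun k _ => ?_
          push_cast
          rw [one_div_mul_one_div]
      _ ≤ (1 / r) * (1 + Real.log Z) := by
          apply mul_le_mul_of_nonneg_left _ (by positivity)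
          have := harmonic_le_one_add_log Z
          rw [harmonic_eq_sum_Icc] at this
          push_cast at this
          simp_rw [one_div]
          exact this
      _ = (1 + Real.log Z) / r := by ring
  calc (∑ Q ∈ (Icc 1 Z).filter (fun Q => r ∣ Q), (1 / (Q : ℝ))) * H r
      ≤ (1 + Real.log Z) / r * H r := mul_le_mul_of_nonneg_right h2 (hH r)
    _ = (1 + Real.log Z) * (H r / r) := by ring

/-- partial summation -/
theorem sml_abel (H : ℕ → ℝ) (K N' : ℝ) (hK : 0 ≤ K) (U Z : ℕ) (hU : 1 ≤ U)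
    (hUZ : U ≤ Z) (hG : ∀ V, U ≤ V → ∑ r ∈ Ioc U V, H r ≤ K * (N' + (V : ℝ) ^ 2)) :
    ∑ r ∈ Ioc U Z, H r / r ≤ (∑ r ∈ Ioc U Z, H r) / Z + K * (N' * (1 / U - 1 / Z) + (Z - U)) := by
  induction Z, hUZ using Nat.le_induction with
  | base => simp
  | succ Z hZ ih =>
    have hZ0 : (0 : ℝ) < Z := by exact_mod_cast (by omega : 0 < Z)
    have hU0 : (0 : ℝ) < U := by exact_mod_cast (by omega : 0 < U)
    have e1 : Ioc U (Z + 1) = insert (Z + 1) (Ioc U Z) := by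
      ext x; simp only [mem_Ioc, mem_insert]; omega
    have e2 : (Z + 1) ∉ Ioc U Z := by simp
    rw [e1, Finset.sum_insert e2, Finset.sum_insert e2]
    have hg := hG Z hZ
    set G := ∑ r ∈ Ioc U Z, H r
    push_cast
    have h3 : G / Z - G / (Z + 1) ≤ K * (N' * (1 / Z - 1 / (Z + 1)) + 1) := by
      have h4 : G / Z - G / (Z + 1) = G / (Z * (Z + 1)) := by field_simp; ring
      have h5 : K * (N' * (1 / Z - 1 / (Z + 1)) + 1) =
          K * (N' + Z * (Z + 1)) / (Z * (Z + 1)) := by field_simp; ring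
      rw [h4, h5]
      apply div_le_div_of_nonneg_right _ (by positivity)
      refine hg.trans ?_
      apply mul_le_mul_of_nonneg_left _ hK
      nlinarith
    have h6 : (H (Z + 1) + G) / ((Z : ℝ) + 1) = H (Z + 1) / ((Z : ℝ) + 1) + G / (Z + 1) := by
      rw [add_div]
    rw [h6]
    have h7 : K * (N' * (1 / U - 1 / (Z + 1)) + (Z + 1 - U)) =
        K * (N' * (1 / U - 1 / Z) + (Z - U)) + K * (N' * (1 / Z - 1 / (Z + 1)) + 1) := by ring
    rw [h7]
    linarith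

theorem sml_ls (a : ℕ → ℝ) (N U V : ℕ) (hU : 1 ≤ U) (hUV : U ≤ V) :
    ∑ r ∈ Ioc U V, ∑ c ∈ Cd r, Sq a N ((c : ℝ) / r) ≤
      (22 * A2 a N) * (((N : ℝ) + 1) + (V : ℝ) ^ 2) := by
  have hV : (0 : ℝ) < V := by exact_mod_cast (by omega : 0 < V)
  rw [Finset.sum_sigma' (Ioc U V) (fun r => Cd r) (fun r c => Sq a N ((c : ℝ) / r))]
  have hsep := farey_sep_gen (Ioc U V) V (fun d hd => by rw [mem_Ioc] at hd; omega) (by omega)
  have h1 := large_sieve ((Ioc U V).sigma (fun d => Cd d))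
    (fun x : (Σ _ : ℕ, ℕ) => (x.2 : ℝ) / x.1) (1 / (V : ℝ) ^ 2) (by positivity)
    (by
      rw [div_le_one (by positivity)]
      have : (1 : ℝ) ≤ V := by exact_mod_cast (by omega : 1 ≤ V)
      nlinarith) hsep (fun n => if n = 0 then 0 else (a n : ℂ)) (N + 1)
  have hsub : Icc 1 N ⊆ range (N + 1) := by
    intro x hx; rw [mem_Icc] at hx; rw [mem_range]; omega
  have h2 : ∀ t : ℝ, ∑ m ∈ range (N + 1), (if m = 0 then 0 else (a m : ℂ)) * e (m * t) = S a N t := by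
    intro t
    unfold S
    rw [← Finset.sum_subset hsub]
    · refine Finset.sum_congr rfl fun n hn => ?_
      rw [mem_Icc] at hn
      rw [if_neg (by omega)]
    · intro n hn hn2
      rw [mem_range] at hn
      rw [mem_Icc] at hn2
      rw [if_pos (by omega), zero_mul]
  have h3 : ∑ m ∈ range (N + 1), ‖(if m = 0 then 0 else (a m : ℂ))‖ ^ 2 = A2 a N := by
    unfold A2
    rw [← Finset.sum_subset hsub]
    · refine Finset.sum_congr rfl fun n hn => ?_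
      rw [mem_Icc] at hn
      rw [if_neg (by omega), Complex.norm_real, Real.norm_eq_abs, sq_abs]
    · intro n hn hn2
      rw [mem_range] at hn
      rw [mem_Icc] at hn2
      rw [if_pos (by omega)]; simp
  rw [h3] at h1
  simp_rw [h2] at h1
  have h4 : 22 * (((N + 1 : ℕ) : ℝ) + 1 / (1 / (V : ℝ) ^ 2)) * A2 a N =
      (22 * A2 a N) * (((N : ℝ) + 1) + (V : ℝ) ^ 2) := by
    push_cast
    rw [one_div_one_div]; ring
  rw [h4] at h1
  exact h1

/-- block SML -/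
theorem small_pr : ∃ C : ℝ, 0 < C ∧ ∀ (a : ℕ → ℝ) (N Z U : ℕ), 1 ≤ U → 1 ≤ Z →
    ∑ Q ∈ Icc 1 Z, (1 / (Q : ℝ)) * ∑ l ∈ (range Q).filter (fun l : ℕ => U < den l Q), Sq a N (l / Q)
      ≤ C * (1 + Real.log Z) * ((N : ℝ) / U + Z) * A2 a N := by
  refine ⟨44, by norm_num, ?_⟩
  intro a N Z U hU hZ
  have hA : 0 ≤ A2 a N := Finset.sum_nonneg fun _ _ => sq_nonneg _
  have hU0 : (0 : ℝ) < U := by exact_mod_cast hU
  have hZ1 : (1 : ℝ) ≤ Z := by exact_mod_cast hZ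
  have hlog : 0 ≤ Real.log Z := Real.log_nonneg hZ1
  rcases Nat.eq_zero_or_pos N with hN | hN
  · subst hN
    have : ∀ t, Sq a 0 t = 0 := by intro t; simp [Sq, S]
    simp_rw [this]
    simp [A2]
  have hN1 : (1 : ℝ) ≤ N := by exact_mod_cast hN
  set H : ℕ → ℝ := fun r => ∑ c ∈ Cd r, Sq a N ((c : ℝ) / r) with hH
  have hH0 : ∀ r, 0 ≤ H r := fun r => Finset.sum_nonneg fun _ _ => by unfold Sq; positivity
  have h1 : ∑ Q ∈ Icc 1 Z, (1 / (Q : ℝ)) *
      ∑ l ∈ (range Q).filter (fun l : ℕ => U < den l Q), Sq a N (l / Q) =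
      ∑ Q ∈ Icc 1 Z, (1 / (Q : ℝ)) * ∑ r ∈ Q.divisors.filter (fun r => U < r), H r := by
    refine Finset.sum_congr rfl fun Q hQ => ?_
    rw [mem_Icc] at hQ
    rw [sml_reindex (Sq a N) U Q hQ.1]
  rw [h1]
  refine (sml_swap H hH0 U Z hU hZ).trans ?_
  rcases le_or_gt U Z with hUZ | hUZ
  · have h2 := sml_abel H (22 * A2 a N) ((N : ℝ) + 1) (by positivity) U Z hU hUZ
      (fun V hV => sml_ls a N U V hU hV)
    have h3 := sml_ls a N U Z hU hUZ
    have hZ0 : (0 : ℝ) < Z := by linarith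
    have h4 : (∑ r ∈ Ioc U Z, H r) / Z ≤ (22 * A2 a N) * (((N : ℝ) + 1) / Z + Z) := by
      rw [div_le_iff₀ hZ0]
      refine h3.trans (le_of_eq ?_)
      field_simp
    have h5 : ∑ r ∈ Ioc U Z, H r / r ≤ (22 * A2 a N) * (((N : ℝ) + 1) / U + 2 * Z) := by
      refine (h2.trans (add_le_add_left h4 _)).trans ?_
      have h6 : (22 * A2 a N) * (((N : ℝ) + 1) / Z + Z) +
          22 * A2 a N * (((N : ℝ) + 1) * (1 / U - 1 / Z) + (Z - U)) =
          (22 * A2 a N) * (((N : ℝ) + 1) / U + 2 * Z - U) := by ring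
      rw [h6]
      apply mul_le_mul_of_nonneg_left _ (by positivity)
      linarith
    have h7 : (22 * A2 a N) * (((N : ℝ) + 1) / U + 2 * Z) ≤ 44 * ((N : ℝ) / U + Z) * A2 a N := by
      have h8 : ((N : ℝ) + 1) / U ≤ 2 * (N / U) := by
        rw [← mul_div_assoc]
        apply div_le_div_of_nonneg_right _ hU0.le
        linarith
      nlinarith
    calc (1 + Real.log Z) * ∑ r ∈ Ioc U Z, H r / r
        ≤ (1 + Real.log Z) * (44 * ((N : ℝ) / U + Z) * A2 a N) :=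
          mul_le_mul_of_nonneg_left (h5.trans h7) (by linarith)
      _ = _ := by ring
  · rw [Finset.Ioc_eq_empty (by omega), Finset.sum_empty, mul_zero]
    positivity

alias small := small_pr

end Pool.Agent.HC
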