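import Pool.Agent.Lib_helper92.HCF.Base
import Pool.Agent.Lib_helper23.BG.Defs
import Pool.Agent.Lib_helper92.HCF.SPF

set_option autoImplicit false

namespace Pool.Agent.HC

open Finset Complex Filter Topology MeasureTheory Pool.Agent.Var35 Pool.Agent.Var73
open scoped ArithmeticFunction ArithmeticFunction.Moebius

theorem spg_log_pow (k : ℕ) {X : ℝ} (hX : 2 ≤ X) :
    Real.log X ^ k ≤ (2 * ((k : ℝ) + 1)) ^ k * Real.sqrt X := by
  have hX0 : 0 < X := by linarith
  have hX1 : 1 ≤ X := by linarith
  have hlog : 0 ≤ Real.log X := Real.log_nonneg hX1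
  set ε : ℝ := 1 / (2 * ((k : ℝ) + 1)) with hε
  have hk : (0 : ℝ) ≤ k := Nat.cast_nonneg k
  have hε0 : 0 < ε := by positivity
  have h1 : Real.log X ≤ 2 * ((k : ℝ) + 1) * X ^ ε := by
    have := Real.log_le_rpow_div hX0.le hε0
    have e : X ^ ε / ε = 2 * ((k : ℝ) + 1) * X ^ ε := by
      rw [hε]
      field_simp
    rw [e] at this
    exact this
  calc Real.log X ^ k ≤ (2 * ((k : ℝ) + 1) * X ^ ε) ^ k := pow_le_pow_left₀ hlog h1 k
    _ = (2 * ((k : ℝ) + 1)) ^ k * X ^ (ε * k) := by
        rw [mul_pow, Real.rpow_mul hX0.le, Real.rpow_natCast]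
    _ ≤ (2 * ((k : ℝ) + 1)) ^ k * Real.sqrt X := by
        rw [Real.sqrt_eq_rpow]
        apply mul_le_mul_of_nonneg_left _ (by positivity)
        apply Real.rpow_le_rpow_of_exponent_le hX1
        rw [hε, div_mul_eq_mul_div, one_mul, div_le_div_iff₀ (by positivity) (by norm_num)]
        linarith

theorem spg_small {x : ℝ} (h0 : 0 ≤ x) (h2 : x < 2) : |psi x - x| ≤ 2 := by
  have hf : ⌊x⌋₊ ≤ 1 := by
    have : ⌊x⌋₊ < 2 := by
      rw [Nat.floor_lt h0]
      exact_mod_cast h2
    omega
  have hp : psi x = 0 := by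
    unfold psi
    apply Finset.sum_eq_zero
    intro n hn
    rw [Finset.mem_Icc] at hn
    have : n = 1 := by omega
    subst this
    simp [Lam]
  rw [hp, zero_sub, abs_neg, abs_of_nonneg h0]
  exact h2.le

theorem pnt_sup_pr (k : ℕ) : ∃ C : ℝ, 0 < C ∧ ∀ X : ℝ, 2 ≤ X → ∀ x : ℝ, 0 ≤ x → x ≤ X →
    |psi x - x| ≤ C * X / Real.log X ^ k := by
  obtain ⟨C, hC, h⟩ := pnt_strong k
  set K : ℝ := (2 * ((k : ℝ) + 1)) ^ k with hK
  have hK0 : 0 < K := by positivity
  have hl2 : 0 < Real.log 2 := Real.log_pos (by norm_num)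
  set C1 : ℝ := C / Real.log 2 ^ k + 2 with hC1
  have hC10 : 0 < C1 := by positivity
  refine ⟨C * 2 ^ k + C1 * K, by positivity, fun X hX x hx hxX => ?_⟩
  have hX0 : 0 < X := by linarith
  have hlogX : 0 < Real.log X := Real.log_pos (by linarith)
  have hlp : 0 < Real.log X ^ k := pow_pos hlogX k
  rw [le_div_iff₀ hlp]
  have hs : Real.sqrt X * Real.sqrt X = X := Real.mul_self_sqrt hX0.le
  have hs0 : 0 < Real.sqrt X := Real.sqrt_pos.2 hX0
  by_cases hxs : x < Real.sqrt X
  · -- small
    have h1 : |psi x - x| ≤ C1 * Real.sqrt X := by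
      by_cases hx2 : x < 2
      · have h3 := spg_small hx hx2
        have h4 : 1 ≤ Real.sqrt X := by
          rw [Real.one_le_sqrt]
          linarith
        have h5 : 2 ≤ C1 := by
          rw [hC1]
          have : 0 ≤ C / Real.log 2 ^ k := by positivity
          linarith
        nlinarith
      · have h2 : 2 ≤ x := not_lt.1 hx2
        have h3 := h x h2
        have h4 : Real.log 2 ≤ Real.log x := Real.log_le_log (by norm_num) h2
        have h5 : Real.log 2 ^ k ≤ Real.log x ^ k := pow_le_pow_left₀ hl2.le h4 k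
        calc |psi x - x| ≤ C * x / Real.log x ^ k := h3
          _ ≤ C * x / Real.log 2 ^ k := by
              apply div_le_div_of_nonneg_left (by positivity) (by positivity) h5
          _ = C / Real.log 2 ^ k * x := by ring
          _ ≤ C1 * Real.sqrt X := by
              apply mul_le_mul _ hxs.le (by linarith) hC10.le
              rw [hC1]
              linarith
    calc |psi x - x| * Real.log X ^ k ≤ C1 * Real.sqrt X * (K * Real.sqrt X) :=
          mul_le_mul h1 (spg_log_pow k hX) hlp.le (by positivity)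
      _ = C1 * K * (Real.sqrt X * Real.sqrt X) := by ring
      _ = C1 * K * X := by rw [hs]
      _ ≤ (C * 2 ^ k + C1 * K) * X := by
          apply mul_le_mul_of_nonneg_right _ hX0.le
          have : 0 ≤ C * 2 ^ k := by positivity
          linarith
  · -- large
    have hxs' : Real.sqrt X ≤ x := not_lt.1 hxs
    have hx0 : 0 < x := lt_of_lt_of_le hs0 hxs'
    by_cases hx2 : x < 2
    · -- then X < 4
      have h3 := spg_small hx hx2
      have h5 : 2 ≤ C1 := by
        rw [hC1]
        have : 0 ≤ C / Real.log 2 ^ k := by positivity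
        linarith
      have h4 : 1 ≤ Real.sqrt X := by
        rw [Real.one_le_sqrt]
        linarith
      have h6 : |psi x - x| ≤ C1 * Real.sqrt X := by nlinarith
      calc |psi x - x| * Real.log X ^ k ≤ C1 * Real.sqrt X * (K * Real.sqrt X) :=
            mul_le_mul h6 (spg_log_pow k hX) hlp.le (by positivity)
        _ = C1 * K * (Real.sqrt X * Real.sqrt X) := by ring
        _ = C1 * K * X := by rw [hs]
        _ ≤ (C * 2 ^ k + C1 * K) * X := by
            apply mul_le_mul_of_nonneg_right _ hX0.le
            have : 0 ≤ C * 2 ^ k := by positivity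
            linarith
    · have h2 : 2 ≤ x := not_lt.1 hx2
      have h3 := h x h2
      have hlx : 0 < Real.log x := Real.log_pos (by linarith)
      have h4 : Real.log X ≤ 2 * Real.log x := by
        have e : Real.log X = 2 * Real.log (Real.sqrt X) := by
          rw [Real.log_sqrt hX0.le]
          ring
        rw [e]
        have := Real.log_le_log hs0 hxs'
        linarith
      have h5 : Real.log X ^ k ≤ 2 ^ k * Real.log x ^ k := by
        rw [← mul_pow]
        exact pow_le_pow_left₀ hlogX.le h4 k
      have hlxk : 0 < Real.log x ^ k := pow_pos hlx k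
      calc |psi x - x| * Real.log X ^ k ≤ (C * x / Real.log x ^ k) * (2 ^ k * Real.log x ^ k) :=
            mul_le_mul h3 h5 hlp.le (by positivity)
        _ = C * 2 ^ k * x := by field_simp
        _ ≤ C * 2 ^ k * X := by
            apply mul_le_mul_of_nonneg_left hxX (by positivity)
        _ ≤ (C * 2 ^ k + C1 * K) * X := by
            apply mul_le_mul_of_nonneg_right _ hX0.le
            have : 0 ≤ C1 * K := by positivity
            linarith

alias pnt_sup := pnt_sup_pr

end Pool.Agent.HC
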