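import Pool.Agent.Lib_helper92.HCF.Base
import Pool.Agent.Lib_helper92.HCF.MTE
import Pool.Agent.Lib_helper92.HCF.SPG
import Pool.Agent.Lib_helper92.HCF.DIA
import Pool.Agent.Lib_helper92.HCF.SML
import Pool.Agent.Lib_helper92.HCF.CQS
import Pool.Agent.Lib_helper92.HCF.PHS
import Pool.Agent.Lib_helper92.HCF.FID

set_option autoImplicit false

namespace Pool.Agent.HC

open Finset Complex Filter Topology MeasureTheory Pool.Agent.Var35 Pool.Agent.Var73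
open scoped ArithmeticFunction ArithmeticFunction.Moebius

/-- the main term -/
lemma FIE_main {X L : ℝ} {Y Z T R U : ℕ} (h : Par X L Y Z T R U) (η C : ℝ)
    (hmt : ∀ R₀ B : ℝ, C ≤ R₀ →
      C * (1 + Real.log R₀) ≤ B → ∀ R : ℕ, C * R₀ * (1 + Real.log R₀) ≤ R →
      Real.log R₀ + c1 + Real.log (2 * Real.pi) - η ≤
        ∑ q ∈ Icc 1 R, mp q * (2 * ∫ u in (0 : ℝ)..B, sc u * kk (q / R₀ * u)))
    (hC : 1 ≤ C) (hCY : C * Y ≤ X) (hCL : C * (1 + L) + 1 ≤ L ^ 2) (hCL2 : C * (1 + L) ≤ L ^ 8 / 2)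
    (δ Δ : ℝ) (hδ : δ = 1 / (X * L ^ 6)) (hΔ : Δ = L ^ 2 / X) :
    X * Y * (Real.log (X / Y) + c1 + Real.log (2 * Real.pi) - η) ≤
      ∑ q ∈ Icc 1 R, mp q * (X * Y * MI (X * (Δ - δ)) (q * Y / X)) := by
  obtain ⟨hX, hL, hXL, hYX, hY2, hY, hZ1, hZ2, hT1, hT2, hR1, hR2, hU1, hU2, hZ, hT, hR, hU, hZY,
    hTZ, hRZ⟩ := h
  have hL1 : 1 ≤ L := by linarith
  have hL0 : 0 < L := by linarith
  have hX0 : 0 < X := by linarith
  have hZ0 : (0 : ℝ) < Z := by exact_mod_cast hZ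
  have hZYr : (Z : ℝ) ≤ Y := by exact_mod_cast hZY
  have hY0 : (0 : ℝ) < Y := by linarith
  have hY1 : (1 : ℝ) ≤ Y := by
    have : (1 : ℝ) ≤ Z := by exact_mod_cast hZ
    linarith
  have hXY0 : 0 < X / Y := by positivity
  have hXY1 : 1 ≤ X / Y := by rw [le_div_iff₀ hY0]; linarith
  have hlog0 : 0 ≤ Real.log (X / Y) := Real.log_nonneg hXY1
  have hlog : Real.log (X / Y) ≤ L := by
    rw [hX]
    apply Real.log_le_log hXY0
    exact div_le_self hX0.le hY1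
  have hR0C : C ≤ X / Y := by rw [le_div_iff₀ hY0]; exact hCY
  have hB : C * (1 + Real.log (X / Y)) ≤ X * (Δ - δ) := by
    have h1 : X * (Δ - δ) = L ^ 2 - 1 / L ^ 6 := by rw [hΔ, hδ]; field_simp
    have h2 : 1 / L ^ 6 ≤ 1 := by
      rw [div_le_one (by positivity)]; exact one_le_pow₀ hL1
    have h3 : C * (1 + Real.log (X / Y)) ≤ C * (1 + L) := by gcongr
    rw [h1]; linarith
  have hRR : C * (X / Y) * (1 + Real.log (X / Y)) ≤ R := by
    calc C * (X / Y) * (1 + Real.log (X / Y)) ≤ C * (X / Y) * (1 + L) := by gcongr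
      _ = (X / Y) * (C * (1 + L)) := by ring
      _ ≤ (X / Y) * (L ^ 8 / 2) := by gcongr
      _ = X / Y * L ^ 8 / 2 := by ring
      _ ≤ (R : ℝ) := hR2
  have h := hmt (X / Y) (X * (Δ - δ)) hR0C hB R hRR
  have h2 : ∑ q ∈ Icc 1 R, mp q * (X * Y * MI (X * (Δ - δ)) (q * Y / X)) =
      X * Y * ∑ q ∈ Icc 1 R, mp q * (2 * ∫ u in (0 : ℝ)..(X * (Δ - δ)), sc u * kk (q / (X / Y) * u)) := by
    rw [Finset.mul_sum]
    apply Finset.sum_congr rfl
    intro q _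
    unfold MI
    have h3 : (q : ℝ) / (X / Y) = q * Y / X := by field_simp
    rw [h3]
    ring
  rw [h2]
  exact mul_le_mul_of_nonneg_left h (by positivity)

theorem partA (η : ℝ) (hη : 0 < η) : ∃ C : ℝ, 1 ≤ C ∧ ∀ (X : ℝ) (Y : ℕ), C ≤ X →
    Real.sqrt X * Real.log X ^ 12 ≤ Y → C * Y ≤ X →
    ∑ Q ∈ Icc 1 Y, HH X Q (X / Q * Real.log X ^ 8) ≤
      ∑ Q ∈ Icc 1 Y, (X * Real.log Q - X * CQ Q) + η * X * Y := by
  set η' := min (η / 10) 1 with hη'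
  have hη0 : 0 < η' := lt_min (by linarith) one_pos
  have hη1 : η' ≤ 1 := min_le_right _ _
  have hη2 : η' ≤ η / 10 := min_le_left _ _
  obtain ⟨Cs, hCs, hs⟩ := small
  obtain ⟨Cf, hCf, hf⟩ := phi_sum
  obtain ⟨Cp, hCp, hp⟩ := pnt_sup 8
  obtain ⟨X1, hd⟩ := diag η' hη0
  obtain ⟨Cm, hCm, hm⟩ := mt η' hη0
  obtain ⟨C0, hpar⟩ := FIA_par
  have hev : ∀ᶠ L : ℝ in atTop, 6 * Cs / L ^ 3 ≤ η' ∧ (2 * (1 + Real.log (2 * L ^ 5)) + 18) / L ≤ η' ∧
      8 * Real.pi / L ^ 5 ≤ η' ∧ (16 * Real.pi * Cf + 64 * Cf * Cp) / L ^ 3 ≤ η' ∧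
      8 * Cf / L ^ 13 ≤ η' ∧ Cp / L ^ 8 ≤ 1 ∧ 3 * Cm / L ^ 1 ≤ 1 ∧ 1 ≤ L := by
    filter_upwards [FID_pow (6 * Cs) 3 (by norm_num) η' hη0, FID_log η' hη0,
      FID_pow (8 * Real.pi) 5 (by norm_num) η' hη0,
      FID_pow (16 * Real.pi * Cf + 64 * Cf * Cp) 3 (by norm_num) η' hη0,
      FID_pow (8 * Cf) 13 (by norm_num) η' hη0, FID_pow Cp 8 (by norm_num) 1 one_pos,
      FID_pow (3 * Cm) 1 (by norm_num) 1 one_pos, eventually_ge_atTop 1] with L h1 h2 h3 h4 h5 h6 h7 h8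
    exact ⟨h1, h2, h3, h4, h5, h6, h7, h8⟩
  have hevX : ∀ᶠ X : ℝ in atTop, _ := Real.tendsto_log_atTop.eventually hev
  obtain ⟨X2, hX2⟩ := eventually_atTop.mp hevX
  refine ⟨max (max (max C0 X1) X2) (max Cm 1), le_trans (le_max_right _ _) (le_max_right _ _),
    fun X Y hCX hY hCY => ?_⟩
  have hX0' : C0 ≤ X := le_trans (le_trans (le_trans (le_max_left _ _) (le_max_left _ _)) (le_max_left _ _)) hCX
  have hX1' : X1 ≤ X := le_trans (le_trans (le_trans (le_max_right _ _) (le_max_left _ _)) (le_max_left _ _)) hCX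
  have hX2' : X2 ≤ X := le_trans (le_trans (le_max_right _ _) (le_max_left _ _)) hCX
  have hYn : (0 : ℝ) ≤ Y := Nat.cast_nonneg _
  have hC1 : (1 : ℝ) ≤ max (max (max C0 X1) X2) (max Cm 1) :=
    le_trans (le_max_right _ _) (le_max_right _ _)
  have hCmC : Cm ≤ max (max (max C0 X1) X2) (max Cm 1) :=
    le_trans (le_max_left _ _) (le_max_right _ _)
  have hYX : (Y : ℝ) ≤ X := le_trans (le_mul_of_one_le_left hYn hC1) hCY
  have hCmY : Cm * Y ≤ X := le_trans (mul_le_mul_of_nonneg_right hCmC hYn) hCY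
  obtain ⟨Z, T, R, U, hP⟩ := hpar X Y hX0' hY hYX
  obtain ⟨g1, g2, g3, g4, g5, g6, g7, g8⟩ := hX2 X hX2'
  set L := Real.log X with hLd
  have hP' := hP
  obtain ⟨hX, hL, hXL, _, hY2, hYL, hZ1, hZ2, hT1, hT2, hR1, hR2, hU1, hU2, hZ, hT, hR, hU, hZY,
    hTZ, hRZ⟩ := hP'
  have hL1 : 1 ≤ L := by linarith
  have hL0 : 0 < L := by linarith
  have hX0 : 0 < X := by linarith
  have hZ0 : (0 : ℝ) < Z := by exact_mod_cast hZ
  have hZYr : (Z : ℝ) ≤ Y := by exact_mod_cast hZY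
  have hY0 : (0 : ℝ) < Y := by linarith
  have hY1 : 1 ≤ Y := le_trans hZ hZY
  have hXY0 : 0 < X * Y := by positivity
  -- the diagonal
  have hA1 : A2 Lam ⌊X⌋₊ ≤ X * L - X + η' * X := hd X hX1'
  have hA : A2 Lam ⌊X⌋₊ ≤ X * L := by
    have : η' * X ≤ 1 * X := by gcongr
    linarith
  have hA0 : 0 ≤ A2 Lam ⌊X⌋₊ := Finset.sum_nonneg fun _ _ => sq_nonneg _
  -- Chebyshev
  have hE : ∀ x, 0 ≤ x → x ≤ X → |psi x - x| ≤ Cp * X / L ^ 8 := fun x h0 h1 =>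
    hp X (by linarith) x h0 h1
  have hpsi : psi X ≤ 2 * X := by
    have h1 := (abs_le.mp (hE X hX0.le le_rfl)).2
    have h2 : Cp * X / L ^ 8 ≤ X := by
      calc Cp * X / L ^ 8 = (Cp / L ^ 8) * X := by ring
        _ ≤ 1 * X := by gcongr
        _ = X := one_mul X
    linarith
  have hpsi0 : 0 ≤ psi X := by
    unfold psi
    exact Finset.sum_nonneg fun n _ => ArithmeticFunction.vonMangoldt_nonneg
  -- parameters
  set δ : ℝ := 1 / (X * L ^ 6) with hδ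
  set Δ : ℝ := L ^ 2 / X with hΔ
  have hδ0 : 0 < δ := by positivity
  have hEE := FIB_E hP
  rw [← hδ] at hEE
  have hEE1 : EE X L Y Z T R / δ ≤ Y * ((2 * (1 + Real.log (2 * L ^ 5)) + 18) / L ^ 2) := by
    rw [div_le_iff₀ hδ0]
    linarith
  have hq0 : 0 ≤ (2 * (1 + Real.log (2 * L ^ 5)) + 18) := by
    have : 0 ≤ Real.log (2 * L ^ 5) := Real.log_nonneg (by
      have := one_le_pow₀ (n := 5) hL1
      linarith)
    linarith
  have hEE2 : EE X L Y Z T R ≤ Y * δ := by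
    refine hEE.trans ?_
    have h1 : (2 * (1 + Real.log (2 * L ^ 5)) + 18) / L ^ 2 ≤ 1 := by
      calc (2 * (1 + Real.log (2 * L ^ 5)) + 18) / L ^ 2
          = ((2 * (1 + Real.log (2 * L ^ 5)) + 18) / L) * (1 / L) := by field_simp
        _ ≤ 1 * 1 := by
          gcongr
          · linarith
          · rw [div_le_one hL0]; exact hL1
        _ = 1 := one_mul 1
    calc Y * δ * ((2 * (1 + Real.log (2 * L ^ 5)) + 18) / L ^ 2) ≤ Y * δ * 1 := by gcongr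
      _ = Y * δ := mul_one _
  -- split
  have hsplit : ∑ Q ∈ Icc 1 Y, HH X Q (X / Q * L ^ 8) =
      ∑ Q ∈ Icc 1 Z, HH X Q (X / Q * L ^ 8) + ∑ Q ∈ Ioc Z Y, HH X Q (X / Q * L ^ 8) := by
    rw [← Finset.sum_union]
    · congr 1
      ext x
      simp only [mem_Icc, mem_union, mem_Ioc]
      omega
    · rw [Finset.disjoint_left]
      intro x hx hx2
      rw [mem_Icc] at hx
      rw [mem_Ioc] at hx2
      omega
  have p1 := FIB_small hP Cs hCs hs hA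
  have p2 : ∑ Q ∈ Ioc Z Y, HH X Q (X / Q * L ^ 8) ≤ Big Lam ⌊X⌋₊ Z Y R := by
    unfold Big
    apply Finset.sum_le_sum
    intro Q hQ
    rw [mem_Ioc] at hQ
    apply FIB_hh_le X Q R (by omega)
    have hQY : (Q : ℝ) ≤ Y := by exact_mod_cast hQ.2
    have hQ0 : (0 : ℝ) < Q := by
      have : 0 < Q := by omega
      exact_mod_cast this
    calc (R : ℝ) ≤ X / Y * L ^ 8 := hR1
      _ ≤ X / Q * L ^ 8 := by gcongr
  have p3 := FIC_big hP (Cp * X / L ^ 8) hE δ Δ hδ hΔ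
  have p4 := FID_er hP Cp Cf δ Δ hCp hCf hδ hΔ hpsi hpsi0 (hf R hR).1 (hf R hR).2
  have hCL : Cm * (1 + L) + 1 ≤ L ^ 2 := by
    have h1 : 3 * Cm ≤ L := by
      rw [pow_one, div_le_iff₀ hL0] at g7
      linarith
    nlinarith
  have hCL2 : Cm * (1 + L) ≤ L ^ 8 / 2 := by
    have h1 : L ^ 2 * 2 ≤ L ^ 8 := by
      calc L ^ 2 * 2 ≤ L ^ 2 * L ^ 6 := by
            gcongr
            exact le_trans (by linarith) (le_self_pow₀ hL1 (by norm_num))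
        _ = L ^ 8 := by ring
    linarith
  have p5 := FIE_main hP η' Cm hm hCm hCmY hCL hCL2 δ Δ hδ hΔ
  have p6 : ∑ q ∈ Icc 1 R, mp q * (X * Y * MI (X * (Δ - δ)) (q * Y / X) - er X Y δ Δ (Cp * X / L ^ 8) q / δ)
      = ∑ q ∈ Icc 1 R, mp q * (X * Y * MI (X * (Δ - δ)) (q * Y / X))
        - ∑ q ∈ Icc 1 R, mp q * (er X Y δ Δ (Cp * X / L ^ 8) q / δ) := by
    rw [← Finset.sum_sub_distrib]
    exact Finset.sum_congr rfl fun q _ => by ring
  rw [p6] at p3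
  -- small terms
  have s1 : 6 * Cs * (X * Y) / L ^ 3 ≤ η' * (X * Y) := by
    calc 6 * Cs * (X * Y) / L ^ 3 = (6 * Cs / L ^ 3) * (X * Y) := by ring
      _ ≤ η' * (X * Y) := by gcongr
  have s2 : EE X L Y Z T R / δ * A2 Lam ⌊X⌋₊ ≤ η' * (X * Y) := by
    calc EE X L Y Z T R / δ * A2 Lam ⌊X⌋₊
        ≤ (Y * ((2 * (1 + Real.log (2 * L ^ 5)) + 18) / L ^ 2)) * (X * L) := by
          apply mul_le_mul hEE1 hA hA0
          positivity
      _ = ((2 * (1 + Real.log (2 * L ^ 5)) + 18) / L) * (X * Y) := by field_simp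
      _ ≤ η' * (X * Y) := by gcongr
  have s3 : (Y * δ + EE X L Y Z T R) * (4 * Real.pi * ⌊X⌋₊ * A2 Lam ⌊X⌋₊) ≤ η' * (X * Y) := by
    have hN : (⌊X⌋₊ : ℝ) ≤ X := Nat.floor_le hX0.le
    have hpi0 := Real.pi_pos
    calc (Y * δ + EE X L Y Z T R) * (4 * Real.pi * ⌊X⌋₊ * A2 Lam ⌊X⌋₊)
        ≤ (Y * δ + Y * δ) * (4 * Real.pi * X * (X * L)) := by
          apply mul_le_mul
          · linarith
          · gcongr
          · positivity
          · positivity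
      _ = (8 * Real.pi / L ^ 5) * (X * Y) := by rw [hδ]; field_simp; ring
      _ ≤ η' * (X * Y) := by gcongr
  have s4 : X * Y * ((16 * Real.pi * Cf + 64 * Cf * Cp) / L ^ 3 + 8 * Cf / L ^ 13) ≤
      2 * η' * (X * Y) := by
    calc X * Y * ((16 * Real.pi * Cf + 64 * Cf * Cp) / L ^ 3 + 8 * Cf / L ^ 13)
        ≤ X * Y * (η' + η') := by gcongr
      _ = 2 * η' * (X * Y) := by ring
  have s5 : (Y : ℝ) * A2 Lam ⌊X⌋₊ ≤ Y * (X * L - X + η' * X) := by gcongr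
  have hlogXY : Real.log (X / Y) = L - Real.log Y := by
    rw [Real.log_div hX0.ne' hY0.ne', hX]
  have hcq := cq_sum Y hY1
  have hcq2 : ∑ Q ∈ Icc 1 Y, (X * Real.log Q - X * CQ Q) = X * ∑ Q ∈ Icc 1 Y, (Real.log Q - CQ Q) := by
    rw [Finset.mul_sum]
    exact Finset.sum_congr rfl fun q _ => by ring
  have hcq3 : X * (Y * (Real.log Y - 1 - c1 - Real.log (2 * Real.pi))) ≤
      X * ∑ Q ∈ Icc 1 Y, (Real.log Q - CQ Q) := mul_le_mul_of_nonneg_left hcq hX0.le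
  rw [hsplit, hcq2]
  rw [hlogXY] at p5
  have hexp : (↑Y + EE X L Y Z T R / δ) * A2 Lam ⌊X⌋₊ =
      Y * A2 Lam ⌊X⌋₊ + EE X L Y Z T R / δ * A2 Lam ⌊X⌋₊ := by ring
  rw [hexp] at p3
  have hfin : 7 * η' * (X * Y) ≤ η * X * Y := by
    have : 7 * η' ≤ η := by linarith
    calc 7 * η' * (X * Y) ≤ η * (X * Y) := by gcongr
      _ = η * X * Y := by ring
  have e1 : (Y : ℝ) * (X * L - X + η' * X) - X * Y * (L - Real.log Y + c1 + Real.log (2 * Real.pi) - η')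
      = X * (Y * (Real.log Y - 1 - c1 - Real.log (2 * Real.pi))) + 2 * η' * (X * Y) := by ring
  linarith

end Pool.Agent.HC
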