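import Pool.Agent.Lib_helper92.HCF.Base
import Pool.Agent.Lib_helper61.FG.P.DU
import Pool.Agent.Lib_helper92.HCF.BaseB

/-! HC block DHH : the dual lower bound for the characters of large conductor. -/

set_option autoImplicit false

namespace Pool.Agent.HC

open Finset Complex Filter Topology MeasureTheory Pool.Agent.Var35 Pool.Agent.Var73
open scoped ArithmeticFunction ArithmeticFunction.Moebius
open Pool.Agent.FG61 (off bb)

/-- the Parseval identity -/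
theorem DHH_pars (N Q : ℕ) (hQ : 1 ≤ Q) (F : ℕ → ℝ) :
    (1 / (Nat.totient Q : ℝ)) * ∑ χ : DirichletCharacter ℂ Q,
        ‖∑ n ∈ Icc 1 N, (F n : ℂ) * χ (n : ZMod Q)‖ ^ 2
      = ∑ a ∈ (range Q).filter (fun a => Nat.Coprime a Q),
        (∑ n ∈ (Icc 1 N).filter (fun n => n % Q = a), F n) ^ 2 := by
  classical
  haveI : NeZero Q := ⟨by omega⟩
  have hphi : (Nat.totient Q : ℝ) ≠ 0 := by
    have := Nat.totient_pos.mpr (show 0 < Q by omega)
    exact_mod_cast this.ne'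
  set C : ZMod Q → ℂ := fun a =>
    ((∑ n ∈ (Icc 1 N).filter (fun n : ℕ => (n : ZMod Q) = a), F n : ℝ) : ℂ) with hC
  have h1 : ∀ χ : DirichletCharacter ℂ Q, ∑ n ∈ Icc 1 N, (F n : ℂ) * χ (n : ZMod Q)
      = ∑ a : ZMod Q, χ a * C a := by
    intro χ
    have h2 : ∀ a ∈ (univ : Finset (ZMod Q)), χ a * C a =
        ∑ n ∈ (Icc 1 N).filter (fun n : ℕ => (n : ZMod Q) = a), (F n : ℂ) * χ (n : ZMod Q) := by
      intro a _
      rw [hC]
      push_cast
      rw [mul_sum]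
      refine sum_congr rfl fun n hn => ?_
      rw [(mem_filter.1 hn).2]
      ring
    rw [sum_congr rfl h2]
    exact (Finset.sum_fiberwise_of_maps_to (fun n _ => mem_univ _) _).symm
  rw [sum_congr rfl fun χ _ => by rw [h1 χ]]
  rw [orthr C, ← mul_assoc, one_div, inv_mul_cancel₀ hphi, one_mul]
  refine Finset.sum_nbij' (fun x => x.val) (fun c => (c : ZMod Q)) ?_ ?_ ?_ ?_ ?_
  · intro x hx
    simp only [mem_filter, mem_univ, true_and] at hx
    rw [mem_filter, mem_range]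
    refine ⟨ZMod.val_lt x, ?_⟩
    rw [← ZMod.isUnit_iff_coprime, ZMod.natCast_zmod_val]
    exact hx
  · intro c hc
    simp only [mem_filter, mem_univ, true_and]
    exact (ZMod.isUnit_iff_coprime c Q).mpr (mem_filter.1 hc).2
  · intro x _; exact ZMod.natCast_zmod_val x
  · intro c hc
    exact ZMod.val_cast_of_lt (mem_range.1 (mem_filter.1 hc).1)
  · intro x _
    rw [hC]
    simp only
    rw [Complex.norm_real, Real.norm_eq_abs, sq_abs]
    congr 1
    refine sum_congr ?_ fun _ _ => rfl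
    refine Finset.filter_congr fun n _ => ?_
    constructor
    · intro h
      rw [← h, ZMod.val_natCast]
    · intro h
      have h3 : ((n % Q : ℕ) : ZMod Q) = x := by rw [h, ZMod.natCast_zmod_val]
      rw [← h3, ZMod.natCast_mod]

theorem DHH_pol (z w : ℂ) : (z * (starRingEnd ℂ) w).re = (‖z + w‖ ^ 2 - ‖z - w‖ ^ 2) / 4 := by
  rw [← Complex.normSq_eq_norm_sq, ← Complex.normSq_eq_norm_sq, Complex.normSq_apply,
    Complex.normSq_apply]
  simp only [Complex.mul_re, Complex.conj_re, Complex.conj_im, Complex.add_re, Complex.add_im,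
    Complex.sub_re, Complex.sub_im]
  ring

theorem DHH_ineq (z w : ℂ) : 2 * (z * (starRingEnd ℂ) w).re - ‖w‖ ^ 2 ≤ ‖z‖ ^ 2 := by
  rw [← Complex.normSq_eq_norm_sq, ← Complex.normSq_eq_norm_sq, Complex.normSq_apply,
    Complex.normSq_apply]
  simp only [Complex.mul_re, Complex.conj_re, Complex.conj_im]
  nlinarith [sq_nonneg (z.re - w.re), sq_nonneg (z.im - w.im)]

/-- the bilinear Parseval identity -/
theorem DHH_bil (N Q : ℕ) (hQ : 1 ≤ Q) (F G : ℕ → ℝ) :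
    (1 / (Nat.totient Q : ℝ)) * ∑ χ : DirichletCharacter ℂ Q,
        ((∑ n ∈ Icc 1 N, (F n : ℂ) * χ (n : ZMod Q)) *
          (starRingEnd ℂ) (∑ n ∈ Icc 1 N, (G n : ℂ) * χ (n : ZMod Q))).re
      = ∑ a ∈ (range Q).filter (fun a => Nat.Coprime a Q),
        (∑ n ∈ (Icc 1 N).filter (fun n => n % Q = a), F n) *
        (∑ n ∈ (Icc 1 N).filter (fun n => n % Q = a), G n) := by
  have h1 := DHH_pars N Q hQ (fun n => F n + G n)
  have h2 := DHH_pars N Q hQ (fun n => F n - G n)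
  have h3 : ∀ χ : DirichletCharacter ℂ Q,
      ((∑ n ∈ Icc 1 N, (F n : ℂ) * χ (n : ZMod Q)) *
          (starRingEnd ℂ) (∑ n ∈ Icc 1 N, (G n : ℂ) * χ (n : ZMod Q))).re
      = (‖∑ n ∈ Icc 1 N, (((F n + G n : ℝ)) : ℂ) * χ (n : ZMod Q)‖ ^ 2
        - ‖∑ n ∈ Icc 1 N, (((F n - G n : ℝ)) : ℂ) * χ (n : ZMod Q)‖ ^ 2) / 4 := by
    intro χ
    have e1 : ∑ n ∈ Icc 1 N, (((F n + G n : ℝ)) : ℂ) * χ (n : ZMod Q)
        = ∑ n ∈ Icc 1 N, (F n : ℂ) * χ (n : ZMod Q) + ∑ n ∈ Icc 1 N, (G n : ℂ) * χ (n : ZMod Q) := by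
      rw [← sum_add_distrib]
      refine sum_congr rfl fun n _ => ?_
      push_cast; ring
    have e2 : ∑ n ∈ Icc 1 N, (((F n - G n : ℝ)) : ℂ) * χ (n : ZMod Q)
        = ∑ n ∈ Icc 1 N, (F n : ℂ) * χ (n : ZMod Q) - ∑ n ∈ Icc 1 N, (G n : ℂ) * χ (n : ZMod Q) := by
      rw [← sum_sub_distrib]
      refine sum_congr rfl fun n _ => ?_
      push_cast; ring
    rw [DHH_pol, e1, e2]
  rw [sum_congr rfl fun χ _ => h3 χ, ← sum_div, sum_sub_distrib, ← mul_div_assoc, mul_sub, h1, h2,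
    ← sum_sub_distrib, sum_div]
  refine sum_congr rfl fun a _ => ?_
  rw [sum_add_distrib, sum_sub_distrib]
  ring

theorem dual_hh_pr (X D : ℝ) (N Q : ℕ) (hN : N = ⌊X⌋₊) (hX : 0 ≤ X) (hQ : 1 ≤ Q) (b : ℕ → ℝ)
    (B : ℝ) (hB : ∀ n ∈ Icc 1 N, |b n| ≤ B) (hB0 : 0 ≤ B) :
    2 * ∑ n ∈ Icc 1 N, Lam n * b n - ∑ n ∈ Icc 1 N, b n ^ 2
      - 2 * |off N Q Pool.Agent.FG61.Lam b| - |off N Q b b| - 2 * lowp N Q D b
      - 2 * (∑ n ∈ (Icc 1 N).filter (fun n => ¬ Nat.Coprime n Q), Lam n) * (((N : ℝ) / Q + 1) * B)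
      ≤ HH X Q D := by
  classical
  set S : Finset ℕ := (range Q).filter (fun a => Nat.Coprime a Q) with hS
  set psi : ℕ → ℝ := fun a => ∑ n ∈ (Icc 1 N).filter (fun n => n % Q = a), Lam n with hpsi
  set u : ℕ → ℝ := fun a => ∑ n ∈ (Icc 1 N).filter (fun n => n % Q = a), b n with hu
  have hmodS : ∀ n : ℕ, n % Q ∈ S ↔ Nat.Coprime n Q := by
    intro n
    rw [hS, mem_filter, mem_range]
    have h1 : n % Q < Q := Nat.mod_lt _ (by omega)
    have h2 : Nat.Coprime (n % Q) Q ↔ Nat.Coprime n Q := by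
      unfold Nat.Coprime
      rw [← Nat.gcd_rec, Nat.gcd_comm]
    rw [h2]
    exact ⟨fun h => h.2, fun h => ⟨h1, h⟩⟩
  -- the quadratic term
  have h2 : ∑ a ∈ S, u a ^ 2 ≤ ∑ n ∈ Icc 1 N, b n ^ 2 + off N Q b b := by
    have e1 : ∑ a ∈ S, u a ^ 2 ≤ ∑ a ∈ range Q, u a ^ 2 :=
      Finset.sum_le_sum_of_subset_of_nonneg (Finset.filter_subset _ _) fun _ _ _ => sq_nonneg _
    have e2 : ∑ a ∈ range Q, u a ^ 2 = ∑ n ∈ Icc 1 N, b n * u (n % Q) := by
      have := Pool.Agent.FG61.DU_fiber N Q b u (range Q)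
      have e3 : (Icc 1 N).filter (fun n => n % Q ∈ range Q) = Icc 1 N := by
        refine Finset.filter_true_of_mem fun n _ => ?_
        exact mem_range.2 (Nat.mod_lt _ (by omega))
      rw [e3] at this
      rw [← this]
      refine Finset.sum_congr rfl fun a _ => ?_
      rw [sq]
    have e4 := Pool.Agent.FG61.DU_sum_res N Q hQ b b
    have e5 : ∑ n ∈ Icc 1 N, b n * b n = ∑ n ∈ Icc 1 N, b n ^ 2 :=
      Finset.sum_congr rfl fun n _ => (sq _).symm
    rw [e5] at e4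
    rw [← e4]
    rw [← e2]
    exact e1
  -- the main term
  have hub : ∀ n : ℕ, |u (n % Q)| ≤ ((N : ℝ) / Q + 1) * B := by
    intro n
    calc |u (n % Q)| ≤ ∑ m ∈ (Icc 1 N).filter (fun m => m % Q = n % Q), |b m| :=
          Finset.abs_sum_le_sum_abs _ _
      _ ≤ ∑ m ∈ (Icc 1 N).filter (fun m => m % Q = n % Q), B :=
          Finset.sum_le_sum fun m hm => hB m (mem_filter.1 hm).1
      _ = (((Icc 1 N).filter (fun m => m % Q = n % Q)).card : ℝ) * B := by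
          rw [Finset.sum_const, nsmul_eq_mul]
      _ ≤ ((N : ℝ) / Q + 1) * B :=
          mul_le_mul_of_nonneg_right (Pool.Agent.FG61.DU_count N Q n hQ) hB0
  have h3 : ∑ n ∈ Icc 1 N, Lam n * b n + off N Q Pool.Agent.FG61.Lam b
      - (∑ n ∈ (Icc 1 N).filter (fun n => ¬ Nat.Coprime n Q), Lam n) * (((N : ℝ) / Q + 1) * B)
      ≤ ∑ a ∈ S, psi a * u a := by
    have e1 := Pool.Agent.FG61.DU_fiber N Q Lam u S
    have e1' : ∑ a ∈ S, psi a * u a =
        ∑ n ∈ (Icc 1 N).filter (fun n => Nat.Coprime n Q), Lam n * u (n % Q) := by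
      have e2 : (Icc 1 N).filter (fun n => n % Q ∈ S) =
          (Icc 1 N).filter (fun n => Nat.Coprime n Q) := Finset.filter_congr fun n _ => hmodS n
      rw [e2] at e1
      rw [← e1]
      refine Finset.sum_congr rfl fun a _ => mul_comm _ _
    have e3 := Pool.Agent.FG61.DU_sum_res N Q hQ Lam b
    have e4 : ∑ n ∈ Icc 1 N, Lam n * u (n % Q) =
        ∑ n ∈ (Icc 1 N).filter (fun n => Nat.Coprime n Q), Lam n * u (n % Q) +
        ∑ n ∈ (Icc 1 N).filter (fun n => ¬ Nat.Coprime n Q), Lam n * u (n % Q) :=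
      (Finset.sum_filter_add_sum_filter_not _ _ _).symm
    have e5 : ∑ n ∈ (Icc 1 N).filter (fun n => ¬ Nat.Coprime n Q), Lam n * u (n % Q) ≤
        (∑ n ∈ (Icc 1 N).filter (fun n => ¬ Nat.Coprime n Q), Lam n) * (((N : ℝ) / Q + 1) * B) := by
      rw [Finset.sum_mul]
      refine Finset.sum_le_sum fun n _ => ?_
      exact mul_le_mul_of_nonneg_left ((le_abs_self _).trans (hub n))
        ArithmeticFunction.vonMangoldt_nonneg
    have e6 : ∑ n ∈ Icc 1 N, Lam n * u (n % Q) =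
        ∑ n ∈ Icc 1 N, Lam n * b n + off N Q Lam b := by
      rw [← e3]
    have e7 : off N Q Lam b = off N Q Pool.Agent.FG61.Lam b := rfl
    rw [e1']
    linarith
  -- the characters
  have hbil := DHH_bil N Q hQ Lam b
  have hpar := DHH_pars N Q hQ b
  have hphi0 : (0 : ℝ) ≤ 1 / (Nat.totient Q : ℝ) := by positivity
  set P : DirichletCharacter ℂ Q → ℂ := fun χ => ∑ n ∈ Icc 1 N, (Lam n : ℂ) * χ (n : ZMod Q) with hP
  set U : DirichletCharacter ℂ Q → ℂ := fun χ => ∑ n ∈ Icc 1 N, (b n : ℂ) * χ (n : ZMod Q) with hU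
  have hHH : HH X Q D = (1 / (Nat.totient Q : ℝ)) * ∑ χ : DirichletCharacter ℂ Q,
      if D < (χ.conductor : ℝ) then ‖P χ‖ ^ 2 else 0 := by
    unfold HH
    rw [← hN]
  have hlow : (1 / (Nat.totient Q : ℝ)) * ∑ χ : DirichletCharacter ℂ Q,
      (if (χ.conductor : ℝ) ≤ D then (P χ * (starRingEnd ℂ) (U χ)).re else 0) ≤ lowp N Q D b := by
    have e1 : (1 / (Nat.totient Q : ℝ)) * ∑ χ : DirichletCharacter ℂ Q,
      (if (χ.conductor : ℝ) ≤ D then (P χ * (starRingEnd ℂ) (U χ)).re else 0)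
      = ((1 / (Nat.totient Q : ℂ)) * ∑ χ : DirichletCharacter ℂ Q,
        if (χ.conductor : ℝ) ≤ D then P χ * (starRingEnd ℂ) (U χ) else 0).re := by
      have e2 : (1 / (Nat.totient Q : ℂ)) = ((1 / (Nat.totient Q : ℝ) : ℝ) : ℂ) := by push_cast; rfl
      rw [e2, Complex.re_ofReal_mul, Complex.re_sum]
      congr 1
      refine sum_congr rfl fun χ _ => ?_
      split_ifs
      · rfl
      · simp
    rw [e1]
    refine (Complex.re_le_norm _).trans (le_of_eq ?_)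
    unfold lowp
    rfl
  have hpt : ∀ χ : DirichletCharacter ℂ Q,
      2 * (P χ * (starRingEnd ℂ) (U χ)).re
        - 2 * (if (χ.conductor : ℝ) ≤ D then (P χ * (starRingEnd ℂ) (U χ)).re else 0)
        - ‖U χ‖ ^ 2 ≤ (if D < (χ.conductor : ℝ) then ‖P χ‖ ^ 2 else 0) := by
    intro χ
    by_cases h : D < (χ.conductor : ℝ)
    · rw [if_pos h, if_neg (not_le.mpr h)]
      have := DHH_ineq (P χ) (U χ)
      linarith
    · rw [if_neg h, if_pos (not_lt.mp h)]
      have := sq_nonneg ‖U χ‖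
      linarith
  have hsum := Finset.sum_le_sum (fun χ (_ : χ ∈ (univ : Finset (DirichletCharacter ℂ Q))) => hpt χ)
  rw [sum_sub_distrib, sum_sub_distrib, ← mul_sum, ← mul_sum] at hsum
  have hsum2 := mul_le_mul_of_nonneg_left hsum hphi0
  rw [← hHH] at hsum2
  have h5 : (1 / (Nat.totient Q : ℝ)) * ∑ χ : DirichletCharacter ℂ Q,
      (P χ * (starRingEnd ℂ) (U χ)).re = ∑ a ∈ S, psi a * u a := hbil
  have h6 : (1 / (Nat.totient Q : ℝ)) * ∑ χ : DirichletCharacter ℂ Q, ‖U χ‖ ^ 2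
      = ∑ a ∈ S, u a ^ 2 := hpar
  have h7 : off N Q b b ≤ |off N Q b b| := le_abs_self _
  have h8 : -|off N Q Pool.Agent.FG61.Lam b| ≤ off N Q Pool.Agent.FG61.Lam b := neg_abs_le _
  have h9 : (1 / (Nat.totient Q : ℝ)) * (2 * ∑ χ : DirichletCharacter ℂ Q,
        (P χ * (starRingEnd ℂ) (U χ)).re
      - 2 * ∑ χ : DirichletCharacter ℂ Q,
        (if (χ.conductor : ℝ) ≤ D then (P χ * (starRingEnd ℂ) (U χ)).re else 0)
      - ∑ χ : DirichletCharacter ℂ Q, ‖U χ‖ ^ 2)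
      = 2 * ((1 / (Nat.totient Q : ℝ)) * ∑ χ : DirichletCharacter ℂ Q,
        (P χ * (starRingEnd ℂ) (U χ)).re)
      - 2 * ((1 / (Nat.totient Q : ℝ)) * ∑ χ : DirichletCharacter ℂ Q,
        (if (χ.conductor : ℝ) ≤ D then (P χ * (starRingEnd ℂ) (U χ)).re else 0))
      - (1 / (Nat.totient Q : ℝ)) * ∑ χ : DirichletCharacter ℂ Q, ‖U χ‖ ^ 2 := by ring
  rw [h9, h5, h6] at hsum2
  linarith

alias dual_hh := dual_hh_pr

end Pool.Agent.HC
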