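import Pool.Agent.Lib_helper92.HCF.Base
import Pool.Agent.Lib_helper92.HCF.BaseB

/-! HC : block LWC -/

set_option autoImplicit false

namespace Pool.Agent.HC

open Finset Complex Filter Topology MeasureTheory Pool.Agent.Var35 Pool.Agent.Var73
open scoped ArithmeticFunction ArithmeticFunction.Moebius

theorem LWC_fiber (Q r : ℕ) (hr : r ∣ Q) (hQ : 1 ≤ Q) :
    ((univ : Finset (DirichletCharacter ℂ Q)).filter (fun χ => χ.conductor = r)).card ≤ r := by
  classical
  have hr0 : 0 < r := Nat.pos_of_dvd_of_pos hr hQ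
  have : NeZero r := ⟨hr0.ne'⟩
  have h1 : (univ : Finset (DirichletCharacter ℂ Q)).filter (fun χ => χ.conductor = r)
      ⊆ (univ : Finset (DirichletCharacter ℂ r)).image (DirichletCharacter.changeLevel hr) := by
    intro χ hχ
    rw [mem_filter] at hχ
    obtain ⟨h, χ₀, h2⟩ := χ.factorsThrough_conductor
    rw [mem_image]
    obtain rfl := hχ.2
    exact ⟨χ₀, mem_univ _, h2.symm⟩
  refine (card_le_card h1).trans (card_image_le.trans ?_)
  rw [card_univ]
  have h3 := DirichletCharacter.card_eq_totient_of_hasEnoughRootsOfUnity ℂ r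
  rw [Nat.card_eq_fintype_card] at h3
  have h4 : Fintype.card (DirichletCharacter ℂ r) = r.totient := by
    rw [← h3]
  rw [h4]
  exact Nat.totient_le r

theorem low_card_pr (Q : ℕ) (hQ : 1 ≤ Q) (D : ℝ) (hD : 1 ≤ D) :
    (((univ : Finset (DirichletCharacter ℂ Q)).filter (fun χ => (χ.conductor : ℝ) ≤ D)).card : ℝ)
      ≤ Q.divisors.card * D := by
  classical
  set A := (univ : Finset (DirichletCharacter ℂ Q)).filter (fun χ => (χ.conductor : ℝ) ≤ D) with hA
  have h1 : ∀ χ ∈ A, χ.conductor ∈ Q.divisors.filter (fun r : ℕ => (r : ℝ) ≤ D) := by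
    intro χ hχ
    rw [hA, mem_filter] at hχ
    rw [mem_filter, Nat.mem_divisors]
    exact ⟨⟨χ.conductor_dvd_level, by omega⟩, hχ.2⟩
  rw [card_eq_sum_card_fiberwise h1]
  push_cast
  have h2 : ∀ r ∈ Q.divisors.filter (fun r : ℕ => (r : ℝ) ≤ D),
      ((A.filter (fun χ => χ.conductor = r)).card : ℝ) ≤ D := by
    intro r hr
    rw [mem_filter, Nat.mem_divisors] at hr
    have h3 := LWC_fiber Q r hr.1.1 hQ
    have h4 : (A.filter (fun χ => χ.conductor = r)).card ≤ r := by
      refine le_trans (card_le_card ?_) h3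
      intro χ hχ
      rw [mem_filter] at hχ ⊢
      exact ⟨mem_univ _, hχ.2⟩
    have h5 : ((A.filter (fun χ => χ.conductor = r)).card : ℝ) ≤ r := by exact_mod_cast h4
    exact h5.trans hr.2
  refine (sum_le_sum h2).trans ?_
  rw [sum_const, nsmul_eq_mul]
  refine mul_le_mul_of_nonneg_right ?_ (by linarith)
  exact_mod_cast card_filter_le _ _

alias low_card := low_card_pr

end Pool.Agent.HC
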