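import Pool.Agent.Lib_helper92.HCF.Base
import Pool.Agent.Lib_helper92.HCF.BaseB

/-! HC block LWU : sums with a Dirichlet character in terms of exponential sums. -/

set_option autoImplicit false

namespace Pool.Agent.HC

open Finset Complex Filter Topology MeasureTheory Pool.Agent.Var35 Pool.Agent.Var73
open scoped ArithmeticFunction ArithmeticFunction.Moebius
open Pool.Agent.FG61 (off bb)

theorem LWU_std (d : ℕ) [NeZero d] (j : ZMod d) (m : ℕ) :
    ZMod.stdAddChar (N := d) ((m : ZMod d) * j) = e ((m : ℝ) * ((j.val : ℝ) / d)) := by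
  have h1 : ((m : ZMod d) * j) = ((m * j.val : ℕ) : ZMod d) := by
    push_cast
    rw [ZMod.natCast_zmod_val]
  rw [h1, std_eq_nat]
  congr 1
  push_cast
  ring

theorem LWU_ind (d : ℕ) [NeZero d] (m : ℕ) :
    ∑ j : ZMod d, ZMod.stdAddChar (N := d) ((m : ZMod d) * j) = if d ∣ m then (d : ℂ) else 0 := by
  have h3 := AddChar.sum_mulShift (m : ZMod d) (ZMod.isPrimitive_stdAddChar d)
  have h4 : ∑ j : ZMod d, ZMod.stdAddChar (N := d) ((m : ZMod d) * j)
      = ∑ j : ZMod d, ZMod.stdAddChar (N := d) (j * (m : ZMod d)) :=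
    sum_congr rfl fun j _ => by rw [mul_comm]
  rw [h4, h3]
  by_cases h : d ∣ m
  · rw [if_pos h, if_pos ((ZMod.natCast_eq_zero_iff m d).mpr h), ZMod.card]
  · rw [if_neg h, if_neg (fun h' => h ((ZMod.natCast_eq_zero_iff m d).mp h'))]
    simp

/-- one divisor -/
theorem LWU_div (N d r : ℕ) [NeZero d] [NeZero r] (b : ℕ → ℝ) (lam : ℝ)
    (hlam : ∀ α : ℝ, ‖∑ n ∈ Icc 1 N, ((b n : ℝ) : ℂ) * e (n * α)‖ ≤ lam)
    (ψ : DirichletCharacter ℂ r) (hψ : ψ.IsPrimitive) :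
    ‖∑ m ∈ Icc 1 N, (b m : ℂ) * ((if d ∣ m then (1 : ℂ) else 0) * ψ (m : ZMod r))‖
      ≤ Real.sqrt r * lam := by
  have hd0 : (0 : ℝ) < d := by exact_mod_cast Nat.pos_of_ne_zero (NeZero.ne d)
  have hr0 : (0 : ℝ) < r := by exact_mod_cast Nat.pos_of_ne_zero (NeZero.ne r)
  have hlam0 : 0 ≤ lam := (norm_nonneg _).trans (hlam 0)
  have hinv : (ψ⁻¹).IsPrimitive := by
    rw [DirichletCharacter.isPrimitive_def, DirichletCharacter.conductor_inv]
    exact hψ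
  set τ : ℂ := gaussSum ψ⁻¹ (ZMod.stdAddChar (N := r)) with hτ
  have hτn : ‖τ‖ = Real.sqrt r := by
    have h1 := gauss_norm_prim ψ⁻¹ hinv
    rw [← hτ] at h1
    rw [← h1, Real.sqrt_sq (norm_nonneg _)]
  have hmain : (∑ m ∈ Icc 1 N, (b m : ℂ) * ((if d ∣ m then (1 : ℂ) else 0) * ψ (m : ZMod r)))
      * ((d : ℂ) * τ)
      = ∑ j : ZMod d, ∑ a : ZMod r, ψ⁻¹ a *
        ∑ m ∈ Icc 1 N, ((b m : ℝ) : ℂ) * e (m * ((j.val : ℝ) / d + (a.val : ℝ) / r)) := by
    have h1 : ∀ m : ℕ, ((if d ∣ m then (1 : ℂ) else 0) * ψ (m : ZMod r)) * ((d : ℂ) * τ)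
        = ∑ j : ZMod d, ∑ a : ZMod r, ψ⁻¹ a * e (m * ((j.val : ℝ) / d + (a.val : ℝ) / r)) := by
      intro m
      have h2 := gauss_shift_eq ψ⁻¹ hinv (m : ZMod r)
      rw [inv_inv, ← hτ] at h2
      have h3 := LWU_ind d m
      have h4 : ((if d ∣ m then (1 : ℂ) else 0) * ψ (m : ZMod r)) * ((d : ℂ) * τ)
          = (if d ∣ m then (d : ℂ) else 0) * (ψ (m : ZMod r) * τ) := by
        split_ifs <;> ring
      rw [h4, ← h3, ← h2, sum_mul]
      refine sum_congr rfl fun j _ => ?_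
      rw [mul_sum]
      refine sum_congr rfl fun a _ => ?_
      rw [LWU_std d j m, LWU_std r a m, mul_add, e_add]
      ring
    rw [sum_mul]
    calc ∑ m ∈ Icc 1 N, (b m : ℂ) * ((if d ∣ m then (1 : ℂ) else 0) * ψ (m : ZMod r)) * ((d : ℂ) * τ)
        = ∑ m ∈ Icc 1 N, ∑ j : ZMod d, ∑ a : ZMod r,
            ψ⁻¹ a * (((b m : ℝ) : ℂ) * e (m * ((j.val : ℝ) / d + (a.val : ℝ) / r))) := by
          refine sum_congr rfl fun m _ => ?_
          rw [mul_assoc, h1 m, mul_sum]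
          refine sum_congr rfl fun j _ => ?_
          rw [mul_sum]
          refine sum_congr rfl fun a _ => ?_
          ring
      _ = _ := by
          rw [sum_comm]
          refine sum_congr rfl fun j _ => ?_
          rw [sum_comm]
          refine sum_congr rfl fun a _ => ?_
          rw [mul_sum]
  have hbd : ‖(∑ m ∈ Icc 1 N, (b m : ℂ) * ((if d ∣ m then (1 : ℂ) else 0) * ψ (m : ZMod r)))
      * ((d : ℂ) * τ)‖ ≤ (d : ℝ) * (r * lam) := by
    rw [hmain]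
    refine (norm_sum_le _ _).trans ?_
    have h1 : ∀ j ∈ (univ : Finset (ZMod d)), ‖∑ a : ZMod r, ψ⁻¹ a *
        ∑ m ∈ Icc 1 N, ((b m : ℝ) : ℂ) * e (m * ((j.val : ℝ) / d + (a.val : ℝ) / r))‖
        ≤ r * lam := by
      intro j _
      refine (norm_sum_le _ _).trans ?_
      have h2 : ∀ a ∈ (univ : Finset (ZMod r)), ‖ψ⁻¹ a *
          ∑ m ∈ Icc 1 N, ((b m : ℝ) : ℂ) * e (m * ((j.val : ℝ) / d + (a.val : ℝ) / r))‖
          ≤ lam := by
        intro a _
        rw [norm_mul]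
        calc ‖ψ⁻¹ a‖ * ‖∑ m ∈ Icc 1 N, ((b m : ℝ) : ℂ) * e (m * ((j.val : ℝ) / d + (a.val : ℝ) / r))‖
            ≤ 1 * lam := mul_le_mul (DirichletCharacter.norm_le_one _ _) (hlam _)
              (norm_nonneg _) zero_le_one
          _ = lam := one_mul _
      refine (sum_le_sum h2).trans ?_
      rw [sum_const, card_univ, ZMod.card, nsmul_eq_mul]
    refine (sum_le_sum h1).trans ?_
    rw [sum_const, card_univ, ZMod.card, nsmul_eq_mul]
  rw [norm_mul, norm_mul, hτn, Complex.norm_natCast] at hbd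
  have hs : 0 < Real.sqrt r := Real.sqrt_pos.mpr hr0
  have hss : Real.sqrt r * Real.sqrt r = r := Real.mul_self_sqrt hr0.le
  have h5 : ‖∑ m ∈ Icc 1 N, (b m : ℂ) * ((if d ∣ m then (1 : ℂ) else 0) * ψ (m : ZMod r))‖
      * ((d : ℝ) * Real.sqrt r) ≤ (Real.sqrt r * lam) * ((d : ℝ) * Real.sqrt r) := by
    refine hbd.trans (le_of_eq ?_)
    calc (d : ℝ) * (r * lam) = (d : ℝ) * ((Real.sqrt r * Real.sqrt r) * lam) := by rw [hss]
      _ = _ := by ring
  exact le_of_mul_le_mul_right h5 (mul_pos hd0 hs)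

theorem low_char_pr (N Q : ℕ) (hQ : 1 ≤ Q) (b : ℕ → ℝ) (lam : ℝ)
    (hlam : ∀ α : ℝ, ‖∑ n ∈ Icc 1 N, ((b n : ℝ) : ℂ) * e (n * α)‖ ≤ lam)
    (χ : DirichletCharacter ℂ Q) :
    ‖∑ m ∈ Icc 1 N, (b m : ℂ) * χ (m : ZMod Q)‖ ≤ Q.divisors.card * Real.sqrt χ.conductor * lam := by
  haveI : NeZero Q := ⟨by omega⟩
  set r : ℕ := χ.conductor with hr
  haveI : NeZero r := ⟨χ.conductor_ne_zero⟩
  set ψ : DirichletCharacter ℂ r := χ.primitiveCharacter with hψ
  have hprim : ψ.IsPrimitive := DirichletCharacter.primitiveCharacter_isPrimitive χ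
  have hlam0 : 0 ≤ lam := (norm_nonneg _).trans (hlam 0)
  have h1 : ∀ m : ℕ, χ (m : ZMod Q) = (if Nat.Coprime m Q then (1 : ℂ) else 0) * ψ (m : ZMod r) := by
    intro m
    by_cases hc : Nat.Coprime m Q
    · rw [if_pos hc, one_mul]
      have h2 : IsCoprime (m : ℤ) (Q : ℤ) := Nat.isCoprime_iff_coprime.mpr hc
      have h3 := DirichletCharacter.primitiveCharacter_apply_of_isCoprime χ h2
      rw [hψ]
      simpa using h3.symm
    · rw [if_neg hc, zero_mul]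
      refine MulChar.map_nonunit _ ?_
      rw [ZMod.isUnit_iff_coprime]
      exact hc
  have h2 : ∑ m ∈ Icc 1 N, (b m : ℂ) * χ (m : ZMod Q) = ∑ d ∈ Q.divisors, ((μ d : ℤ) : ℂ) *
      ∑ m ∈ Icc 1 N, (b m : ℂ) * ((if d ∣ m then (1 : ℂ) else 0) * ψ (m : ZMod r)) := by
    calc ∑ m ∈ Icc 1 N, (b m : ℂ) * χ (m : ZMod Q)
        = ∑ m ∈ Icc 1 N, ∑ d ∈ Q.divisors,
            ((μ d : ℤ) : ℂ) * ((b m : ℂ) * ((if d ∣ m then (1 : ℂ) else 0) * ψ (m : ZMod r))) := by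
          refine sum_congr rfl fun m _ => ?_
          rw [h1 m, coprime_indicator m Q hQ, sum_mul, mul_sum]
          refine sum_congr rfl fun d _ => ?_
          split_ifs <;> ring
      _ = _ := by
          rw [sum_comm]
          refine sum_congr rfl fun d _ => ?_
          rw [mul_sum]
  rw [h2]
  refine (norm_sum_le _ _).trans ?_
  have h3 : ∀ d ∈ Q.divisors, ‖((μ d : ℤ) : ℂ) *
      ∑ m ∈ Icc 1 N, (b m : ℂ) * ((if d ∣ m then (1 : ℂ) else 0) * ψ (m : ZMod r))‖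
      ≤ Real.sqrt r * lam := by
    intro d hd
    haveI : NeZero d := ⟨(Nat.pos_of_mem_divisors hd).ne'⟩
    rw [norm_mul]
    have h4 : ‖((μ d : ℤ) : ℂ)‖ ≤ 1 := by
      rw [Complex.norm_intCast]
      exact_mod_cast ArithmeticFunction.abs_moebius_le_one (n := d)
    calc ‖((μ d : ℤ) : ℂ)‖ *
          ‖∑ m ∈ Icc 1 N, (b m : ℂ) * ((if d ∣ m then (1 : ℂ) else 0) * ψ (m : ZMod r))‖
        ≤ 1 * (Real.sqrt r * lam) := mul_le_mul h4 (LWU_div N d r b lam hlam ψ hprim)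
          (norm_nonneg _) zero_le_one
      _ = _ := one_mul _
  refine (sum_le_sum h3).trans ?_
  rw [sum_const, nsmul_eq_mul, mul_assoc]

alias low_char := low_char_pr

end Pool.Agent.HC
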