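import Pool.Agent.Lib_helper92.HCF.Base
import Pool.Agent.Lib_helper61.FG.P.DU
import Pool.Agent.Lib_helper92.HCF.BaseB
import Pool.Agent.Lib_helper92.HCF.LWU
import Pool.Agent.Lib_helper92.HCF.LWC

/-! MP_5dd4bb_nt, HC, block LWP. -/

set_option autoImplicit false

namespace Pool.Agent.HC

open Finset Complex Filter Topology MeasureTheory Pool.Agent.Var35 Pool.Agent.Var73
open scoped ArithmeticFunction ArithmeticFunction.Moebius
open Pool.Agent.FG61 (off bb)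

theorem lwp_char (N Q : ℕ) [NeZero Q] (χ : DirichletCharacter ℂ Q) :
    ∑ n ∈ Icc 1 N, (Lam n : ℂ) * χ (n : ZMod Q) =
      ∑ a : ZMod Q, χ a * ((∑ n ∈ (Icc 1 N).filter (fun n : ℕ => (n : ZMod Q) = a), Lam n : ℝ) : ℂ) := by
  rw [← Finset.sum_fiberwise (Icc 1 N) (fun n : ℕ => (n : ZMod Q))
    (fun n => (Lam n : ℂ) * χ (n : ZMod Q))]
  refine Finset.sum_congr rfl fun a _ => ?_
  rw [Complex.ofReal_sum, Finset.mul_sum]
  refine Finset.sum_congr rfl fun n hn => ?_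
  rw [mem_filter] at hn
  rw [hn.2]; ring

theorem lwp_count (N Q : ℕ) [NeZero Q] (a : ZMod Q) :
    (((Icc 1 N).filter (fun n : ℕ => (n : ZMod Q) = a)).card : ℝ) ≤ (N : ℝ) / Q + 1 := by
  have h1 := Pool.Agent.FG61.DU_count N Q a.val (Nat.pos_of_ne_zero (NeZero.ne Q))
  refine le_trans (le_of_eq ?_) h1
  congr 2
  refine Finset.filter_congr fun n _ => ?_
  rw [← ZMod.natCast_eq_natCast_iff', ZMod.natCast_zmod_val]

theorem lwp_lam_nonneg (n : ℕ) : 0 ≤ Lam n := ArithmeticFunction.vonMangoldt_nonneg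

theorem lwp_lam_le (N n : ℕ) (hn : n ∈ Icc 1 N) : Lam n ≤ Real.log N := by
  rw [mem_Icc] at hn
  refine ArithmeticFunction.vonMangoldt_le_log.trans ?_
  apply Real.log_le_log
  · exact_mod_cast hn.1
  · exact_mod_cast hn.2

theorem lwp_psi (N : ℕ) : ∑ n ∈ Icc 1 N, Lam n ≤ N * Real.log N := by
  calc ∑ n ∈ Icc 1 N, Lam n ≤ ∑ n ∈ Icc 1 N, Real.log N :=
        Finset.sum_le_sum fun n hn => lwp_lam_le N n hn
    _ = N * Real.log N := by simp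

theorem lwp_sq (N Q : ℕ) [NeZero Q] (hQN : Q ≤ N) :
    ∑ χ : DirichletCharacter ℂ Q, ‖∑ n ∈ Icc 1 N, (Lam n : ℂ) * χ (n : ZMod Q)‖ ^ 2 ≤
      2 * (N * Real.log N) ^ 2 := by
  classical
  have hQ : 0 < Q := Nat.pos_of_ne_zero (NeZero.ne Q)
  have hQ0 : (0 : ℝ) < Q := by exact_mod_cast hQ
  have hN1 : (1 : ℝ) ≤ N := by exact_mod_cast (by omega : 1 ≤ N)
  have hlog : 0 ≤ Real.log N := Real.log_nonneg hN1
  simp_rw [lwp_char N Q]
  rw [orthr (fun a : ZMod Q =>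
    ((∑ n ∈ (Icc 1 N).filter (fun n : ℕ => (n : ZMod Q) = a), Lam n : ℝ) : ℂ))]
  set c : ZMod Q → ℝ := fun a => ∑ n ∈ (Icc 1 N).filter (fun n : ℕ => (n : ZMod Q) = a), Lam n
    with hc
  have hc0 : ∀ a, 0 ≤ c a := fun a => Finset.sum_nonneg fun _ _ => lwp_lam_nonneg _
  have hc1 : ∀ a, c a ≤ ((N : ℝ) / Q + 1) * Real.log N := by
    intro a
    calc c a ≤ ∑ n ∈ (Icc 1 N).filter (fun n : ℕ => (n : ZMod Q) = a), Real.log N :=
          Finset.sum_le_sum fun n hn => lwp_lam_le N n (mem_filter.1 hn).1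
      _ = (((Icc 1 N).filter (fun n : ℕ => (n : ZMod Q) = a)).card : ℝ) * Real.log N := by
          rw [Finset.sum_const, nsmul_eq_mul]
      _ ≤ _ := mul_le_mul_of_nonneg_right (lwp_count N Q a) hlog
  have hsum : ∑ a : ZMod Q, c a = ∑ n ∈ Icc 1 N, Lam n :=
    Finset.sum_fiberwise (Icc 1 N) (fun n : ℕ => (n : ZMod Q)) (fun n => Lam n)
  have h1 : ∑ a ∈ univ.filter (fun a : ZMod Q => IsUnit a), ‖((c a : ℝ) : ℂ)‖ ^ 2 ≤
      (((N : ℝ) / Q + 1) * Real.log N) * (N * Real.log N) := by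
    calc ∑ a ∈ univ.filter (fun a : ZMod Q => IsUnit a), ‖((c a : ℝ) : ℂ)‖ ^ 2
        ≤ ∑ a : ZMod Q, ‖((c a : ℝ) : ℂ)‖ ^ 2 :=
          Finset.sum_le_sum_of_subset_of_nonneg (Finset.filter_subset _ _)
            fun _ _ _ => by positivity
      _ ≤ ∑ a : ZMod Q, (((N : ℝ) / Q + 1) * Real.log N) * c a := by
          refine Finset.sum_le_sum fun a _ => ?_
          rw [Complex.norm_real, Real.norm_of_nonneg (hc0 a), sq]
          exact mul_le_mul_of_nonneg_right (hc1 a) (hc0 a)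
      _ = (((N : ℝ) / Q + 1) * Real.log N) * ∑ n ∈ Icc 1 N, Lam n := by
          rw [← Finset.mul_sum, hsum]
      _ ≤ _ := mul_le_mul_of_nonneg_left (lwp_psi N) (by positivity)
  have hφ : ((Nat.totient Q : ℕ) : ℝ) ≤ Q := by exact_mod_cast Nat.totient_le Q
  have hφ0 : (0 : ℝ) ≤ ((Nat.totient Q : ℕ) : ℝ) := Nat.cast_nonneg _
  calc (Nat.totient Q : ℝ) * ∑ a ∈ univ.filter (fun a : ZMod Q => IsUnit a), ‖((c a : ℝ) : ℂ)‖ ^ 2
      ≤ Q * ((((N : ℝ) / Q + 1) * Real.log N) * (N * Real.log N)) :=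
        mul_le_mul hφ h1 (Finset.sum_nonneg fun _ _ => by positivity) hQ0.le
    _ = (N + Q) * Real.log N * (N * Real.log N) := by field_simp
    _ ≤ (N + N) * Real.log N * (N * Real.log N) := by
        have : (Q : ℝ) ≤ N := by exact_mod_cast hQN
        gcongr
    _ = 2 * (N * Real.log N) ^ 2 := by ring

/-- block LWP -/
theorem lowp_le_pr (N Q : ℕ) (hQ : 1 ≤ Q) (hQN : Q ≤ N) (D lam : ℝ) (hD : 1 ≤ D) (b : ℕ → ℝ)
    (hlam : ∀ α : ℝ, ‖∑ n ∈ Icc 1 N, ((b n : ℝ) : ℂ) * e (n * α)‖ ≤ lam) :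
    lowp N Q D b ≤ 2 * (Q.divisors.card : ℝ) ^ 2 * D * lam * N * (1 + Real.log N) /
      (Nat.totient Q : ℝ) := by
  have : NeZero Q := ⟨by omega⟩
  have hlam0 : 0 ≤ lam := (norm_nonneg _).trans (hlam 0)
  have hN1 : (1 : ℝ) ≤ N := by exact_mod_cast (by omega : 1 ≤ N)
  have hlog : 0 ≤ Real.log N := Real.log_nonneg hN1
  have hφ0 : (0 : ℝ) < ((Nat.totient Q : ℕ) : ℝ) := by
    exact_mod_cast Nat.totient_pos.2 (by omega)
  set P : DirichletCharacter ℂ Q → ℂ := fun χ => ∑ n ∈ Icc 1 N, (Lam n : ℂ) * χ (n : ZMod Q)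
    with hP
  set U : DirichletCharacter ℂ Q → ℂ := fun χ => ∑ m ∈ Icc 1 N, (b m : ℂ) * χ (m : ZMod Q)
    with hU
  set F : Finset (DirichletCharacter ℂ Q) := univ.filter (fun χ => (χ.conductor : ℝ) ≤ D) with hF
  set τ : ℝ := (Q.divisors.card : ℝ) with hτ
  have hτ1 : 1 ≤ τ := by
    have : 0 < Q.divisors.card := Finset.card_pos.2 ⟨1, Nat.one_mem_divisors.2 (by omega)⟩
    rw [hτ]; exact_mod_cast this
  have hsD : Real.sqrt D ^ 2 = D := Real.sq_sqrt (by linarith)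
  have hUb : ∀ χ ∈ F, ‖U χ‖ ≤ τ * Real.sqrt D * lam := by
    intro χ hχ
    refine (low_char N Q hQ b lam hlam χ).trans ?_
    have := Real.sqrt_le_sqrt ((mem_filter.1 hχ).2)
    gcongr
  have h1 : lowp N Q D b ≤ (1 / (Nat.totient Q : ℝ)) * ∑ χ ∈ F, ‖P χ‖ * ‖U χ‖ := by
    unfold lowp
    rw [norm_mul, norm_div, norm_one, Complex.norm_natCast]
    apply mul_le_mul_of_nonneg_left _ (by positivity)
    rw [← Finset.sum_filter]
    refine (norm_sum_le _ _).trans (Finset.sum_le_sum fun χ _ => ?_)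
    rw [norm_mul, RCLike.norm_conj]
  have h2 : ∑ χ ∈ F, ‖P χ‖ * ‖U χ‖ ≤ (∑ χ ∈ F, ‖P χ‖) * (τ * Real.sqrt D * lam) := by
    rw [Finset.sum_mul]
    exact Finset.sum_le_sum fun χ hχ => mul_le_mul_of_nonneg_left (hUb χ hχ) (norm_nonneg _)
  have h3 : (∑ χ ∈ F, ‖P χ‖) ^ 2 ≤ (2 * τ * Real.sqrt D * (N * Real.log N)) ^ 2 := by
    have e1 : (∑ χ ∈ F, ‖P χ‖) ^ 2 ≤ (F.card : ℝ) * ∑ χ ∈ F, ‖P χ‖ ^ 2 := sq_sum_le_card_mul_sum_sq
    have e2 : ∑ χ ∈ F, ‖P χ‖ ^ 2 ≤ 2 * (N * Real.log N) ^ 2 :=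
      (Finset.sum_le_sum_of_subset_of_nonneg (Finset.filter_subset _ _)
        fun _ _ _ => by positivity).trans (lwp_sq N Q hQN)
    have e3 : (F.card : ℝ) ≤ τ * D := low_card Q hQ D hD
    have e4 : (F.card : ℝ) * ∑ χ ∈ F, ‖P χ‖ ^ 2 ≤ (τ * D) * (2 * (N * Real.log N) ^ 2) :=
      mul_le_mul e3 e2 (Finset.sum_nonneg fun _ _ => by positivity) (by positivity)
    refine e1.trans (e4.trans ?_)
    have e5 : (2 * τ * Real.sqrt D * (N * Real.log N)) ^ 2 =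
        4 * τ ^ 2 * D * (N * Real.log N) ^ 2 := by
      calc (2 * τ * Real.sqrt D * (N * Real.log N)) ^ 2
          = 4 * τ ^ 2 * (Real.sqrt D ^ 2) * (N * Real.log N) ^ 2 := by ring
        _ = _ := by rw [hsD]
    rw [e5]
    have e6 : 0 ≤ D * (N * Real.log N) ^ 2 := by positivity
    nlinarith [mul_nonneg e6 (by nlinarith : (0 : ℝ) ≤ 4 * τ ^ 2 - 2 * τ)]
  have h4 : ∑ χ ∈ F, ‖P χ‖ ≤ 2 * τ * Real.sqrt D * (N * Real.log N) :=
    (pow_le_pow_iff_left₀ (Finset.sum_nonneg fun _ _ => norm_nonneg _) (by positivity)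
      two_ne_zero).1 h3
  have h5 : (∑ χ ∈ F, ‖P χ‖) * (τ * Real.sqrt D * lam) ≤
      2 * τ ^ 2 * D * lam * N * (1 + Real.log N) := by
    calc (∑ χ ∈ F, ‖P χ‖) * (τ * Real.sqrt D * lam)
        ≤ (2 * τ * Real.sqrt D * (N * Real.log N)) * (τ * Real.sqrt D * lam) :=
          mul_le_mul_of_nonneg_right h4 (by positivity)
      _ = 2 * τ ^ 2 * (Real.sqrt D ^ 2) * lam * N * Real.log N := by ring
      _ = 2 * τ ^ 2 * D * lam * N * Real.log N := by rw [hsD]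
      _ ≤ _ := mul_le_mul_of_nonneg_left (by linarith) (by positivity)
  calc lowp N Q D b ≤ (1 / (Nat.totient Q : ℝ)) * ∑ χ ∈ F, ‖P χ‖ * ‖U χ‖ := h1
    _ ≤ (1 / (Nat.totient Q : ℝ)) * (2 * τ ^ 2 * D * lam * N * (1 + Real.log N)) :=
        mul_le_mul_of_nonneg_left (h2.trans h5) (by positivity)
    _ = _ := by ring

alias lowp_le := lowp_le_pr

end Pool.Agent.HC
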