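import Pool.Agent.Lib_helper92.HCF.Base
import Pool.Agent.Lib_helper61.FG.P.MainD
import Pool.Agent.Lib_helper92.HCF.BaseB
import Pool.Agent.Lib_helper92.HCF.DHH
import Pool.Agent.Lib_helper92.HCF.LWP

/-! Block HBM: the characters of large conductor carry almost all the variance, for almost all
moduli. -/

set_option autoImplicit false

namespace Pool.Agent.HC

open Finset Complex Filter Topology MeasureTheory Pool.Agent.Var35 Pool.Agent.Var73
open scoped ArithmeticFunction ArithmeticFunction.Moebius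
open Pool.Agent.FG61 (off bb)

/-- choice of the parameters -/
lemma HBM_params (X Y v : ℝ) (hv : 1000 ≤ v) (hY0 : 0 < Y) (hYX : Y ≤ X)
    (hXY : X ^ 3 * v ^ 512 ≤ 16 * Y ^ 4) :
    ∃ K R : ℕ, 1 ≤ K ∧ K ≤ R ∧ R ≤ ⌊X⌋₊ ∧ (X / Y) ^ 2 * v ^ 64 ≤ K ∧
      (K : ℝ) ≤ 2 * ((X / Y) ^ 2 * v ^ 64) ∧ v ^ 384 * (K : ℝ) ^ 2 ≤ 64 * X ∧
      (R : ℝ) * K * v ^ 32 ≤ X ∧ X ≤ 2 * v ^ 32 * K * R := by
  have hv0 : 0 < v := by linarith
  have hv1 : 1 ≤ v := by linarith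
  have hX0 : 0 < X := lt_of_lt_of_le hY0 hYX
  set Kr : ℝ := (X / Y) ^ 2 * v ^ 64 with hKr
  have hXY1 : 1 ≤ X / Y := by rw [le_div_iff₀ hY0]; linarith
  have hv32 : 1 ≤ v ^ 32 := one_le_pow₀ hv1
  have hKr1 : 1 ≤ Kr := by
    rw [hKr]
    exact one_le_mul_of_one_le_of_one_le (one_le_pow₀ hXY1) (one_le_pow₀ hv1)
  set K : ℕ := ⌈Kr⌉₊ with hK
  have hK1 : Kr ≤ K := Nat.le_ceil _
  have hK2 : (K : ℝ) ≤ 2 * Kr := by
    have := Nat.ceil_lt_add_one (by linarith : (0:ℝ) ≤ Kr)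
    rw [← hK] at this; linarith
  have hK0 : (0 : ℝ) < K := by linarith
  have hKr2 : v ^ 384 * Kr ^ 2 ≤ 16 * X := by
    have h1 : Kr ^ 2 = X ^ 4 * v ^ 128 / Y ^ 4 := by
      rw [hKr, mul_pow, div_pow, div_pow]; ring
    rw [h1, ← mul_div_assoc, div_le_iff₀ (by positivity)]
    calc v ^ 384 * (X ^ 4 * v ^ 128) = X * (X ^ 3 * v ^ 512) := by ring
      _ ≤ X * (16 * Y ^ 4) := mul_le_mul_of_nonneg_left hXY hX0.le
      _ = 16 * X * Y ^ 4 := by ring
  have hKsq : v ^ 384 * (K : ℝ) ^ 2 ≤ 64 * X := by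
    have h1 : (K : ℝ) ^ 2 ≤ (2 * Kr) ^ 2 := pow_le_pow_left₀ hK0.le hK2 2
    calc v ^ 384 * (K : ℝ) ^ 2 ≤ v ^ 384 * (2 * Kr) ^ 2 :=
          mul_le_mul_of_nonneg_left h1 (by positivity)
      _ = 4 * (v ^ 384 * Kr ^ 2) := by ring
      _ ≤ 64 * X := by linarith
  have hq0 : 0 < v ^ 32 * (K : ℝ) := by positivity
  set Rr : ℝ := X / (v ^ 32 * K) with hRr
  have hRr2 : 2 * (K : ℝ) ≤ Rr := by
    rw [hRr, le_div_iff₀ hq0]
    have h2 : (1000:ℝ) ≤ v ^ 352 := le_trans hv (le_self_pow₀ hv1 (by norm_num))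
    have h3 : 0 ≤ v ^ 32 * (K:ℝ) ^ 2 := by positivity
    have h4 : v ^ 32 * (K:ℝ) ^ 2 * 1000 ≤ v ^ 32 * (K:ℝ) ^ 2 * v ^ 352 :=
      mul_le_mul_of_nonneg_left h2 h3
    have h5 : v ^ 32 * (K:ℝ) ^ 2 * v ^ 352 ≤ 64 * X := by
      calc v ^ 32 * (K:ℝ) ^ 2 * v ^ 352 = v ^ 384 * (K : ℝ) ^ 2 := by ring
        _ ≤ 64 * X := hKsq
    have h6 : 2 * (K:ℝ) * (v ^ 32 * K) = 2 * (v ^ 32 * (K:ℝ) ^ 2) := by ring
    rw [h6]
    linarith
  have hK1' : (1:ℝ) ≤ K := le_trans hKr1 hK1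
  have hRr0 : 0 ≤ Rr := by linarith
  set R : ℕ := ⌊Rr⌋₊ with hR
  have hR1 : (R : ℝ) ≤ Rr := Nat.floor_le hRr0
  have hR2 : Rr < R + 1 := Nat.lt_floor_add_one _
  have hR3 : Rr ≤ 2 * R := by linarith
  have hRX : Rr * (v ^ 32 * K) = X := by
    rw [hRr]; field_simp
  refine ⟨K, R, ?_, ?_, ?_, hK1, hK2, hKsq, ?_, ?_⟩
  · exact_mod_cast hK1'
  · rw [hR, Nat.le_floor_iff hRr0]; linarith
  · rw [hR]
    apply Nat.floor_mono
    rw [hRr]
    apply div_le_self hX0.le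
    exact one_le_mul_of_one_le_of_one_le hv32 hK1'
  · calc (R : ℝ) * K * v ^ 32 = R * (v ^ 32 * K) := by ring
      _ ≤ Rr * (v ^ 32 * K) := mul_le_mul_of_nonneg_right hR1 hq0.le
      _ = X := hRX
  · calc X = Rr * (v ^ 32 * K) := hRX.symm
      _ ≤ 2 * R * (v ^ 32 * K) := mul_le_mul_of_nonneg_right hR3 hq0.le
      _ = 2 * v ^ 32 * K * R := by ring

lemma HBM_hh_nonneg (X : ℝ) (Q : ℕ) (D : ℝ) : 0 ≤ HH X Q D := by
  unfold HH
  apply mul_nonneg
  · positivity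
  · apply Finset.sum_nonneg
    intro χ _
    split_ifs
    · positivity
    · exact le_rfl

/-- a modulus with small off-diagonal terms -/
lemma HBM_good (ε X Y v C : ℝ) (K R : ℕ) (hε : 0 < ε) (hC : 0 ≤ C) (hv : 1000 ≤ v)
    (hvX : v ^ 512 ≤ X)
    (hY1 : 1 ≤ Y) (hYX : Y ≤ X) (hXY : X ^ 3 * v ^ 512 ≤ 16 * Y ^ 4)
    (hK1 : 1 ≤ K) (hKR : K ≤ R) (hRN : R ≤ ⌊X⌋₊) (hK2 : (X / Y) ^ 2 * v ^ 64 ≤ K)
    (hK3 : (K : ℝ) ≤ 2 * ((X / Y) ^ 2 * v ^ 64)) (hK4 : v ^ 384 * (K : ℝ) ^ 2 ≤ 64 * X)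
    (hRK : (R : ℝ) * K * v ^ 32 ≤ X) (hRK2 : X ≤ 2 * v ^ 32 * K * R)
    (hL1 : 2 * (1 + Real.log (2 * X)) ^ 8 ≤ v) (hL3 : C * (1 + Real.log (2 * X)) ^ 8 ≤ v)
    (htau : ∀ n : ℕ, 1 ≤ n → (n : ℝ) ≤ 2 * X → (n.divisors.card : ℝ) ≤ v)
    (hb : ∀ α : ℝ, ‖∑ n ∈ Icc 1 ⌊X⌋₊, ((bb K R n : ℝ) : ℂ) * e (n * α)‖ ≤ X * v / K)
    (hB : ∀ n ∈ Icc 1 ⌊X⌋₊, |bb K R n| ≤ v ^ 2)
    (hcore : ((⌊X⌋₊ : ℕ) : ℝ) * (Real.log R - Real.log K)
      - 5 * (ε / 40) * (((⌊X⌋₊ : ℕ) : ℝ) * Real.log ((⌊X⌋₊ : ℕ) : ℝ)) - C * ((⌊X⌋₊ : ℕ) : ℝ)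
      - C * ((((⌊X⌋₊ : ℕ) : ℝ) / R) ^ 2 * Real.log (((⌊X⌋₊ : ℕ) : ℝ) / R) ^ 2)
      - 9 * ((R : ℝ) * K * (1 + Real.log ((⌊X⌋₊ : ℕ) : ℝ)) ^ 6)
      ≤ 2 * ∑ n ∈ Icc 1 ⌊X⌋₊, FG61.Lam n * bb K R n - ∑ n ∈ Icc 1 ⌊X⌋₊, bb K R n ^ 2)
    (hfin : C + 8 ≤ 9 / 16 * (ε * Real.log X)) (hlv : Real.log v = ε / 512 * Real.log X)
    (hlX : 1 ≤ Real.log X)
    (Q : ℕ) (hQ1 : Y < Q) (hQ2 : (Q : ℝ) ≤ 2 * Y) (hQN : Q ≤ ⌊X⌋₊)
    (ho1 : |off ⌊X⌋₊ Q FG61.Lam (bb K R)| ≤ X / v)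
    (ho2 : |off ⌊X⌋₊ Q (bb K R) (bb K R)| ≤ X / v) :
    X * (4 * Real.log Q - 3 * Real.log X - ε * Real.log X) ≤
      HH X Q ((X / Q) * Real.log X ^ 8) := by
  have hv0 : 0 < v := by linarith
  have hv1 : 1 ≤ v := by linarith
  have hY0 : 0 < Y := by linarith
  have hX0 : 0 < X := lt_of_lt_of_le hY0 hYX
  have hX1 : 1 ≤ X := hY1.trans hYX
  obtain ⟨N, hN⟩ : ∃ N, N = ⌊X⌋₊ := ⟨_, rfl⟩
  rw [← hN] at hRN hb hB hcore ho1 ho2 hQN
  have hNX : (N : ℝ) ≤ X := by rw [hN]; exact Nat.floor_le hX0.le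
  have hNX2 : X < N + 1 := by rw [hN]; exact Nat.lt_floor_add_one _
  have hR1 : 1 ≤ R := hK1.trans hKR
  have hN1 : 1 ≤ N := hR1.trans hRN
  have hQ0 : 1 ≤ Q := by
    have : (0:ℝ) < Q := by linarith
    exact_mod_cast this
  have hK1' : (1:ℝ) ≤ K := by exact_mod_cast hK1
  have hR1' : (1:ℝ) ≤ R := by exact_mod_cast hR1
  have hN1' : (1:ℝ) ≤ N := by exact_mod_cast hN1
  have hQ1' : (1:ℝ) ≤ Q := by exact_mod_cast hQ0
  have hK0 : (0:ℝ) < K := by linarith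
  have hR0 : (0:ℝ) < R := by linarith
  have hN0 : (0:ℝ) < N := by linarith
  have hQ0' : (0:ℝ) < Q := by linarith
  have hRN' : (R:ℝ) ≤ N := by exact_mod_cast hRN
  have hQN' : (Q:ℝ) ≤ N := by exact_mod_cast hQN
  have hQX : (Q:ℝ) ≤ 2 * X := by linarith
  have hXQ1 : 1 ≤ X / Q := by rw [le_div_iff₀ hQ0']; linarith
  -- logs
  obtain ⟨L, hL⟩ : ∃ L, L = 1 + Real.log (2 * X) := ⟨_, rfl⟩
  rw [← hL] at hL1 hL3
  have hlog2X : 0 ≤ Real.log (2 * X) := Real.log_nonneg (by linarith)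
  have hL0 : 1 ≤ L := by linarith
  have hLpow : ∀ k : ℕ, k ≤ 8 → L ^ k ≤ L ^ 8 := fun k hk => pow_le_pow_right₀ hL0 hk
  have hlogN : Real.log N ≤ L := by
    have := Real.log_le_log hN0 (by linarith : (N:ℝ) ≤ 2 * X); linarith
  have hlogN1 : 1 + Real.log N ≤ L := by
    have := Real.log_le_log hN0 (by linarith : (N:ℝ) ≤ 2 * X); linarith
  have hlogN0 : 0 ≤ Real.log N := Real.log_nonneg hN1'
  have hlogNX : Real.log N ≤ Real.log X := Real.log_le_log hN0 hNX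
  have hlogX0 : 0 ≤ Real.log X := Real.log_nonneg hX1
  have hlogXL : Real.log X ≤ L := by
    have := Real.log_le_log hX0 (by linarith : X ≤ 2 * X); linarith
  have hlogQ : Real.log Q ≤ L := by
    have := Real.log_le_log hQ0' hQX; linarith
  have hlogQ0 : 0 ≤ Real.log Q := Real.log_nonneg hQ1'
  have hXv : v ≤ X / v := by
    rw [le_div_iff₀ hv0]
    calc v * v = v ^ 2 := by ring
      _ ≤ v ^ 512 := pow_le_pow_right₀ hv1 (by norm_num)
      _ ≤ X := hvX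
  have hXv0 : 0 ≤ X / v := by positivity
  -- the dual inequality
  have hdual := dual_hh X ((X / Q) * Real.log X ^ 8) N Q hN hX0.le hQ0 (bb K R) (v ^ 2) hB
    (by positivity)
  -- low part
  have hlow : 2 * lowp N Q ((X / Q) * Real.log X ^ 8) (bb K R) ≤ X / v := by
    have hD : 1 ≤ (X / Q) * Real.log X ^ 8 :=
      one_le_mul_of_one_le_of_one_le hXQ1 (one_le_pow₀ hlX)
    have h1 := lowp_le N Q hQ0 hQN ((X / Q) * Real.log X ^ 8) (X * v / K) hD (bb K R) hb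
    have h2 := htau Q hQ0 hQX
    have h20 : (0 : ℝ) ≤ (Q.divisors.card : ℝ) := by positivity
    have hphi0 : 0 < (Nat.totient Q : ℝ) := by exact_mod_cast Nat.totient_pos.2 hQ0
    have h4 : 1 / (Nat.totient Q : ℝ) ≤ v / Y := by
      have h5 := Pool.Agent.Var35.totient_ge Q hQ0
      have h6 : 2 * Real.log Q + 1 ≤ v := by
        have h7 := hLpow 1 (by norm_num)
        rw [pow_one] at h7
        have h8 : Real.log Q ≤ L - 1 := by
          have := Real.log_le_log hQ0' hQX; linarith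
        linarith
      rw [div_le_div_iff₀ hphi0 hY0]
      calc 1 * Y ≤ Q := by linarith
        _ ≤ (2 * Real.log Q + 1) * (Nat.totient Q : ℝ) := h5
        _ ≤ v * (Nat.totient Q : ℝ) := mul_le_mul_of_nonneg_right h6 hphi0.le
    have h5 : (X / Q) * Real.log X ^ 8 ≤ (X / Y) * v := by
      have h6 : Real.log X ^ 8 ≤ v := by
        have := pow_le_pow_left₀ hlogX0 hlogXL 8
        have h7 : 0 ≤ L ^ 8 := by positivity
        linarith
      have h7 : X / Q ≤ X / Y := by gcongr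
      exact mul_le_mul h7 h6 (by positivity) (by positivity)
    have h6 : 1 + Real.log N ≤ v := by
      have h7 := hLpow 1 (by norm_num)
      rw [pow_one] at h7
      have h8 : 0 ≤ L ^ 8 := by positivity
      linarith
    have h60 : 0 ≤ 1 + Real.log (N : ℝ) := by linarith
    have hD0 : 0 ≤ (X / Q) * Real.log X ^ 8 := by linarith
    have h7 : lowp N Q ((X / Q) * Real.log X ^ 8) (bb K R) ≤
        2 * v ^ 2 * ((X / Y) * v) * (X * v / K) * X * v * (v / Y) := by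
      refine h1.trans ?_
      rw [div_eq_mul_one_div]
      have h9 : (Q.divisors.card : ℝ) ^ 2 ≤ v ^ 2 := pow_le_pow_left₀ h20 h2 2
      gcongr
    have h8 : 2 * v ^ 2 * ((X / Y) * v) * (X * v / K) * X * v * (v / Y) =
        2 * X * v ^ 6 * ((X / Y) ^ 2 / K) := by
      field_simp
    have h9 : (X / Y) ^ 2 / K ≤ 1 / v ^ 64 := by
      rw [div_le_div_iff₀ hK0 (by positivity)]
      linarith
    have h10 : lowp N Q ((X / Q) * Real.log X ^ 8) (bb K R) ≤ 2 * X * v ^ 6 * (1 / v ^ 64) := by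
      rw [h8] at h7
      refine h7.trans ?_
      exact mul_le_mul_of_nonneg_left h9 (by positivity)
    have h11 : 2 * X * v ^ 6 * (1 / v ^ 64) = 2 * X / v ^ 58 := by
      field_simp
    have h12 : 2 * (2 * X / v ^ 58) ≤ X / v := by
      rw [← mul_div_assoc, div_le_div_iff₀ (by positivity) hv0]
      have h13 : v ^ 58 = v * v ^ 57 := by ring
      have h14 : (4 : ℝ) ≤ v ^ 57 := le_trans (by linarith) (le_self_pow₀ hv1 (by norm_num))
      rw [h13]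
      calc 2 * (2 * X) * v = X * (v * 4) := by ring
        _ ≤ X * (v * v ^ 57) := by gcongr
    linarith
  -- noncoprime term
  have hnon : 2 * (∑ n ∈ (Icc 1 N).filter (fun n => ¬ Nat.Coprime n Q), Lam n) *
      (((N : ℝ) / Q + 1) * v ^ 2) ≤ X / v := by
    have h1 := Pool.Agent.Var35.E0_le N Q hQ0
    have h2 : ∑ n ∈ (Icc 1 N).filter (fun n => ¬ Nat.Coprime n Q), Lam n ≤ v := by
      refine le_trans h1 ?_
      have h3 : Real.log Q * Real.log N ≤ L * L := mul_le_mul hlogQ hlogN hlogN0 (by linarith)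
      have h4 := hLpow 2 (by norm_num)
      nlinarith
    have h20 : 0 ≤ ∑ n ∈ (Icc 1 N).filter (fun n => ¬ Nat.Coprime n Q), Lam n :=
      Finset.sum_nonneg fun n _ => ArithmeticFunction.vonMangoldt_nonneg
    have h5 : (N : ℝ) / Q + 1 ≤ 2 * (X / Y) := by
      have h6 : (N : ℝ) / Q ≤ X / Y := by
        gcongr
      have h7 : 1 ≤ X / Y := by rw [le_div_iff₀ hY0]; linarith
      linarith
    have h8 : 4 * v ^ 4 ≤ Y := by
      by_contra hcon
      push Not at hcon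
      have h9 : Y ^ 4 < (4 * v ^ 4) ^ 4 := pow_lt_pow_left₀ hcon hY0.le (by norm_num)
      have h10 : (1 : ℝ) ≤ X ^ 3 := one_le_pow₀ hX1
      have h11 : 1 * v ^ 512 ≤ X ^ 3 * v ^ 512 := mul_le_mul_of_nonneg_right h10 (by positivity)
      have h12 : v ^ 20 ≤ v ^ 512 := pow_le_pow_right₀ hv1 (by norm_num)
      have h14 : 4096 * v ^ 16 < v ^ 20 := by
        have : v ^ 20 = v ^ 4 * v ^ 16 := by ring
        rw [this]
        have h15 : (4096 : ℝ) < v ^ 4 := by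
          calc (4096 : ℝ) < 1000 ^ 4 := by norm_num
            _ ≤ v ^ 4 := pow_le_pow_left₀ (by norm_num) hv 4
        exact mul_lt_mul_of_pos_right h15 (by positivity)
      have h15 : 16 * (4 * v ^ 4) ^ 4 = 4096 * v ^ 16 := by ring
      linarith
    calc 2 * (∑ n ∈ (Icc 1 N).filter (fun n => ¬ Nat.Coprime n Q), Lam n) *
          (((N : ℝ) / Q + 1) * v ^ 2)
        ≤ 2 * v * (2 * (X / Y) * v ^ 2) := by gcongr
      _ = X * (4 * v ^ 3) / Y := by ring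
      _ ≤ X / v := by
          rw [div_le_div_iff₀ hY0 hv0]
          calc X * (4 * v ^ 3) * v = X * (4 * v ^ 4) := by ring
            _ ≤ X * Y := mul_le_mul_of_nonneg_left h8 hX0.le
  -- (N/R)^2 log^2
  have hsq : C * (((N : ℝ) / R) ^ 2 * Real.log ((N : ℝ) / R) ^ 2) ≤ X / v := by
    have h1 : (N : ℝ) / R ≤ 2 * v ^ 32 * K := by
      rw [div_le_iff₀ hR0]; linarith
    have h2 : 0 ≤ (N : ℝ) / R := by positivity
    have h3 : 0 ≤ Real.log ((N : ℝ) / R) := by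
      apply Real.log_nonneg
      rw [le_div_iff₀ hR0]; linarith
    have h4 : Real.log ((N : ℝ) / R) ≤ L := by
      have : Real.log ((N : ℝ) / R) ≤ Real.log N := by
        apply Real.log_le_log (by positivity)
        exact div_le_self hN0.le hR1'
      linarith
    have h5 : C * Real.log ((N : ℝ) / R) ^ 2 ≤ v := by
      have h6 : Real.log ((N : ℝ) / R) ^ 2 ≤ L ^ 8 :=
        (pow_le_pow_left₀ h3 h4 2).trans (hLpow 2 (by norm_num))
      exact (mul_le_mul_of_nonneg_left h6 hC).trans hL3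
    have h7 : ((N : ℝ) / R) ^ 2 ≤ (2 * v ^ 32 * K) ^ 2 := pow_le_pow_left₀ h2 h1 2
    calc C * (((N : ℝ) / R) ^ 2 * Real.log ((N : ℝ) / R) ^ 2)
        = ((N : ℝ) / R) ^ 2 * (C * Real.log ((N : ℝ) / R) ^ 2) := by ring
      _ ≤ (2 * v ^ 32 * K) ^ 2 * v := mul_le_mul h7 h5 (by positivity) (by positivity)
      _ ≤ X / v := by
          rw [le_div_iff₀ hv0]
          have h8 : 256 * v ^ 66 ≤ v ^ 384 := by
            have : v ^ 384 = v ^ 66 * v ^ 318 := by ring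
            rw [this]
            have h12 : (1000:ℝ) ≤ v ^ 318 := le_trans hv (le_self_pow₀ hv1 (by norm_num))
            nlinarith [pow_pos hv0 66]
          have h9 : 256 * v ^ 66 * (K:ℝ) ^ 2 ≤ v ^ 384 * (K:ℝ) ^ 2 :=
            mul_le_mul_of_nonneg_right h8 (by positivity)
          calc (2 * v ^ 32 * (K:ℝ)) ^ 2 * v * v = 4 * v ^ 66 * (K:ℝ) ^ 2 := by ring
            _ ≤ X := by linarith
  -- R K log^6
  have hrk : 9 * ((R : ℝ) * K * (1 + Real.log N) ^ 6) ≤ X / v := by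
    have h1 : (1 + Real.log N) ^ 6 ≤ L ^ 8 :=
      (pow_le_pow_left₀ (by linarith) hlogN1 6).trans (hLpow 6 (by norm_num))
    have h2 : (1 + Real.log N) ^ 6 ≤ v := by
      have : 0 ≤ L ^ 8 := by positivity
      linarith
    rw [le_div_iff₀ hv0]
    have h3 : 9 * v ^ 2 ≤ v ^ 32 := by
      have : v ^ 32 = v ^ 2 * v ^ 30 := by ring
      rw [this]
      have h12 : (1000:ℝ) ≤ v ^ 30 := le_trans hv (le_self_pow₀ hv1 (by norm_num))
      nlinarith [pow_pos hv0 2]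
    calc 9 * ((R : ℝ) * K * (1 + Real.log N) ^ 6) * v ≤ 9 * ((R : ℝ) * K * v) * v := by gcongr
      _ = R * K * (9 * v ^ 2) := by ring
      _ ≤ R * K * v ^ 32 := by gcongr
      _ ≤ X := hRK
  -- the main term
  have hRlog0 : 0 ≤ Real.log R := Real.log_nonneg hR1'
  have hKlog0 : 0 ≤ Real.log K := Real.log_nonneg hK1'
  have hKRlog : Real.log K ≤ Real.log R := Real.log_le_log hK0 (by exact_mod_cast hKR)
  have hRNlog : Real.log R ≤ Real.log N := Real.log_le_log hR0 hRN'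
  have hl1 : Real.log X ≤ Real.log 2 + 32 * Real.log v + Real.log K + Real.log R := by
    have h1 := Real.log_le_log hX0 hRK2
    rw [Real.log_mul (by positivity) (by positivity), Real.log_mul (by positivity) (by positivity),
      Real.log_mul (by norm_num) (by positivity), Real.log_pow] at h1
    push_cast at h1
    linarith
  have hl2 : Real.log K ≤ Real.log 2 + 2 * (Real.log X - Real.log Y) + 64 * Real.log v := by
    have h1 := Real.log_le_log hK0 hK3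
    rw [Real.log_mul (by norm_num) (by positivity), Real.log_mul (by positivity) (by positivity),
      Real.log_pow, Real.log_div hX0.ne' hY0.ne', Real.log_pow] at h1
    push_cast at h1
    linarith
  have hl3 : Real.log Q ≤ Real.log 2 + Real.log Y := by
    have h1 := Real.log_le_log hQ0' hQ2
    rw [Real.log_mul (by norm_num) hY0.ne'] at h1
    exact h1
  have hlog2 : Real.log 2 ≤ 1 := by
    have := Real.log_two_lt_d9; linarith
  obtain ⟨l, hl⟩ : ∃ l, l = Real.log R - Real.log K := ⟨_, rfl⟩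
  rw [← hl] at hcore
  have hl0 : 0 ≤ l := by linarith
  have hlL : l ≤ X / v := by
    have h7 := hLpow 1 (by norm_num)
    rw [pow_one] at h7
    linarith
  have hNl : X * l - X / v ≤ N * l := by
    nlinarith
  have hll : 4 * Real.log Q - 3 * Real.log X - 160 * Real.log v - 7 ≤ l := by
    linarith
  have hNN : 5 * (ε / 40) * (N * Real.log N) ≤ X * (ε / 8 * Real.log X) := by
    have h1 : (N:ℝ) * Real.log N ≤ X * Real.log X := mul_le_mul hNX hlogNX hlogN0 hX0.le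
    have h2 : 5 * (ε / 40) * (N * Real.log N) = ε / 8 * (N * Real.log N) := by ring
    have h3 : X * (ε / 8 * Real.log X) = ε / 8 * (X * Real.log X) := by ring
    rw [h2, h3]
    exact mul_le_mul_of_nonneg_left h1 (by positivity)
  have hCN : C * N ≤ C * X := mul_le_mul_of_nonneg_left hNX hC
  have h8 : 8 * (X / v) ≤ X := by
    have : 8 * (X / v) = X * 8 / v := by ring
    rw [this, div_le_iff₀ hv0]
    nlinarith
  have hXl : X * (4 * Real.log Q - 3 * Real.log X - 160 * Real.log v - 7) ≤ X * l :=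
    mul_le_mul_of_nonneg_left hll hX0.le
  rw [hlv] at hXl
  have hfin' : X * (C + 8) ≤ X * (9 / 16 * (ε * Real.log X)) :=
    mul_le_mul_of_nonneg_left hfin hX0.le
  linarith [hXl, hfin', hdual, hcore, hlow, hnon, hsq, hrk, hNl, hNN, hCN, h8, ho1, ho2]

/-- one dyadic block -/
theorem HBM_block (ε : ℝ) (hε : 0 < ε) (hε1 : ε ≤ 1) : ∃ X₀ : ℝ, ∀ X : ℝ, X₀ ≤ X → ∀ Y : ℝ,
    0 ≤ Y → Y ≤ X →
    (((Ioc ⌊Y⌋₊ ⌊2 * Y⌋₊).filter (fun Q : ℕ => Q ≤ ⌊X⌋₊ ∧ HH X Q ((X / Q) * Real.log X ^ 8) <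
      X * (4 * Real.log Q - 3 * Real.log X - ε * Real.log X))).card : ℝ) ≤ Y / X ^ (ε / 512) := by
  obtain ⟨C, hC, hcore⟩ := FG61.core_diag (ε / 40) (by positivity) (by linarith)
  obtain ⟨Cs, hCs, hsup⟩ := FG61.sup_bb
  have ha : 0 < ε / 512 := by positivity
  have hfl : Tendsto (fun X : ℝ => ⌊X⌋₊) atTop atTop := tendsto_nat_floor_atTop
  have hv1 : Tendsto (fun X : ℝ => X ^ (ε / 512)) atTop atTop := tendsto_rpow_atTop ha
  have hlog1 : Tendsto (fun X : ℝ => 9 / 16 * (ε * Real.log X)) atTop atTop :=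
    (Real.tendsto_log_atTop.const_mul_atTop hε).const_mul_atTop (by norm_num)
  have hev : ∀ᶠ X : ℝ in atTop, ∀ Y : ℝ, 0 ≤ Y → Y ≤ X →
    (((Ioc ⌊Y⌋₊ ⌊2 * Y⌋₊).filter (fun Q : ℕ => Q ≤ ⌊X⌋₊ ∧ HH X Q ((X / Q) * Real.log X ^ 8) <
      X * (4 * Real.log Q - 3 * Real.log X - ε * Real.log X))).card : ℝ) ≤
        Y / X ^ (ε / 512) := by
    filter_upwards [hfl.eventually hcore, hv1.eventually_ge_atTop 1000,
      hlog1.eventually_ge_atTop (C + 8), FG61.log8_le 2 _ ha, FG61.log8_le C _ ha,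
      FG61.log8_le (2 * Cs) _ ha, FG61.tau_le _ ha, eventually_ge_atTop 1,
      Real.tendsto_log_atTop.eventually_ge_atTop 1]
      with X hc hv hfin hL1 hL3 hLs htau hX1 hlX Y hY hYX
    have hX0 : 0 < X := by linarith
    obtain ⟨v, hvdef⟩ : ∃ v, v = X ^ (ε / 512) := ⟨_, rfl⟩
    rw [← hvdef] at hv hL1 hL3 hLs htau
    rw [← hvdef]
    have hv0 : 0 < v := by linarith
    have hv1 : 1 ≤ v := by linarith
    have hlv : Real.log v = ε / 512 * Real.log X := by rw [hvdef, Real.log_rpow hX0]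
    have hv512 : Real.log (v ^ 512) = ε * Real.log X := by
      rw [Real.log_pow, hlv]; push_cast; ring
    have hlogX0 : 0 ≤ Real.log X := Real.log_nonneg hX1
    have hvX : v ^ 512 ≤ X := by
      rw [← Real.log_le_log_iff (by positivity) hX0, hv512]
      nlinarith
    set S := (Ioc ⌊Y⌋₊ ⌊2 * Y⌋₊).filter (fun Q : ℕ => Q ≤ ⌊X⌋₊ ∧
      HH X Q ((X / Q) * Real.log X ^ 8) <
      X * (4 * Real.log Q - 3 * Real.log X - ε * Real.log X)) with hS
    rcases S.eq_empty_or_nonempty with he | hne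
    · rw [he]; simp only [card_empty, Nat.cast_zero]; positivity
    obtain ⟨Q0, hQ0⟩ := hne
    have hXY : X ^ 3 * v ^ 512 ≤ 16 * Y ^ 4 := by
      rw [hS, mem_filter, mem_Ioc] at hQ0
      have h1 : Q0 ≤ ⌊2 * Y⌋₊ := hQ0.1.2
      have h2 : (Q0 : ℝ) ≤ 2 * Y := (Nat.le_floor_iff (by linarith)).1 h1
      have h3 : 0 < X * (4 * Real.log Q0 - 3 * Real.log X - ε * Real.log X) :=
        lt_of_le_of_lt (HBM_hh_nonneg X Q0 _) hQ0.2.2
      have h4 : 0 < 4 * Real.log Q0 - 3 * Real.log X - ε * Real.log X := by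
        by_contra hcon
        push Not at hcon
        have := mul_nonpos_of_nonneg_of_nonpos hX0.le hcon
        linarith
      have h5 : 0 < (Q0 : ℝ) := by
        have : 0 < Q0 := lt_of_le_of_lt (Nat.zero_le _) hQ0.1.1
        exact_mod_cast this
      have h6 : Real.log (X ^ 3 * v ^ 512) < Real.log ((Q0 : ℝ) ^ 4) := by
        rw [Real.log_mul (by positivity) (by positivity), hv512, Real.log_pow, Real.log_pow]
        push_cast
        linarith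
      have h7 : X ^ 3 * v ^ 512 < (Q0 : ℝ) ^ 4 :=
        (Real.log_lt_log_iff (by positivity) (by positivity)).1 h6
      have h8 : (Q0 : ℝ) ^ 4 ≤ (2 * Y) ^ 4 := pow_le_pow_left₀ h5.le h2 4
      have h9 : (2 * Y) ^ 4 = 16 * Y ^ 4 := by ring
      linarith
    have hY1 : 1 ≤ Y := by
      by_contra hcon
      push Not at hcon
      have h1 : Y ^ 4 ≤ 1 := pow_le_one₀ hY hcon.le
      have h2 : (1:ℝ) ^ 3 * v ^ 512 ≤ X ^ 3 * v ^ 512 := by gcongr
      have h3 : v ≤ v ^ 512 := le_self_pow₀ hv1 (by norm_num)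
      linarith
    have hY0 : 0 < Y := by linarith
    obtain ⟨K, R, hK1, hKR, hRN, hK2, hK3, hK4, hRK, hRK2⟩ := HBM_params X Y v hv hY0 hYX hXY
    have hK1' : (1:ℝ) ≤ K := by exact_mod_cast hK1
    have hK0 : (0:ℝ) < K := by linarith
    have hR1 : 1 ≤ R := hK1.trans hKR
    have hR1' : (1:ℝ) ≤ R := by exact_mod_cast hR1
    have hN1 : 1 ≤ ⌊X⌋₊ := hR1.trans hRN
    have hN1' : (1:ℝ) ≤ ((⌊X⌋₊ : ℕ) : ℝ) := by exact_mod_cast hN1
    have hNX : ((⌊X⌋₊ : ℕ) : ℝ) ≤ X := Nat.floor_le hX0.le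
    have hRX : (R:ℝ) ≤ ((⌊X⌋₊ : ℕ) : ℝ) := by exact_mod_cast hRN
    obtain ⟨L, hL⟩ : ∃ L, L = 1 + Real.log (2 * X) := ⟨_, rfl⟩
    rw [← hL] at hL1 hLs
    have hlog2X : 0 ≤ Real.log (2 * X) := Real.log_nonneg (by linarith)
    have hL0 : 1 ≤ L := by linarith
    have hLpow : ∀ k : ℕ, k ≤ 8 → L ^ k ≤ L ^ 8 := fun k hk => pow_le_pow_right₀ hL0 hk
    have hlogN1 : 1 + Real.log ((⌊X⌋₊ : ℕ) : ℝ) ≤ L := by
      have := Real.log_le_log (by linarith) (by linarith : ((⌊X⌋₊ : ℕ) : ℝ) ≤ 2 * X); linarith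
    have hlogN0 : 0 ≤ Real.log ((⌊X⌋₊ : ℕ) : ℝ) := Real.log_nonneg hN1'
    have hlogR1 : 1 + Real.log (R:ℝ) ≤ L := by
      have := Real.log_le_log (by linarith) (by linarith : (R:ℝ) ≤ 2 * X); linarith
    have hlogR0 : 0 ≤ Real.log (R:ℝ) := Real.log_nonneg hR1'
    -- the sup bound
    have hb : ∀ α : ℝ, ‖∑ n ∈ Icc 1 ⌊X⌋₊, ((bb K R n : ℝ) : ℂ) * e (n * α)‖ ≤ X * v / K := by
      intro α
      refine (hsup ⌊X⌋₊ K R hK1 hKR hRN α).trans ?_
      have h1 : (((⌊X⌋₊ : ℕ) : ℝ)) / K + R ≤ 2 * (X / K) := by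
        have h2 : (((⌊X⌋₊ : ℕ) : ℝ)) / K ≤ X / K := by gcongr
        have h3 : (R:ℝ) ≤ X / K := by
          rw [le_div_iff₀ hK0]
          have h4 : (R:ℝ) * K * 1 ≤ R * K * v ^ 32 :=
            mul_le_mul_of_nonneg_left (one_le_pow₀ hv1) (by positivity)
          linarith
        linarith
      have h5 : 2 * Cs * (1 + Real.log ((⌊X⌋₊ : ℕ) : ℝ)) ^ 5 ≤ v := by
        refine le_trans ?_ hLs
        apply mul_le_mul_of_nonneg_left _ (by positivity)
        exact (pow_le_pow_left₀ (by linarith) hlogN1 5).trans (hLpow 5 (by norm_num))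
      have h6 : 0 ≤ (1 + Real.log ((⌊X⌋₊ : ℕ) : ℝ)) ^ 5 := by positivity
      calc Cs * ((((⌊X⌋₊ : ℕ) : ℝ)) / K + R) * (1 + Real.log ((⌊X⌋₊ : ℕ) : ℝ)) ^ 5
          ≤ Cs * (2 * (X / K)) * (1 + Real.log ((⌊X⌋₊ : ℕ) : ℝ)) ^ 5 := by gcongr
        _ = X / K * (2 * Cs * (1 + Real.log ((⌊X⌋₊ : ℕ) : ℝ)) ^ 5) := by ring
        _ ≤ X / K * v := mul_le_mul_of_nonneg_left h5 (by positivity)
        _ = X * v / K := by ring
    -- pointwise bound of bb
    have hB : ∀ n ∈ Icc 1 ⌊X⌋₊, |bb K R n| ≤ v ^ 2 := by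
      intro n hn
      rw [mem_Icc] at hn
      have hnX : (n:ℝ) ≤ 2 * X := by
        have : (n:ℝ) ≤ ((⌊X⌋₊ : ℕ) : ℝ) := by exact_mod_cast hn.2
        linarith
      refine (FG61.bb_le K R n hR1 hn.1).trans ?_
      have h1 : (1 + Real.log (R:ℝ)) ^ 3 ≤ v := by
        have h2 := (pow_le_pow_left₀ (by linarith) hlogR1 3).trans (hLpow 3 (by norm_num))
        have : 0 ≤ L ^ 8 := by positivity
        linarith
      calc (n.divisors.card : ℝ) * (1 + Real.log (R:ℝ)) ^ 3 ≤ v * v :=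
            mul_le_mul (htau n hn.1 hnX) h1 (by positivity) hv0.le
        _ = v ^ 2 := by ring
    have hF1 : ∑ n ∈ Icc 1 ⌊X⌋₊, bb K R n ^ 2 ≤ X * v ^ 4 := by
      have h1 : ∀ n ∈ Icc 1 ⌊X⌋₊, bb K R n ^ 2 ≤ v ^ 4 := by
        intro n hn
        rw [← sq_abs]
        calc |bb K R n| ^ 2 ≤ (v ^ 2) ^ 2 := pow_le_pow_left₀ (abs_nonneg _) (hB n hn) 2
          _ = v ^ 4 := by ring
      have h2 := Finset.sum_le_card_nsmul _ _ _ h1
      rw [nsmul_eq_mul, Nat.card_Icc, Nat.add_sub_cancel] at h2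
      exact h2.trans (mul_le_mul_of_nonneg_right hNX (by positivity))
    have hF2 : ∑ n ∈ Icc 1 ⌊X⌋₊, FG61.Lam n ^ 2 ≤ X * v ^ 4 := by
      have h1 : ∀ n ∈ Icc 1 ⌊X⌋₊, FG61.Lam n ^ 2 ≤ v ^ 4 := by
        intro n hn
        rw [mem_Icc] at hn
        have h3 : FG61.Lam n ≤ Real.log n := ArithmeticFunction.vonMangoldt_le_log
        have hn1 : (1:ℝ) ≤ n := by exact_mod_cast hn.1
        have hnN : (n:ℝ) ≤ ((⌊X⌋₊ : ℕ) : ℝ) := by exact_mod_cast hn.2
        have h4 : Real.log n ≤ Real.log ((⌊X⌋₊ : ℕ) : ℝ) := Real.log_le_log (by linarith) hnN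
        have h5 : FG61.Lam n ≤ v := by
          have h7 := hLpow 1 (by norm_num)
          rw [pow_one] at h7
          have : 0 ≤ L ^ 8 := by positivity
          linarith
        calc FG61.Lam n ^ 2 ≤ v ^ 2 :=
              pow_le_pow_left₀ ArithmeticFunction.vonMangoldt_nonneg h5 2
          _ ≤ v ^ 4 := pow_le_pow_right₀ hv1 (by norm_num)
      have h2 := Finset.sum_le_card_nsmul _ _ _ h1
      rw [nsmul_eq_mul, Nat.card_Icc, Nat.add_sub_cancel] at h2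
      exact h2.trans (mul_le_mul_of_nonneg_right hNX (by positivity))
    have hT : ∀ h ∈ Icc 1 ⌊X⌋₊, (h.divisors.card : ℝ) ≤ v := by
      intro h hh
      rw [mem_Icc] at hh
      refine htau h hh.1 ?_
      have : (h:ℝ) ≤ ((⌊X⌋₊ : ℕ) : ℝ) := by exact_mod_cast hh.2
      linarith
    have hK2' : X / Y * Real.sqrt v * v ^ 32 ≤ K := by
      refine le_trans ?_ hK2
      have hXY1 : 1 ≤ X / Y := by rw [le_div_iff₀ hY0]; linarith
      have hsv : Real.sqrt v ≤ v := by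
        rw [Real.sqrt_le_left hv0.le]
        nlinarith
      calc X / Y * Real.sqrt v * v ^ 32 ≤ (X / Y) * v * v ^ 32 := by gcongr
        _ = (X / Y) * v ^ 33 := by ring
        _ ≤ (X / Y) ^ 2 * v ^ 64 := by
            apply mul_le_mul (le_self_pow₀ hXY1 (by norm_num))
              (pow_le_pow_right₀ hv1 (by norm_num)) (by positivity) (by positivity)
    have hbad1 := FG61.bad_card X Y v v K hv hY1 hYX hv1 hK2' FG61.Lam (bb K R) hT hb hF2
    have hbad2 := FG61.bad_card X Y v v K hv hY1 hYX hv1 hK2' (bb K R) (bb K R) hT hb hF1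
    have hsub : S ⊆ (Ioc ⌊Y⌋₊ ⌊2 * Y⌋₊).filter
          (fun Q => X / v < |off ⌊X⌋₊ Q FG61.Lam (bb K R)|)
        ∪ (Ioc ⌊Y⌋₊ ⌊2 * Y⌋₊).filter (fun Q => X / v < |off ⌊X⌋₊ Q (bb K R) (bb K R)|) := by
      intro Q hQ
      rw [hS, mem_filter] at hQ
      rw [mem_union, mem_filter, mem_filter]
      by_contra hcon
      push Not at hcon
      have hc1 := hcon.1 hQ.1
      have hc2 := hcon.2 hQ.1
      have hQI := mem_Ioc.1 hQ.1
      have hQ1 : Y < Q := by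
        have h1 : Y < ⌊Y⌋₊ + 1 := Nat.lt_floor_add_one _
        have h2 : ((⌊Y⌋₊ : ℕ) : ℝ) + 1 ≤ Q := by exact_mod_cast hQI.1
        linarith
      have hQ2 : (Q : ℝ) ≤ 2 * Y := (Nat.le_floor_iff (by linarith)).1 hQI.2
      have := HBM_good ε X Y v C K R hε hC hv hvX hY1 hYX hXY hK1 hKR hRN hK2 hK3 hK4 hRK hRK2
        (by rw [← hL]; exact hL1) hL3 htau hb hB (hc K R hK1 hKR hRN) hfin hlv hlX Q hQ1 hQ2
        hQ.2.1 hc1 hc2
      linarith [hQ.2.2]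
    calc (S.card : ℝ) ≤ (((Ioc ⌊Y⌋₊ ⌊2 * Y⌋₊).filter
          (fun Q => X / v < |off ⌊X⌋₊ Q FG61.Lam (bb K R)|)
        ∪ (Ioc ⌊Y⌋₊ ⌊2 * Y⌋₊).filter
          (fun Q => X / v < |off ⌊X⌋₊ Q (bb K R) (bb K R)|)).card : ℝ) := by
          exact_mod_cast Finset.card_le_card hsub
      _ ≤ (((Ioc ⌊Y⌋₊ ⌊2 * Y⌋₊).filter
            (fun Q => X / v < |off ⌊X⌋₊ Q FG61.Lam (bb K R)|)).card : ℝ)
        + (((Ioc ⌊Y⌋₊ ⌊2 * Y⌋₊).filter
            (fun Q => X / v < |off ⌊X⌋₊ Q (bb K R) (bb K R)|)).card : ℝ) := by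
          exact_mod_cast Finset.card_union_le _ _
      _ ≤ Y / (2 * v) + Y / (2 * v) := add_le_add hbad1 hbad2
      _ = Y / v := by field_simp; ring
  obtain ⟨X₀, hX₀⟩ := eventually_atTop.1 hev
  exact ⟨X₀, hX₀⟩

/-- Stirling -/
lemma HBM_stirling (X : ℝ) (Y : ℕ) (hY : 1 ≤ Y) (hYX : (Y : ℝ) ≤ X) :
    ∑ Q ∈ Icc 1 Y, Real.log (X / Q) ≤ Y * Real.log (X / Y) + Y := by
  have hY0 : (0 : ℝ) < Y := by exact_mod_cast hY
  have hX0 : 0 < X := by linarith
  have h1 : ∑ Q ∈ Icc 1 Y, Real.log (X / Q) = Y * Real.log X - Real.log (Y.factorial : ℝ) := by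
    have h2 : ∀ Q ∈ Icc 1 Y, Real.log (X / Q) = Real.log X - Real.log Q := by
      intro Q hQ
      rw [mem_Icc] at hQ
      have : (0 : ℝ) < Q := by exact_mod_cast hQ.1
      exact Real.log_div hX0.ne' this.ne'
    rw [Finset.sum_congr rfl h2, Finset.sum_sub_distrib, Finset.sum_const, Nat.card_Icc,
      Nat.add_sub_cancel, nsmul_eq_mul]
    congr 1
    have h3 : Y.factorial = ∏ x ∈ Icc 1 Y, x := by
      rw [← Finset.prod_Ico_id_eq_factorial]
      rfl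
    rw [h3, Nat.cast_prod, Real.log_prod]
    intro Q hQ
    rw [mem_Icc] at hQ
    have : (0 : ℝ) < Q := by exact_mod_cast hQ.1
    exact this.ne'
  have h3 : (Y : ℝ) * Real.log Y - Y ≤ Real.log (Y.factorial : ℝ) := by
    have h4 : ((Y : ℝ) ^ Y / Y.factorial) ≤ Real.exp Y := by
      exact Real.pow_div_factorial_le_exp (Y : ℝ) hY0.le Y
    have hf : (0 : ℝ) < Y.factorial := by exact_mod_cast Nat.factorial_pos Y
    have h5 := Real.log_le_log (by positivity) h4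
    rw [Real.log_exp, Real.log_div (by positivity) hf.ne', Real.log_pow] at h5
    linarith
  rw [h1, Real.log_div hX0.ne' hY0.ne']
  linarith

/-- HBM (uses dual_hh, lowp_le and the library Lib_helper61/FG) -/
theorem lower_hh_pr (ε : ℝ) (hε : 0 < ε) : ∃ X₀ : ℝ, ∀ X : ℝ, X₀ ≤ X → ∀ Y : ℕ, 1 ≤ Y →
    (Y : ℝ) ≤ X →
    ∑ Q ∈ Icc 1 Y, max 0 (X * Real.log Q - HH X Q ((X / Q) * Real.log X ^ 8)) ≤
      (3 * Real.log (X / Y) + ε * Real.log X) * X * Y := by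
  obtain ⟨ε₁, hε₁0, hε₁1, hε₁ε⟩ : ∃ ε₁ : ℝ, 0 < ε₁ ∧ ε₁ ≤ 1 ∧ ε₁ ≤ ε / 2 :=
    ⟨min (ε / 2) 1, lt_min (by linarith) one_pos, min_le_right _ _, min_le_left _ _⟩
  obtain ⟨X₁, hX₁⟩ := HBM_block ε₁ hε₁0 hε₁1
  have ha : 0 < ε₁ / 512 := by positivity
  have hlogo : ∀ᶠ X : ℝ in atTop, 8 ≤ ε * Real.log X :=
    (Real.tendsto_log_atTop.const_mul_atTop hε).eventually_ge_atTop 8
  obtain ⟨X₂, hX₂⟩ := eventually_atTop.1 (hlogo.and (FG61.log8_le 1 _ ha))
  refine ⟨max (max X₁ X₂) 3, fun X hX Y hY hYX => ?_⟩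
  have hXa : X₁ ≤ X := (le_max_left _ _).trans ((le_max_left _ _).trans hX)
  have hXb : X₂ ≤ X := (le_max_right _ _).trans ((le_max_left _ _).trans hX)
  have hXc : 3 ≤ X := (le_max_right _ _).trans hX
  have hX0 : 0 < X := by linarith
  have hY0 : (0 : ℝ) < Y := by exact_mod_cast hY
  obtain ⟨hlog8, hlogv⟩ := hX₂ X hXb
  obtain ⟨v, hvdef⟩ : ∃ v, v = X ^ (ε₁ / 512) := ⟨_, rfl⟩
  rw [← hvdef] at hlogv
  have hlogX0 : 0 ≤ Real.log X := Real.log_nonneg (by linarith)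
  have hlogXv : Real.log X ≤ v := by
    have h1 : Real.log X ≤ 1 + Real.log (2 * X) := by
      have := Real.log_le_log hX0 (by linarith : X ≤ 2 * X)
      linarith
    have h2 : 1 ≤ 1 + Real.log (2 * X) := by
      have := Real.log_nonneg (by linarith : 1 ≤ 2 * X)
      linarith
    have h3 : 1 + Real.log (2 * X) ≤ (1 + Real.log (2 * X)) ^ 8 := le_self_pow₀ h2 (by norm_num)
    linarith
  have hv0 : 0 < v := by
    rw [hvdef]
    exact Real.rpow_pos_of_pos hX0 _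
  classical
  let P : ℕ → Prop := fun Q => Q ≤ ⌊X⌋₊ ∧ HH X Q ((X / Q) * Real.log X ^ 8) <
      X * (4 * Real.log Q - 3 * Real.log X - ε₁ * Real.log X)
  have hcum : (((Icc 1 Y).filter P).card : ℝ) ≤ Y / v := by
    obtain ⟨k, hk⟩ := pow_unbounded_of_one_lt (Y : ℝ) (by norm_num : (1:ℝ) < 2)
    have h := FG61.cum_of_dyadic P X v hv0 (fun Z hZ hZX => by
      rw [hvdef]
      convert hX₁ X hXa Z hZ hZX) k Y hY0.le (by linarith) hk
    rwa [Nat.floor_natCast] at h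
  have hterm : ∀ Q ∈ Icc 1 Y, max 0 (X * Real.log Q - HH X Q ((X / Q) * Real.log X ^ 8)) ≤
      X * (3 * Real.log (X / Q) + ε₁ * Real.log X) + (if P Q then X * Real.log X else 0) := by
    intro Q hQ
    rw [mem_Icc] at hQ
    have hQ0 : (0 : ℝ) < Q := by exact_mod_cast hQ.1
    have hQY : (Q : ℝ) ≤ Y := by exact_mod_cast hQ.2
    have hQX : (Q : ℝ) ≤ X := hQY.trans hYX
    have hlogQ : Real.log Q ≤ Real.log X := Real.log_le_log hQ0 hQX
    have hlogXQ : Real.log (X / Q) = Real.log X - Real.log Q := Real.log_div hX0.ne' hQ0.ne'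
    have h1 : 0 ≤ X * (3 * Real.log (X / Q) + ε₁ * Real.log X) := by
      apply mul_nonneg hX0.le
      have : 0 ≤ ε₁ * Real.log X := by positivity
      rw [hlogXQ]
      linarith
    have hHH := HBM_hh_nonneg X Q ((X / Q) * Real.log X ^ 8)
    by_cases hP : P Q
    · rw [if_pos hP]
      apply max_le
      · have : 0 ≤ X * Real.log X := by positivity
        linarith
      · have : X * Real.log Q ≤ X * Real.log X := mul_le_mul_of_nonneg_left hlogQ hX0.le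
        linarith
    · rw [if_neg hP, add_zero]
      apply max_le h1
      have h2 : X * (4 * Real.log Q - 3 * Real.log X - ε₁ * Real.log X) ≤
          HH X Q ((X / Q) * Real.log X ^ 8) := by
        by_contra hcon
        push Not at hcon
        exact hP ⟨Nat.le_floor hQX, hcon⟩
      rw [hlogXQ]
      linarith
  refine (Finset.sum_le_sum hterm).trans ?_
  rw [Finset.sum_add_distrib, ← Finset.mul_sum, Finset.sum_add_distrib, ← Finset.mul_sum,
    ← Finset.sum_filter, Finset.sum_const, Finset.sum_const, nsmul_eq_mul, nsmul_eq_mul,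
    Nat.card_Icc, Nat.add_sub_cancel]
  have hst := HBM_stirling X Y hY hYX
  have h1 : (((Icc 1 Y).filter P).card : ℝ) * (X * Real.log X) ≤ X * Y := by
    calc (((Icc 1 Y).filter P).card : ℝ) * (X * Real.log X) ≤ (Y / v) * (X * v) := by
          apply mul_le_mul hcum _ (by positivity) (by positivity)
          exact mul_le_mul_of_nonneg_left hlogXv hX0.le
      _ = X * Y := by field_simp
  have h2 : X * (3 * ∑ Q ∈ Icc 1 Y, Real.log (X / Q) + Y * (ε₁ * Real.log X)) ≤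
      X * (3 * (Y * Real.log (X / Y) + Y) + Y * (ε / 2 * Real.log X)) := by
    apply mul_le_mul_of_nonneg_left _ hX0.le
    have h3 : Y * (ε₁ * Real.log X) ≤ Y * (ε / 2 * Real.log X) := by gcongr
    linarith
  have h3 : X * (3 * (Y * Real.log (X / Y) + Y) + Y * (ε / 2 * Real.log X)) + X * Y =
      (3 * Real.log (X / Y) + ε / 2 * Real.log X + 4) * X * Y := by ring
  have h4 : (3 * Real.log (X / Y) + ε / 2 * Real.log X + 4) * X * Y ≤
      (3 * Real.log (X / Y) + ε * Real.log X) * X * Y := by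
    apply mul_le_mul_of_nonneg_right _ hY0.le
    apply mul_le_mul_of_nonneg_right _ hX0.le
    linarith
  linarith

alias lower_hh := lower_hh_pr

end Pool.Agent.HC
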