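import Pool.Agent.Lib_helper92.HCF.Base
import Pool.Agent.Lib_helper23.BG.Defs

set_option autoImplicit false

namespace Pool.Agent.HC

open Finset Complex Pool.Agent.Var35 Pool.Agent.Var73
open scoped ArithmeticFunction ArithmeticFunction.Moebius

lemma idn_cast_eq (Q : ℕ) [NeZero Q] (n a : ℕ) (ha : a < Q) :
    ((n : ZMod Q) = (a : ZMod Q)) ↔ n % Q = a := by
  rw [ZMod.natCast_eq_natCast_iff, Nat.ModEq, Nat.mod_eq_of_lt ha]

lemma idn_sum_range (Q : ℕ) [NeZero Q] (F : ZMod Q → ℝ) :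
    ∑ a ∈ (range Q).filter (fun a => Nat.Coprime a Q), F (a : ZMod Q) =
      ∑ a ∈ univ.filter (fun a : ZMod Q => IsUnit a), F a := by
  apply sum_bij' (i := fun (a : ℕ) _ => (a : ZMod Q)) (j := fun (a : ZMod Q) _ => a.val)
  · intro a ha
    rw [mem_filter] at ha
    rw [mem_filter]
    exact ⟨mem_univ _, (ZMod.isUnit_iff_coprime a Q).2 ha.2⟩
  · intro a ha
    rw [mem_filter] at ha
    rw [mem_filter, mem_range]
    refine ⟨ZMod.val_lt a, ?_⟩
    rw [← ZMod.isUnit_iff_coprime, ZMod.natCast_zmod_val]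
    exact ha.2
  · intro a ha
    rw [mem_filter, mem_range] at ha
    exact ZMod.val_cast_of_lt ha.1
  · intro a _
    exact ZMod.natCast_zmod_val a
  · intro a _
    rfl

open scoped Classical in
lemma idn_sum_char (Q : ℕ) [NeZero Q] (χ : DirichletCharacter ℂ Q) :
    ∑ a : ZMod Q, χ a = if χ = 1 then (Nat.totient Q : ℂ) else 0 := by
  split_ifs with h
  · rw [h, MulChar.sum_one_eq_card_units, ZMod.card_units_eq_totient]
  · exact MulChar.sum_eq_zero_of_ne_one h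

open scoped Classical in
lemma idn_inner (X : ℝ) (Q N : ℕ) [NeZero Q] (χ : DirichletCharacter ℂ Q) :
    ∑ a : ZMod Q, χ a * (∑ n ∈ (Icc 1 N).filter (fun n : ℕ => (n : ZMod Q) = a), (Lam n : ℂ) -
      (X : ℂ) / (Nat.totient Q : ℂ)) =
    ∑ n ∈ Icc 1 N, (Lam n : ℂ) * χ (n : ZMod Q) - (if χ = 1 then (X : ℂ) else 0) := by
  have hφ : (Nat.totient Q : ℂ) ≠ 0 := by
    exact_mod_cast (Nat.totient_pos.2 (NeZero.pos Q)).ne'
  have h1 : ∑ a : ZMod Q, χ a * ∑ n ∈ (Icc 1 N).filter (fun n : ℕ => (n : ZMod Q) = a), (Lam n : ℂ)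
      = ∑ n ∈ Icc 1 N, (Lam n : ℂ) * χ (n : ZMod Q) := by
    simp_rw [mul_sum, sum_filter]
    rw [sum_comm]
    apply sum_congr rfl
    intro n _
    rw [sum_ite_eq univ (n : ZMod Q), if_pos (mem_univ _), mul_comm]
  have h2 : ∑ a : ZMod Q, χ a * ((X : ℂ) / (Nat.totient Q : ℂ)) =
      if χ = 1 then (X : ℂ) else 0 := by
    rw [← sum_mul, idn_sum_char]
    split_ifs
    · field_simp
    · rw [zero_mul]
  simp_rw [mul_sub]
  rw [sum_sub_distrib, h1, h2]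

open scoped Classical in
lemma idn_total (X : ℝ) (Q : ℕ) [NeZero Q] :
    GX X Q = (1 / (Nat.totient Q : ℝ)) * ∑ χ : DirichletCharacter ℂ Q,
      ‖∑ n ∈ Icc 1 ⌊X⌋₊, (Lam n : ℂ) * χ (n : ZMod Q) - (if χ = 1 then (X : ℂ) else 0)‖ ^ 2 := by
  have hφ : (Nat.totient Q : ℝ) ≠ 0 := by
    exact_mod_cast (Nat.totient_pos.2 (NeZero.pos Q)).ne'
  have h := orthr (r := Q) (fun a => ∑ n ∈ (Icc 1 ⌊X⌋₊).filter (fun n : ℕ => (n : ZMod Q) = a),
    (Lam n : ℂ) - (X : ℂ) / (Nat.totient Q : ℂ))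
  simp_rw [idn_inner X Q ⌊X⌋₊] at h
  rw [h, ← mul_assoc, one_div_mul_cancel hφ, one_mul, ← idn_sum_range]
  unfold GX
  apply sum_congr rfl
  intro a ha
  rw [mem_filter, mem_range] at ha
  have h1 : (Icc 1 ⌊X⌋₊).filter (fun n : ℕ => (n : ZMod Q) = (a : ZMod Q)) =
      (Icc 1 ⌊X⌋₊).filter (fun n => n % Q = a) :=
    filter_congr fun n _ => idn_cast_eq Q n a ha.1
  rw [h1]
  have h2 : (∑ n ∈ (Icc 1 ⌊X⌋₊).filter (fun n => n % Q = a), (Lam n : ℂ) -
      (X : ℂ) / (Nat.totient Q : ℂ)) =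
      (((∑ n ∈ (Icc 1 ⌊X⌋₊).filter (fun n => n % Q = a), Λ n) - X / (Nat.totient Q : ℝ) : ℝ) : ℂ) := by
    push_cast
    rfl
  rw [h2, Complex.norm_real, Real.norm_eq_abs, sq_abs]

/-- IDN -/
theorem gx_ident_pr (X : ℝ) (Q : ℕ) (hQ : 1 ≤ Q) (D : ℝ) (hD : 1 ≤ D) :
    GX X Q - LX X Q D = HH X Q D := by
  classical
  have : NeZero Q := ⟨by omega⟩
  rw [idn_total]
  unfold LX HH
  rw [← mul_sub, ← sum_sub_distrib]
  congr 1
  apply sum_congr rfl
  intro χ _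
  by_cases h : (χ.conductor : ℝ) ≤ D
  · rw [if_pos h, if_neg (not_lt.2 h), sub_eq_zero]
    congr!
  · rw [if_neg h, if_pos (not_le.1 h), sub_zero]
    have hχ : χ ≠ 1 := by
      rintro rfl
      apply h
      rw [DirichletCharacter.conductor_one]
      simpa using hD
    rw [if_neg hχ, sub_zero]

alias gx_ident := gx_ident_pr

end Pool.Agent.HC
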