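import Pool.Agent.Lib_helper92.HCF.Base
import Pool.Agent.Lib_helper92.HCF.BaseB
import Pool.Agent.Lib_helper92.HCF.IDN
import Pool.Agent.Lib_helper92.HCF.HBM
import Pool.Agent.Lib_helper92.HCF.FIE

set_option autoImplicit false

namespace Pool.Agent.HC

open Finset Complex Filter Topology MeasureTheory Pool.Agent.Var35 Pool.Agent.Var73
open scoped ArithmeticFunction ArithmeticFunction.Moebius

lemma FIF_cq (Q : ℕ) : 0 ≤ CQ Q := by
  unfold CQ
  have h1 : 0 < Real.eulerMascheroniConstant := by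
    have := Real.one_half_lt_eulerMascheroniConstant
    linarith
  have h2 : 0 ≤ Real.log (2 * Real.pi) := Real.log_nonneg (by
    have := Real.pi_gt_three
    linarith)
  have h3 : 0 ≤ ∑ p ∈ Q.primeFactors, Real.log p / ((p : ℝ) - 1) := by
    apply Finset.sum_nonneg
    intro p hp
    have hp2 := (Nat.prime_of_mem_primeFactors hp).two_le
    have : (2 : ℝ) ≤ p := by exact_mod_cast hp2
    apply div_nonneg (Real.log_nonneg (by linarith)) (by linarith)
  linarith

theorem partAB (η : ℝ) (hη : 0 < η) : ∃ C : ℝ, ∀ (X : ℝ) (Y : ℕ), C ≤ X →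
    Real.sqrt X * Real.log X ^ 12 ≤ Y → C * Y ≤ X →
    (∑ Q ∈ Icc 1 Y, (HH X Q (X / Q * Real.log X ^ 8) - X * (Real.log Q - CQ Q)) ≤ η * X * Y) ∧
    (∑ Q ∈ Icc 1 Y, |HH X Q (X / Q * Real.log X ^ 8) - X * Real.log Q| ≤
      (6 * Real.log (X / Y) + η * Real.log X) * X * Y) := by
  obtain ⟨C, hC, h⟩ := partA (η / 2) (by linarith)
  obtain ⟨X0, hX0⟩ := lower_hh (η / 4) (by linarith)
  refine ⟨max C (max X0 3), fun X Y hX hY hCY => ?_⟩
  have hYn : (0 : ℝ) ≤ Y := Nat.cast_nonneg _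
  have hX3 : (3 : ℝ) ≤ X := le_trans (le_trans (le_max_right _ _) (le_max_right _ _)) hX
  have hXp : 0 < X := by linarith
  have hCY' : C * Y ≤ X := le_trans (mul_le_mul_of_nonneg_right (le_max_left _ _) hYn) hCY
  have hYX : (Y : ℝ) ≤ X := le_trans (le_mul_of_one_le_left hYn hC) hCY'
  have hA := h X Y (le_trans (le_max_left _ _) hX) hY hCY'
  have hlog : 1 ≤ Real.log X := by
    rw [Real.le_log_iff_exp_le hXp]
    linarith [Real.exp_one_lt_d9]
  have hY0 : (0 : ℝ) < Y := by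
    have h1 : 0 < Real.sqrt X := Real.sqrt_pos.mpr hXp
    have h2 : 0 < Real.log X ^ 12 := by positivity
    have := mul_pos h1 h2
    linarith
  have hY1 : 1 ≤ Y := by
    have : 0 < Y := by exact_mod_cast hY0
    omega
  have hB := hX0 X (le_trans (le_trans (le_max_left _ _) (le_max_right _ _)) hX) Y hY1 hYX
  have hA1 : ∑ Q ∈ Icc 1 Y, (HH X Q (X / Q * Real.log X ^ 8) - X * (Real.log Q - CQ Q)) ≤
      η / 2 * X * Y := by
    rw [Finset.sum_sub_distrib]
    have : ∑ Q ∈ Icc 1 Y, X * (Real.log Q - CQ Q) = ∑ Q ∈ Icc 1 Y, (X * Real.log Q - X * CQ Q) :=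
      Finset.sum_congr rfl fun q _ => by ring
    rw [this]
    linarith
  have hXY : 0 ≤ X * Y := by positivity
  refine ⟨hA1.trans ?_, ?_⟩
  · have : η / 2 * X * Y = (η / 2) * (X * Y) := by ring
    have h2 : η * X * Y = η * (X * Y) := by ring
    rw [this, h2]
    apply mul_le_mul_of_nonneg_right _ hXY
    linarith
  · have e1 : ∀ Q ∈ Icc 1 Y, |HH X Q (X / Q * Real.log X ^ 8) - X * Real.log Q| ≤
        (HH X Q (X / Q * Real.log X ^ 8) - X * (Real.log Q - CQ Q)) +
          2 * max 0 (X * Real.log Q - HH X Q (X / Q * Real.log X ^ 8)) := by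
      intro Q _
      have hc : 0 ≤ X * CQ Q := mul_nonneg hXp.le (FIF_cq Q)
      have h1 := le_max_left 0 (X * Real.log Q - HH X Q (X / Q * Real.log X ^ 8))
      have h2 := le_max_right 0 (X * Real.log Q - HH X Q (X / Q * Real.log X ^ 8))
      rw [abs_le]
      constructor
      · have : X * (Real.log Q - CQ Q) = X * Real.log Q - X * CQ Q := by ring
        rw [this]
        linarith
      · have : X * (Real.log Q - CQ Q) = X * Real.log Q - X * CQ Q := by ring
        rw [this]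
        linarith
    refine (Finset.sum_le_sum e1).trans ?_
    rw [Finset.sum_add_distrib, ← Finset.mul_sum]
    have h3 : η / 2 * X * Y ≤ η / 2 * Real.log X * (X * Y) := by
      calc η / 2 * X * Y = η / 2 * 1 * (X * Y) := by ring
        _ ≤ η / 2 * Real.log X * (X * Y) := by gcongr
    calc ∑ Q ∈ Icc 1 Y, (HH X Q (X / Q * Real.log X ^ 8) - X * (Real.log Q - CQ Q))
          + 2 * ∑ Q ∈ Icc 1 Y, max 0 (X * Real.log Q - HH X Q (X / Q * Real.log X ^ 8))
        ≤ η / 2 * Real.log X * (X * Y)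
          + 2 * ((3 * Real.log (X / Y) + η / 4 * Real.log X) * X * Y) := by linarith
      _ = (6 * Real.log (X / Y) + η * Real.log X) * X * Y := by ring

theorem fin (η : ℝ) (hη : 0 < η) : ∃ C : ℝ, ∀ (X : ℝ) (Y : ℕ), C ≤ X →
    Real.sqrt X * Real.log X ^ 12 ≤ Y → C * Y ≤ X →
    (∑ Q ∈ Icc 1 Y, (GX X Q - LX X Q (X / Q * Real.log X ^ 8) - X * (Real.log Q - CQ Q))
      ≤ η * X * Y) ∧
    (∑ Q ∈ Icc 1 Y, |GX X Q - LX X Q (X / Q * Real.log X ^ 8) - X * Real.log Q| ≤
      (6 * Real.log (X / Y) + η * Real.log X) * X * Y) := by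
  obtain ⟨C, h⟩ := partAB η hη
  refine ⟨max C (max 3 1), fun X Y hX hY hCY => ?_⟩
  have hYn : (0 : ℝ) ≤ Y := Nat.cast_nonneg _
  have hX3 : (3 : ℝ) ≤ X := le_trans (le_trans (le_max_left _ _) (le_max_right _ _)) hX
  have hXp : 0 < X := by linarith
  have hCY' : C * Y ≤ X := le_trans (mul_le_mul_of_nonneg_right (le_max_left _ _) hYn) hCY
  have hYX : (Y : ℝ) ≤ X := by
    refine le_trans (le_mul_of_one_le_left hYn ?_) hCY
    exact le_trans (le_max_right _ _) (le_max_right _ _)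
  have hlog : 1 ≤ Real.log X := by
    rw [Real.le_log_iff_exp_le hXp]
    linarith [Real.exp_one_lt_d9]
  have h1 := h X Y (le_trans (le_max_left _ _) hX) hY hCY'
  have key : ∀ Q ∈ Icc 1 Y, GX X Q - LX X Q (X / Q * Real.log X ^ 8) =
      HH X Q (X / Q * Real.log X ^ 8) := by
    intro Q hQ
    rw [mem_Icc] at hQ
    apply gx_ident X Q hQ.1
    have hQ0 : (0 : ℝ) < Q := by exact_mod_cast hQ.1
    have hQY : (Q : ℝ) ≤ Y := by exact_mod_cast hQ.2
    have h2 : 1 ≤ X / Q := by rw [le_div_iff₀ hQ0]; linarith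
    have h3 : 1 ≤ Real.log X ^ 8 := one_le_pow₀ hlog
    nlinarith
  constructor
  · refine le_trans (le_of_eq ?_) h1.1
    exact Finset.sum_congr rfl fun Q hQ => by rw [key Q hQ]
  · refine le_trans (le_of_eq ?_) h1.2
    exact Finset.sum_congr rfl fun Q hQ => by rw [key Q hQ]

end Pool.Agent.HC
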