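import Pool.Agent.Lib_helper73.Var.LS

/-! HC : variance of primes in progressions, the characters of large conductor. Definitions. -/

set_option autoImplicit false

namespace Pool.Agent.HC

open Finset Complex Pool.Agent.Var35 Pool.Agent.Var73
open scoped ArithmeticFunction ArithmeticFunction.Moebius

/-- exponential sum with real coefficients -/
noncomputable def S (a : ℕ → ℝ) (N : ℕ) (t : ℝ) : ℂ := ∑ n ∈ Icc 1 N, (a n : ℂ) * e (n * t)

/-- its square modulus -/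
noncomputable def Sq (a : ℕ → ℝ) (N : ℕ) (t : ℝ) : ℝ := ‖S a N t‖ ^ 2

/-- the sum of the squares of the coefficients -/
noncomputable def A2 (a : ℕ → ℝ) (N : ℕ) : ℝ := ∑ n ∈ Icc 1 N, a n ^ 2

/-- the von Mangoldt function -/
noncomputable abbrev Lam (n : ℕ) : ℝ := Λ n

/-- Chebyshev's function -/
noncomputable def psi (x : ℝ) : ℝ := ∑ n ∈ Icc 1 ⌊x⌋₊, Lam n

/-- the denominator of `l / Q` -/
def den (l : ℤ) (Q : ℕ) : ℕ := Q / Int.gcd l Q

/-- number of fractions `l / Q` of denominator `> R` within `δ / 2` of `t` (for `t` in `[0,1]`) -/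
noncomputable def cnt (R Q : ℕ) (δ t : ℝ) : ℝ :=
  ∑ l ∈ Icc (-(Q : ℤ)) (2 * Q), if R < den l Q ∧ |(l : ℝ) / Q - t| ≤ δ / 2 then (1 : ℝ) else 0

/-- the mass of the fractions `l / Q`, `Z < Q ≤ Y`, of denominator `> R`, in
`[t - δ/2, t + δ/2]`; the fraction `l / Q` has weight `1 / Q` -/
noncomputable def W (Z Y R : ℕ) (δ t : ℝ) : ℝ := ∑ Q ∈ Ioc Z Y, cnt R Q δ t / Q

/-- the sum of the values of `Sq` over these fractions -/
noncomputable def Big (a : ℕ → ℝ) (N Z Y R : ℕ) : ℝ :=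
  ∑ Q ∈ Ioc Z Y, (1 / (Q : ℝ)) * ∑ l ∈ (range Q).filter (fun l : ℕ => R < den l Q), Sq a N (l / Q)

/-- `Ψ(M) = ∑_{m ≤ M} log (M / m)` -/
noncomputable def Psi (M : ℝ) : ℝ := ∑ m ∈ Icc 1 ⌊M⌋₊, Real.log (M / m)

/-- the distribution function of the density near a fraction of denominator `q` -/
noncomputable def Fq (Y : ℝ) (q : ℕ) (β : ℝ) : ℝ :=
  if 0 ≤ β then Psi (q * Y * β) / q else - (Psi (q * Y * (-β)) / q)

/-- the density near a fraction of denominator `q` -/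
noncomputable def rho (Y : ℝ) (q : ℕ) (β : ℝ) : ℝ := (⌊q * Y * |β|⌋₊ : ℝ) / (q * |β|)

/-- the missing mass in an interval of length `δ` around `β` -/
noncomputable def Kq (Y : ℝ) (q : ℕ) (δ β : ℝ) : ℝ :=
  Y * δ - (Fq Y q (β + δ / 2) - Fq Y q (β - δ / 2))

/-- `∫_0^X e(tβ) dt` -/
noncomputable def Ic (X β : ℝ) : ℂ := ∫ t in (0 : ℝ)..X, e (t * β)

/-- the Fejer kernel on the line -/
noncomputable def sc (u : ℝ) : ℝ := (Real.sin (Real.pi * u) / (Real.pi * u)) ^ 2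

/-- `1 - ⌊v⌋ / v` -/
noncomputable def kk (v : ℝ) : ℝ := 1 - (⌊v⌋₊ : ℝ) / v

/-- the function `μ² / φ` -/
noncomputable def mp (q : ℕ) : ℝ := if Squarefree q then 1 / (Nat.totient q : ℝ) else 0

/-- the multiplicative function with `q μ²(q)/φ(q) = ∑_{d ∣ q} w(d)`:
`w(p) = 1/(p-1)`, `w(p²) = -p/(p-1)`, `w(p^k) = 0` for `k ≥ 3` -/
noncomputable def ww (d : ℕ) : ℝ :=
  ∏ p ∈ d.primeFactors, if d.factorization p = 1 then 1 / ((p : ℝ) - 1)
    else if d.factorization p = 2 then - (p : ℝ) / (p - 1) else 0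

/-- `∑_{q ≤ J x} μ²(q)/φ(q) (1 - ⌊q/x⌋ / (q/x))` -/
noncomputable def TT (J : ℕ) (x : ℝ) : ℝ := ∑ q ∈ Icc 1 ⌊J * x⌋₊, mp q * kk (q / x)

/-- `γ + ∑_p log p / (p (p - 1))` -/
noncomputable def c1 : ℝ :=
  Real.eulerMascheroniConstant + ∑' p : Nat.Primes, Real.log (p : ℕ) / ((p : ℕ) * ((p : ℕ) - 1) : ℝ)

/-- the part of the variance carried by the characters of conductor `> D` -/
noncomputable def HH (X : ℝ) (Q : ℕ) (D : ℝ) : ℝ :=
  (1 / (Nat.totient Q : ℝ)) * ∑ χ : DirichletCharacter ℂ Q,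
    if D < (χ.conductor : ℝ) then ‖∑ n ∈ Icc 1 ⌊X⌋₊, (Lam n : ℂ) * χ (n : ZMod Q)‖ ^ 2 else 0

/-- the variance -/
noncomputable def GX (X : ℝ) (Q : ℕ) : ℝ :=
  ∑ a ∈ (range Q).filter (fun a => Nat.Coprime a Q),
    ((∑ n ∈ (Icc 1 ⌊X⌋₊).filter (fun n => n % Q = a), Λ n) - X / (Nat.totient Q : ℝ)) ^ 2

open scoped Classical in
/-- the part of the variance carried by the characters of conductor `≤ D` -/
noncomputable def LX (X : ℝ) (Q : ℕ) (D : ℝ) : ℝ :=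
  (1 / (Nat.totient Q : ℝ)) * ∑ χ : DirichletCharacter ℂ Q,
    if (χ.conductor : ℝ) ≤ D then
      ‖∑ n ∈ Icc 1 ⌊X⌋₊, (Lam n : ℂ) * χ (n : ZMod Q) - (if χ = 1 then (X : ℂ) else 0)‖ ^ 2 else 0

/-- the second order term -/
noncomputable def CQ (Q : ℕ) : ℝ :=
  Real.eulerMascheroniConstant + Real.log (2 * Real.pi) + ∑ p ∈ Q.primeFactors, Real.log p / ((p : ℝ) - 1)

end Pool.Agent.HC
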